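import Pool.Agent.CSLBT.Star

set_option linter.unusedSectionVars false
set_option linter.unusedVariables false

namespace Pool.Agent.CSLBT

open Filter Matrix

section bstar

variable {V : Type*} [Fintype V] [DecidableEq V] {d : ℕ} {φ : V → V}

/-- a vertex with few neighbours forces its antipode to be present -/
lemma bstar (hφ : Function.Involutive φ) (hφ' : ∀ x, φ x ≠ x) (hd3 : 3 ≤ d)
    {G : V → V → Prop} (hG : GG φ G) {f : Fld V d} (hf : Good φ f) (hI : Indep φ f G)
    {S : Ch V} (hS : MinCyc d S) (hSG : ∀ x y, Adj S x y → G x y) {v : V} (hv : v ∈ vert S)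
    {N : Finset V} (hN : ∀ x ∈ N, φ x ∈ N) (hNc : N.card < 2 * d) (hvN : v ∉ N)
    (hFN : ∀ F ∈ S.support, v ∈ F → F.erase v ⊆ N) : φ v ∈ vert S := by
  by_contra hvS
  have hbS := hS.cyc.1
  have hd := hS.cyc.2
  have hno : ∀ F ∈ S.support, NoAnti φ F := by
    intro F hF x hx hx'
    exact hG.anti x (φ x) (hSG x (φ x) ⟨(hφ' x).symm, F, hF, hx, hx'⟩) rfl
  have hvN' : φ v ∉ N := fun h => hvN (by have := hN _ h; rwa [hφ] at this)
  obtain ⟨F0, hF0, hvF0⟩ := mem_vert.mp hv
  have hF0c := hd F0 hF0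
  obtain ⟨r, hr⟩ : (F0.erase v).Nonempty := Finset.card_pos.mp (by
    rw [Finset.card_erase_of_mem hvF0, hF0c]; omega)
  have hr' := Finset.mem_erase.mp hr
  have hrN : r ∈ N := hFN F0 hF0 hvF0 hr
  have hφrN : φ r ∈ N := hN r hrN
  have hrv : r ≠ v := hr'.1
  have hφrv : φ r ≠ v := fun h => hvN (h ▸ hφrN)
  -- the facet with r exchanged for φ r
  have hF1 := flipN (d := d) hφ hφ' hbS hd hno hN hNc hFN hF0 hvF0 hr
  set F1 := insert (φ r) (F0.erase r) with hF1def
  have hvF1 : v ∈ F1 := Finset.mem_insert_of_mem (Finset.mem_erase.mpr ⟨hrv.symm, hvF0⟩)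
  have hφrF1 : φ r ∈ F1 := Finset.mem_insert_self _ _
  have hrF1 : r ∉ F1 := by
    rw [hF1def, Finset.mem_insert]
    rintro (h | h)
    · exact hφ' r h.symm
    · simp at h
  set ρ0 := F1.erase v with hρ0def
  have hρ0N : ρ0 ⊆ N := hFN F1 hF1 hvF1
  have hρ0c : ρ0.card + 1 = d := by
    rw [hρ0def, Finset.card_erase_of_mem hvF1, hd F1 hF1]; omega
  have hρ0n : NoAnti φ ρ0 := fun x hx hx' =>
    hno F1 hF1 x (Finset.mem_of_mem_erase hx) (Finset.mem_of_mem_erase hx')
  have hφrρ0 : φ r ∈ ρ0 := Finset.mem_erase.mpr ⟨hφrv, hφrF1⟩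
  have hrρ0 : r ∉ ρ0 := fun h => hrF1 (Finset.mem_of_mem_erase h)
  -- the contracted cycle
  set S2 := con v r S with hS2def
  have hS2b : bd S2 = 0 := by rw [hS2def, con_bd v r hrv, hbS, map_zero]
  have hS2 : ∀ F' ∈ S2.support, (F' ∈ S.support ∧ v ∉ F') ∨
      ∃ F ∈ S.support, v ∈ F ∧ r ∉ F ∧ F' = insert r (F.erase v) := by
    intro F' hF'
    obtain ⟨F, hF, hF2⟩ := exists_of_mem_supp hF'
    rw [con_sg] at hF2
    by_cases h1 : v ∈ F
    · rw [if_pos h1] at hF2
      by_cases h2 : r ∈ F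
      · rw [if_pos h2] at hF2
        simp at hF2
      · rw [if_neg h2, mem_supp_sg] at hF2
        right
        exact ⟨F, hF, h1, h2, hF2⟩
    · rw [if_neg h1, mem_supp_sg] at hF2
      left
      rw [hF2]
      exact ⟨hF, h1⟩
  have hS2c : IsCyc d S2 := by
    refine ⟨hS2b, ?_⟩
    intro F' hF'
    rcases hS2 F' hF' with h | ⟨F, hF, h1, h2, rfl⟩
    · exact hd F' h.1
    · rw [(card_insert_erase h1 hrv).mpr h2, hd F hF]
  set F2 := insert r ρ0 with hF2def
  have hF2 : F2 ∈ S2.support := by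
    rw [mem_supp, hS2def, lin_apply, Finset.sum_eq_single F1]
    · rw [con_sg, if_pos hvF1, if_neg hrF1, ← hρ0def, ← hF2def, sg_apply, if_pos rfl]
    · intro F hF hne
      rw [con_sg]
      by_cases h1 : v ∈ F
      · rw [if_pos h1]
        by_cases h2 : r ∈ F
        · rw [if_pos h2]; rfl
        · rw [if_neg h2, sg_apply, if_neg]
          intro h
          apply hne
          have e1 : F.erase v = ρ0 := by
            have : (insert r (F.erase v)).erase r = F2.erase r := by rw [h]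
            rwa [Finset.erase_insert (fun h => h2 (Finset.mem_of_mem_erase h)), hF2def,
              Finset.erase_insert hrρ0] at this
          rw [← Finset.insert_erase h1, e1, hρ0def, Finset.insert_erase hvF1]
      · rw [if_neg h1, sg_apply, if_neg]
        rintro rfl
        exact hno _ hF r (Finset.mem_insert_self _ _) (Finset.mem_insert_of_mem hφrρ0)
    · exact fun h => absurd hF1 h
  obtain ⟨S3, hS3, hS3s, hF2S3⟩ := exists_min hS2c hF2
  have hS3a : AntiAt φ r S3 := by
    intro F' hF' x hx hx'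
    rcases hS2 F' (hS3s hF') with h | ⟨F, hF, h1, h2, rfl⟩
    · exact absurd hx' (hno F' h.1 x hx)
    · rw [Finset.mem_insert, Finset.mem_erase] at hx hx'
      rcases hx with hx | hx
      · left; exact hx
      · rcases hx' with hx' | hx'
        · right; rw [← hx', hφ]
        · exact absurd hx'.2 (hno F hF x hx.2)
  -- vertices of S3
  have hcov : ∀ x ∈ N, x ∈ ρ0 ∨ φ x ∈ ρ0 := by
    intro x hx
    by_contra hcon
    push Not at hcon
    have h10 : NoAnti φ (insert x ρ0) := by
      intro y hy hy'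
      rw [Finset.mem_insert] at hy hy'
      rcases hy with rfl | hy
      · rcases hy' with h | h
        · exact hφ' _ h
        · exact hcon.2 h
      · rcases hy' with h | h
        · exact hcon.2 (by rw [← h, hφ]; exact hy)
        · exact hρ0n y hy h
    have h11 := noAnti_card (X := N) hφ h10 (by
      intro y hy
      rw [Finset.mem_insert] at hy
      rcases hy with rfl | hy
      · exact hx
      · exact hρ0N hy) (by
      intro y hy
      rw [Finset.mem_insert] at hy
      rcases hy with rfl | hy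
      · exact hN _ hx
      · exact hN _ (hρ0N hy))
    rw [Finset.card_insert_of_notMem hcon.1] at h11
    omega
  have hrF2 : r ∈ F2 := Finset.mem_insert_self _ _
  have hφrF2 : φ r ∈ F2 := Finset.mem_insert_of_mem hφrρ0
  have hρF2 : ∀ x ∈ ρ0, x ∈ F2 := fun x hx => Finset.mem_insert_of_mem hx
  have hvF2 : v ∉ F2 := by
    rw [hF2def, Finset.mem_insert]
    rintro (h | h)
    · exact hrv h.symm
    · exact hvN (hρ0N h)
  have hNS3 : ∀ x ∈ N, x ∈ vert S3 := by
    intro x hx
    rcases hcov x hx with h | h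
    · exact subset_vert hF2S3 (hρF2 x h)
    by_cases hxr : x = r
    · rw [hxr]; exact subset_vert hF2S3 hrF2
    -- cross at φ x
    obtain ⟨z, hz, hF'⟩ := exists_cross hS3.cyc.1 hF2S3 (hρF2 _ h)
    set F' := insert z (F2.erase (φ x)) with hF'def
    have hxr' : φ x ≠ r := fun h' => hrρ0 (h' ▸ h)
    have hrF' : r ∈ F' := Finset.mem_insert_of_mem (Finset.mem_erase.mpr ⟨hxr'.symm, hrF2⟩)
    have hφrF' : φ r ∈ F' := Finset.mem_insert_of_mem (Finset.mem_erase.mpr
      ⟨fun h' => hxr (hφ.injective h').symm, hφrF2⟩)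
    rcases hS2 F' (hS3s hF') with h1 | ⟨F, hF, h1, h2, h3⟩
    · exact absurd hφrF' (hno F' h1.1 r hrF')
    have hzr : z ≠ r := fun h' => hz (h' ▸ hrF2)
    have hzF : z ∈ F.erase v := by
      have : z ∈ F' := Finset.mem_insert_self _ _
      rw [h3, Finset.mem_insert] at this
      rcases this with h' | h'
      · exact absurd h' hzr
      · exact h'
    have hzN : z ∈ N := hFN F hF h1 hzF
    have hzρ : z ∉ ρ0 := fun h' => hz (hρF2 z h')
    have hφz : φ z ∈ ρ0 := (hcov z hzN).resolve_left hzρ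
    have hzx : z = x := by
      by_contra hne
      have h4 : φ z ∈ F' := Finset.mem_insert_of_mem (Finset.mem_erase.mpr
        ⟨fun h' => hne (hφ.injective h'), hρF2 _ hφz⟩)
      rcases hS3a F' hF' z (Finset.mem_insert_self _ _) h4 with h5 | h5
      · exact hzr h5
      · exact hzρ (h5 ▸ hφrρ0)
    rw [← hzx]
    exact subset_vert hF' (Finset.mem_insert_self _ _)
  -- S3 is rigid
  have hpr : 2 * d ≤ (pr φ (vert S3)).card + 2 := by
    have h1 : ρ0 ⊆ N := hρ0N
    have h2 := noAnti_card (X := pr φ (vert S3)) hφ hρ0n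
      (fun x hx => mem_pr.mpr ⟨hNS3 x (h1 hx), hNS3 _ (hN x (h1 hx))⟩)
      (fun x hx => mem_pr.mpr ⟨hNS3 _ (hN x (h1 hx)), by rw [hφ]; exact hNS3 x (h1 hx)⟩)
    omega
  have hAvr : Adj S v r := ⟨hrv.symm, F0, hF0, hvF0, hr'.2⟩
  obtain ⟨q, hq1, hq2, hq3⟩ := hI v r (hSG v r hAvr)
  have hnsame : ∀ a b, a ≠ v → b ≠ v → a ≠ φ v → b ≠ φ v → ¬ Same φ v r a b := by
    rintro a b h1 h2 h3 h4 (h | h | h | h)
    · exact h1 h.1
    · exact h2 h.2
    · exact h3 h.1
    · exact h4 h.2
  have hadjr : ∀ F ∈ S.support, v ∈ F → r ∉ F → ∀ b ∈ F.erase v, b ≠ φ r → Adj S r b := by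
    intro F hF h1 h2 b hb hbr
    have hφrF : φ r ∈ F.erase v := by
      by_contra hcon
      have h10 : NoAnti φ (insert r (F.erase v)) := by
        intro y hy hy'
        rw [Finset.mem_insert] at hy hy'
        rcases hy with rfl | hy
        · rcases hy' with h | h
          · exact hφ' _ h
          · exact hcon h
        · rcases hy' with h | h
          · exact hcon (by rw [← h, hφ]; exact hy)
          · exact hno F hF y (Finset.mem_of_mem_erase hy) (Finset.mem_of_mem_erase h)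
      have h11 := noAnti_card (X := N) hφ h10 (by
        intro y hy
        rw [Finset.mem_insert] at hy
        rcases hy with rfl | hy
        · exact hrN
        · exact hFN F hF h1 hy) (by
        intro y hy
        rw [Finset.mem_insert] at hy
        rcases hy with rfl | hy
        · exact hφrN
        · exact hN _ (hFN F hF h1 hy))
      rw [(card_insert_erase h1 hrv).mpr h2, hd F hF] at h11
      omega
    have h3 := flipN (d := d) hφ hφ' hbS hd hno hN hNc hFN hF h1 hφrF
    rw [hφ] at h3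
    have hbr' : b ≠ r := by
      rintro rfl
      exact h2 (Finset.mem_of_mem_erase hb)
    exact ⟨hbr'.symm, _, h3, Finset.mem_insert_self _ _, Finset.mem_insert_of_mem
      (Finset.mem_erase.mpr ⟨hbr, Finset.mem_of_mem_erase hb⟩)⟩
  have hNφv : ∀ b ∈ N, b ≠ v ∧ b ≠ φ v := fun b hb => ⟨fun h => hvN (h ▸ hb), fun h => hvN' (h ▸ hb)⟩
  have hsat : Sat φ f q (Adj S3) := by
    rintro a b ⟨hab, F', hF', ha, hb'⟩
    rcases hS2 F' (hS3s hF') with h | ⟨F, hF, h1, h2, rfl⟩
    · refine hq3 a b (hSG a b ⟨hab, F', h.1, ha, hb'⟩) (hnsame a b ?_ ?_ ?_ ?_)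
      · rintro rfl; exact h.2 ha
      · rintro rfl; exact h.2 hb'
      · rintro rfl; exact hvS (subset_vert h.1 ha)
      · rintro rfl; exact hvS (subset_vert h.1 hb')
    · have hrb : ∀ b ∈ F.erase v, ell φ f q r b = 0 := by
        intro b hb
        by_cases h3 : b = φ r
        · rw [h3]; exact ell_self_anti φ f q hq1 r
        · have hbN := hNφv b (hFN F hF h1 hb)
          exact hq3 r b (hSG r b (hadjr F hF h1 h2 b hb h3))
            (hnsame r b hrv hbN.1 (hNφv r hrN).2 hbN.2)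
      rw [Finset.mem_insert] at ha hb'
      rcases ha with rfl | ha
      · rcases hb' with rfl | hb'
        · exact absurd rfl hab
        · exact hrb b hb'
      · rcases hb' with rfl | hb'
        · rw [ell_comm]; exact hrb a ha
        · have haN := hNφv a (hFN F hF h1 ha)
          have hbN := hNφv b (hFN F hF h1 hb')
          exact hq3 a b (hSG a b ⟨hab, F, hF, Finset.mem_of_mem_erase ha,
            Finset.mem_of_mem_erase hb'⟩) (hnsame a b haN.1 hbN.1 haN.2 hbN.2)
  have hconst := hf.const hφ hφ' hd3 hS3 hS3a hpr hq1 hsat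
  have hqN : ∀ x ∈ N, q x = q r := fun x hx => hconst x (hNS3 x hx) r (hNS3 r hrN)
  -- the vertex v
  have hvw : ∀ F ∈ S.support, v ∈ F → ∀ w ∈ F, w ≠ v → w ≠ r → ell φ f q v w = 0 := by
    intro F hF h1 w hw h2 h3
    refine hq3 v w (hSG v w ⟨h2.symm, F, hF, h1, hw⟩) ?_
    rintro (h | h | h | h)
    · exact h3 h.2
    · exact h2 h.2
    · exact hφ' v h.1.symm
    · exact hNφv w (hFN F hF h1 (Finset.mem_erase.mpr ⟨h2, hw⟩)) |>.2 h.2
  set y := q v - q r with hydef
  have hdot : ∀ w ∈ N, ell φ f q v w = 0 → (pos φ f v - pos φ f w) ⬝ᵥ y = 0 := by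
    intro w hw h
    unfold ell at h
    rwa [hqN w hw] at h
  obtain ⟨w', hw'⟩ : (ρ0.erase (φ r)).Nonempty := Finset.card_pos.mp (by
    rw [Finset.card_erase_of_mem hφrρ0]; omega)
  rw [Finset.mem_erase] at hw'
  have h1 : (pos φ f v - pos φ f w') ⬝ᵥ y = 0 := by
    refine hdot w' (hρ0N hw'.2) (hvw F1 hF1 hvF1 w' (Finset.mem_of_mem_erase hw'.2)
      (hNφv w' (hρ0N hw'.2)).1 (fun h => hrρ0 (h ▸ hw'.2)))
  have h2 : (pos φ f v + pos φ f w') ⬝ᵥ y = 0 := by
    have h3 := flipN (d := d) hφ hφ' hbS hd hno hN hNc hFN hF1 hvF1 hw'.2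
    have hN' : φ w' ∈ N := hN _ (hρ0N hw'.2)
    have h4 := hdot (φ w') hN' (hvw _ h3 (Finset.mem_insert_of_mem (Finset.mem_erase.mpr
      ⟨(hNφv w' (hρ0N hw'.2)).1.symm, hvF1⟩)) (φ w') (Finset.mem_insert_self _ _)
      (hNφv _ hN').1 (fun h => hw'.1 (by rw [← h, hφ])))
    rwa [pos_anti φ hφ, sub_neg_eq_add] at h4
  have h3 : pos φ f v ⬝ᵥ y = 0 := by
    rw [sub_dotProduct] at h1
    rw [add_dotProduct] at h2
    linarith
  have hins : insert v ρ0 = F1 := by rw [hρ0def, Finset.insert_erase hvF1]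
  have hlin := hf.1.1 F1 (hno F1 hF1) (by rw [hd F1 hF1])
  have hy0 : y = 0 := by
    refine hlin.perp φ (by rw [hd F1 hF1]) y ?_
    intro w hw
    by_cases hwv : w = v
    · rw [hwv]; exact h3
    have hwρ : w ∈ ρ0 := Finset.mem_erase.mpr ⟨hwv, hw⟩
    have h4 := hdot w (hρ0N hwρ) (hvw F1 hF1 hvF1 w hw hwv (fun h => hrρ0 (h ▸ hwρ)))
    rw [sub_dotProduct, h3] at h4
    linarith
  apply hq2
  unfold ell
  rw [← hydef, hy0]
  simp

end bstar

end Pool.Agent.CSLBT
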