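import Pool.Agent.CSLBT.GenPos

set_option linter.unusedSectionVars false

namespace Pool.Agent.CSLBT

open Filter Matrix

section chains

variable {V : Type*} [Fintype V] [DecidableEq V]

/-- simplicial chains mod 2 on the full simplex with vertex set `V` -/
abbrev Ch (V : Type*) := Finset V →₀ ZMod 2

noncomputable def sg (F : Finset V) : Ch V := Finsupp.single F 1

noncomputable def bd : Ch V →ₗ[ZMod 2] Ch V :=
  Finsupp.linearCombination (ZMod 2) (fun F : Finset V => ∑ x ∈ F, sg (F.erase x))

noncomputable def hom (v u : V) : Ch V →ₗ[ZMod 2] Ch V :=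
  Finsupp.linearCombination (ZMod 2)
    (fun F : Finset V => if v ∈ F ∧ u ∉ F then sg (insert u F) else 0)

noncomputable def con (v u : V) : Ch V →ₗ[ZMod 2] Ch V :=
  Finsupp.linearCombination (ZMod 2)
    (fun F : Finset V => if v ∈ F then (if u ∈ F then 0 else sg (insert u (F.erase v))) else sg F)

@[simp] lemma bd_sg (F : Finset V) : bd (sg F) = ∑ x ∈ F, sg (F.erase x) := by
  simp [bd, sg]

lemma hom_sg (v u : V) (F : Finset V) :
    hom v u (sg F) = if v ∈ F ∧ u ∉ F then sg (insert u F) else 0 := by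
  simp [hom, sg]

lemma con_sg (v u : V) (F : Finset V) :
    con v u (sg F) = if v ∈ F then (if u ∈ F then 0 else sg (insert u (F.erase v))) else sg F := by
  simp [con, sg]

lemma add_self_ch (T : Ch V) : T + T = 0 := by
  have : T + T = (2 : ZMod 2) • T := by rw [two_smul]
  rw [this, show (2 : ZMod 2) = 0 from rfl, zero_smul]

lemma eq_of_add_eq_zero {S T : Ch V} (h : S + T = 0) : S = T := by
  have := congrArg (· + T) h
  simp only [add_assoc, add_self_ch, add_zero, zero_add] at this
  exact this

lemma zmod2 (a : ZMod 2) (h : a ≠ 0) : a = 1 := by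
  revert a; decide

lemma mem_supp {T : Ch V} {F : Finset V} : F ∈ T.support ↔ T F = 1 := by
  rw [Finsupp.mem_support_iff]
  exact ⟨zmod2 _, fun h => by rw [h]; decide⟩

lemma sg_apply (F G : Finset V) : sg F G = if F = G then 1 else 0 := by
  simp [sg, Finsupp.single_apply]

lemma mem_supp_sg {F G : Finset V} : G ∈ (sg F).support ↔ G = F := by
  rw [mem_supp, sg_apply]
  constructor
  · intro h
    by_contra hne
    rw [if_neg (fun h' => hne h'.symm)] at h
    exact absurd h (by decide)
  · intro h
    rw [if_pos h.symm]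

lemma ch_eq_sum (T : Ch V) : T = ∑ F ∈ T.support, sg F := by
  conv_lhs => rw [← Finsupp.sum_single T]
  refine Finset.sum_congr rfl fun F hF => ?_
  rw [mem_supp] at hF
  rw [hF]
  rfl

lemma ch_induction {P : Ch V → Prop} (h0 : P 0) (h1 : ∀ F T, P T → P (sg F + T)) (T : Ch V) :
    P T := by
  rw [ch_eq_sum T]
  induction T.support using Finset.induction_on with
  | empty => simpa using h0
  | insert F S hF ih => rw [Finset.sum_insert hF]; exact h1 _ _ ih

lemma lin_ext {L M : Ch V →ₗ[ZMod 2] Ch V} (h : ∀ F, L (sg F) = M (sg F)) (T : Ch V) :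
    L T = M T := by
  induction T using ch_induction with
  | h0 => simp
  | h1 F T ih => rw [map_add, map_add, h, ih]

lemma lin_apply (L : Ch V →ₗ[ZMod 2] Ch V) (T : Ch V) (G : Finset V) :
    L T G = ∑ F ∈ T.support, L (sg F) G := by
  conv_lhs => rw [ch_eq_sum T, map_sum, Finsupp.finset_sum_apply]

lemma exists_of_mem_supp {L : Ch V →ₗ[ZMod 2] Ch V} {T : Ch V} {G : Finset V}
    (h : G ∈ (L T).support) : ∃ F ∈ T.support, G ∈ (L (sg F)).support := by
  by_contra hne
  push Not at hne
  rw [mem_supp, lin_apply, Finset.sum_eq_zero] at h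
  · exact absurd h (by decide)
  · intro F hF
    exact Finsupp.notMem_support_iff.mp (hne F hF)

lemma exists_partner {L : Ch V →ₗ[ZMod 2] Ch V} {T : Ch V} {G F : Finset V}
    (h : L T G = 0) (hF : F ∈ T.support) (hG : G ∈ (L (sg F)).support) :
    ∃ F' ∈ T.support, F' ≠ F ∧ G ∈ (L (sg F')).support := by
  by_contra hne
  push Not at hne
  rw [lin_apply, Finset.sum_eq_single F] at h
  · rw [mem_supp, h] at hG
    exact absurd hG (by decide)
  · intro F' hF' hne'
    exact Finsupp.notMem_support_iff.mp (hne F' hF' hne')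
  · intro h'
    exact absurd hF h'

lemma bd_bd (T : Ch V) : bd (bd T) = 0 := by
  have := lin_ext (L := bd ∘ₗ bd) (M := 0) (V := V) ?_ T
  · simpa using this
  intro F
  simp only [LinearMap.comp_apply, bd_sg, map_sum, LinearMap.zero_apply]
  rw [Finset.sum_sigma']
  refine Finset.sum_involution (fun p _ => ⟨p.2, p.1⟩) ?_ ?_ ?_ ?_
  · rintro ⟨x, y⟩ h
    simp only
    rw [Finset.erase_right_comm]
    exact add_self_ch _
  · rintro ⟨x, y⟩ h _ heq
    simp only [Finset.mem_sigma, Finset.mem_erase] at h
    have : y = x := by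
      have := congrArg Sigma.fst heq
      simpa using this
    exact h.2.1 this
  · rintro ⟨x, y⟩ h
    simp only [Finset.mem_sigma, Finset.mem_erase] at h ⊢
    exact ⟨h.2.2, fun h' => h.2.1 h'.symm, h.1⟩
  · rintro ⟨x, y⟩ h
    rfl

lemma homotopy (v u : V) (huv : u ≠ v) (T : Ch V) :
    bd (hom v u T) + hom v u (bd T) = T + con v u T := by
  have := lin_ext (L := bd ∘ₗ hom v u + hom v u ∘ₗ bd) (M := LinearMap.id + con v u) (V := V) ?_ T
  · simpa using this
  intro F
  simp only [LinearMap.add_apply, LinearMap.comp_apply, LinearMap.id_apply, bd_sg, map_sum]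
  by_cases hv : v ∈ F
  · by_cases hu : u ∈ F
    · -- both
      rw [hom_sg, if_neg (by simp [hu]), con_sg, if_pos hv, if_pos hu, map_zero, zero_add, add_zero]
      rw [Finset.sum_eq_single u]
      · rw [hom_sg, if_pos ⟨Finset.mem_erase.mpr ⟨huv.symm, hv⟩, by simp⟩,
          Finset.insert_erase hu]
      · intro x hx hxu
        rw [hom_sg, if_neg]
        rintro ⟨-, h2⟩
        exact h2 (Finset.mem_erase.mpr ⟨fun h => hxu h.symm, hu⟩)
      · exact fun h => absurd hu h
    · -- v in, u out
      rw [hom_sg, if_pos ⟨hv, hu⟩, con_sg, if_pos hv, if_neg hu, bd_sg, Finset.sum_insert hu,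
        Finset.erase_insert hu]
      rw [← Finset.add_sum_erase F _ hv, ← Finset.add_sum_erase F (fun x => hom v u _) hv]
      rw [hom_sg v u (F.erase v), if_neg (by simp), zero_add]
      have e1 : (insert u F).erase v = insert u (F.erase v) := by
        rw [Finset.erase_insert_of_ne huv]
      rw [e1]
      have e2 : ∑ x ∈ F.erase v, hom v u (sg (F.erase x))
          = ∑ x ∈ F.erase v, sg ((insert u F).erase x) := by
        refine Finset.sum_congr rfl fun x hx => ?_
        rw [Finset.mem_erase] at hx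
        rw [hom_sg, if_pos ⟨Finset.mem_erase.mpr ⟨fun h => hx.1 h.symm, hv⟩,
          fun h => hu (Finset.mem_of_mem_erase h)⟩]
        congr 1
        rw [Finset.erase_insert_of_ne]
        rintro rfl
        exact hu hx.2
      rw [e2]
      set A := ∑ x ∈ F.erase v, sg ((insert u F).erase x)
      rw [add_assoc, add_assoc, add_self_ch, add_zero]
  · rw [hom_sg, if_neg (by simp [hv]), con_sg, if_neg hv, map_zero, zero_add, add_self_ch]
    refine Finset.sum_eq_zero fun x hx => ?_
    rw [hom_sg, if_neg]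
    rintro ⟨h1, -⟩
    exact hv (Finset.mem_of_mem_erase h1)

/-! ### Cycles -/

/-- vertices of a chain -/
noncomputable def vert (T : Ch V) : Finset V := T.support.biUnion id

lemma mem_vert {T : Ch V} {x : V} : x ∈ vert T ↔ ∃ F ∈ T.support, x ∈ F := by
  simp [vert]

lemma subset_vert {T : Ch V} {F : Finset V} (h : F ∈ T.support) : F ⊆ vert T :=
  fun _ hx => mem_vert.mpr ⟨F, h, hx⟩

lemma vert_mono {S T : Ch V} (h : S.support ⊆ T.support) : vert S ⊆ vert T := by
  intro x hx
  obtain ⟨F, hF, hx⟩ := mem_vert.mp hx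
  exact mem_vert.mpr ⟨F, h hF, hx⟩

def IsCyc (d : ℕ) (T : Ch V) : Prop := bd T = 0 ∧ ∀ F ∈ T.support, F.card = d

def MinCyc (d : ℕ) (T : Ch V) : Prop :=
  T ≠ 0 ∧ IsCyc d T ∧ ∀ X : Ch V, bd X = 0 → X.support ⊆ T.support → X = 0 ∨ X = T

/-- crossing a ridge of a cycle -/
lemma exists_cross {P : Ch V} (hP : bd P = 0) {F : Finset V} (hF : F ∈ P.support) {w : V}
    (hw : w ∈ F) : ∃ z, z ∉ F ∧ insert z (F.erase w) ∈ P.support := by
  have hG : F.erase w ∈ (bd (sg F)).support := by
    rw [mem_supp, bd_sg, Finsupp.finset_sum_apply, Finset.sum_eq_single w]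
    · rw [sg_apply, if_pos rfl]
    · intro x hx hxw
      rw [sg_apply, if_neg]
      intro h
      have : x ∈ F.erase w := Finset.mem_erase.mpr ⟨hxw, hx⟩
      rw [← h] at this
      simp at this
    · exact fun h => absurd hw h
  obtain ⟨F', hF', hne, hG'⟩ := exists_partner (L := bd) (T := P) (by rw [hP]; rfl) hF hG
  rw [bd_sg] at hG'
  have : ∃ x ∈ F', F.erase w = F'.erase x := by
    by_contra hcon
    push Not at hcon
    rw [mem_supp, Finsupp.finset_sum_apply, Finset.sum_eq_zero] at hG'
    · exact absurd hG' (by decide)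
    · intro x hx
      rw [sg_apply, if_neg]
      exact fun h => hcon x hx h.symm
  obtain ⟨x, hx, hxe⟩ := this
  have hF'' : insert x (F.erase w) = F' := by rw [hxe, Finset.insert_erase hx]
  refine ⟨x, ?_, by rw [hF'']; exact hF'⟩
  intro hxF
  have hxw : x = w := by
    by_contra hxw
    have : x ∈ F.erase w := Finset.mem_erase.mpr ⟨hxw, hxF⟩
    rw [hxe] at this
    simp at this
  subst hxw
  apply hne
  rw [← hF'', Finset.insert_erase hw]

lemma MinCyc.cyc {d : ℕ} {T : Ch V} (h : MinCyc d T) : IsCyc d T := h.2.1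

lemma MinCyc.nonempty {d : ℕ} {T : Ch V} (h : MinCyc d T) : T.support.Nonempty :=
  Finsupp.support_nonempty_iff.mpr h.1

lemma ch_ext_supp {S T : Ch V} (h : S.support = T.support) : S = T := by
  ext F
  by_cases hF : F ∈ S.support
  · have h1 := mem_supp.mp hF
    rw [h] at hF
    rw [h1, mem_supp.mp hF]
  · have h1 := Finsupp.notMem_support_iff.mp hF
    rw [h] at hF
    rw [h1, Finsupp.notMem_support_iff.mp hF]

lemma supp_add_of_subset {X T : Ch V} (h : X.support ⊆ T.support) :
    (T + X).support = T.support \ X.support := by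
  ext F
  rw [Finset.mem_sdiff, mem_supp, Finsupp.add_apply]
  by_cases hX : F ∈ X.support
  · have hT := mem_supp.mp (h hX)
    rw [mem_supp.mp hX, hT]
    simp only [hX, not_true_eq_false, and_false, iff_false]
    decide
  · rw [Finsupp.notMem_support_iff.mp hX, add_zero, mem_supp]
    simp only [hX, not_false_eq_true, and_true]

lemma supp_add_disjoint {X T : Ch V} (h : Disjoint X.support T.support) :
    (X + T).support = X.support ∪ T.support := by
  exact Finsupp.support_add_eq h

lemma IsCyc.add {d : ℕ} {S T : Ch V} (hS : IsCyc d S) (hT : IsCyc d T) : IsCyc d (S + T) := by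
  refine ⟨by rw [map_add, hS.1, hT.1, add_zero], fun F hF => ?_⟩
  have := Finsupp.support_add hF
  rw [Finset.mem_union] at this
  rcases this with h | h
  · exact hS.2 F h
  · exact hT.2 F h

lemma IsCyc.sub {d : ℕ} {T X : Ch V} (hT : IsCyc d T) (hX : bd X = 0)
    (h : X.support ⊆ T.support) : IsCyc d X :=
  ⟨hX, fun F hF => hT.2 F (h hF)⟩

/-- every facet of a cycle lies in a minimal subcycle -/
lemma exists_min {d : ℕ} {T : Ch V} (hT : IsCyc d T) {F : Finset V} (hF : F ∈ T.support) :
    ∃ D : Ch V, MinCyc d D ∧ D.support ⊆ T.support ∧ F ∈ D.support := by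
  classical
  have hex : ∃ n, ∃ D : Ch V, bd D = 0 ∧ D.support ⊆ T.support ∧ F ∈ D.support ∧
      D.support.card = n := ⟨_, T, hT.1, subset_rfl, hF, rfl⟩
  obtain ⟨D, hD, hDT, hFD, hcard⟩ := Nat.find_spec hex
  have hmin := fun m (hm : m < Nat.find hex) => Nat.find_min hex hm
  refine ⟨D, ⟨?_, hT.sub hD hDT, ?_⟩, hDT, hFD⟩
  · rintro rfl
    simp at hFD
  · intro X hX hXD
    by_cases hFX : F ∈ X.support
    · right
      by_contra hne
      have hlt : X.support.card < D.support.card := by
        apply Finset.card_lt_card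
        refine Finset.ssubset_iff_subset_ne.mpr ⟨hXD, fun h => hne (ch_ext_supp h)⟩
      rw [hcard] at hlt
      exact hmin _ hlt ⟨X, hX, hXD.trans hDT, hFX, rfl⟩
    · left
      by_contra hne
      have hs : (D + X).support = D.support \ X.support := supp_add_of_subset hXD
      have hlt : (D + X).support.card < D.support.card := by
        rw [hs]
        apply Finset.card_lt_card
        refine Finset.sdiff_ssubset hXD (Finsupp.support_nonempty_iff.mpr hne)
      rw [hcard] at hlt
      refine hmin _ hlt ⟨D + X, by rw [map_add, hD, hX, add_zero], ?_, ?_, rfl⟩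
      · rw [hs]
        exact Finset.sdiff_subset.trans hDT
      · rw [hs, Finset.mem_sdiff]
        exact ⟨hFD, hFX⟩

/-- induction over a decomposition of a cycle into disjoint minimal cycles -/
lemma cyc_induction {d : ℕ} {T : Ch V} (hT : IsCyc d T) (Pr : Ch V → Prop) (h0 : Pr 0)
    (hadd : ∀ X D : Ch V, IsCyc d X → MinCyc d D → X.support ⊆ T.support →
      D.support ⊆ T.support → Disjoint X.support D.support → Pr X → Pr (X + D)) : Pr T := by
  have key : ∀ n, ∀ X : Ch V, X.support.card ≤ n → bd X = 0 → X.support ⊆ T.support → Pr X := by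
    intro n
    induction n with
    | zero =>
      intro X hn _ _
      have : X = 0 := by
        rw [← Finsupp.support_eq_empty, ← Finset.card_eq_zero]
        omega
      rw [this]
      exact h0
    | succ n ih =>
      intro X hn hX hXT
      by_cases hX0 : X = 0
      · rw [hX0]; exact h0
      obtain ⟨F, hF⟩ := Finsupp.support_nonempty_iff.mpr hX0
      obtain ⟨D, hD, hDX, hFD⟩ := exists_min (hT.sub hX hXT) hF
      have hs : (X + D).support = X.support \ D.support := supp_add_of_subset hDX
      have hlt : (X + D).support.card < X.support.card := by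
        rw [hs]
        apply Finset.card_lt_card
        exact Finset.sdiff_ssubset hDX ⟨F, hFD⟩
      have hXD : bd (X + D) = 0 := by rw [map_add, hX, hD.cyc.1, add_zero]
      have hsub : (X + D).support ⊆ T.support := by
        rw [hs]; exact Finset.sdiff_subset.trans hXT
      have h1 := ih (X + D) (by omega) hXD hsub
      have h2 := hadd (X + D) D (hT.sub hXD hsub) hD hsub (hDX.trans hXT)
        (by rw [hs]; exact Finset.sdiff_disjoint) h1
      rw [add_assoc, add_self_ch, add_zero] at h2
      exact h2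
  exact key _ T le_rfl hT.1 subset_rfl

lemma mem_span_min {d : ℕ} {T : Ch V} (hT : IsCyc d T) :
    T ∈ Submodule.span (ZMod 2) {D : Ch V | MinCyc d D ∧ D.support ⊆ T.support} := by
  refine cyc_induction hT (fun X => X ∈ Submodule.span (ZMod 2)
    {D : Ch V | MinCyc d D ∧ D.support ⊆ T.support}) (Submodule.zero_mem _) ?_
  intro X D _ hD _ hDT _ hX
  exact Submodule.add_mem _ hX (Submodule.subset_span ⟨hD, hDT⟩)

/-! ### Adjacency -/

def Adj (T : Ch V) (x y : V) : Prop := x ≠ y ∧ ∃ F ∈ T.support, x ∈ F ∧ y ∈ F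

lemma Adj.symm {T : Ch V} {x y : V} (h : Adj T x y) : Adj T y x :=
  ⟨h.1.symm, let ⟨F, hF, hx, hy⟩ := h.2; ⟨F, hF, hy, hx⟩⟩

lemma Adj.left {T : Ch V} {x y : V} (h : Adj T x y) : x ∈ vert T :=
  let ⟨F, hF, hx, _⟩ := h.2; mem_vert.mpr ⟨F, hF, hx⟩

lemma Adj.right {T : Ch V} {x y : V} (h : Adj T x y) : y ∈ vert T := h.symm.left

lemma Adj.mono {S T : Ch V} (hST : S.support ⊆ T.support) {x y : V} (h : Adj S x y) :
    Adj T x y := ⟨h.1, let ⟨F, hF, hx, hy⟩ := h.2; ⟨F, hST hF, hx, hy⟩⟩

end chains

end Pool.Agent.CSLBT
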