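import Mathlib

set_option linter.unusedSectionVars false
set_option linter.unusedVariables false

namespace Pool.Agent.CSLBT

section stack

variable {V : Type*} [DecidableEq V] {d : ℕ} {φ : V → V}

/-- vertices of a family of facets -/
def fv (𝓕 : Finset (Finset V)) : Finset V := 𝓕.biUnion id

/-- edges of a family of facets -/
def fe (𝓕 : Finset (Finset V)) : Finset (Finset V) := 𝓕.biUnion (fun F => F.powersetCard 2)

lemma mem_fv {𝓕 : Finset (Finset V)} {x : V} : x ∈ fv 𝓕 ↔ ∃ F ∈ 𝓕, x ∈ F := by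
  simp [fv]

lemma mem_fe {𝓕 : Finset (Finset V)} {e : Finset V} :
    e ∈ fe 𝓕 ↔ e.card = 2 ∧ ∃ F ∈ 𝓕, e ⊆ F := by
  simp only [fe, Finset.mem_biUnion, Finset.mem_powersetCard]
  constructor
  · rintro ⟨F, hF, h1, h2⟩
    exact ⟨h2, F, hF, h1⟩
  · rintro ⟨h2, F, hF, h1⟩
    exact ⟨F, hF, h1, h2⟩

/-- `𝓕'` arises from `𝓕` by placing cones with apices `w`, `φ w` over the boundaries of `F` and
`φ F` instead of `F` and `φ F`. -/
structure StackRel (φ : V → V) (𝓕 𝓕' : Finset (Finset V)) (F : Finset V) (w : V) : Prop where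
  hF : F ∈ 𝓕
  hw : ∀ G ∈ 𝓕, w ∉ G
  hw' : ∀ G ∈ 𝓕, φ w ∉ G
  mem : ∀ G, G ∈ 𝓕' ↔ (G ∈ 𝓕 ∧ G ≠ F ∧ G ≠ F.image φ) ∨
    (∃ y ∈ F, G = insert w (F.erase y)) ∨ (∃ y ∈ F, G = insert (φ w) ((F.erase y).image φ))

/-- uniform symmetric families without antipodal pairs -/
structure SymFam (φ : V → V) (d : ℕ) (𝓕 : Finset (Finset V)) : Prop where
  card : ∀ F ∈ 𝓕, F.card = d
  symm : ∀ F ∈ 𝓕, F.image φ ∈ 𝓕
  anti : ∀ F ∈ 𝓕, ∀ x ∈ F, φ x ∉ F

lemma mem_image_invol (hφ : Function.Involutive φ) {F : Finset V} {x : V} :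
    x ∈ F.image φ ↔ φ x ∈ F := by
  rw [Finset.mem_image]
  constructor
  · rintro ⟨y, hy, rfl⟩
    rwa [hφ]
  · intro h
    exact ⟨φ x, h, hφ x⟩

variable (hφ : Function.Involutive φ) (hφ' : ∀ x, φ x ≠ x)

include hφ hφ'

lemma StackRel.fv_eq {𝓕 𝓕' : Finset (Finset V)} {F : Finset V} {w : V}
    (h : StackRel φ 𝓕 𝓕' F w) (hs : SymFam φ d 𝓕) (hd : 2 ≤ d) :
    fv 𝓕' = insert w (insert (φ w) (fv 𝓕)) := by
  have hFc := hs.card F h.hF
  ext x
  rw [Finset.mem_insert, Finset.mem_insert, mem_fv, mem_fv]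
  constructor
  · rintro ⟨G, hG, hx⟩
    rw [h.mem] at hG
    rcases hG with ⟨hG, -, -⟩ | ⟨y, hy, rfl⟩ | ⟨y, hy, rfl⟩
    · right; right; exact ⟨G, hG, hx⟩
    · rw [Finset.mem_insert, Finset.mem_erase] at hx
      rcases hx with rfl | hx
      · left; rfl
      · right; right; exact ⟨F, h.hF, hx.2⟩
    · rw [Finset.mem_insert, mem_image_invol hφ, Finset.mem_erase] at hx
      rcases hx with rfl | hx
      · right; left; rfl
      · right; right; exact ⟨F.image φ, hs.symm F h.hF, (mem_image_invol hφ).mpr hx.2⟩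
  · have key : ∀ x ∈ F, ∃ G ∈ 𝓕', x ∈ G := by
      intro x hx
      obtain ⟨y, hy⟩ : (F.erase x).Nonempty := Finset.card_pos.mp (by
        rw [Finset.card_erase_of_mem hx]; omega)
      rw [Finset.mem_erase] at hy
      exact ⟨_, (h.mem _).mpr (Or.inr (Or.inl ⟨y, hy.2, rfl⟩)),
        Finset.mem_insert_of_mem (Finset.mem_erase.mpr ⟨hy.1.symm, hx⟩)⟩
    have key' : ∀ x, φ x ∈ F → ∃ G ∈ 𝓕', x ∈ G := by
      intro x hx
      obtain ⟨y, hy⟩ : (F.erase (φ x)).Nonempty := Finset.card_pos.mp (by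
        rw [Finset.card_erase_of_mem hx]; omega)
      rw [Finset.mem_erase] at hy
      exact ⟨_, (h.mem _).mpr (Or.inr (Or.inr ⟨y, hy.2, rfl⟩)),
        Finset.mem_insert_of_mem ((mem_image_invol hφ).mpr (Finset.mem_erase.mpr
          ⟨hy.1.symm, hx⟩))⟩
    obtain ⟨y0, hy0⟩ : F.Nonempty := Finset.card_pos.mp (by omega)
    rintro (rfl | rfl | ⟨G, hG, hx⟩)
    · exact ⟨_, (h.mem _).mpr (Or.inr (Or.inl ⟨y0, hy0, rfl⟩)), Finset.mem_insert_self _ _⟩
    · exact ⟨_, (h.mem _).mpr (Or.inr (Or.inr ⟨y0, hy0, rfl⟩)), Finset.mem_insert_self _ _⟩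
    · by_cases h1 : G = F
      · rw [h1] at hx; exact key x hx
      by_cases h2 : G = F.image φ
      · rw [h2, mem_image_invol hφ] at hx; exact key' x hx
      exact ⟨G, (h.mem G).mpr (Or.inl ⟨hG, h1, h2⟩), hx⟩

lemma StackRel.fv_card {𝓕 𝓕' : Finset (Finset V)} {F : Finset V} {w : V}
    (h : StackRel φ 𝓕 𝓕' F w) (hs : SymFam φ d 𝓕) (hd : 2 ≤ d) :
    (fv 𝓕').card = (fv 𝓕).card + 2 := by
  rw [h.fv_eq hφ hφ' hs hd, Finset.card_insert_of_notMem, Finset.card_insert_of_notMem]
  · rw [mem_fv]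
    rintro ⟨G, hG, hx⟩
    exact h.hw' G hG hx
  · rw [Finset.mem_insert, mem_fv]
    rintro (hx | ⟨G, hG, hx⟩)
    · exact hφ' w hx.symm
    · exact h.hw G hG hx

lemma StackRel.fe_eq {𝓕 𝓕' : Finset (Finset V)} {F : Finset V} {w : V}
    (h : StackRel φ 𝓕 𝓕' F w) (hs : SymFam φ d 𝓕) (hd : 3 ≤ d) :
    fe 𝓕' = fe 𝓕 ∪ (F.image (fun y => {w, y}) ∪ F.image (fun y => {φ w, φ y})) := by
  have hFc := hs.card F h.hF
  have hwF := h.hw F h.hF
  have hwF' := h.hw' F h.hF
  ext e
  rw [Finset.mem_union, Finset.mem_union, Finset.mem_image, Finset.mem_image, mem_fe, mem_fe]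
  constructor
  · rintro ⟨hc, G, hG, he⟩
    rw [h.mem] at hG
    rcases hG with ⟨hG, -, -⟩ | ⟨y, hy, rfl⟩ | ⟨y, hy, rfl⟩
    · left; exact ⟨hc, G, hG, he⟩
    · by_cases hw : w ∈ e
      · right; left
        obtain ⟨a, b, hab, rfl⟩ := Finset.card_eq_two.mp hc
        rw [Finset.mem_insert, Finset.mem_singleton] at hw
        rcases hw with rfl | rfl
        · have := he (Finset.mem_insert_of_mem (Finset.mem_singleton_self b))
          rw [Finset.mem_insert, Finset.mem_erase] at this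
          rcases this with h' | h'
          · exact absurd h' hab.symm
          · exact ⟨b, h'.2, rfl⟩
        · have := he (Finset.mem_insert_self _ _)
          rw [Finset.mem_insert, Finset.mem_erase] at this
          rcases this with h' | h'
          · exact absurd h' hab
          · exact ⟨a, h'.2, Finset.pair_comm _ _⟩
      · left
        refine ⟨hc, F, h.hF, fun x hx => ?_⟩
        have := he hx
        rw [Finset.mem_insert, Finset.mem_erase] at this
        rcases this with h' | h'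
        · exact absurd (h' ▸ hx) hw
        · exact h'.2
    · by_cases hw : φ w ∈ e
      · right; right
        obtain ⟨a, b, hab, rfl⟩ := Finset.card_eq_two.mp hc
        rw [Finset.mem_insert, Finset.mem_singleton] at hw
        rcases hw with rfl | rfl
        · have := he (Finset.mem_insert_of_mem (Finset.mem_singleton_self b))
          rw [Finset.mem_insert, mem_image_invol hφ, Finset.mem_erase] at this
          rcases this with h' | h'
          · exact absurd h' hab.symm
          · exact ⟨φ b, h'.2, by rw [hφ]⟩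
        · have := he (Finset.mem_insert_self _ _)
          rw [Finset.mem_insert, mem_image_invol hφ, Finset.mem_erase] at this
          rcases this with h' | h'
          · exact absurd h' hab
          · exact ⟨φ a, h'.2, by rw [hφ]; exact Finset.pair_comm _ _⟩
      · left
        refine ⟨hc, F.image φ, hs.symm F h.hF, fun x hx => ?_⟩
        have := he hx
        rw [Finset.mem_insert, mem_image_invol hφ, Finset.mem_erase] at this
        rw [mem_image_invol hφ]
        rcases this with h' | h'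
        · exact absurd (h' ▸ hx) hw
        · exact h'.2
  · have key : ∀ e : Finset V, e.card = 2 → e ⊆ F → ∃ G ∈ 𝓕', e ⊆ G := by
      intro e hc he
      obtain ⟨y, hy, hy'⟩ := Finset.exists_mem_notMem_of_card_lt_card (s := e) (t := F) (by omega)
      refine ⟨_, (h.mem _).mpr (Or.inr (Or.inl ⟨y, hy, rfl⟩)), fun x hx => ?_⟩
      exact Finset.mem_insert_of_mem (Finset.mem_erase.mpr ⟨fun h' => hy' (h' ▸ hx), he hx⟩)
    have key' : ∀ e : Finset V, e.card = 2 → e ⊆ F.image φ → ∃ G ∈ 𝓕', e ⊆ G := by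
      intro e hc he
      have hc' : (e.image φ).card = 2 := by
        rw [Finset.card_image_of_injective _ hφ.injective, hc]
      obtain ⟨y, hy, hy'⟩ := Finset.exists_mem_notMem_of_card_lt_card (s := e.image φ) (t := F)
        (by omega)
      refine ⟨_, (h.mem _).mpr (Or.inr (Or.inr ⟨y, hy, rfl⟩)), fun x hx => ?_⟩
      refine Finset.mem_insert_of_mem ((mem_image_invol hφ).mpr (Finset.mem_erase.mpr ⟨?_, ?_⟩))
      · intro h'
        apply hy'
        rw [mem_image_invol hφ, ← h', hφ]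
        exact hx
      · exact (mem_image_invol hφ).mp (he hx)
    rintro (⟨hc, G, hG, he⟩ | ⟨z, hz, rfl⟩ | ⟨z, hz, rfl⟩)
    · refine ⟨hc, ?_⟩
      by_cases h1 : G = F
      · exact key e hc (h1 ▸ he)
      by_cases h2 : G = F.image φ
      · exact key' e hc (h2 ▸ he)
      exact ⟨G, (h.mem G).mpr (Or.inl ⟨hG, h1, h2⟩), he⟩
    · have hne : w ≠ z := fun h' => hwF (h' ▸ hz)
      refine ⟨Finset.card_pair hne, ?_⟩
      obtain ⟨y, hy⟩ : (F.erase z).Nonempty := Finset.card_pos.mp (by
        rw [Finset.card_erase_of_mem hz]; omega)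
      rw [Finset.mem_erase] at hy
      refine ⟨_, (h.mem _).mpr (Or.inr (Or.inl ⟨y, hy.2, rfl⟩)), fun x hx => ?_⟩
      rw [Finset.mem_insert, Finset.mem_singleton] at hx
      rcases hx with rfl | rfl
      · exact Finset.mem_insert_self _ _
      · exact Finset.mem_insert_of_mem (Finset.mem_erase.mpr ⟨hy.1.symm, hz⟩)
    · have hne : φ w ≠ φ z := fun h' => hwF (hφ.injective h' ▸ hz)
      refine ⟨Finset.card_pair hne, ?_⟩
      obtain ⟨y, hy⟩ : (F.erase z).Nonempty := Finset.card_pos.mp (by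
        rw [Finset.card_erase_of_mem hz]; omega)
      rw [Finset.mem_erase] at hy
      refine ⟨_, (h.mem _).mpr (Or.inr (Or.inr ⟨y, hy.2, rfl⟩)), fun x hx => ?_⟩
      rw [Finset.mem_insert, Finset.mem_singleton] at hx
      rcases hx with rfl | rfl
      · exact Finset.mem_insert_self _ _
      · refine Finset.mem_insert_of_mem ((mem_image_invol hφ).mpr (Finset.mem_erase.mpr ?_))
        rw [hφ]
        exact ⟨hy.1.symm, hz⟩

lemma StackRel.fe_card {𝓕 𝓕' : Finset (Finset V)} {F : Finset V} {w : V}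
    (h : StackRel φ 𝓕 𝓕' F w) (hs : SymFam φ d 𝓕) (hd : 3 ≤ d) :
    (fe 𝓕').card = (fe 𝓕).card + 2 * d := by
  have hFc := hs.card F h.hF
  have hwF := h.hw F h.hF
  have hwF' := h.hw' F h.hF
  have hinj : ∀ (w : V) (A : Finset V), w ∉ A →
      (A.image (fun y => ({w, y} : Finset V))).card = A.card := by
    intro w A hw
    apply Finset.card_image_of_injOn
    intro y hy z hz hyz
    simp only at hyz
    have : y ∈ ({w, z} : Finset V) := by rw [← hyz]; simp
    rw [Finset.mem_insert, Finset.mem_singleton] at this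
    rcases this with h' | h'
    · exact absurd (h' ▸ hy) hw
    · exact h'
  have e1 : F.image (fun y => ({φ w, φ y} : Finset V)) =
      (F.image φ).image (fun y => ({φ w, y} : Finset V)) := by
    rw [Finset.image_image]; rfl
  have hφwF : φ w ∉ F.image φ := by
    rw [mem_image_invol hφ, hφ]; exact hwF
  rw [h.fe_eq hφ hφ' hs hd, Finset.card_union_of_disjoint, Finset.card_union_of_disjoint, e1,
    hinj w F hwF, hinj (φ w) _ hφwF, Finset.card_image_of_injective _ hφ.injective, hFc]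
  · omega
  · rw [Finset.disjoint_left]
    intro e he he'
    rw [Finset.mem_image] at he he'
    obtain ⟨y, hy, rfl⟩ := he
    obtain ⟨z, hz, hzy⟩ := he'
    have : φ w ∈ ({w, y} : Finset V) := by rw [← hzy]; simp
    rw [Finset.mem_insert, Finset.mem_singleton] at this
    rcases this with h' | h'
    · exact hφ' w h'
    · exact hwF' (h' ▸ hy)
  · rw [Finset.disjoint_left]
    intro e he he'
    rw [Finset.mem_union, Finset.mem_image, Finset.mem_image] at he'
    obtain ⟨-, G, hG, heG⟩ := mem_fe.mp he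
    rcases he' with ⟨y, hy, rfl⟩ | ⟨y, hy, rfl⟩
    · exact h.hw G hG (heG (Finset.mem_insert_self _ _))
    · exact h.hw' G hG (heG (Finset.mem_insert_self _ _))

/-- stacking preserves the basic properties -/
lemma StackRel.symFam {𝓕 𝓕' : Finset (Finset V)} {F : Finset V} {w : V}
    (h : StackRel φ 𝓕 𝓕' F w) (hs : SymFam φ d 𝓕) (hd : 1 ≤ d) : SymFam φ d 𝓕' := by
  have hFc := hs.card F h.hF
  have hwF := h.hw F h.hF
  have hwF' := h.hw' F h.hF
  have hc : ∀ y ∈ F, (insert w (F.erase y)).card = d := by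
    intro y hy
    rw [Finset.card_insert_of_notMem (fun h' => hwF (Finset.mem_of_mem_erase h')),
      Finset.card_erase_of_mem hy, hFc]
    omega
  have hc' : ∀ A : Finset V, insert (φ w) (A.image φ) = (insert w A).image φ := by
    intro A; rw [Finset.image_insert]
  have hii : ∀ A : Finset V, (A.image φ).image φ = A := by
    intro A
    ext x
    rw [mem_image_invol hφ, mem_image_invol hφ, hφ]
  have hanti : ∀ y ∈ F, ∀ x ∈ insert w (F.erase y), φ x ∉ insert w (F.erase y) := by
    intro y hy x hx hx'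
    rw [Finset.mem_insert, Finset.mem_erase] at hx hx'
    rcases hx with rfl | hx
    · rcases hx' with h' | h'
      · exact hφ' _ h'
      · exact hwF' h'.2
    · rcases hx' with h' | h'
      · exact hwF' (by rw [← h', hφ]; exact hx.2)
      · exact hs.anti F h.hF x hx.2 h'.2
  refine ⟨?_, ?_, ?_⟩
  · intro G hG
    rw [h.mem] at hG
    rcases hG with ⟨hG, -, -⟩ | ⟨y, hy, rfl⟩ | ⟨y, hy, rfl⟩
    · exact hs.card G hG
    · exact hc y hy
    · rw [hc', Finset.card_image_of_injective _ hφ.injective, hc y hy]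
  · intro G hG
    rw [h.mem] at hG ⊢
    rcases hG with ⟨hG, h1, h2⟩ | ⟨y, hy, rfl⟩ | ⟨y, hy, rfl⟩
    · left
      refine ⟨hs.symm G hG, fun h' => h2 ?_, fun h' => h1 ?_⟩
      · rw [← h', hii]
      · have := congrArg (Finset.image φ) h'
        rwa [hii, hii] at this
    · right; right
      exact ⟨y, hy, by rw [hc']⟩
    · right; left
      exact ⟨y, hy, by rw [hc', hii]⟩
  · intro G hG
    rw [h.mem] at hG
    rcases hG with ⟨hG, -, -⟩ | ⟨y, hy, rfl⟩ | ⟨y, hy, rfl⟩
    · exact hs.anti G hG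
    · exact hanti y hy
    · intro x hx hx'
      rw [hc', mem_image_invol hφ] at hx hx'
      rw [hφ] at hx'
      exact hanti y hy (φ x) hx (by rw [hφ]; exact hx')

omit [DecidableEq V] hφ hφ' in
/-- the combinatorial class of symmetrically stacked families of facets -/
inductive Stk [DecidableEq V] (φ : V → V) (d : ℕ) : Finset (Finset V) → Prop
  | base (X : Finset V) (hX : ∀ x ∈ X, φ x ∈ X) (hXc : X.card = 2 * d)
      (𝓕 : Finset (Finset V))
      (h𝓕 : ∀ F, F ∈ 𝓕 ↔ F ⊆ X ∧ (∀ x ∈ F, φ x ∉ F) ∧ F.card = d) : Stk φ d 𝓕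
  | step (𝓕 𝓕' : Finset (Finset V)) (F : Finset V) (w : V) (h : Stk φ d 𝓕)
      (hr : StackRel φ 𝓕 𝓕' F w) : Stk φ d 𝓕'

end stack

end Pool.Agent.CSLBT
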