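import Pool.Agent.CSLBT.Grow
import Pool.Agent.CSLBT.Stack

set_option linter.unusedSectionVars false
set_option linter.unusedVariables false

namespace Pool.Agent.CSLBT

open Filter Matrix

section unstack

variable {V : Type*} [Fintype V] [DecidableEq V] {d : ℕ} {φ : V → V}

lemma vert_eq_fv (T : Ch V) : vert T = fv T.support := rfl

lemma es_adj (T : Ch V) : es (Adj T) = fe T.support := by
  ext e
  rw [mem_es, mem_fe]
  constructor
  · rintro ⟨x, y, ⟨hxy, F, hF, hx, hy⟩, rfl⟩
    refine ⟨Finset.card_pair hxy, F, hF, fun z hz => ?_⟩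
    rw [Finset.mem_insert, Finset.mem_singleton] at hz
    rcases hz with rfl | rfl
    · exact hx
    · exact hy
  · rintro ⟨hc, F, hF, he⟩
    obtain ⟨x, y, hxy, rfl⟩ := Finset.card_eq_two.mp hc
    exact ⟨x, y, ⟨hxy, F, hF, he (by simp), he (by simp)⟩, rfl⟩

lemma SymFam.gg (hφ : Function.Involutive φ) (hφ' : ∀ x, φ x ≠ x) {T : Ch V}
    (hs : SymFam φ d T.support) : GG φ (Adj T) := by
  refine ⟨fun x y h => h.1, fun x y h => h.symm, ?_, ?_⟩
  · rintro x y ⟨-, F, hF, hx, hy⟩ rfl
    exact hs.anti F hF x hx hy
  · rintro x y ⟨hxy, F, hF, hx, hy⟩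
    exact ⟨phi_ne hφ hxy, F.image φ, hs.symm F hF, Finset.mem_image_of_mem φ hx,
      Finset.mem_image_of_mem φ hy⟩

lemma SymFam.vert_phi {T : Ch V} (hs : SymFam φ d T.support) : ∀ x ∈ vert T, φ x ∈ vert T := by
  intro x hx
  obtain ⟨F, hF, hxF⟩ := mem_vert.mp hx
  exact mem_vert.mpr ⟨F.image φ, hs.symm F hF, Finset.mem_image_of_mem φ hxF⟩

lemma SymFam.two_d_le (hφ : Function.Involutive φ) {T : Ch V} (hT : MinCyc d T)
    (hs : SymFam φ d T.support) : 2 * d ≤ (pr φ (vert T)).card := by
  obtain ⟨F, hF⟩ := hT.nonempty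
  have h1 := hs.vert_phi
  have := noAnti_card (X := pr φ (vert T)) hφ (hs.anti F hF)
    (fun x hx => mem_pr.mpr ⟨subset_vert hF hx, h1 x (subset_vert hF hx)⟩)
    (fun x hx => mem_pr.mpr ⟨h1 x (subset_vert hF hx), by rw [hφ]; exact subset_vert hF hx⟩)
  rwa [hs.card F hF] at this

lemma SymFam.rigA (hφ : Function.Involutive φ) (hφ' : ∀ x, φ x ≠ x) (hd3 : 3 ≤ d) {T : Ch V}
    (hT : MinCyc d T) (hs : SymFam φ d T.support) {f : Fld V d} (hf : Good φ f) :
    RigA φ f (Adj T) (vert T) := by
  obtain ⟨F, hF⟩ := hT.nonempty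
  obtain ⟨u, hu⟩ : F.Nonempty := Finset.card_pos.mp (by rw [hs.card F hF]; omega)
  have hanti : AntiAt φ u T := fun F hF x hx hx' => absurd hx' (hs.anti F hF x hx)
  exact hf.2.1 _ _ ((rigid_main (d := d) hφ hφ' hd3 _ T u hT hanti rfl).2 (hs.two_d_le hφ hT))

/-- The lower bound inequality for symmetric minimal cycles. -/
theorem sym_ineq (hφ : Function.Involutive φ) (hφ' : ∀ x, φ x ≠ x) (hd3 : 3 ≤ d) {T : Ch V}
    (hT : MinCyc d T) (hs : SymFam φ d T.support) :
    d * (fv T.support).card ≤ (fe T.support).card + 2 * d := by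
  obtain ⟨f, hf⟩ := (good_eventually (d := d) φ).exists
  obtain ⟨F, hF⟩ := hT.nonempty
  obtain ⟨u, hu⟩ : F.Nonempty := Finset.card_pos.mp (by rw [hs.card F hF]; omega)
  have := count_ineq hφ hφ' (hs.gg hφ hφ') hs.vert_phi ⟨u, subset_vert hF hu⟩
    (hs.rigA hφ hφ' hd3 hT hf)
  rwa [es_adj, vert_eq_fv] at this

/-- removing the vertices `w` and `φ w` of degree `d` -/
theorem unstack (hφ : Function.Involutive φ) (hφ' : ∀ x, φ x ≠ x) (hd3 : 3 ≤ d) {T : Ch V}
    (hT : MinCyc d T) (hs : SymFam φ d T.support) {w : V} {F : Finset V} (hw : w ∈ vert T)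
    (hFc : F.card = d) (hwn : NoAnti φ (insert w F)) (hwF : w ∉ F)
    (hnb : ∀ y, Adj T w y ↔ y ∈ F) :
    ∃ T1 : Ch V, MinCyc d T1 ∧ SymFam φ d T1.support ∧
      StackRel φ T1.support T.support F w := by
  classical
  have hGG := hs.gg hφ hφ'
  have hφwF : φ w ∉ F := fun h => hwn w (Finset.mem_insert_self _ _) (Finset.mem_insert_of_mem h)
  have hFn : NoAnti φ F := fun x hx hx' =>
    hwn x (Finset.mem_insert_of_mem hx) (Finset.mem_insert_of_mem hx')
  -- the star of w
  have hsub : ∀ G ∈ T.support, w ∈ G → G.erase w ⊆ F := by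
    intro G hG hwG y hy
    rw [Finset.mem_erase] at hy
    exact (hnb y).mp ⟨hy.1.symm, G, hG, hwG, hy.2⟩
  have hform : ∀ G ∈ T.support, w ∈ G → ∃ y ∈ F, G = insert w (F.erase y) := by
    intro G hG hwG
    have h1 := hsub G hG hwG
    have hGc := hs.card G hG
    have h2 : (G.erase w).card + 1 = d := by
      rw [Finset.card_erase_of_mem hwG, hGc]; omega
    obtain ⟨y, hy, hyG⟩ := Finset.exists_mem_notMem_of_card_lt_card
      (s := G.erase w) (t := F) (by omega)
    refine ⟨y, hy, ?_⟩
    have h3 : G.erase w = F.erase y := by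
      apply Finset.eq_of_subset_of_card_le
      · intro x hx
        exact Finset.mem_erase.mpr ⟨fun h => hyG (h ▸ hx), h1 hx⟩
      · rw [Finset.card_erase_of_mem hy]
        omega
    rw [← h3, Finset.insert_erase hwG]
  have hstar : ∀ y ∈ F, insert w (F.erase y) ∈ T.support := by
    intro y hy
    obtain ⟨G, hG, hwG⟩ := mem_vert.mp hw
    obtain ⟨y0, hy0, rfl⟩ := hform G hG hwG
    by_cases h : y = y0
    · rw [h]; exact hG
    have hyG : y ∈ insert w (F.erase y0) :=
      Finset.mem_insert_of_mem (Finset.mem_erase.mpr ⟨h, hy⟩)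
    obtain ⟨z, hz, hG'⟩ := exists_cross hT.cyc.1 hG hyG
    have hwy : w ≠ y := fun h' => hwF (h' ▸ hy)
    have hwG' : w ∈ insert z ((insert w (F.erase y0)).erase y) :=
      Finset.mem_insert_of_mem (Finset.mem_erase.mpr ⟨hwy, hwG⟩)
    obtain ⟨y1, hy1, heq⟩ := hform _ hG' hwG'
    have hy1y : y1 = y := by
      by_contra hne
      have h1 : y ∈ insert w (F.erase y1) :=
        Finset.mem_insert_of_mem (Finset.mem_erase.mpr ⟨Ne.symm hne, hy⟩)
      rw [← heq, Finset.mem_insert, Finset.mem_erase] at h1
      rcases h1 with h1 | h1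
      · exact hz (h1 ▸ hyG)
      · exact h1.1 rfl
    rw [← hy1y, ← heq]
    exact hG'
  -- symmetric copies
  have hiw : ∀ G : Finset V, w ∈ G.image φ ↔ φ w ∈ G := fun G => mem_image_invol hφ
  have hii : ∀ A : Finset V, (A.image φ).image φ = A := by
    intro A
    ext x
    rw [mem_image_invol hφ, mem_image_invol hφ, hφ]
  have himT : ∀ G : Finset V, G.image φ ∈ T.support ↔ G ∈ T.support := by
    intro G
    constructor
    · intro h
      have := hs.symm _ h
      rwa [hii] at this
    · exact hs.symm G
  set σ := insert w F with hσ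
  set σ' := σ.image φ with hσ'
  set A := bd (sg σ) with hA
  set B := bd (sg σ') with hB
  have hσc : σ.card = d + 1 := by rw [hσ, Finset.card_insert_of_notMem hwF, hFc]
  have hσ'c : σ'.card = d + 1 := by rw [hσ', Finset.card_image_of_injective _ hφ.injective, hσc]
  have hAmem : ∀ G, G ∈ A.support ↔ G = F ∨ ∃ y ∈ F, G = insert w (F.erase y) := by
    intro G
    rw [hA, mem_supp_bd_sg]
    constructor
    · rintro ⟨z, hz, rfl⟩
      rw [hσ, Finset.mem_insert] at hz
      rcases hz with rfl | hz
      · left; rw [hσ, Finset.erase_insert hwF]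
      · right
        refine ⟨z, hz, ?_⟩
        have : w ≠ z := fun h => hwF (h ▸ hz)
        rw [hσ, Finset.erase_insert_of_ne this]
    · rintro (rfl | ⟨y, hy, rfl⟩)
      · exact ⟨w, Finset.mem_insert_self _ _, by rw [hσ, Finset.erase_insert hwF]⟩
      · have : w ≠ y := fun h => hwF (h ▸ hy)
        exact ⟨y, Finset.mem_insert_of_mem hy, by rw [hσ, Finset.erase_insert_of_ne this]⟩
  have hBmem : ∀ G, G ∈ B.support ↔ G.image φ ∈ A.support := by
    intro G
    rw [hA, hB, mem_supp_bd_sg, mem_supp_bd_sg]
    constructor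
    · rintro ⟨z, hz, rfl⟩
      rw [hσ', mem_image_invol hφ] at hz
      refine ⟨φ z, hz, ?_⟩
      ext x
      rw [mem_image_invol hφ, Finset.mem_erase, Finset.mem_erase, hσ', mem_image_invol hφ, hφ]
      constructor
      · rintro ⟨h1, h2⟩
        exact ⟨fun h => h1 (by rw [h, hφ]), h2⟩
      · rintro ⟨h1, h2⟩
        exact ⟨fun h => h1 (by rw [← h, hφ]), h2⟩
    · rintro ⟨z, hz, hGz⟩
      refine ⟨φ z, by rw [hσ', mem_image_invol hφ, hφ]; exact hz, ?_⟩
      ext x
      have h1 : x ∈ G ↔ φ x ∈ G.image φ := by rw [mem_image_invol hφ, hφ]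
      rw [h1, hGz, Finset.mem_erase, Finset.mem_erase, hσ', mem_image_invol hφ]
      constructor
      · rintro ⟨h1, h2⟩
        exact ⟨fun h => h1 (by rw [h, hφ]), h2⟩
      · rintro ⟨h1, h2⟩
        exact ⟨fun h => h1 (by rw [← h, hφ]), h2⟩
  have hwAB : ∀ G, w ∈ G → (G ∈ A.support ↔ G ∈ T.support) := by
    intro G hwG
    rw [hAmem]
    constructor
    · rintro (rfl | ⟨y, hy, rfl⟩)
      · exact absurd hwG hwF
      · exact hstar y hy
    · intro hG
      right
      exact hform G hG hwG
  have hwA' : ∀ G, w ∉ G → (G ∈ A.support ↔ G = F) := by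
    intro G hwG
    rw [hAmem]
    constructor
    · rintro (h | ⟨y, hy, rfl⟩)
      · exact h
      · exact absurd (Finset.mem_insert_self _ _) hwG
    · intro h; left; exact h
  have hφA : ∀ G ∈ A.support, φ w ∉ G := by
    intro G hG hcon
    rw [hAmem] at hG
    rcases hG with rfl | ⟨y, hy, rfl⟩
    · exact hφwF hcon
    · rw [Finset.mem_insert, Finset.mem_erase] at hcon
      rcases hcon with h | h
      · exact hφ' w h
      · exact hφwF h.2
  have hB1 : ∀ G, φ w ∈ G → (G ∈ B.support ↔ G ∈ T.support) := by
    intro G hG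
    rw [hBmem, hwAB _ ((hiw G).mpr hG), himT]
  have hB2 : ∀ G, φ w ∉ G → (G ∈ B.support ↔ G = F.image φ) := by
    intro G hG
    rw [hBmem, hwA' _ (fun h => hG ((hiw G).mp h))]
    constructor
    · intro h; rw [← h, hii]
    · intro h; rw [h, hii]
  have hwB : ∀ G ∈ B.support, w ∉ G := by
    intro G hG hcon
    rw [hBmem] at hG
    exact hφA _ hG ((mem_image_invol hφ).mpr (by rw [hφ]; exact hcon))
  have hφwT : φ w ∈ vert T := hs.vert_phi w hw
  have hFT : F ∉ T.support := by
    intro hF
    have hsubA : A.support ⊆ T.support := by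
      intro G hG
      rw [hAmem] at hG
      rcases hG with rfl | ⟨y, hy, rfl⟩
      · exact hF
      · exact hstar y hy
    rcases hT.2.2 A (bd_bd _) hsubA with h | h
    · have : F ∈ A.support := (hAmem F).mpr (Or.inl rfl)
      rw [h] at this
      simp at this
    · obtain ⟨G, hG, hwG⟩ := mem_vert.mp hφwT
      rw [← h] at hG
      exact hφA G hG hwG
  have hFT' : F.image φ ∉ T.support := by rw [himT]; exact hFT
  have hFF : F ≠ F.image φ := by
    intro h
    obtain ⟨x, hx⟩ : F.Nonempty := Finset.card_pos.mp (by omega)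
    have hx' : φ x ∈ F.image φ := Finset.mem_image_of_mem φ hx
    rw [← h] at hx'
    exact hFn x hx hx'
  have hwFi : w ∉ F.image φ := by rw [hiw]; exact hφwF
  have hφwFi : φ w ∉ F.image φ := by rw [mem_image_invol hφ, hφ]; exact hwF
  set T1 := T + (A + B) with hT1
  have hABmem : ∀ G, G ∈ (A + B).support ↔ G ∈ A.support ∨ G ∈ B.support := by
    intro G
    rw [mem_supp_add]
    constructor
    · rintro (h | h)
      · left; exact h.1
      · right; exact h.2
    · rintro (h | h)
      · left
        refine ⟨h, fun h' => ?_⟩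
        have h1 := hwB G h'
        have h2 := hφA G h
        rw [hwA' G h1] at h
        rw [hB2 G h2] at h'
        exact hFF (h ▸ h')
      · right
        refine ⟨fun h' => ?_, h⟩
        have h1 := hwB G h
        have h2 := hφA G h'
        rw [hwA' G h1] at h'
        rw [hB2 G h2] at h
        exact hFF (h' ▸ h)
  have hT1mem : ∀ G, G ∈ T1.support ↔ (G ∈ T.support ∧ w ∉ G ∧ φ w ∉ G) ∨ G = F ∨
      G = F.image φ := by
    intro G
    rw [hT1, mem_supp_add, hABmem]
    by_cases h1 : w ∈ G
    · have h2 : G ∉ B.support := fun h => hwB G h h1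
      have h3 := hwAB G h1
      have h4 : G ≠ F := fun h => hwF (h ▸ h1)
      have h5 : G ≠ F.image φ := fun h => hwFi (h ▸ h1)
      tauto
    · by_cases h2 : φ w ∈ G
      · have h3 : G ∉ A.support := fun h => hφA G h h2
        have h4 := hB1 G h2
        have h5 : G ≠ F := fun h => hφwF (h ▸ h2)
        have h6 : G ≠ F.image φ := fun h => hφwFi (h ▸ h2)
        tauto
      · rw [hwA' G h1, hB2 G h2]
        constructor
        · rintro (⟨h3, h4⟩ | ⟨h3, h4⟩)
          · left; exact ⟨h3, h1, h2⟩
          · right; exact h4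
        · rintro (h | h | h)
          · left
            refine ⟨h.1, ?_⟩
            rintro (h' | h')
            · exact hFT (h' ▸ h.1)
            · exact hFT' (h' ▸ h.1)
          · right
            exact ⟨h ▸ hFT, Or.inl h⟩
          · right
            exact ⟨h ▸ hFT', Or.inr h⟩
  have hAc : IsCyc d A := by
    refine ⟨bd_bd _, ?_⟩
    intro G hG
    obtain ⟨z, hz, rfl⟩ := mem_supp_bd_sg.mp hG
    rw [Finset.card_erase_of_mem hz, hσc]
    omega
  have hBc : IsCyc d B := by
    refine ⟨bd_bd _, ?_⟩
    intro G hG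
    obtain ⟨z, hz, rfl⟩ := mem_supp_bd_sg.mp hG
    rw [Finset.card_erase_of_mem hz, hσ'c]
    omega
  have hT1c : IsCyc d T1 := hT.cyc.add (hAc.add hBc)
  have hFT1 : F ∈ T1.support := (hT1mem F).mpr (Or.inr (Or.inl rfl))
  obtain ⟨y0, hy0⟩ : F.Nonempty := Finset.card_pos.mp (by omega)
  have hT1m : MinCyc d T1 := by
    refine ⟨?_, hT1c, ?_⟩
    · intro h
      rw [h] at hFT1
      simp at hFT1
    · intro X hX hXT
      set Zα := if F ∈ X.support then A else 0 with hZα
      set Zβ := if F.image φ ∈ X.support then B else 0 with hZβ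
      have hXw : ∀ G ∈ X.support, w ∉ G ∧ φ w ∉ G := by
        intro G hG
        have := (hT1mem G).mp (hXT hG)
        rcases this with h | rfl | rfl
        · exact h.2
        · exact ⟨hwF, hφwF⟩
        · exact ⟨hwFi, hφwFi⟩
      have hαm : ∀ G, G ∈ Zα.support ↔ F ∈ X.support ∧ G ∈ A.support := by
        intro G
        rw [hZα]
        split_ifs with h
        · simp [h]
        · simp [h]
      have hβm : ∀ G, G ∈ Zβ.support ↔ F.image φ ∈ X.support ∧ G ∈ B.support := by
        intro G
        rw [hZβ]
        split_ifs with h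
        · simp [h]
        · simp [h]
      have hbα : bd Zα = 0 := by
        rw [hZα]; split_ifs
        · exact bd_bd _
        · exact map_zero _
      have hbβ : bd Zβ = 0 := by
        rw [hZβ]; split_ifs
        · exact bd_bd _
        · exact map_zero _
      have hAy : insert w (F.erase y0) ∈ A.support := (hAmem _).mpr (Or.inr ⟨y0, hy0, rfl⟩)
      have hwy0 : w ∈ insert w (F.erase y0) := Finset.mem_insert_self _ _
      have hBy : (insert w (F.erase y0)).image φ ∈ B.support := by rw [hBmem, hii]; exact hAy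
      have hφwy0 : φ w ∈ (insert w (F.erase y0)).image φ := Finset.mem_image_of_mem φ hwy0
      have hsub' : (X + (Zα + Zβ)).support ⊆ T.support := by
        intro G hG
        by_contra hGT
        rw [mem_supp_add, mem_supp_add, hαm, hβm] at hG
        by_cases h1 : w ∈ G
        · have h2 : G ∉ X.support := fun h => (hXw G h).1 h1
          have h3 : G ∉ B.support := fun h => hwB G h h1
          have h4 := hwAB G h1
          tauto
        · by_cases h2 : φ w ∈ G
          · have h3 : G ∉ X.support := fun h => (hXw G h).2 h2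
            have h4 : G ∉ A.support := fun h => hφA G h h2
            have h5 := hB1 G h2
            tauto
          · rw [hwA' G h1, hB2 G h2] at hG
            by_cases h3 : G = F
            · subst h3
              have : G ≠ G.image φ := hFF
              tauto
            · by_cases h4 : G = F.image φ
              · rw [← h4] at hG
                tauto
              · have h5 : G ∉ X.support := by
                  intro h
                  have := (hT1mem G).mp (hXT h)
                  tauto
                tauto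
      rcases hT.2.2 _ (by rw [map_add, map_add, hX, hbα, hbβ, add_zero, add_zero]) hsub'
        with h | h
      · left
        have hXe : X = Zα + Zβ := eq_of_add_eq_zero h
        have h1 : F ∉ X.support := by
          intro hF
          have h2 : insert w (F.erase y0) ∈ X.support := by
            rw [hXe, mem_supp_add, hαm, hβm]
            left
            exact ⟨⟨hF, hAy⟩, fun h' => hwB _ h'.2 hwy0⟩
          exact (hXw _ h2).1 hwy0
        have h2 : F.image φ ∉ X.support := by
          intro hF
          have h2 : (insert w (F.erase y0)).image φ ∈ X.support := by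
            rw [hXe, mem_supp_add, hαm, hβm]
            right
            exact ⟨fun h' => hφA _ h'.2 hφwy0, ⟨hF, hBy⟩⟩
          exact (hXw _ h2).2 hφwy0
        rw [hXe, hZα, hZβ, if_neg h1, if_neg h2, add_zero]
      · right
        have hXe : X = T + (Zα + Zβ) := by
          rw [← h, add_assoc, add_self_ch, add_zero]
        have h1 : F ∈ X.support := by
          by_contra hF
          have h2 : insert w (F.erase y0) ∈ X.support := by
            rw [hXe, mem_supp_add, mem_supp_add, hαm, hβm]
            left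
            refine ⟨hstar y0 hy0, ?_⟩
            rintro (h' | h')
            · exact hF h'.1.1
            · exact hwB _ h'.2.2 hwy0
          exact (hXw _ h2).1 hwy0
        have h2 : F.image φ ∈ X.support := by
          by_contra hF
          have h2 : (insert w (F.erase y0)).image φ ∈ X.support := by
            rw [hXe, mem_supp_add, mem_supp_add, hαm, hβm]
            left
            refine ⟨hs.symm _ (hstar y0 hy0), ?_⟩
            rintro (h' | h')
            · exact hφA _ h'.1.2 hφwy0
            · exact hF h'.2.1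
          exact (hXw _ h2).2 hφwy0
        rw [hXe, hZα, hZβ, if_pos h1, if_pos h2]
  have hT1s : SymFam φ d T1.support := by
    refine ⟨hT1c.2, ?_, ?_⟩
    · intro G hG
      rw [hT1mem] at hG ⊢
      rcases hG with ⟨h1, h2, h3⟩ | rfl | rfl
      · left
        refine ⟨hs.symm G h1, by rw [hiw]; exact h3, by rw [mem_image_invol hφ, hφ]; exact h2⟩
      · right; right; rfl
      · right; left; exact hii F
    · intro G hG
      rw [hT1mem] at hG
      rcases hG with ⟨h1, h2, h3⟩ | rfl | rfl
      · exact hs.anti G h1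
      · exact hFn
      · intro x hx hx'
        rw [mem_image_invol hφ] at hx hx'
        exact hFn _ hx hx'
  refine ⟨T1, hT1m, hT1s, ⟨hFT1, ?_, ?_, ?_⟩⟩
  · intro G hG
    rw [hT1mem] at hG
    rcases hG with ⟨h1, h2, h3⟩ | rfl | rfl
    · exact h2
    · exact hwF
    · exact hwFi
  · intro G hG
    rw [hT1mem] at hG
    rcases hG with ⟨h1, h2, h3⟩ | rfl | rfl
    · exact h3
    · exact hφwF
    · exact hφwFi
  · intro G
    rw [hT1mem]
    constructor
    · intro hG
      by_cases h1 : w ∈ G
      · right; left; exact hform G hG h1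
      by_cases h2 : φ w ∈ G
      · right; right
        obtain ⟨y, hy, hyG⟩ := hform (G.image φ) (hs.symm G hG) ((hiw G).mpr h2)
        refine ⟨y, hy, ?_⟩
        rw [← Finset.image_insert, ← hyG, hii]
      · left
        exact ⟨Or.inl ⟨hG, h1, h2⟩, fun h => hFT (h ▸ hG), fun h => hFT' (h ▸ hG)⟩
    · rintro (⟨h1, h2, h3⟩ | ⟨y, hy, rfl⟩ | ⟨y, hy, rfl⟩)
      · rcases h1 with h1 | h1 | h1
        · exact h1.1
        · exact absurd h1 h2
        · exact absurd h1 h3
      · exact hstar y hy
      · rw [← Finset.image_insert, himT]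
        exact hstar y hy

/-- The equality case for symmetric minimal cycles. -/
theorem sym_eq (hφ : Function.Involutive φ) (hφ' : ∀ x, φ x ≠ x) (hd4 : 4 ≤ d) (n : ℕ) :
    ∀ T : Ch V, MinCyc d T → SymFam φ d T.support → (fv T.support).card = n →
      d * (fv T.support).card = (fe T.support).card + 2 * d → Stk φ d T.support := by
  induction n using Nat.strong_induction_on with
  | _ n ih =>
  intro T hT hs hn heq
  obtain ⟨f, hf⟩ := (good_eventually (d := d) φ).exists
  obtain ⟨F0, hF0⟩ := hT.nonempty
  obtain ⟨u, hu⟩ : F0.Nonempty := Finset.card_pos.mp (by rw [hs.card F0 hF0]; omega)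
  have hrig := hs.rigA hφ hφ' (by omega) hT hf
  have hI := count_eq hφ hφ' (hs.gg hφ hφ') hs.vert_phi ⟨u, subset_vert hF0 hu⟩ hrig
    (by rw [es_adj, vert_eq_fv]; exact heq)
  rcases exists_deg hφ hφ' hd4 hT hs.vert_phi (hs.gg hφ hφ') hf hI with
    h | ⟨w, F, hw, hFc, hwn, hwF, hnb, -⟩
  · refine Stk.base (vert T) hs.vert_phi h _ ?_
    intro F
    constructor
    · intro hF
      exact ⟨subset_vert hF, hs.anti F hF, hs.card F hF⟩
    · rintro ⟨h1, h2, h3⟩
      refine flip_closed hφ hφ' hs.vert_phi (k := d) (by omega) (fun G => G ∈ T.support) ?_ _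
        F0 (subset_vert hF0) (hs.anti F0 hF0) (hs.card F0 hF0) hF0 F h1 h2 h3 rfl
      intro ρ h4 h5 h6 h7 x hx
      obtain ⟨z, hz, hG⟩ := exists_cross hT.cyc.1 h7 hx
      have hzv : z ∈ vert T := subset_vert hG (Finset.mem_insert_self _ _)
      have hzx : z = φ x := by
        by_contra hne
        have h8 : φ z ∉ ρ := by
          intro h'
          exact hs.anti _ hG z (Finset.mem_insert_self _ _) (Finset.mem_insert_of_mem
            (Finset.mem_erase.mpr ⟨fun h'' => hne (by rw [← h'', hφ]), h'⟩))
        have h10 : NoAnti φ (insert z ρ) := by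
          intro y hy hy'
          rw [Finset.mem_insert] at hy hy'
          rcases hy with rfl | hy
          · rcases hy' with h' | h'
            · exact hφ' _ h'
            · exact h8 h'
          · rcases hy' with h' | h'
            · exact h8 (by rw [← h', hφ]; exact hy)
            · exact h5 y hy h'
        have h11 := noAnti_card (X := vert T) hφ h10 (by
          intro y hy
          rw [Finset.mem_insert] at hy
          rcases hy with rfl | hy
          · exact hzv
          · exact h4 hy) (by
          intro y hy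
          rw [Finset.mem_insert] at hy
          rcases hy with rfl | hy
          · exact hs.vert_phi _ hzv
          · exact hs.vert_phi _ (h4 hy))
        rw [Finset.card_insert_of_notMem hz] at h11
        omega
      rw [← hzx]
      exact hG
  · obtain ⟨T1, hT1, hs1, hr⟩ := unstack hφ hφ' (by omega) hT hs hw hFc hwn hwF hnb
    have h1 := hr.fv_card hφ hφ' hs1 (by omega)
    have h2 := hr.fe_card hφ hφ' hs1 (by omega)
    refine Stk.step _ _ F w (ih _ (by omega) T1 hT1 hs1 rfl ?_) hr
    rw [h1, h2] at heq
    nlinarith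

end unstack

end Pool.Agent.CSLBT
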