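import Pool.Agent.CSLBT.GeoConv
import Pool.Agent.CSLBT.Unstack

set_option linter.unusedSectionVars false
set_option linter.unusedVariables false

namespace Pool.Agent.CSLBT

open Matrix Topology Filter

section complexes

variable {V : Type*} [Fintype V] [DecidableEq V] {d : ℕ} {φ : V → V}

open Classical in
/-- the facets of `K` -/
noncomputable def facets (K : AbstractSimplicialComplex V) (d : ℕ) : Finset (Finset V) :=
  Finset.univ.filter (fun G => G ∈ K.faces ∧ G.card = d)

lemma mem_facets {K : AbstractSimplicialComplex V} {G : Finset V} :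
    G ∈ facets K d ↔ G ∈ K.faces ∧ G.card = d := by
  simp [facets]

/-- the sum of the members of a family -/
noncomputable def chOf (𝓕 : Finset (Finset V)) : Ch V := ∑ G ∈ 𝓕, sg G

lemma chOf_supp (𝓕 : Finset (Finset V)) : (chOf 𝓕).support = 𝓕 := by
  classical
  ext F
  rw [mem_supp, chOf, Finsupp.finsetSum_apply]
  simp only [sg_apply]
  rw [Finset.sum_ite_eq']
  split_ifs with h
  · simp [h]
  · simp only [h, iff_false]
    decide

lemma down (K : AbstractSimplicialComplex V) {F G : Finset V} (hG : G ∈ K.faces) (hFG : F ⊆ G)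
    (hF : F.Nonempty) : F ∈ K.faces := (K.isRelLowerSet_faces hG).2 hFG hF

/-- value of the boundary of a chain at a ridge -/
lemma bd_apply (X : Ch V) (hX : ∀ F ∈ X.support, F.card = d) {R : Finset V}
    (hR : R.card + 1 = d) : bd X R = ((X.support.filter (fun G => R ⊆ G)).card : ZMod 2) := by
  classical
  rw [lin_apply]
  rw [Finset.card_filter, Nat.cast_sum]
  refine Finset.sum_congr rfl fun G hG => ?_
  split_ifs with h
  · have hGR : R ∈ (bd (sg G)).support := by
      rw [mem_supp_bd_sg]
      have hGc := hX G hG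
      obtain ⟨w, hw, hwR⟩ := Finset.exists_mem_notMem_of_card_lt_card (s := R) (t := G) (by omega)
      refine ⟨w, hw, Finset.eq_of_subset_of_card_le ?_ ?_⟩
      · intro x hx
        exact Finset.mem_erase.mpr ⟨fun h' => hwR (h' ▸ hx), h hx⟩
      · rw [Finset.card_erase_of_mem hw]; omega
    rw [mem_supp.mp hGR]
    simp
  · have hGR : R ∉ (bd (sg G)).support := by
      rw [mem_supp_bd_sg]
      rintro ⟨w, hw, rfl⟩
      exact h (Finset.erase_subset _ _)
    rw [Finsupp.notMem_support_iff.mp hGR]
    simp

/-- the facets of a normal pseudomanifold form a minimal cycle -/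
theorem IsNormalPseudomanifold.minCyc {K : AbstractSimplicialComplex V}
    (hK : IsNormalPseudomanifold K d) (hd : 2 ≤ d) : MinCyc d (chOf (facets K d)) := by
  classical
  set 𝓕 := facets K d with h𝓕
  have hmem : ∀ G, G ∈ 𝓕 ↔ G ∈ K.faces ∧ G.card = d := fun G => mem_facets
  have hcard : ∀ G ∈ 𝓕, G.card = d := fun G hG => ((hmem G).mp hG).2
  have hne : 𝓕.Nonempty := by
    obtain ⟨⟨x, hx⟩⟩ := hK.connected.nonempty
    obtain ⟨G, hG, -, hGc⟩ := hK.pure _ hx.2
    exact ⟨G, (hmem G).mpr ⟨hG, hGc⟩⟩
  -- facets above a ridge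
  have hridge : ∀ R : Finset V, R.card + 1 = d → (∃ G ∈ 𝓕, R ⊆ G) →
      (𝓕.filter (fun G => R ⊆ G)).card = 2 := by
    rintro R hR ⟨G, hG, hRG⟩
    have hRne : R.Nonempty := Finset.card_pos.mp (by omega)
    have hRK := down K ((hmem G).mp hG).1 hRG hRne
    have := hK.ridge R hRK hR
    rw [← this, ← Set.ncard_coe_finset]
    congr 1
    ext G'
    simp only [Finset.coe_filter, hmem]
    constructor
    · rintro ⟨⟨h1, h2⟩, h3⟩
      exact ⟨h1, h3, h2⟩
    · rintro ⟨h1, h3, h2⟩
      exact ⟨⟨h1, h2⟩, h3⟩
  have hbd : bd (chOf 𝓕) = 0 := by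
    ext R
    by_cases hR : R.card + 1 = d
    · rw [bd_apply _ (by rw [chOf_supp]; exact hcard) hR, chOf_supp]
      by_cases h : ∃ G ∈ 𝓕, R ⊆ G
      · rw [hridge R hR h]; rfl
      · push Not at h
        rw [Finset.filter_false_of_mem (fun G hG => h G hG)]
        rfl
    · rw [Finsupp.coe_zero, Pi.zero_apply, ← Finsupp.notMem_support_iff]
      intro h
      obtain ⟨F, hF, x, hx, rfl⟩ := mem_supp_bd h
      rw [chOf_supp] at hF
      apply hR
      rw [Finset.card_erase_of_mem hx, hcard F hF]
      omega
  refine ⟨?_, ⟨hbd, by rw [chOf_supp]; exact hcard⟩, ?_⟩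
  · intro h
    obtain ⟨G, hG⟩ := hne
    rw [← chOf_supp 𝓕, h] at hG
    simp at hG
  · intro X hX hXs
    rw [chOf_supp] at hXs
    -- all facets containing a given face have the same status
    have key : ∀ n : ℕ, ∀ F : Finset V, F.card + n = d → ∀ G ∈ 𝓕, ∀ G' ∈ 𝓕, F ⊆ G → F ⊆ G' →
        G ∈ X.support → G' ∈ X.support := by
      intro n
      induction n with
      | zero =>
        intro F hF G hG G' hG' h1 h2 h3
        have e1 : F = G := Finset.eq_of_subset_of_card_le h1 (by rw [hcard G hG]; omega)
        have e2 : F = G' := Finset.eq_of_subset_of_card_le h2 (by rw [hcard G' hG']; omega)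
        rw [← e2, e1]; exact h3
      | succ n ih =>
        intro F hF G hG G' hG' h1 h2 h3
        by_cases hn : n = 0
        · -- ridge
          subst hn
          by_cases hGG : G = G'
          · rw [← hGG]; exact h3
          have h4 := hridge F hF ⟨G, hG, h1⟩
          have h5 : 𝓕.filter (fun G => F ⊆ G) = {G, G'} := by
            symm
            apply Finset.eq_of_subset_of_card_le
            · intro H hH
              rw [Finset.mem_insert, Finset.mem_singleton] at hH
              rw [Finset.mem_filter]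
              rcases hH with rfl | rfl
              · exact ⟨hG, h1⟩
              · exact ⟨hG', h2⟩
            · rw [h4, Finset.card_pair hGG]
          by_contra hcon
          have h6 : X.support.filter (fun G => F ⊆ G) = {G} := by
            ext H
            rw [Finset.mem_filter, Finset.mem_singleton]
            constructor
            · rintro ⟨h7, h8⟩
              have : H ∈ 𝓕.filter (fun G => F ⊆ G) := Finset.mem_filter.mpr ⟨hXs h7, h8⟩
              rw [h5, Finset.mem_insert, Finset.mem_singleton] at this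
              rcases this with h9 | h9
              · exact h9
              · exact absurd (h9 ▸ h7) hcon
            · rintro rfl
              exact ⟨h3, h1⟩
          have h7 := bd_apply X (fun F hF => hcard F (hXs hF)) hF
          rw [hX, h6, Finset.card_singleton, Finsupp.coe_zero, Pi.zero_apply, Nat.cast_one] at h7
          exact absurd h7 (by decide)
        · -- use connectivity of the link
          have hconn : (linkGraph K F).Connected := by
            by_cases hFe : F = ∅
            · rw [hFe]; exact hK.connected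
            · exact hK.link F (down K ((hmem G).mp hG).1 h1 (Finset.nonempty_iff_ne_empty.mpr hFe))
                (by omega)
          have hvx : ∀ H ∈ 𝓕, F ⊆ H → ∃ x : {x : V // x ∉ F ∧ insert x F ∈ K.faces},
              insert x.1 F ⊆ H := by
            intro H hH hFH
            obtain ⟨x, hx, hxF⟩ := Finset.exists_mem_notMem_of_card_lt_card (s := F) (t := H) (by
              rw [hcard H hH]; omega)
            have hsub : insert x F ⊆ H := Finset.insert_subset hx hFH
            exact ⟨⟨x, hxF, down K ((hmem H).mp hH).1 hsub (Finset.insert_nonempty _ _)⟩, hsub⟩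
          obtain ⟨x, hx⟩ := hvx G hG h1
          obtain ⟨x', hx'⟩ := hvx G' hG' h2
          obtain ⟨p⟩ := hconn.preconnected x x'
          -- walk induction
          have hwalk : ∀ (a b : {x : V // x ∉ F ∧ insert x F ∈ K.faces})
              (p : (linkGraph K F).Walk a b) (G G' : Finset V), G ∈ 𝓕 → G' ∈ 𝓕 →
              insert a.1 F ⊆ G → insert b.1 F ⊆ G' → G ∈ X.support → G' ∈ X.support := by
            intro a b p
            induction p with
            | nil =>
              intro G G' hG hG' h1 h2 h3
              rename_i a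
              refine ih (insert a.1 F) ?_ G hG G' hG' h1 h2 h3
              rw [Finset.card_insert_of_notMem a.2.1]; omega
            | cons hadj p ihp =>
              intro G G' hG hG' h1 h2 h3
              rename_i a b c
              obtain ⟨H, hH, hsub, hHc⟩ := hK.pure _ hadj.2
              have hH𝓕 : H ∈ 𝓕 := (hmem H).mpr ⟨hH, hHc⟩
              have hHX : H ∈ X.support := by
                refine ih (insert a.1 F) ?_ G hG H hH𝓕 h1 ?_ h3
                · rw [Finset.card_insert_of_notMem a.2.1]; omega
                · intro z hz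
                  apply hsub
                  rw [Finset.mem_insert] at hz
                  rcases hz with rfl | hz
                  · exact Finset.mem_insert_self _ _
                  · exact Finset.mem_insert_of_mem (Finset.mem_insert_of_mem hz)
              exact ihp H G' hH𝓕 hG' ((Finset.subset_insert _ _).trans hsub) h2 hHX
          exact hwalk x x' p G G' hG hG' hx hx' h3
    by_cases hX0 : X = 0
    · left; exact hX0
    right
    obtain ⟨G, hG⟩ := Finsupp.support_nonempty_iff.mpr hX0
    apply ch_ext_supp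
    rw [chOf_supp]
    apply Finset.Subset.antisymm hXs
    intro G' hG'
    exact key d ∅ (by simp) G (hXs hG) G' hG' (Finset.empty_subset _) (Finset.empty_subset _) hG

lemma IsCS.ne {K : AbstractSimplicialComplex V} (h : IsCS K φ) (x : V) : φ x ≠ x := by
  intro hx
  apply h.free {x} (K.singleton_mem x)
  rw [Finset.image_singleton, hx]

lemma IsCS.symFam {K : AbstractSimplicialComplex V} (h : IsCS K φ) :
    SymFam φ d (facets K d) := by
  refine ⟨fun F hF => (mem_facets.mp hF).2, ?_, ?_⟩
  · intro F hF
    obtain ⟨h1, h2⟩ := mem_facets.mp hF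
    exact mem_facets.mpr ⟨h.map_mem F h1,
      by rw [Finset.card_image_of_injective _ h.invol.injective, h2]⟩
  · intro F hF x hx hx'
    have h1 : ({x, φ x} : Finset V) ∈ K.faces := by
      refine down K (mem_facets.mp hF).1 ?_ (Finset.insert_nonempty _ _)
      intro z hz
      rw [Finset.mem_insert, Finset.mem_singleton] at hz
      rcases hz with rfl | rfl
      · exact hx
      · exact hx'
    apply h.free _ h1
    rw [Finset.image_insert, Finset.image_singleton, h.invol]
    exact Finset.pair_comm _ _

/-- pureness: faces are the nonempty subsets of facets -/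
def IsPure (K : AbstractSimplicialComplex V) (d : ℕ) : Prop :=
  ∀ F ∈ K.faces, ∃ G ∈ K.faces, F ⊆ G ∧ G.card = d

lemma pure_mem {K : AbstractSimplicialComplex V} (hK : IsPure K d) {F : Finset V}
    (hF : F.Nonempty) : F ∈ K.faces ↔ ∃ G ∈ facets K d, F ⊆ G := by
  constructor
  · intro h
    obtain ⟨G, hG, h1, h2⟩ := hK F h
    exact ⟨G, mem_facets.mpr ⟨hG, h2⟩, h1⟩
  · rintro ⟨G, hG, h1⟩
    exact down K (mem_facets.mp hG).1 h1 hF

lemma pure_fv {K : AbstractSimplicialComplex V} (hK : IsPure K d) :
    fv (facets K d) = Finset.univ := by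
  ext x
  rw [mem_fv]
  simp only [Finset.mem_univ, iff_true]
  obtain ⟨G, hG, h⟩ := (pure_mem hK (Finset.singleton_nonempty x)).mp (K.singleton_mem x)
  exact ⟨G, hG, h (Finset.mem_singleton_self x)⟩

lemma numFaces_one (K : AbstractSimplicialComplex V) : numFaces K 1 = Fintype.card V := by
  classical
  unfold numFaces
  have : {F : Finset V | F ∈ K.faces ∧ F.card = 1} =
      ((Finset.univ.image (fun x : V => ({x} : Finset V)) : Finset (Finset V)) : Set _) := by
    ext F
    simp only [Finset.coe_image, Finset.coe_univ, Set.image_univ, Set.mem_range]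
    constructor
    · rintro ⟨-, h⟩
      obtain ⟨x, rfl⟩ := Finset.card_eq_one.mp h
      exact ⟨x, rfl⟩
    · rintro ⟨x, rfl⟩
      exact ⟨K.singleton_mem x, Finset.card_singleton x⟩
  rw [this, Set.ncard_coe_finset, Finset.card_image_of_injective _ Finset.singleton_injective,
    Finset.card_univ]

lemma numFaces_two {K : AbstractSimplicialComplex V} (hK : IsPure K d) :
    numFaces K 2 = (fe (facets K d)).card := by
  classical
  unfold numFaces
  rw [← Set.ncard_coe_finset]
  congr 1
  ext e
  rw [Finset.mem_coe, mem_fe]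
  constructor
  · rintro ⟨h1, h2⟩
    exact ⟨h2, (pure_mem hK (Finset.card_pos.mp (by omega))).mp h1⟩
  · rintro ⟨h2, h1⟩
    exact ⟨(pure_mem hK (Finset.card_pos.mp (by omega))).mpr h1, h2⟩

lemma choose_succ_two (d : ℕ) : (((d + 1).choose 2 : ℕ) : ℤ) = ((d.choose 2 : ℕ) : ℤ) + d := by
  have : (d + 1).choose 2 = d.choose 1 + d.choose 2 := Nat.choose_succ_succ d 1
  rw [this, Nat.choose_one_right]
  push_cast
  ring

/-- `g₂` in terms of the facets -/
lemma g2_eq {K : AbstractSimplicialComplex V} (hK : IsPure K d) :
    g2 K d - (((d.choose 2 : ℕ) : ℤ) - d) =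
      ((fe (facets K d)).card : ℤ) + 2 * d - d * (fv (facets K d)).card := by
  unfold g2
  rw [numFaces_two hK, numFaces_one, pure_fv hK, choose_succ_two, Finset.card_univ]
  ring

/-- the realized complex -/
lemma Rlz.isBoundary (hd : 1 ≤ d) {K : AbstractSimplicialComplex V} (hK : IsPure K d)
    {p : V → Fin d → ℝ} (hp : Rlz φ d (facets K d) p) :
    IsBoundaryComplex K (CSLBT.hull (facets K d) p) p := by
  have hfv := pure_fv hK
  refine ⟨?_, ?_, ?_⟩
  · intro x y hxy
    exact hp.inj hd (by rw [hfv]; exact Finset.mem_univ _) (by rw [hfv]; exact Finset.mem_univ _)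
      hxy
  · unfold CSLBT.hull
    rw [hfv, Finset.coe_univ, Set.image_univ]
  · intro F hF
    rw [pure_mem hK hF]
    exact (hp.face_iff hd (by rw [hfv]; exact Finset.subset_univ _)).symm

/-- Boundary complexes of symmetrically stacked polytopes attain equality. -/
theorem count_of_boundary (hd : 3 ≤ d) {K : AbstractSimplicialComplex V}
    {P : Set (Fin d → ℝ)} (hP : SymStackedPoly d P) {q : V → Fin d → ℝ}
    (hB : IsBoundaryComplex K P q) : g2 K d = ((d.choose 2 : ℕ) : ℤ) - d := by
  classical
  obtain ⟨𝓕, p, hp, hh, hc⟩ := poly_to_rlz hd hP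
  have hd1 : 1 ≤ d := by omega
  have hPq : P = convexHull ℝ (q '' ((Finset.univ : Finset V) : Set V)) := by
    rw [Finset.coe_univ, Set.image_univ]; exact hB.hull
  -- matching the vertices
  have h1 : ∀ x : V, ∃ y ∈ fv 𝓕, p y = q x := by
    intro x
    have := ((hB.mem_iff {x} (Finset.singleton_nonempty x)).mp (K.singleton_mem x)).1
    rw [Finset.coe_singleton, Set.image_singleton, convexHull_singleton, ← hh] at this
    exact exposed_point this
  have h2 : ∀ y ∈ fv 𝓕, ∃ x : V, q x = p y := by
    intro y hy
    obtain ⟨G, hG, hyG⟩ := mem_fv.mp hy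
    have := ((hp.face_iff hd1 (F' := {y}) (Finset.singleton_subset_iff.mpr hy)).mpr
      ⟨G, hG, Finset.singleton_subset_iff.mpr hyG⟩).1
    rw [Finset.coe_singleton, Set.image_singleton, convexHull_singleton, hh, hPq] at this
    obtain ⟨x, -, hx⟩ := exposed_point this
    exact ⟨x, hx⟩
  choose ψ hψ1 hψ2 using h1
  have hψinj : Function.Injective ψ := by
    intro x x' h
    apply hB.inj
    rw [← hψ2, ← hψ2, h]
  have hψsurj : ∀ y ∈ fv 𝓕, ∃ x, ψ x = y := by
    intro y hy
    obtain ⟨x, hx⟩ := h2 y hy
    refine ⟨x, hp.inj hd1 (hψ1 x) hy ?_⟩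
    rw [hψ2, hx]
  have himg : ∀ F : Finset V, q '' (F : Set V) = p '' ((F.image ψ : Finset _) : Set _) := by
    intro F
    rw [Finset.coe_image, Set.image_image]
    apply Set.image_congr
    intro x _
    exact (hψ2 x).symm
  have hface : ∀ F : Finset V, F.Nonempty → (F ∈ K.faces ↔ ∃ G ∈ 𝓕, F.image ψ ⊆ G) := by
    intro F hF
    rw [hB.mem_iff F hF, himg, ← hh]
    apply hp.face_iff hd1
    intro y hy
    obtain ⟨x, -, rfl⟩ := Finset.mem_image.mp hy
    exact hψ1 x
  have hv : numFaces K 1 = (fv 𝓕).card := by
    rw [numFaces_one, ← Finset.card_univ, ← Finset.card_image_of_injective _ hψinj]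
    congr 1
    ext y
    rw [Finset.mem_image]
    constructor
    · rintro ⟨x, -, rfl⟩; exact hψ1 x
    · intro hy
      obtain ⟨x, hx⟩ := hψsurj y hy
      exact ⟨x, Finset.mem_univ _, hx⟩
  have he : numFaces K 2 = (fe 𝓕).card := by
    unfold numFaces
    have hset : {F : Finset V | F ∈ K.faces ∧ F.card = 2} =
        ((Finset.univ.filter (fun F : Finset V => F ∈ K.faces ∧ F.card = 2) :
          Finset (Finset V)) : Set _) := by
      ext F; simp
    rw [hset, Set.ncard_coe_finset]
    have hinj : Function.Injective (fun F : Finset V => F.image ψ) :=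
      Finset.image_injective hψinj
    rw [← Finset.card_image_of_injective _ hinj]
    congr 1
    ext e
    rw [Finset.mem_image, mem_fe]
    constructor
    · rintro ⟨F, hF, rfl⟩
      obtain ⟨-, h3, h4⟩ := Finset.mem_filter.mp hF
      refine ⟨by rw [Finset.card_image_of_injective _ hψinj, h4], ?_⟩
      exact (hface F (Finset.card_pos.mp (by omega))).mp h3
    · rintro ⟨h3, G, hG, heG⟩
      have he : e ⊆ fv 𝓕 := fun y hy => fv_of_mem hG (heG hy)
      refine ⟨Finset.univ.filter (fun x => ψ x ∈ e), ?_, ?_⟩
      swap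
      · ext y
        simp only [Finset.mem_image, Finset.mem_filter, Finset.mem_univ, true_and]
        constructor
        · rintro ⟨x, hx, rfl⟩; exact hx
        · intro hy
          obtain ⟨x, hx⟩ := hψsurj y (he hy)
          exact ⟨x, by rw [hx]; exact hy, hx⟩
      · have himg' : (Finset.univ.filter (fun x => ψ x ∈ e)).image ψ = e := by
          ext y
          simp only [Finset.mem_image, Finset.mem_filter, Finset.mem_univ, true_and]
          constructor
          · rintro ⟨x, hx, rfl⟩; exact hx
          · intro hy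
            obtain ⟨x, hx⟩ := hψsurj y (he hy)
            exact ⟨x, by rw [hx]; exact hy, hx⟩
        have hcd : (Finset.univ.filter (fun x => ψ x ∈ e)).card = 2 := by
          rw [← h3, ← himg', Finset.card_image_of_injective _ hψinj, himg']
        rw [Finset.mem_filter]
        refine ⟨Finset.mem_univ _, ?_, hcd⟩
        rw [hface _ (Finset.card_pos.mp (by omega)), himg']
        exact ⟨G, hG, heG⟩
  unfold g2
  rw [hv, he, choose_succ_two]
  have : ((fe 𝓕).card : ℤ) + 2 * d = d * (fv 𝓕).card := by exact_mod_cast hc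
  linarith

/-- The theorem for all pure centrally symmetric complexes whose facets form a minimal cycle. -/
theorem main_cyc (hd : 4 ≤ d) {K : AbstractSimplicialComplex V} (hcs : IsCS K φ)
    (hpure : IsPure K d) (hmin : MinCyc d (chOf (facets K d))) :
    ((d.choose 2 : ℕ) : ℤ) - d ≤ g2 K d ∧
    (g2 K d = ((d.choose 2 : ℕ) : ℤ) - d ↔
      ∃ (P : Set (Fin d → ℝ)) (p : V → Fin d → ℝ), SymStackedPoly d P ∧
        IsBoundaryComplex K P p) ∧
    (g2 K d = ((d.choose 2 : ℕ) : ℤ) - d →
      ∃ (P : Set (Fin d → ℝ)) (p : V → Fin d → ℝ), SymStackedPoly d P ∧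
        IsBoundaryComplex K P p ∧ ∀ x, p (φ x) = - p x) := by
  have hφ := hcs.invol
  have hφ' := hcs.ne
  have hs : SymFam φ d (chOf (facets K d)).support := by
    rw [chOf_supp]; exact hcs.symFam
  have hg := g2_eq hpure
  have hineq := sym_ineq hφ hφ' (by omega) hmin hs
  rw [chOf_supp] at hineq
  have hineq' : (d : ℤ) * (fv (facets K d)).card ≤ (fe (facets K d)).card + 2 * d := by
    exact_mod_cast hineq
  have hfwd : g2 K d = ((d.choose 2 : ℕ) : ℤ) - d →
      ∃ (P : Set (Fin d → ℝ)) (p : V → Fin d → ℝ), SymStackedPoly d P ∧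
        IsBoundaryComplex K P p ∧ ∀ x, p (φ x) = - p x := by
    intro heq
    have h1 : (d : ℤ) * (fv (facets K d)).card = (fe (facets K d)).card + 2 * d := by linarith
    have h2 : d * (fv (facets K d)).card = (fe (facets K d)).card + 2 * d := by exact_mod_cast h1
    have hstk := sym_eq hφ hφ' hd _ _ hmin hs rfl (by rw [chOf_supp]; exact h2)
    rw [chOf_supp] at hstk
    obtain ⟨p, hp, hP⟩ := stk_to_poly hφ hφ' (by omega) hstk
    refine ⟨_, p, hP, hp.isBoundary (by omega) hpure, fun x => ?_⟩
    exact hp.odd x (by rw [pure_fv hpure]; exact Finset.mem_univ _)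
  refine ⟨by linarith, ⟨fun h => ?_, ?_⟩, hfwd⟩
  · obtain ⟨P, p, h1, h2, -⟩ := hfwd h
    exact ⟨P, p, h1, h2⟩
  · rintro ⟨P, p, h1, h2⟩
    exact count_of_boundary (by omega) h1 h2

/-- The lower bound theorem for centrally symmetric normal pseudomanifolds. -/
theorem main_npm (hd : 4 ≤ d) {K : AbstractSimplicialComplex V} (hcs : IsCS K φ)
    (hK : IsNormalPseudomanifold K d) :
    ((d.choose 2 : ℕ) : ℤ) - d ≤ g2 K d ∧
    (g2 K d = ((d.choose 2 : ℕ) : ℤ) - d ↔
      ∃ (P : Set (Fin d → ℝ)) (p : V → Fin d → ℝ), SymStackedPoly d P ∧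
        IsBoundaryComplex K P p) ∧
    (g2 K d = ((d.choose 2 : ℕ) : ℤ) - d →
      ∃ (P : Set (Fin d → ℝ)) (p : V → Fin d → ℝ), SymStackedPoly d P ∧
        IsBoundaryComplex K P p ∧ ∀ x, p (φ x) = - p x) :=
  main_cyc hd hcs hK.pure (hK.minCyc (by omega))

end complexes

end Pool.Agent.CSLBT
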