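import Pool.Agent.CSLBT.Chain

set_option linter.unusedSectionVars false

namespace Pool.Agent.CSLBT

open Filter Matrix

section contract

variable {V : Type*} [Fintype V] [DecidableEq V] (φ : V → V)

/-- the vertex map of the symmetric contraction -/
def cm (u v : V) (x : V) : V := if x = v then u else if x = φ v then φ u else x

noncomputable def cc (u v : V) : Ch V →ₗ[ZMod 2] Ch V := con (φ v) (φ u) ∘ₗ con v u

noncomputable def HH (u v : V) : Ch V →ₗ[ZMod 2] Ch V :=
  hom v u + hom (φ v) (φ u) ∘ₗ con v u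

/-- nondegenerate under the contraction -/
def Nd (u v : V) (F : Finset V) : Prop := (F.image (cm φ u v)).card = F.card

instance (u v : V) (F : Finset V) : Decidable (Nd φ u v F) := by unfold Nd; infer_instance

def AntiAt (u : V) (T : Ch V) : Prop := ∀ F ∈ T.support, OneAnti φ u F

variable {φ}
variable (hφ : Function.Involutive φ) (hφ' : ∀ x, φ x ≠ x) {u v : V} (huv : u ≠ v)
  (hvu : v ≠ φ u)

include hφ in
lemma phi_ne {x y : V} (h : x ≠ y) : φ x ≠ φ y := fun h' => h (hφ.injective h')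

include hφ hvu in
lemma phiv_ne_u : φ v ≠ u := by
  rintro rfl
  exact hvu (hφ v).symm

lemma cm_v : cm φ u v v = u := by simp [cm]

include hφ' in
lemma cm_phiv : cm φ u v (φ v) = φ u := by simp [cm, hφ' v]

lemma cm_of_ne {x : V} (h1 : x ≠ v) (h2 : x ≠ φ v) : cm φ u v x = x := by simp [cm, h1, h2]

include hφ huv hvu in
lemma cm_u : cm φ u v u = u := cm_of_ne huv (phiv_ne_u hφ hvu).symm

include hφ huv hvu in
lemma cm_phiu : cm φ u v (φ u) = φ u := cm_of_ne hvu.symm (phi_ne hφ huv)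

include hφ hφ' in
lemma cm_symm (x : V) : cm φ (φ u) (φ v) x = cm φ u v x := by
  unfold cm
  by_cases h1 : x = v
  · subst h1
    have h2 : x ≠ φ x := (hφ' x).symm
    simp [hφ x, hφ u, h2]
  · by_cases h2 : x = φ v
    · simp [h2, hφ' v]
    · simp [h1, h2, hφ v]

include hφ huv hvu in
lemma cm_ne_v (x : V) : cm φ u v x ≠ v := by
  unfold cm
  split_ifs with h1 h2
  · exact huv
  · exact hvu.symm
  · exact h1

include hφ huv hvu in
lemma cm_ne_phiv (x : V) : cm φ u v x ≠ φ v := by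
  unfold cm
  split_ifs with h1 h2
  · exact (phiv_ne_u hφ hvu).symm
  · exact phi_ne hφ huv
  · exact h2

lemma image_cm_none {F : Finset V} (h1 : v ∉ F) (h2 : φ v ∉ F) : F.image (cm φ u v) = F := by
  ext x
  rw [Finset.mem_image]
  constructor
  · rintro ⟨y, hy, rfl⟩
    have e1 : y ≠ v := by rintro rfl; exact h1 hy
    have e2 : y ≠ φ v := by rintro rfl; exact h2 hy
    rwa [cm_of_ne e1 e2]
  · intro hx
    have e1 : x ≠ v := by rintro rfl; exact h1 hx
    have e2 : x ≠ φ v := by rintro rfl; exact h2 hx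
    exact ⟨x, hx, cm_of_ne e1 e2⟩

lemma image_cm_v {F : Finset V} (h1 : v ∈ F) (h2 : φ v ∉ F) :
    F.image (cm φ u v) = insert u (F.erase v) := by
  ext x
  rw [Finset.mem_image, Finset.mem_insert, Finset.mem_erase]
  constructor
  · rintro ⟨y, hy, rfl⟩
    by_cases hyv : y = v
    · left; rw [hyv, cm_v]
    · right
      have e2 : y ≠ φ v := by rintro rfl; exact h2 hy
      rw [cm_of_ne hyv e2]
      exact ⟨hyv, hy⟩
  · rintro (rfl | ⟨h3, h4⟩)
    · exact ⟨v, h1, cm_v⟩
    · have e2 : x ≠ φ v := by rintro rfl; exact h2 h4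
      exact ⟨x, h4, cm_of_ne h3 e2⟩

include hφ' in
lemma image_cm_phiv {F : Finset V} (h1 : φ v ∈ F) (h2 : v ∉ F) :
    F.image (cm φ u v) = insert (φ u) (F.erase (φ v)) := by
  ext x
  rw [Finset.mem_image, Finset.mem_insert, Finset.mem_erase]
  constructor
  · rintro ⟨y, hy, rfl⟩
    by_cases hyv : y = φ v
    · left; rw [hyv, cm_phiv hφ']
    · right
      have e2 : y ≠ v := by rintro rfl; exact h2 hy
      rw [cm_of_ne e2 hyv]
      exact ⟨hyv, hy⟩
  · rintro (rfl | ⟨h3, h4⟩)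
    · exact ⟨φ v, h1, cm_phiv hφ'⟩
    · have e2 : x ≠ v := by rintro rfl; exact h2 h4
      exact ⟨x, h4, cm_of_ne e2 h3⟩

lemma card_insert_erase {F : Finset V} {a b : V} (ha : a ∈ F) (hab : b ≠ a) :
    (insert b (F.erase a)).card = F.card ↔ b ∉ F := by
  have hpos : 0 < F.card := Finset.card_pos.mpr ⟨a, ha⟩
  by_cases hb : b ∈ F
  · rw [Finset.insert_eq_self.mpr (Finset.mem_erase.mpr ⟨hab, hb⟩), Finset.card_erase_of_mem ha]
    simp only [hb, not_true_eq_false, iff_false]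
    omega
  · rw [Finset.card_insert_of_notMem (fun h => hb (Finset.mem_of_mem_erase h)),
      Finset.card_erase_of_mem ha]
    simp only [hb, not_false_eq_true, iff_true]
    omega

include hφ hφ' huv hvu

lemma cc_sg {F : Finset V} (hF : ¬ (v ∈ F ∧ φ v ∈ F)) :
    cc φ u v (sg F) = if Nd φ u v F then sg (F.image (cm φ u v)) else 0 := by
  unfold cc
  rw [LinearMap.comp_apply, con_sg]
  by_cases hv : v ∈ F
  · have hv' : φ v ∉ F := fun h => hF ⟨hv, h⟩
    have hnd : Nd φ u v F ↔ u ∉ F := by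
      unfold Nd
      rw [image_cm_v hv hv', card_insert_erase hv huv]
    rw [if_pos hv, image_cm_v hv hv']
    by_cases hu : u ∈ F
    · rw [if_pos hu, map_zero, if_neg (fun h => hnd.mp h hu)]
    · rw [if_neg hu, if_pos (hnd.mpr hu), con_sg, if_neg]
      intro h
      rw [Finset.mem_insert, Finset.mem_erase] at h
      rcases h with h | h
      · exact phiv_ne_u hφ hvu h
      · exact hv' h.2
  · rw [if_neg hv, con_sg]
    by_cases hv' : φ v ∈ F
    · have hnd : Nd φ u v F ↔ φ u ∉ F := by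
        unfold Nd
        rw [image_cm_phiv hφ' hv' hv, card_insert_erase hv' (phi_ne hφ huv)]
      rw [if_pos hv', image_cm_phiv hφ' hv' hv]
      by_cases hu : φ u ∈ F
      · rw [if_pos hu, if_neg (fun h => hnd.mp h hu)]
      · rw [if_neg hu, if_pos (hnd.mpr hu)]
    · have hnd : Nd φ u v F := by
        unfold Nd
        rw [image_cm_none hv hv']
      rw [if_neg hv', image_cm_none hv hv', if_pos hnd]

lemma HH_sg {F : Finset V} (hF : ¬ (v ∈ F ∧ φ v ∈ F)) :
    HH φ u v (sg F) = (if v ∈ F ∧ u ∉ F then sg (insert u F) else 0) +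
      (if φ v ∈ F ∧ φ u ∉ F then sg (insert (φ u) F) else 0) := by
  unfold HH
  rw [LinearMap.add_apply, LinearMap.comp_apply, hom_sg, con_sg]
  congr 1
  by_cases hv : v ∈ F
  · have hv' : φ v ∉ F := fun h => hF ⟨hv, h⟩
    rw [if_pos hv]
    by_cases hu : u ∈ F
    · rw [if_pos hu, map_zero, if_neg (fun h => hv' h.1)]
    · have e1 : ¬ (φ v ∈ insert u (F.erase v) ∧ φ u ∉ insert u (F.erase v)) := by
        rintro ⟨h, -⟩
        rw [Finset.mem_insert, Finset.mem_erase] at h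
        rcases h with h | h
        · exact phiv_ne_u hφ hvu h
        · exact hv' h.2
      rw [if_neg hu, hom_sg, if_neg e1, if_neg (fun h => hv' h.1)]
  · rw [if_neg hv, hom_sg]

lemma HH_homotopy (T : Ch V) :
    bd (HH φ u v T) + HH φ u v (bd T) = T + cc φ u v T := by
  have h1 := homotopy v u huv T
  have h2 := homotopy (φ v) (φ u) (phi_ne hφ huv) (con v u T)
  have h3 : con v u (bd T) = bd (con v u T) := by
    have e1 := congrArg bd h1
    simp only [map_add, bd_bd, zero_add] at e1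
    have e2 := homotopy v u huv (bd T)
    simp only [bd_bd, map_zero, add_zero] at e2
    rw [e2] at e1
    exact add_left_cancel e1
  simp only [HH, cc, LinearMap.add_apply, LinearMap.comp_apply, map_add, h3]
  calc _ = (bd (hom v u T) + hom v u (bd T)) + (bd (hom (φ v) (φ u) (con v u T)) +
        hom (φ v) (φ u) (bd (con v u T))) := by abel
    _ = (T + con v u T) + (con v u T + con (φ v) (φ u) (con v u T)) := by rw [h1, h2]
    _ = T + (con v u T + con v u T) + con (φ v) (φ u) (con v u T) := by abel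
    _ = _ := by rw [add_self_ch, add_zero]

lemma bd_cc (T : Ch V) : cc φ u v (bd T) = bd (cc φ u v T) := by
  have h1 := HH_homotopy hφ hφ' huv hvu T
  have e1 := congrArg bd h1
  simp only [map_add, bd_bd, zero_add] at e1
  have e2 := HH_homotopy hφ hφ' huv hvu (bd T)
  simp only [bd_bd, map_zero, add_zero] at e2
  rw [e2] at e1
  exact add_left_cancel e1

lemma OneAnti.noBoth {F : Finset V} (h : OneAnti φ u F) : ¬ (v ∈ F ∧ φ v ∈ F) := by
  rintro ⟨h1, h2⟩
  rcases h v h1 h2 with h | h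
  · exact huv h.symm
  · exact hvu h

lemma not_nd {F : Finset V} (h1 : u ∈ F) (h2 : v ∈ F) : ¬ Nd φ u v F := by
  intro h
  rw [Nd, Finset.card_image_iff] at h
  exact huv (h h1 h2 (by rw [cm_u hφ huv hvu, cm_v]))

lemma not_nd' {F : Finset V} (h1 : φ u ∈ F) (h2 : φ v ∈ F) : ¬ Nd φ u v F := by
  intro h
  rw [Nd, Finset.card_image_iff] at h
  exact phi_ne hφ huv (h h1 h2 (by rw [cm_phiu hφ huv hvu, cm_phiv hφ']))

omit hφ hφ' huv hvu in
lemma OneAnti.mono {F G : Finset V} (h : OneAnti φ u F) (hG : G ⊆ F) : OneAnti φ u G :=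
  fun x hx hx' => h x (hG hx) (hG hx')

omit hφ' huv hvu in
lemma OneAnti.flip {F : Finset V} (h : OneAnti φ u F) : OneAnti φ (φ u) F := by
  intro x hx hx'
  rw [hφ u]
  exact (h x hx hx').symm

omit hφ' huv hvu in
lemma AntiAt.flip {T : Ch V} (h : AntiAt φ u T) : AntiAt φ (φ u) T :=
  fun F hF => (h F hF).flip hφ

/-- Analysis of an added facet `insert u R`. -/
lemma anal {T : Ch V} (hT : AntiAt φ u T) {Y : Ch V}
    (hY : ∀ R ∈ Y.support, ∃ F ∈ T.support, R ⊆ F)
    (hpart : ∀ R ∈ Y.support, Nd φ u v R → ∃ R1 ∈ Y.support, R1 ≠ R ∧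
      R1.image (cm φ u v) = R.image (cm φ u v) ∧ Nd φ u v R1)
    {R : Finset V} (hR : R ∈ Y.support) (hvR : v ∈ R) (huR : u ∉ R) :
    insert u R ⊆ vert T ∧
    (∀ x ∈ insert u R, ∀ y ∈ insert u R, x ≠ y → Adj T x y ∨ y = φ x ∨ (x = u ∧ y = v) ∨
      (x = v ∧ y = u)) ∧ OneAnti φ u (insert u R) := by
  obtain ⟨F0, hF0, hRF0⟩ := hY R hR
  have hnb : ∀ R ∈ Y.support, ¬ (v ∈ R ∧ φ v ∈ R) := by
    intro R hR
    obtain ⟨F, hF, hRF⟩ := hY R hR
    exact ((hT F hF).mono hRF).noBoth hφ hφ' huv hvu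
  have hv'R : φ v ∉ R := fun h => hnb R hR ⟨hvR, h⟩
  have hnd : Nd φ u v R := by
    rw [Nd, image_cm_v hvR hv'R, card_insert_erase hvR huv]
    exact huR
  obtain ⟨R1, hR1, hne, him, hnd1⟩ := hpart R hR hnd
  rw [image_cm_v hvR hv'R] at him
  have hv1 : v ∉ R1 := by
    intro hv1
    have hv1' : φ v ∉ R1 := fun h => hnb R1 hR1 ⟨hv1, h⟩
    have hu1 : u ∉ R1 := by
      rw [Nd, image_cm_v hv1 hv1', card_insert_erase hv1 huv] at hnd1
      exact hnd1
    rw [image_cm_v hv1 hv1'] at him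
    apply hne
    have e1 : R1.erase v = R.erase v := by
      have : (insert u (R1.erase v)).erase u = (insert u (R.erase v)).erase u := by rw [him]
      rwa [Finset.erase_insert (fun h => hu1 (Finset.mem_of_mem_erase h)),
        Finset.erase_insert (fun h => huR (Finset.mem_of_mem_erase h))] at this
    rw [← Finset.insert_erase hv1, e1, Finset.insert_erase hvR]
  have hmem : ∀ x, x ∈ insert u (R.erase v) → x ≠ φ u → x ∈ R1 := by
    intro x hx hxu
    rw [← him, Finset.mem_image] at hx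
    obtain ⟨y, hy, rfl⟩ := hx
    have hyv : y ≠ v := fun h => hv1 (h ▸ hy)
    by_cases hyv' : y = φ v
    · subst hyv'
      rw [cm_phiv hφ'] at hxu
      exact absurd rfl hxu
    · rwa [cm_of_ne hyv hyv']
  have hu1 : u ∈ R1 := hmem u (Finset.mem_insert_self _ _) (hφ' u).symm
  obtain ⟨F1, hF1, hR1F1⟩ := hY R1 hR1
  have hadj : ∀ x ∈ R, x ≠ v → x ≠ φ u → Adj T u x := by
    intro x hx hxv hxu
    refine ⟨fun h => huR (h ▸ hx), F1, hF1, hR1F1 hu1, hR1F1 (hmem x ?_ hxu)⟩
    exact Finset.mem_insert_of_mem (Finset.mem_erase.mpr ⟨hxv, hx⟩)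
  refine ⟨?_, ?_, ?_⟩
  · intro x hx
    rw [Finset.mem_insert] at hx
    rcases hx with rfl | hx
    · exact subset_vert hF1 (hR1F1 hu1)
    · exact subset_vert hF0 (hRF0 hx)
  · intro x hx y hy hxy
    rw [Finset.mem_insert] at hx hy
    rcases hx with rfl | hx
    · rcases hy with rfl | hy
      · exact absurd rfl hxy
      · by_cases h1 : y = v
        · right; right; left; exact ⟨rfl, h1⟩
        by_cases h2 : y = φ x
        · right; left; exact h2
        · left; exact hadj y hy h1 h2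
    · rcases hy with rfl | hy
      · by_cases h1 : x = v
        · right; right; right; exact ⟨h1, rfl⟩
        by_cases h2 : x = φ y
        · right; left; rw [h2, hφ]
        · left; exact (hadj x hx h1 h2).symm
      · left
        exact ⟨hxy, F0, hF0, hRF0 hx, hRF0 hy⟩
  · intro x hx hx'
    rw [Finset.mem_insert] at hx hx'
    rcases hx with rfl | hx
    · left; rfl
    · rcases hx' with hx' | hx'
      · right; rw [← hx', hφ]
      · exact hT F0 hF0 x (hRF0 hx) (hRF0 hx')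

omit hφ hφ' huv hvu in
variable (φ u v) in
/-- properties of added sets -/
def Okay (T : Ch V) (F : Finset V) : Prop :=
  F ⊆ vert T ∧ (∀ x ∈ F, ∀ y ∈ F, x ≠ y → Adj T x y ∨ y = φ x ∨ (x = φ u ∧ y = φ v) ∨
      (x = φ v ∧ y = φ u)) ∧ OneAnti φ u F

lemma HH_supp {T : Ch V} (hT : AntiAt φ u T) (hadj : Adj T u v) {Y : Ch V}
    (hY : ∀ R ∈ Y.support, ∃ F ∈ T.support, R ⊆ F) (hcc : cc φ u v Y = 0)
    {F : Finset V} (hF : F ∈ (HH φ u v Y).support) :
    Okay φ u v T F ∧ ∃ R ∈ Y.support, F.card = R.card + 1 ∧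
      ((v ∈ R ∧ F = insert u R) ∨ (φ v ∈ R ∧ F = insert (φ u) R)) := by
  have hnb : ∀ R ∈ Y.support, ¬ (v ∈ R ∧ φ v ∈ R) := by
    intro R hR
    obtain ⟨F, hF, hRF⟩ := hY R hR
    exact ((hT F hF).mono hRF).noBoth hφ hφ' huv hvu
  have hpart : ∀ R ∈ Y.support, Nd φ u v R → ∃ R1 ∈ Y.support, R1 ≠ R ∧
      R1.image (cm φ u v) = R.image (cm φ u v) ∧ Nd φ u v R1 := by
    intro R hR hnd
    have hG : R.image (cm φ u v) ∈ (cc φ u v (sg R)).support := by
      rw [cc_sg hφ hφ' huv hvu (hnb R hR), if_pos hnd, mem_supp_sg]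
    obtain ⟨R1, hR1, hne, hG1⟩ := exists_partner (L := cc φ u v) (T := Y) (by rw [hcc]; rfl) hR hG
    refine ⟨R1, hR1, hne, ?_⟩
    rw [cc_sg hφ hφ' huv hvu (hnb R1 hR1)] at hG1
    split_ifs at hG1 with h
    · rw [mem_supp_sg] at hG1
      exact ⟨hG1.symm, h⟩
    · simp at hG1
  obtain ⟨R, hR, hFR⟩ := exists_of_mem_supp hF
  rw [HH_sg hφ hφ' huv hvu (hnb R hR)] at hFR
  by_cases h1 : v ∈ R ∧ u ∉ R
  · have h2 : ¬ (φ v ∈ R ∧ φ u ∉ R) := fun h => hnb R hR ⟨h1.1, h.1⟩
    rw [if_pos h1, if_neg h2, add_zero, mem_supp_sg] at hFR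
    obtain ⟨a1, a2, a3⟩ := anal hφ hφ' huv hvu hT hY hpart hR h1.1 h1.2
    rw [← hFR] at a1 a2 a3
    refine ⟨⟨a1, ?_, a3⟩, R, hR, ?_, Or.inl ⟨h1.1, hFR⟩⟩
    · intro x hx y hy hxy
      rcases a2 x hx y hy hxy with h | h | ⟨rfl, rfl⟩ | ⟨rfl, rfl⟩
      · left; exact h
      · right; left; exact h
      · left; exact hadj
      · left; exact hadj.symm
    · rw [hFR, Finset.card_insert_of_notMem h1.2]
  · by_cases h2 : φ v ∈ R ∧ φ u ∉ R
    · rw [if_neg h1, if_pos h2, zero_add, mem_supp_sg] at hFR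
      have hcm : cm φ (φ u) (φ v) = cm φ u v := funext (cm_symm hφ hφ')
      have hpart' : ∀ R ∈ Y.support, Nd φ (φ u) (φ v) R → ∃ R1 ∈ Y.support, R1 ≠ R ∧
          R1.image (cm φ (φ u) (φ v)) = R.image (cm φ (φ u) (φ v)) ∧ Nd φ (φ u) (φ v) R1 := by
        intro R hR hnd
        unfold Nd at hnd ⊢
        rw [hcm] at hnd ⊢
        exact hpart R hR hnd
      obtain ⟨a1, a2, a3⟩ := anal hφ hφ' (phi_ne hφ huv) (phi_ne hφ hvu) (hT.flip hφ)
        hY hpart' hR h2.1 h2.2
      rw [← hFR] at a1 a2 a3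
      refine ⟨⟨a1, a2, ?_⟩, R, hR, ?_, Or.inr ⟨h2.1, hFR⟩⟩
      · have := a3.flip hφ
        rwa [hφ u] at this
      · rw [hFR, Finset.card_insert_of_notMem h2.2]
    · rw [if_neg h1, if_neg h2, add_zero] at hFR
      simp at hFR

end contract

end Pool.Agent.CSLBT
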