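import Pool.Agent.CSLBT.Rigid

set_option linter.unusedSectionVars false
set_option linter.unusedVariables false

namespace Pool.Agent.CSLBT

open Filter Matrix

section count

/-- representatives for a free involution on a finite set -/
lemma reps {α : Type*} [DecidableEq α] (ψ : α → α) (hψ : Function.Involutive ψ) (n : ℕ) :
    ∀ X : Finset α, X.card = n → (∀ x ∈ X, ψ x ∈ X) → (∀ x ∈ X, ψ x ≠ x) →
    ∃ Y ⊆ X, 2 * Y.card = X.card ∧ (∀ x ∈ Y, ψ x ∉ Y) ∧ ∀ x ∈ X, x ∈ Y ∨ ψ x ∈ Y := by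
  induction n using Nat.strong_induction_on with
  | _ n ih =>
  intro X hn hX hne
  by_cases h0 : X.Nonempty
  swap
  · rw [Finset.not_nonempty_iff_eq_empty] at h0
    subst h0
    exact ⟨∅, subset_rfl, rfl, fun x hx => by simp at hx, fun x hx => by simp at hx⟩
  obtain ⟨x, hx⟩ := h0
  have hx' : ψ x ∈ X.erase x := Finset.mem_erase.mpr ⟨hne x hx, hX x hx⟩
  have hcard : ((X.erase x).erase (ψ x)).card + 2 = X.card := by
    rw [Finset.card_erase_of_mem hx', Finset.card_erase_of_mem hx]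
    have h1 : 0 < (X.erase x).card := Finset.card_pos.mpr ⟨_, hx'⟩
    rw [Finset.card_erase_of_mem hx] at h1
    omega
  obtain ⟨Y, hY, hYc, hYn, hYX⟩ := ih ((X.erase x).erase (ψ x)).card (by omega)
    ((X.erase x).erase (ψ x)) rfl (by
      intro y hy
      simp only [Finset.mem_erase] at hy ⊢
      exact ⟨fun h => hy.2.1 (hψ.injective h), fun h => hy.1 (by rw [← h, hψ]), hX y hy.2.2⟩) (by
      intro y hy
      simp only [Finset.mem_erase] at hy
      exact hne y hy.2.2)
  have hxY : x ∉ Y := fun h => by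
    have := hY h
    simp at this
  have hxY' : ψ x ∉ Y := fun h => by
    have := hY h
    simp at this
  refine ⟨insert x Y, ?_, ?_, ?_, ?_⟩
  · intro y hy
    rw [Finset.mem_insert] at hy
    rcases hy with rfl | hy
    · exact hx
    · exact Finset.mem_of_mem_erase (Finset.mem_of_mem_erase (hY hy))
  · rw [Finset.card_insert_of_notMem hxY]
    omega
  · intro y hy hy'
    rw [Finset.mem_insert] at hy hy'
    rcases hy with rfl | hy
    · rcases hy' with h | h
      · exact hne y hx h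
      · exact hxY' h
    · rcases hy' with h | h
      · apply hxY'
        rw [← h, hψ]
        exact hy
      · exact hYn y hy h
  · intro y hy
    by_cases h1 : y = x
    · left; rw [h1]; exact Finset.mem_insert_self _ _
    by_cases h2 : y = ψ x
    · right; rw [h2, hψ]; exact Finset.mem_insert_self _ _
    rcases hYX y (Finset.mem_erase.mpr ⟨h2, Finset.mem_erase.mpr ⟨h1, hy⟩⟩) with h | h
    · left; exact Finset.mem_insert_of_mem h
    · right; exact Finset.mem_insert_of_mem h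

variable {V : Type*} [Fintype V] [DecidableEq V] {d : ℕ} (φ : V → V)

/-- symmetric graphs without antipodal edges -/
structure GG (G : V → V → Prop) : Prop where
  ne : ∀ x y, G x y → x ≠ y
  symm : ∀ x y, G x y → G y x
  anti : ∀ x y, G x y → y ≠ φ x
  phi : ∀ x y, G x y → G (φ x) (φ y)

open Classical in
/-- the edges of a graph, as two-element sets -/
noncomputable def es (G : V → V → Prop) : Finset (Finset V) :=
  Finset.univ.filter (fun e => ∃ x y, G x y ∧ e = {x, y})

lemma mem_es {G : V → V → Prop} {e : Finset V} : e ∈ es G ↔ ∃ x y, G x y ∧ e = {x, y} := by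
  classical
  simp [es]

/-- linear functional attached to an edge -/
def ellE (f : Fld V d) (e : Finset V) : Fld V d →ₗ[ℚ] ℚ := ∑ x ∈ e, ∑ y ∈ e, ellL φ f x y

lemma ellE_pair (f q : Fld V d) {x y : V} (h : x ≠ y) :
    ellE φ f {x, y} q = 2 * ell φ f q x y := by
  unfold ellE
  rw [Finset.sum_pair h, Finset.sum_pair h, Finset.sum_pair h]
  simp only [LinearMap.add_apply, ellL_apply, ell_self]
  rw [ell_comm φ f q y x]
  ring

def Same (x y a b : V) : Prop :=
  (a = x ∧ b = y) ∨ (a = y ∧ b = x) ∨ (a = φ x ∧ b = φ y) ∨ (a = φ y ∧ b = φ x)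

/-- independence of the edges in the space of symmetric fields -/
def Indep (f : Fld V d) (G : V → V → Prop) : Prop :=
  ∀ x y, G x y → ∃ q : Fld V d, Sym φ q ∧ ell φ f q x y ≠ 0 ∧
    ∀ a b, G a b → ¬ Same φ x y a b → ell φ f q a b = 0

variable {φ}

lemma Indep.mono {f : Fld V d} {G G' : V → V → Prop} (h : Indep φ f G)
    (hG : ∀ x y, G' x y → G x y) : Indep φ f G' := by
  intro x y hxy
  obtain ⟨q, h1, h2, h3⟩ := h x y (hG x y hxy)
  exact ⟨q, h1, h2, fun a b hab => h3 a b (hG a b hab)⟩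

lemma pair_eq {a b x y : V} (h : ({a, b} : Finset V) = {x, y}) (hab : a ≠ b) :
    (a = x ∧ b = y) ∨ (a = y ∧ b = x) := by
  have ha : a ∈ ({x, y} : Finset V) := by rw [← h]; simp
  have hb : b ∈ ({x, y} : Finset V) := by rw [← h]; simp
  simp only [Finset.mem_insert, Finset.mem_singleton] at ha hb
  rcases ha with rfl | rfl <;> rcases hb with rfl | rfl
  · exact absurd rfl hab
  · left; exact ⟨rfl, rfl⟩
  · right; exact ⟨rfl, rfl⟩
  · exact absurd rfl hab

section reps

variable (hφ : Function.Involutive φ) (hφ' : ∀ x, φ x ≠ x)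

include hφ

lemma image_invol : Function.Involutive (fun e : Finset V => e.image φ) := by
  intro e
  simp only [Finset.image_image]
  have : φ ∘ φ = id := funext hφ
  rw [this, Finset.image_id]

/-- representatives of the edges -/
lemma reps_es (hφ' : ∀ x, φ x ≠ x) {G : V → V → Prop} (hG : GG φ G) :
    ∃ E0 : Finset (Finset V), E0 ⊆ es G ∧ 2 * E0.card = (es G).card ∧
      (∀ e ∈ E0, e.image φ ∉ E0) ∧ ∀ e ∈ es G, e ∈ E0 ∨ e.image φ ∈ E0 := by
  refine reps (fun e : Finset V => e.image φ) (image_invol hφ) _ (es G) rfl ?_ ?_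
  · intro e he
    obtain ⟨x, y, hxy, rfl⟩ := mem_es.mp he
    refine mem_es.mpr ⟨φ x, φ y, hG.phi x y hxy, ?_⟩
    simp [Finset.image_insert]
  · intro e he heq
    obtain ⟨x, y, hxy, rfl⟩ := mem_es.mp he
    simp only [Finset.image_insert, Finset.image_singleton] at heq
    rcases pair_eq heq (phi_ne hφ (hG.ne x y hxy)) with h | h
    · exact hφ' x h.1
    · exact hG.anti x y hxy h.1.symm

lemma ell_of_rep {G : V → V → Prop} (hG : GG φ G) {f q : Fld V d} (hq : Sym φ q) {x y : V}
    (hxy : G x y) {e : Finset V} (he : e = {x, y} ∨ e = ({x, y} : Finset V).image φ) :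
    ellE φ f e q = 0 ↔ ell φ f q x y = 0 := by
  rcases he with rfl | rfl
  · rw [ellE_pair φ f q (hG.ne x y hxy)]
    simp
  · rw [Finset.image_insert, Finset.image_singleton,
      ellE_pair φ f q (phi_ne hφ (hG.ne x y hxy)), ell_anti φ hφ f q hq]
    simp

lemma same_of_rep {G : V → V → Prop} (hG : GG φ G) {x y a b : V} (hxy : G x y) (hab : G a b)
    {e : Finset V} (he : e = {x, y} ∨ e = ({x, y} : Finset V).image φ)
    (he' : e = {a, b} ∨ e = ({a, b} : Finset V).image φ) : Same φ x y a b := by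
  have hne := hG.ne a b hab
  have hne' := phi_ne hφ hne
  unfold Same
  rcases he with rfl | rfl <;> rcases he' with h | h
  · rcases pair_eq h.symm hne with h | h
    · left; exact h
    · right; left; exact h
  · rw [Finset.image_insert, Finset.image_singleton] at h
    rcases pair_eq h.symm hne' with h | h
    · right; right; left
      exact ⟨by rw [← h.1, hφ], by rw [← h.2, hφ]⟩
    · right; right; right
      exact ⟨by rw [← h.1, hφ], by rw [← h.2, hφ]⟩
  · rw [Finset.image_insert, Finset.image_singleton] at h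
    rcases pair_eq h.symm hne with h | h
    · right; right; left; exact h
    · right; right; right; exact h
  · rw [Finset.image_insert, Finset.image_singleton, Finset.image_insert,
      Finset.image_singleton] at h
    rcases pair_eq h.symm hne' with h | h
    · left; exact ⟨hφ.injective h.1, hφ.injective h.2⟩
    · right; left; exact ⟨hφ.injective h.1, hφ.injective h.2⟩

end reps

/-- extension of a field given on representatives -/
def extF (φ : V → V) (R : Finset V) : ({x // x ∈ R} → Fin d → ℚ) →ₗ[ℚ] Fld V d where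
  toFun r x := if h : x ∈ R then r ⟨x, h⟩ else if h : φ x ∈ R then r ⟨φ x, h⟩ else 0
  map_add' r s := by
    ext x
    simp only [Pi.add_apply]
    split_ifs <;> simp
  map_smul' c r := by
    ext x
    simp only [Pi.smul_apply, RingHom.id_apply]
    split_ifs <;> simp

lemma extF_sym (hφ : Function.Involutive φ) {R : Finset V} (hR : ∀ x ∈ R, φ x ∉ R)
    (r : {x // x ∈ R} → Fin d → ℚ) : Sym φ (extF φ R r) := by
  intro x
  simp only [extF, LinearMap.coe_mk, AddHom.coe_mk]
  by_cases h1 : x ∈ R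
  · have h2 : φ x ∉ R := hR x h1
    rw [dif_pos h1, dif_neg h2]
    have h3 : φ (φ x) ∈ R := by rw [hφ]; exact h1
    rw [dif_pos h3]
    congr 1
    exact Subtype.ext (hφ x)
  · by_cases h2 : φ x ∈ R
    · rw [dif_pos h2, dif_neg h1, dif_pos h2]
    · rw [dif_neg h1, dif_neg h2, dif_neg h2]
      have h3 : φ (φ x) ∉ R := by rw [hφ]; exact h1
      rw [dif_neg h3]

lemma extF_mem {R : Finset V} (r : {x // x ∈ R} → Fin d → ℚ) {x : V} (hx : x ∈ R) :
    extF φ R r x = r ⟨x, hx⟩ := by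
  simp only [extF, LinearMap.coe_mk, AddHom.coe_mk, dif_pos hx]

lemma extF_out {R : Finset V} (r : {x // x ∈ R} → Fin d → ℚ) {x : V} (hx : x ∉ R)
    (hx' : φ x ∉ R) : extF φ R r x = 0 := by
  simp only [extF, LinearMap.coe_mk, AddHom.coe_mk, dif_neg hx, dif_neg hx']

/-- the restricted rigidity matrix as a linear map -/
def rowF (φ : V → V) (f : Fld V d) (R : Finset V) (E0 : Finset (Finset V)) :
    ({x // x ∈ R} → Fin d → ℚ) →ₗ[ℚ] ({e // e ∈ E0} → ℚ) :=
  LinearMap.pi (fun e => (ellE φ f e.1) ∘ₗ (extF φ R))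

lemma rowF_apply (f : Fld V d) (R : Finset V) (E0 : Finset (Finset V))
    (r : {x // x ∈ R} → Fin d → ℚ) (e : {e // e ∈ E0}) :
    rowF φ f R E0 r e = ellE φ f e.1 (extF φ R r) := rfl

/-- representatives of the vertices with one class removed -/
lemma reps_vert (hφ : Function.Involutive φ) (hφ' : ∀ x, φ x ≠ x) {X : Finset V}
    (hX : ∀ x ∈ X, φ x ∈ X) {x0 : V} (hx0 : x0 ∈ X) :
    ∃ R ⊆ X, 2 * R.card + 2 = X.card ∧ (∀ x ∈ R, φ x ∉ R) ∧ x0 ∉ R ∧ φ x0 ∉ R ∧
      ∀ x ∈ X, x = x0 ∨ x = φ x0 ∨ x ∈ R ∨ φ x ∈ R := by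
  have hx' : φ x0 ∈ X.erase x0 := Finset.mem_erase.mpr ⟨hφ' x0, hX x0 hx0⟩
  have hcard : ((X.erase x0).erase (φ x0)).card + 2 = X.card := by
    rw [Finset.card_erase_of_mem hx', Finset.card_erase_of_mem hx0]
    have h1 : 0 < (X.erase x0).card := Finset.card_pos.mpr ⟨_, hx'⟩
    rw [Finset.card_erase_of_mem hx0] at h1
    omega
  obtain ⟨R, hR, hRc, hRn, hRX⟩ := reps φ hφ _ ((X.erase x0).erase (φ x0)) rfl (by
      intro y hy
      simp only [Finset.mem_erase] at hy ⊢
      exact ⟨fun h => hy.2.1 (hφ.injective h), fun h => hy.1 (by rw [← h, hφ]), hX y hy.2.2⟩)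
      (fun x _ => hφ' x)
  refine ⟨R, fun x hx => Finset.mem_of_mem_erase (Finset.mem_of_mem_erase (hR hx)), by omega, hRn,
    fun h => ?_, fun h => ?_, ?_⟩
  · have := hR h
    simp at this
  · have := hR h
    simp at this
  · intro x hx
    by_cases h1 : x = x0
    · left; exact h1
    by_cases h2 : x = φ x0
    · right; left; exact h2
    right; right
    exact hRX x (Finset.mem_erase.mpr ⟨h2, Finset.mem_erase.mpr ⟨h1, hx⟩⟩)

lemma rowF_injective (hφ : Function.Involutive φ) (hφ' : ∀ x, φ x ≠ x) {G : V → V → Prop}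
    (hG : GG φ G) {X : Finset V} {x0 : V} (hx0 : x0 ∈ X) {f : Fld V d} (hf : RigA φ f G X)
    {R : Finset V} (hRX : R ⊆ X) (hRn : ∀ x ∈ R, φ x ∉ R) (h1 : x0 ∉ R) (h2 : φ x0 ∉ R)
    {E0 : Finset (Finset V)} (hE0 : ∀ e ∈ es G, e ∈ E0 ∨ e.image φ ∈ E0) :
    Function.Injective (rowF φ f R E0) := by
  rw [← LinearMap.ker_eq_bot, LinearMap.ker_eq_bot']
  intro r hr
  have hsym := extF_sym (d := d) hφ hRn r
  have hsat : Sat φ f (extF φ R r) G := by
    intro x y hxy
    have he : ({x, y} : Finset V) ∈ es G := mem_es.mpr ⟨x, y, hxy, rfl⟩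
    rcases hE0 _ he with h | h
    · have := congrFun hr ⟨_, h⟩
      rw [rowF_apply] at this
      exact (ell_of_rep hφ hG hsym hxy (Or.inl rfl)).mp this
    · have := congrFun hr ⟨_, h⟩
      rw [rowF_apply] at this
      exact (ell_of_rep hφ hG hsym hxy (Or.inr rfl)).mp this
  ext1 ⟨x, hx⟩
  have := hf _ hsym hsat x (hRX hx) x0 hx0
  rw [extF_mem r hx, extF_out r h1 h2] at this
  exact this

lemma finrank_rep (R : Finset V) :
    Module.finrank ℚ ({x // x ∈ R} → Fin d → ℚ) = R.card * d := by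
  rw [Module.finrank_pi_fintype]
  simp

lemma finrank_rep' (E0 : Finset (Finset V)) :
    Module.finrank ℚ ({e // e ∈ E0} → ℚ) = E0.card := by
  simp

theorem count_ineq (hφ : Function.Involutive φ) (hφ' : ∀ x, φ x ≠ x) {G : V → V → Prop}
    (hG : GG φ G) {X : Finset V} (hX : ∀ x ∈ X, φ x ∈ X) (hXne : X.Nonempty) {f : Fld V d}
    (hf : RigA φ f G X) : d * X.card ≤ (es G).card + 2 * d := by
  obtain ⟨x0, hx0⟩ := hXne
  obtain ⟨R, hRX, hRc, hRn, h1, h2, h3⟩ := reps_vert hφ hφ' hX hx0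
  obtain ⟨E0, hE0s, hE0c, hE0n, hE0⟩ := reps_es hφ hφ' hG
  have hinj := rowF_injective hφ hφ' hG hx0 hf hRX hRn h1 h2 hE0
  have := LinearMap.finrank_le_finrank_of_injective hinj
  rw [finrank_rep, finrank_rep'] at this
  rw [← hRc, ← hE0c]
  nlinarith

theorem count_eq (hφ : Function.Involutive φ) (hφ' : ∀ x, φ x ≠ x) {G : V → V → Prop}
    (hG : GG φ G) {X : Finset V} (hX : ∀ x ∈ X, φ x ∈ X) (hXne : X.Nonempty) {f : Fld V d}
    (hf : RigA φ f G X) (heq : d * X.card = (es G).card + 2 * d) : Indep φ f G := by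
  classical
  obtain ⟨x0, hx0⟩ := hXne
  obtain ⟨R, hRX, hRc, hRn, h1, h2, h3⟩ := reps_vert hφ hφ' hX hx0
  obtain ⟨E0, hE0s, hE0c, hE0n, hE0⟩ := reps_es hφ hφ' hG
  have hinj := rowF_injective hφ hφ' hG hx0 hf hRX hRn h1 h2 hE0
  have hfr : Module.finrank ℚ ({x // x ∈ R} → Fin d → ℚ) =
      Module.finrank ℚ ({e // e ∈ E0} → ℚ) := by
    rw [finrank_rep, finrank_rep']
    rw [← hRc, ← hE0c] at heq
    nlinarith
  have hsurj := (LinearMap.injective_iff_surjective_of_finrank_eq_finrank hfr).mp hinj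
  intro x y hxy
  have hexy : ({x, y} : Finset V) ∈ es G := mem_es.mpr ⟨x, y, hxy, rfl⟩
  obtain ⟨e0, he0, he0'⟩ : ∃ e0 ∈ E0, e0 = {x, y} ∨ e0 = ({x, y} : Finset V).image φ := by
    rcases hE0 _ hexy with h | h
    · exact ⟨_, h, Or.inl rfl⟩
    · exact ⟨_, h, Or.inr rfl⟩
  obtain ⟨r, hr⟩ := hsurj (Pi.single ⟨e0, he0⟩ 1)
  have hsym := extF_sym (d := d) hφ hRn r
  refine ⟨extF φ R r, hsym, ?_, ?_⟩
  · intro h0
    rw [← ell_of_rep hφ hG hsym hxy he0', ← rowF_apply f R E0 r ⟨e0, he0⟩, hr] at h0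
    simp at h0
  · intro a b hab hns
    have heab : ({a, b} : Finset V) ∈ es G := mem_es.mpr ⟨a, b, hab, rfl⟩
    obtain ⟨e1, he1, he1'⟩ : ∃ e1 ∈ E0, e1 = {a, b} ∨ e1 = ({a, b} : Finset V).image φ := by
      rcases hE0 _ heab with h | h
      · exact ⟨_, h, Or.inl rfl⟩
      · exact ⟨_, h, Or.inr rfl⟩
    rw [← ell_of_rep hφ hG hsym hab he1', ← rowF_apply f R E0 r ⟨e1, he1⟩, hr, Pi.single_apply,
      if_neg]
    intro h
    have h' : e1 = e0 := congrArg Subtype.val h
    rw [h'] at he1'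
    exact hns (same_of_rep hφ hG hxy hab he0' he1')

theorem count_indep (hφ : Function.Involutive φ) (hφ' : ∀ x, φ x ≠ x) {G : V → V → Prop}
    (hG : GG φ G) {X : Finset V} (hX : ∀ x ∈ X, φ x ∈ X) (hXne : X.Nonempty)
    (hGX : ∀ x y, G x y → x ∈ X ∧ y ∈ X) {f : Fld V d}
    (hf : Indep φ f G) : (es G).card + 2 * d ≤ d * X.card := by
  classical
  obtain ⟨x0, hx0⟩ := hXne
  obtain ⟨R, hRX, hRc, hRn, h1, h2, h3⟩ := reps_vert hφ hφ' hX hx0
  obtain ⟨E0, hE0s, hE0c, hE0n, hE0⟩ := reps_es hφ hφ' hG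
  have hch : ∀ e : {e // e ∈ E0}, ∃ q : Fld V d, Sym φ q ∧ ellE φ f e.1 q ≠ 0 ∧
      ∀ e' : {e // e ∈ E0}, e' ≠ e → ellE φ f e'.1 q = 0 := by
    rintro ⟨e, he⟩
    obtain ⟨x, y, hxy, rfl⟩ := mem_es.mp (hE0s he)
    obtain ⟨q, hq1, hq2, hq3⟩ := hf x y hxy
    refine ⟨q, hq1, fun h => hq2 ((ell_of_rep hφ hG hq1 hxy (Or.inl rfl)).mp h), ?_⟩
    rintro ⟨e', he'⟩ hne
    obtain ⟨a, b, hab, rfl⟩ := mem_es.mp (hE0s he')
    refine (ell_of_rep hφ hG hq1 hab (Or.inl rfl)).mpr (hq3 a b hab ?_)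
    intro hs
    have hne' : ({a, b} : Finset V) ≠ {x, y} := fun h => hne (Subtype.ext h)
    rcases hs with ⟨rfl, rfl⟩ | ⟨rfl, rfl⟩ | ⟨rfl, rfl⟩ | ⟨rfl, rfl⟩
    · exact hne' rfl
    · exact hne' (Finset.pair_comm _ _)
    · apply hE0n _ he
      rw [Finset.image_insert, Finset.image_singleton]
      exact he'
    · apply hE0n _ he
      rw [Finset.image_insert, Finset.image_singleton, Finset.pair_comm]
      exact he'
  choose Q hQ1 hQ2 hQ3 using hch
  let M : ({e // e ∈ E0} → ℚ) →ₗ[ℚ] ({x // x ∈ R} → Fin d → ℚ) :=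
    { toFun := fun c x => ∑ e, c e • (Q e x - Q e x0)
      map_add' := by
        intro c c'
        ext1 x
        simp only [Pi.add_apply, add_smul, Finset.sum_add_distrib]
      map_smul' := by
        intro a c
        ext1 x
        simp only [Pi.smul_apply, RingHom.id_apply, smul_eq_mul, Finset.smul_sum, mul_smul] }
  have hM : ∀ c x, M c x = ∑ e, c e • (Q e x - Q e x0) := fun c x => rfl
  have hinj : Function.Injective M := by
    rw [← LinearMap.ker_eq_bot, LinearMap.ker_eq_bot']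
    intro c hc
    let q : Fld V d := ∑ e, c e • Q e
    have hqx : ∀ x, q x = ∑ e, c e • Q e x := by
      intro x
      simp only [q, Finset.sum_apply, Pi.smul_apply]
    have hqs : Sym φ q := by
      intro x
      rw [hqx, hqx]
      exact Finset.sum_congr rfl fun e _ => by rw [hQ1 e x]
    have hqR : ∀ x ∈ R, q x = q x0 := by
      intro x hx
      have := congrFun hc ⟨x, hx⟩
      rw [hM] at this
      simp only [smul_sub, Finset.sum_sub_distrib, Pi.zero_apply] at this
      rw [hqx, hqx]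
      exact sub_eq_zero.mp this
    have hqX : ∀ x ∈ X, q x = q x0 := by
      intro x hx
      rcases h3 x hx with h | h | h | h
      · rw [h]
      · rw [h, hqs]
      · exact hqR x h
      · rw [← hqs x]; exact hqR _ h
    ext1 e
    have h0 : ellE φ f e.1 q = 0 := by
      obtain ⟨x, y, hxy, hexy⟩ := mem_es.mp (hE0s e.2)
      rw [hexy, ellE_pair φ f q (hG.ne x y hxy)]
      unfold ell
      rw [hqX x (hGX x y hxy).1, hqX y (hGX x y hxy).2]
      simp
    simp only [q, map_sum, map_smul, smul_eq_mul] at h0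
    rw [Finset.sum_eq_single e] at h0
    · rcases mul_eq_zero.mp h0 with h | h
      · exact h
      · exact absurd h (hQ2 e)
    · intro e' _ hne
      rw [hQ3 e' e hne.symm, mul_zero]
    · simp
  have := LinearMap.finrank_le_finrank_of_injective hinj
  rw [finrank_rep, finrank_rep'] at this
  rw [← hRc, ← hE0c]
  nlinarith

end count

end Pool.Agent.CSLBT
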