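import Mathlib

/-!
# Definitions used in the statements

Finite simplicial complexes are Mathlib's `AbstractSimplicialComplex V` on a finite type `V`;
their faces are nonempty finite sets and every singleton is a face, so `V` is the vertex set.
-/

namespace Pool.Agent.CSLBT

section defs

variable {V : Type*} [DecidableEq V]

/-- The number of faces of `K` with exactly `k` vertices, so that `f₀ = numFaces K 1` and
`f₁ = numFaces K 2`. -/
noncomputable def numFaces (K : AbstractSimplicialComplex V) (k : ℕ) : ℕ :=
  {F : Finset V | F ∈ K.faces ∧ F.card = k}.ncard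

/-- `g₂ = f₁ - d f₀ + binom (d+1) 2`, for a complex of dimension `d - 1`. -/
noncomputable def g2 (K : AbstractSimplicialComplex V) (d : ℕ) : ℤ :=
  (numFaces K 2 : ℤ) - (d : ℤ) * (numFaces K 1 : ℤ) + (((d + 1).choose 2 : ℕ) : ℤ)

/-- `K` is centrally symmetric via `φ`: a simplicial involution fixing no nonempty face. -/
structure IsCS (K : AbstractSimplicialComplex V) (φ : V → V) : Prop where
  invol : Function.Involutive φ
  map_mem : ∀ F ∈ K.faces, F.image φ ∈ K.faces
  free : ∀ F ∈ K.faces, F.image φ ≠ F

/-- The graph (1-skeleton) of the link of `F` in `K`. For `F = ∅` it is the graph of `K`. -/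
def linkGraph (K : AbstractSimplicialComplex V) (F : Finset V) :
    SimpleGraph {x : V // x ∉ F ∧ insert x F ∈ K.faces} where
  Adj x y := x ≠ y ∧ insert x.1 (insert y.1 F) ∈ K.faces
  symm := ⟨fun x y h => ⟨h.1.symm, by rw [Finset.insert_comm]; exact h.2⟩⟩
  loopless := ⟨fun x h => h.1 rfl⟩

/-- `K` is a normal pseudomanifold of dimension `d - 1`: it is pure of dimension `d - 1` and
connected, every `(d-2)`-face is in exactly two facets, and the link of every nonempty face of
dimension at most `d - 3` is connected. -/
structure IsNormalPseudomanifold (K : AbstractSimplicialComplex V) (d : ℕ) : Prop where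
  dim_le : ∀ F ∈ K.faces, F.card ≤ d
  pure : ∀ F ∈ K.faces, ∃ G ∈ K.faces, F ⊆ G ∧ G.card = d
  ridge : ∀ R ∈ K.faces, R.card + 1 = d →
    {G : Finset V | G ∈ K.faces ∧ R ⊆ G ∧ G.card = d}.ncard = 2
  connected : (linkGraph K ∅).Connected
  link : ∀ F ∈ K.faces, F.card + 2 ≤ d → (linkGraph K F).Connected

end defs

section geometry

variable {V : Type*} {d : ℕ}

/-- The cross-polytope, the convex hull of the standard basis vectors and their negatives. -/
def crossPoly (d : ℕ) : Set (Fin d → ℝ) :=
  convexHull ℝ {y | ∃ i : Fin d, y = Pi.single i 1 ∨ y = - Pi.single i 1}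

/-- Facet functionals of a polytope `P` containing the origin in its interior: at most `1` on `P`,
and the points of `P` on the hyperplane `l = 1` span the whole space, that is, they form a facet. -/
def IsFacetFun (P : Set (Fin d → ℝ)) (l : (Fin d → ℝ) →ₗ[ℝ] ℝ) : Prop :=
  (∀ x ∈ P, l x ≤ 1) ∧ Submodule.span ℝ {x | x ∈ P ∧ l x = 1} = ⊤

/-- The polytopes obtained from the cross-polytope by finitely many symmetric stacking steps: a
point `v` beyond the facet of `P` with functional `l` and beneath all other facets is added to `P`
together with `-v`. -/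
inductive SymStackedPoly (d : ℕ) : Set (Fin d → ℝ) → Prop
  | cross : SymStackedPoly d (crossPoly d)
  | stack (P : Set (Fin d → ℝ)) (hP : SymStackedPoly d P) (l : (Fin d → ℝ) →ₗ[ℝ] ℝ)
      (hl : IsFacetFun P l) (v : Fin d → ℝ) (hv : 1 < l v)
      (hv' : ∀ m : (Fin d → ℝ) →ₗ[ℝ] ℝ, IsFacetFun P m → m ≠ l → m v < 1) :
      SymStackedPoly d (convexHull ℝ (P ∪ {v, -v}))

/-- `K` is the boundary complex of the polytope `P` via the embedding `p` of its vertices: `P` is
the convex hull of the points `p x`, which are distinct, and a nonempty set `F` of vertices is a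
face of `K` exactly when the convex hull of `p '' F` is a proper face of `P`. -/
structure IsBoundaryComplex (K : AbstractSimplicialComplex V) (P : Set (Fin d → ℝ))
    (p : V → Fin d → ℝ) : Prop where
  inj : Function.Injective p
  hull : P = convexHull ℝ (Set.range p)
  mem_iff : ∀ F : Finset V, F.Nonempty → (F ∈ K.faces ↔
    IsExposed ℝ P (convexHull ℝ (p '' (F : Set V))) ∧ convexHull ℝ (p '' (F : Set V)) ≠ P)

end geometry

end Pool.Agent.CSLBT
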