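import Pool.Agent.CSLBT.Generic

set_option linter.unusedSectionVars false

namespace Pool.Agent.CSLBT

open Filter Matrix

/-- Fields of vectors on `V`. -/
abbrev Fld (V : Type*) (d : ℕ) := V → Fin d → ℚ

section frame

variable {V : Type*} [Fintype V] [DecidableEq V] {d : ℕ} (φ : V → V)

/-- the antipodally symmetric position attached to an arbitrary field -/
def pos (f : Fld V d) (x : V) : Fin d → ℚ := f x - f (φ x)

/-- the bar constraint -/
def ell (f q : Fld V d) (x y : V) : ℚ := (pos φ f x - pos φ f y) ⬝ᵥ (q x - q y)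

lemma pos_add_smul (f g : Fld V d) (ε : ℚ) (x : V) :
    pos φ (f + ε • g) x = pos φ f x + ε • pos φ g x := by
  simp only [pos, Pi.add_apply, Pi.smul_apply]
  module

lemma ell_add_smul (f g q : Fld V d) (ε : ℚ) (x y : V) :
    ell φ (f + ε • g) q x y = ell φ f q x y + ε * ell φ g q x y := by
  simp only [ell, pos_add_smul]
  have : pos φ f x + ε • pos φ g x - (pos φ f y + ε • pos φ g y)
      = (pos φ f x - pos φ f y) + ε • (pos φ g x - pos φ g y) := by module
  rw [this, add_dotProduct, smul_dotProduct, smul_eq_mul]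

lemma ell_comm (f q : Fld V d) (x y : V) : ell φ f q x y = ell φ f q y x := by
  unfold ell
  rw [← neg_sub (pos φ f y), ← neg_sub (q y), neg_dotProduct_neg]

/-- `ell` as a linear functional of the velocity field -/
def ellL (f : Fld V d) (x y : V) : Fld V d →ₗ[ℚ] ℚ where
  toFun q := ell φ f q x y
  map_add' q r := by
    simp only [ell, Pi.add_apply]
    rw [show q x + r x - (q y + r y) = (q x - q y) + (r x - r y) by abel, dotProduct_add]
  map_smul' c q := by
    simp only [ell, Pi.smul_apply, RingHom.id_apply]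
    rw [show c • q x - c • q y = c • (q x - q y) by module, dotProduct_smul]

@[simp] lemma ellL_apply (f q : Fld V d) (x y : V) : ellL φ f x y q = ell φ f q x y := rfl

lemma pos_anti (hφ : Function.Involutive φ) (f : Fld V d) (x : V) :
    pos φ f (φ x) = - pos φ f x := by
  simp only [pos, hφ x]
  abel

lemma ell_anti (hφ : Function.Involutive φ) (f q : Fld V d) (hq : ∀ x, q (φ x) = q x) (x y : V) :
    ell φ f q (φ x) (φ y) = - ell φ f q x y := by
  simp only [ell, pos_anti φ hφ, hq]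
  rw [show - pos φ f x - - pos φ f y = - (pos φ f x - pos φ f y) by abel, neg_dotProduct]

lemma ell_self_anti (f q : Fld V d) (hq : ∀ x, q (φ x) = q x) (x : V) :
    ell φ f q x (φ x) = 0 := by
  simp [ell, hq]

/-- injectivity of a linear system of bar constraints on a space of fields -/
def Inj (𝒲 : Submodule ℚ (Fld V d)) (E : V → V → Prop) (f : Fld V d) : Prop :=
  ∀ q ∈ 𝒲, (∀ x y, E x y → ell φ f q x y = 0) → q = 0

lemma lopen_inj (𝒲 : Submodule ℚ (Fld V d)) (E : V → V → Prop) :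
    LOpen {f : Fld V d | Inj φ 𝒲 E f} := by
  intro f hf g
  have key := finite_bad (U := 𝒲) (ι := {e : V × V // E e.1 e.2})
    (fun e => (ellL φ f e.1.1 e.1.2) ∘ₗ 𝒲.subtype)
    (fun e => (ellL φ g e.1.1 e.1.2) ∘ₗ 𝒲.subtype) ?_
  · refine key.subset ?_
    intro ε hε
    have hε' : ¬ Inj φ 𝒲 E (f + ε • g) := hε
    unfold Inj at hε'
    push Not at hε'
    obtain ⟨q, hq, h1, h2⟩ := hε'
    refine ⟨⟨q, hq⟩, ?_, ?_⟩
    · intro h
      exact h2 (congrArg Subtype.val h)
    · rintro ⟨e, he⟩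
      have := h1 e.1 e.2 he
      rw [ell_add_smul] at this
      simpa using this
  · rintro ⟨q, hq⟩ h
    have : q = 0 := hf q hq (fun x y hxy => by simpa using h ⟨(x, y), hxy⟩)
    exact Subtype.ext this

/-- Limit principle: injectivity of the system at a degenerate position, together with one
extra functional which is implied by the system at nearby positions, gives generic injectivity. -/
lemma inj_eventually_of_limit (𝒲 : Submodule ℚ (Fld V d)) (E : V → V → Prop) (f0 g : Fld V d)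
    (τ : Fld V d →ₗ[ℚ] ℚ)
    (hlim : ∀ q ∈ 𝒲, (∀ x y, E x y → ell φ f0 q x y = 0) → τ q = 0 → q = 0)
    (hstep : ∀ ε : ℚ, ε ≠ 0 → ∀ q ∈ 𝒲, (∀ x y, E x y → ell φ (f0 + ε • g) q x y = 0) → τ q = 0) :
    ∀ᶠ f in genF (Fld V d), Inj φ 𝒲 E f := by
  have key := finite_bad (U := 𝒲) (ι := Option {e : V × V // E e.1 e.2})
    (fun o => match o with
      | none => τ ∘ₗ 𝒲.subtype
      | some e => (ellL φ f0 e.1.1 e.1.2) ∘ₗ 𝒲.subtype)
    (fun o => match o with
      | none => 0
      | some e => (ellL φ g e.1.1 e.1.2) ∘ₗ 𝒲.subtype) ?_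
  · obtain ⟨ε, hε⟩ := (key.union (Set.finite_singleton 0)).exists_notMem
    have hε0 : ε ≠ 0 := fun h => hε (Or.inr h)
    have hε1 : ε ∉ {ε : ℚ | ∃ w : 𝒲, w ≠ 0 ∧ _} := fun h => hε (Or.inl h)
    refine eventually_of_lopen (lopen_inj φ 𝒲 E) ⟨f0 + ε • g, ?_⟩
    intro q hq hE
    by_contra hq0
    apply hε1
    refine ⟨⟨q, hq⟩, fun h => hq0 (congrArg Subtype.val h), ?_⟩
    rintro (_ | ⟨e, he⟩)
    · have := hstep ε hε0 q hq hE
      simpa using this
    · have := hE e.1 e.2 he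
      rw [ell_add_smul] at this
      simpa using this
  · rintro ⟨q, hq⟩ h
    have h0 : τ q = 0 := by simpa using h none
    have : q = 0 := hlim q hq (fun x y hxy => by simpa using h (some ⟨(x, y), hxy⟩)) h0
    exact Subtype.ext this

/-! ### Rigid motions -/

/-- `q` is an infinitesimal rigid motion on the vertices of `X`. -/
def RigidOn (f : Fld V d) (X : Finset V) (q : Fld V d) : Prop :=
  ∃ (A : Matrix (Fin d) (Fin d) ℚ) (τ : Fin d → ℚ), Aᵀ = -A ∧
    ∀ x ∈ X, q x = A *ᵥ (pos φ f x) + τ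

lemma skew_dot (A : Matrix (Fin d) (Fin d) ℚ) (hA : Aᵀ = -A) (x y : Fin d → ℚ) :
    x ⬝ᵥ (A *ᵥ y) = - (y ⬝ᵥ (A *ᵥ x)) := by
  rw [dotProduct_mulVec, ← mulVec_transpose, hA, neg_mulVec, neg_dotProduct, dotProduct_comm]

lemma skew_dot_self (A : Matrix (Fin d) (Fin d) ℚ) (hA : Aᵀ = -A) (x : Fin d → ℚ) :
    x ⬝ᵥ (A *ᵥ x) = 0 := by
  have := skew_dot A hA x x
  linarith

lemma RigidOn.ell_eq_zero {f : Fld V d} {X : Finset V} {q : Fld V d} (h : RigidOn φ f X q)
    {x y : V} (hx : x ∈ X) (hy : y ∈ X) : ell φ f q x y = 0 := by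
  obtain ⟨A, τ, hA, h⟩ := h
  unfold ell
  rw [h x hx, h y hy]
  rw [show A *ᵥ pos φ f x + τ - (A *ᵥ pos φ f y + τ) = A *ᵥ (pos φ f x - pos φ f y) by
    rw [mulVec_sub]; abel]
  exact skew_dot_self A hA _

lemma RigidOn.mono {f : Fld V d} {X Y : Finset V} {q : Fld V d} (h : RigidOn φ f X q)
    (hY : Y ⊆ X) : RigidOn φ f Y q := by
  obtain ⟨A, τ, hA, h⟩ := h
  exact ⟨A, τ, hA, fun x hx => h x (hY hx)⟩

lemma RigidOn.of_const {f : Fld V d} {X : Finset V} {q : Fld V d}
    (h : ∀ x ∈ X, ∀ y ∈ X, q x = q y) : RigidOn φ f X q := by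
  by_cases hX : X.Nonempty
  · obtain ⟨x0, hx0⟩ := hX
    exact ⟨0, q x0, by simp, fun x hx => by simp [h x hx x0 hx0]⟩
  · rw [Finset.not_nonempty_iff_eq_empty] at hX
    subst hX
    exact ⟨0, 0, by simp, fun x hx => by simp at hx⟩

end frame

end Pool.Agent.CSLBT
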