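import Pool.Agent.CSLBT.LinAlg

set_option linter.unusedSectionVars false

namespace Pool.Agent.CSLBT

open Filter Matrix

section frame

variable {V : Type*} [Fintype V] [DecidableEq V] {d : ℕ} (φ : V → V)

/-- no antipodal pair inside `X` -/
def NoAnti (X : Finset V) : Prop := ∀ x ∈ X, φ x ∉ X

/-- at most one antipodal pair inside `X`, namely `{u, φ u}` -/
def OneAnti (u : V) (X : Finset V) : Prop := ∀ x ∈ X, φ x ∈ X → x = u ∨ x = φ u

lemma linInd_iff (f : Fld V d) (X : Finset V) : LinInd φ f X ↔
    ∀ c : {x // x ∈ X} → ℚ, (∀ i, ∑ x, c x * pos φ f x i = 0) → c = 0 := by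
  constructor
  · intro h c hc
    have := Fintype.linearIndependent_iff.mp (h.li φ) c ?_
    · exact funext this
    · ext i
      simpa using hc i
  · intro h c hc x hx
    have := h (fun x => c x) ?_
    · exact congrFun this ⟨x, hx⟩
    · intro i
      have h2 := congrFun hc i
      rw [← Finset.sum_attach] at h2
      simpa using h2

lemma affInd_iff (f : Fld V d) (X : Finset V) : AffInd φ f X ↔
    ∀ c : {x // x ∈ X} → ℚ, (∀ i, ∑ x, c x * pos φ f x i = 0) → ∑ x, c x = 0 → c = 0 := by
  constructor
  · intro h c hc hs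
    have := h (fun x => if hx : x ∈ X then c ⟨x, hx⟩ else 0) ?_ ?_
    · ext ⟨x, hx⟩
      simpa [hx] using this x hx
    · rw [← Finset.sum_attach]
      ext i
      have := hc i
      simpa [Finset.univ_eq_attach] using this
    · rw [← Finset.sum_attach]
      simpa [Finset.univ_eq_attach] using hs
  · intro h c hc hs x hx
    have := h (fun x => c x) ?_ ?_
    · exact congrFun this ⟨x, hx⟩
    · intro i
      have h2 := congrFun hc i
      rw [← Finset.sum_attach] at h2
      simpa using h2
    · rw [← Finset.sum_attach] at hs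
      simpa using hs

lemma lopen_linInd (X : Finset V) : LOpen {f : Fld V d | LinInd φ f X} := by
  intro f hf g
  have hf' := (linInd_iff φ f X).mp hf
  have key := finite_bad (U := {x // x ∈ X} → ℚ) (ι := Fin d)
    (fun i => ∑ x : {x // x ∈ X}, (pos φ f x i) • LinearMap.proj x)
    (fun i => ∑ x : {x // x ∈ X}, (pos φ g x i) • LinearMap.proj x) ?_
  · refine key.subset ?_
    intro ε hε
    have hε' : ¬ LinInd φ (f + ε • g) X := hε
    rw [linInd_iff] at hε'
    push Not at hε'
    obtain ⟨c, hc, hc0⟩ := hε'
    refine ⟨c, hc0, fun i => ?_⟩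
    have := hc i
    simp only [pos_add_smul, Pi.add_apply, Pi.smul_apply, smul_eq_mul] at this
    simp only [LinearMap.sum_apply, LinearMap.smul_apply, LinearMap.proj_apply, smul_eq_mul]
    rw [← this, Finset.mul_sum, ← Finset.sum_add_distrib]
    refine Finset.sum_congr rfl fun x _ => ?_
    ring
  · intro w hw
    apply hf'
    intro i
    have := hw i
    simp only [LinearMap.sum_apply, LinearMap.smul_apply, LinearMap.proj_apply, smul_eq_mul] at this
    rw [← this]
    refine Finset.sum_congr rfl fun x _ => ?_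
    ring

lemma lopen_affInd (X : Finset V) : LOpen {f : Fld V d | AffInd φ f X} := by
  intro f hf g
  have hf' := (affInd_iff φ f X).mp hf
  have key := finite_bad (U := {x // x ∈ X} → ℚ) (ι := Option (Fin d))
    (fun o => match o with
      | none => ∑ x : {x // x ∈ X}, LinearMap.proj x
      | some i => ∑ x : {x // x ∈ X}, (pos φ f x i) • LinearMap.proj x)
    (fun o => match o with
      | none => 0
      | some i => ∑ x : {x // x ∈ X}, (pos φ g x i) • LinearMap.proj x) ?_
  · refine key.subset ?_
    intro ε hε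
    have hε' : ¬ AffInd φ (f + ε • g) X := hε
    rw [affInd_iff] at hε'
    push Not at hε'
    obtain ⟨c, hc, hs, hc0⟩ := hε'
    refine ⟨c, hc0, fun o => ?_⟩
    rcases o with _ | i
    · simpa using hs
    · have := hc i
      simp only [pos_add_smul, Pi.add_apply, Pi.smul_apply, smul_eq_mul] at this
      simp only [LinearMap.sum_apply, LinearMap.smul_apply, LinearMap.proj_apply, smul_eq_mul]
      rw [← this, Finset.mul_sum, ← Finset.sum_add_distrib]
      refine Finset.sum_congr rfl fun x _ => ?_
      ring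
  · intro w hw
    apply hf'
    · intro i
      have := hw (some i)
      simp only [LinearMap.sum_apply, LinearMap.smul_apply, LinearMap.proj_apply,
        smul_eq_mul] at this
      rw [← this]
      refine Finset.sum_congr rfl fun x _ => ?_
      ring
    · have := hw none
      simpa using this

/-- a set with at most `d` elements and without antipodal pairs can be placed at basis vectors -/
lemma exists_basis_pos (X : Finset V) (hX : NoAnti φ X) (hc : X.card ≤ d) :
    ∃ f : Fld V d, LinInd φ f X ∧ ∀ x, x ∉ X → φ x ∉ X → pos φ f x = 0 := by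
  classical
  have : Fintype.card {x // x ∈ X} ≤ Fintype.card (Fin d) := by simpa using hc
  obtain ⟨e⟩ := Function.Embedding.nonempty_of_card_le this
  let f : Fld V d := fun x => if hx : x ∈ X then Pi.single (e ⟨x, hx⟩) 1 else 0
  have hf : ∀ x : {x // x ∈ X}, pos φ f x = Pi.single (e x) 1 := by
    rintro ⟨x, hx⟩
    have h1 : f x = Pi.single (e ⟨x, hx⟩) 1 := by simp only [f, dif_pos hx]
    have h2 : f (φ x) = 0 := by simp only [f, dif_neg (hX x hx)]
    simp [pos, h1, h2]
  refine ⟨f, ?_, ?_⟩
  · rw [linInd_iff]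
    intro c hc
    ext x
    have := hc (e x)
    rw [Finset.sum_eq_single x] at this
    · simpa [hf] using this
    · intro y _ hy
      rw [hf]
      have : e x ≠ e y := fun h => hy (e.injective h).symm
      simp [Pi.single_apply, this]
    · simp
  · intro x hx hx'
    simp only [pos, f, dif_neg hx, dif_neg hx', sub_zero]

lemma linInd_eventually (X : Finset V) (hX : NoAnti φ X) (hc : X.card ≤ d) :
    ∀ᶠ f in genF (Fld V d), LinInd φ f X := by
  obtain ⟨f, hf, -⟩ := exists_basis_pos φ X hX hc
  exact eventually_of_lopen (lopen_linInd φ X) ⟨f, hf⟩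

lemma LinInd.affInd {f : Fld V d} {X : Finset V} (h : LinInd φ f X) : AffInd φ f X :=
  fun c hc _ => h c hc

lemma affInd_eventually (X : Finset V) (hφX : ∀ x ∈ X, φ x ∉ X) (hc : X.card ≤ d + 1) :
    ∀ᶠ f in genF (Fld V d), AffInd φ f X := by
  by_cases hc' : X.card ≤ d
  · filter_upwards [linInd_eventually φ X hφX hc'] with f hf using hf.affInd φ
  · have hcard : X.card = d + 1 := by omega
    obtain ⟨z, hz⟩ : X.Nonempty := Finset.card_pos.mp (by omega)
    have h1 : NoAnti φ (X.erase z) := fun x hx h =>
      hφX x (Finset.mem_of_mem_erase hx) (Finset.mem_of_mem_erase h)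
    obtain ⟨f, hf, hf0⟩ := exists_basis_pos (d := d) φ (X.erase z) h1
      (by rw [Finset.card_erase_of_mem hz]; omega)
    refine eventually_of_lopen (lopen_affInd φ X) ⟨f, ?_⟩
    intro c hc hs
    have hpz : pos φ f z = 0 := hf0 z (by simp) (fun h => hφX z hz (Finset.mem_of_mem_erase h))
    rw [← Finset.add_sum_erase X _ hz, hpz, smul_zero, zero_add] at hc
    have h2 := hf c hc
    rw [← Finset.add_sum_erase X _ hz, Finset.sum_eq_zero h2, add_zero] at hs
    intro x hx
    by_cases hxz : x = z
    · rw [hxz]; exact hs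
    · exact h2 x (Finset.mem_erase.mpr ⟨hxz, hx⟩)

/-- general position -/
def GP (f : Fld V d) : Prop :=
  (∀ X : Finset V, NoAnti φ X → X.card ≤ d → LinInd φ f X) ∧
  (∀ X : Finset V, NoAnti φ X → X.card ≤ d + 1 → AffInd φ f X)

lemma gp_eventually : ∀ᶠ f in genF (Fld V d), GP φ f := by
  have h1 : ∀ᶠ f in genF (Fld V d), ∀ X : Finset V, NoAnti φ X → X.card ≤ d → LinInd φ f X := by
    rw [eventually_all]
    intro X
    by_cases h : NoAnti φ X ∧ X.card ≤ d
    · filter_upwards [linInd_eventually φ X h.1 h.2] with f hf _ _ using hf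
    · filter_upwards with f h1 h2 using absurd ⟨h1, h2⟩ h
  have h2 : ∀ᶠ f in genF (Fld V d), ∀ X : Finset V, NoAnti φ X → X.card ≤ d + 1 →
      AffInd φ f X := by
    rw [eventually_all]
    intro X
    by_cases h : NoAnti φ X ∧ X.card ≤ d + 1
    · filter_upwards [affInd_eventually φ X h.1 h.2] with f hf _ _ using hf
    · filter_upwards with f h1 h2 using absurd ⟨h1, h2⟩ h
  filter_upwards [h1, h2] with f hf1 hf2 using ⟨hf1, hf2⟩

lemma GP.oneAnti {f : Fld V d} (h : GP φ f) (hφ : Function.Involutive φ)
    (hφ' : ∀ x, φ x ≠ x) {u : V} {X : Finset V} (hX : OneAnti φ u X)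
    (hc : X.card ≤ d + 1) : AffInd φ f X := by
  by_cases hu : u ∈ X ∧ φ u ∈ X
  · obtain ⟨hu, hu'⟩ := hu
    have h1 : NoAnti φ (X.erase (φ u)) := by
      intro x hx hx'
      rw [Finset.mem_erase] at hx hx'
      rcases hX x hx.2 hx'.2 with h | h
      · exact hx'.1 (by rw [h])
      · exact hx.1 h
    have h2 := h.1 (X.erase (φ u)) h1 (by rw [Finset.card_erase_of_mem hu']; omega)
    intro c hc hs
    have hu2 : u ∈ X.erase (φ u) := Finset.mem_erase.mpr ⟨(hφ' u).symm, hu⟩
    let c' : V → ℚ := fun x => if x = u then c u - c (φ u) else c x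
    have hc'u : c' u = c u - c (φ u) := by simp [c']
    have hc'e : ∀ x, x ≠ u → c' x = c x := fun x hx => by simp [c', hx]
    have h3 := h2 c' ?_
    · have e1 := h3 u hu2
      rw [hc'u] at e1
      have e2 : ∀ x ∈ (X.erase (φ u)).erase u, c x = 0 := by
        intro x hx
        rw [Finset.mem_erase] at hx
        rw [← hc'e x hx.1]
        exact h3 x hx.2
      rw [← Finset.add_sum_erase X _ hu', ← Finset.add_sum_erase _ _ hu2,
        Finset.sum_eq_zero e2] at hs
      have e3 : c u = 0 := by linarith
      have e4 : c (φ u) = 0 := by linarith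
      intro x hx
      by_cases hx1 : x = φ u
      · rw [hx1]; exact e4
      by_cases hx2 : x = u
      · rw [hx2]; exact e3
      · exact e2 x (Finset.mem_erase.mpr ⟨hx2, Finset.mem_erase.mpr ⟨hx1, hx⟩⟩)
    · rw [← hc, ← Finset.add_sum_erase X _ hu', ← Finset.add_sum_erase _ _ hu2,
        ← Finset.add_sum_erase (X.erase (φ u)) _ hu2, hc'u, pos_anti φ hφ]
      rw [Finset.sum_congr (g := fun x => c x • pos φ f x) rfl]
      · module
      · intro x hx
        rw [hc'e x (Finset.ne_of_mem_erase hx)]
  · refine h.2 X ?_ hc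
    intro x hx hx'
    rcases hX x hx hx' with h | h
    · subst h
      exact hu ⟨hx, hx'⟩
    · subst h
      rw [hφ u] at hx'
      exact hu ⟨hx', hx⟩

end frame

end Pool.Agent.CSLBT
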