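import Mathlib

namespace Pool.Agent.CSLBT

open Filter

/-! ### Line-open sets and the filter of generic points -/

section generic

variable {W : Type*} [AddCommGroup W] [Module ℚ W]

/-- A set is line-open if along every line through one of its points only finitely many
parameters leave the set. -/
def LOpen (S : Set W) : Prop := ∀ f ∈ S, ∀ g : W, {ε : ℚ | f + ε • g ∉ S}.Finite

lemma LOpen.inter {S T : Set W} (hS : LOpen S) (hT : LOpen T) : LOpen (S ∩ T) := by
  intro f hf g
  refine ((hS f hf.1 g).union (hT f hf.2 g)).subset ?_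
  intro ε hε
  simp only [Set.mem_setOf_eq, Set.mem_inter_iff, not_and_or] at hε
  exact hε

lemma LOpen.inter_nonempty {S T : Set W} (hS : LOpen S) (hT : LOpen T) (hS' : S.Nonempty)
    (hT' : T.Nonempty) : (S ∩ T).Nonempty := by
  obtain ⟨f, hf⟩ := hS'
  obtain ⟨g, hg⟩ := hT'
  have h1 := hS f hf (g - f)
  have h2 := hT g hg (f - g)
  have h3 : {ε : ℚ | f + ε • (g - f) ∉ T}.Finite := by
    refine (h2.image (fun ε => 1 - ε)).subset ?_
    intro ε hε
    refine ⟨1 - ε, ?_, by ring⟩
    simp only [Set.mem_setOf_eq] at hε ⊢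
    convert hε using 2
    module
  obtain ⟨ε, hε⟩ := (h1.union h3).exists_notMem
  refine ⟨f + ε • (g - f), ?_, ?_⟩
  · by_contra h
    exact hε (Or.inl h)
  · by_contra h
    exact hε (Or.inr h)

variable (W) in
/-- The filter of generic points. -/
def genF : Filter W where
  sets := {S | ∃ U : Set W, LOpen U ∧ U.Nonempty ∧ U ⊆ S}
  univ_sets := ⟨Set.univ, fun f _ g => by simp, ⟨0, trivial⟩, subset_rfl⟩
  sets_of_superset := by
    rintro S T ⟨U, h1, h2, h3⟩ hST
    exact ⟨U, h1, h2, h3.trans hST⟩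
  inter_sets := by
    rintro S T ⟨U, h1, h2, h3⟩ ⟨U', h1', h2', h3'⟩
    exact ⟨U ∩ U', h1.inter h1', h1.inter_nonempty h1' h2 h2',
      Set.inter_subset_inter h3 h3'⟩

instance : NeBot (genF W) := by
  refine ⟨fun h => ?_⟩
  have : (∅ : Set W) ∈ genF W := by rw [h]; trivial
  obtain ⟨U, -, ⟨x, hx⟩, h3⟩ := this
  exact h3 hx

lemma eventually_of_lopen {S : Set W} (hS : LOpen S) (hne : S.Nonempty) :
    ∀ᶠ f in genF W, f ∈ S := ⟨S, hS, hne, fun _ h => h⟩

end generic

/-- Perturbation of an injective linear system. -/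
lemma finite_bad {U : Type*} [AddCommGroup U] [Module ℚ U] [FiniteDimensional ℚ U]
    {ι : Type*} [Finite ι] (a b : ι → U →ₗ[ℚ] ℚ) (h : ∀ w, (∀ i, a i w = 0) → w = 0) :
    {ε : ℚ | ∃ w : U, w ≠ 0 ∧ ∀ i, a i w + ε * b i w = 0}.Finite := by
  classical
  let A : U →ₗ[ℚ] (ι → ℚ) := LinearMap.pi a
  let B : U →ₗ[ℚ] (ι → ℚ) := LinearMap.pi b
  have hA : LinearMap.ker A = ⊥ := by
    rw [LinearMap.ker_eq_bot']
    intro w hw
    exact h w (fun i => congrFun hw i)
  obtain ⟨L, hL⟩ := A.exists_leftInverse_of_injective hA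
  let N : U →ₗ[ℚ] U := L ∘ₗ B
  have hfin : {μ : ℚ | Module.End.HasEigenvalue N μ}.Finite :=
    Module.End.finite_hasEigenvalue N
  refine (hfin.image (fun μ => -μ⁻¹)).subset ?_
  rintro ε ⟨w, hw, hε⟩
  have h1 : A w + ε • B w = 0 := by
    ext i
    simpa [A, B] using hε i
  have h2 : w + ε • N w = 0 := by
    have := congrArg L h1
    simp only [map_add, map_smul, map_zero] at this
    have h3 : L (A w) = w := by
      have := LinearMap.congr_fun hL w
      simpa using this
    rw [h3] at this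
    exact this
  have hε0 : ε ≠ 0 := by
    rintro rfl
    simp at h2
    exact hw h2
  refine ⟨-ε⁻¹, ?_, by simp⟩
  refine Module.End.hasEigenvalue_of_hasEigenvector (x := w) ?_
  rw [Module.End.hasEigenvector_iff, Module.End.mem_eigenspace_iff]
  refine ⟨?_, hw⟩
  have h3 : ε • N w = -w := by
    rw [← add_eq_zero_iff_eq_neg, add_comm]; exact h2
  calc N w = ε⁻¹ • (ε • N w) := by rw [smul_smul, inv_mul_cancel₀ hε0, one_smul]
    _ = (-ε⁻¹) • w := by rw [h3]; simp

end Pool.Agent.CSLBT
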