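import Pool.Agent.CSLBT.Stack
import Pool.Agent.CSLBT.Defs

set_option linter.unusedSectionVars false
set_option linter.unusedVariables false

namespace Pool.Agent.CSLBT

section geo

variable {V : Type*} [DecidableEq V] {d : ℕ} {φ : V → V}

/-- A family of facets realized as the boundary of a centrally symmetric polytope. -/
structure Rlz (φ : V → V) (d : ℕ) (𝓕 : Finset (Finset V)) (p : V → Fin d → ℝ) : Prop where
  sym : SymFam φ d 𝓕
  ne : 𝓕.Nonempty
  nb : ∀ F ∈ 𝓕, ∀ x ∈ F, ∃ G ∈ 𝓕, G ≠ F ∧ F.erase x ⊆ G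
  odd : ∀ x ∈ fv 𝓕, p (φ x) = - p x
  supp : ∀ G ∈ 𝓕, ∃ a : (Fin d → ℝ) →ₗ[ℝ] ℝ, (∀ x ∈ G, a (p x) = 1) ∧
    ∀ x ∈ fv 𝓕, x ∉ G → a (p x) < 1
  span : ∀ G ∈ 𝓕, Submodule.span ℝ (p '' (G : Set V)) = ⊤
  cover : ∀ y : Fin d → ℝ, ∃ G ∈ 𝓕, ∃ c : V → ℝ, (∀ x ∈ G, 0 ≤ c x) ∧
    y = ∑ x ∈ G, c x • p x

lemma fv_of_mem {𝓕 : Finset (Finset V)} {G : Finset V} (hG : G ∈ 𝓕) {x : V} (hx : x ∈ G) :
    x ∈ fv 𝓕 := mem_fv.mpr ⟨G, hG, hx⟩

lemma SymFam.fv_phi {𝓕 : Finset (Finset V)} (h : SymFam φ d 𝓕) {x : V} (hx : x ∈ fv 𝓕) :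
    φ x ∈ fv 𝓕 := by
  obtain ⟨G, hG, hxG⟩ := mem_fv.mp hx
  exact mem_fv.mpr ⟨G.image φ, h.symm G hG, Finset.mem_image_of_mem φ hxG⟩

namespace Rlz

variable {𝓕 : Finset (Finset V)} {p : V → Fin d → ℝ} (h : Rlz φ d 𝓕 p)

include h

/-- functionals agreeing on a facet agree -/
lemma ext_fun {G : Finset V} (hG : G ∈ 𝓕) {a b : (Fin d → ℝ) →ₗ[ℝ] ℝ}
    (hab : ∀ x ∈ G, a (p x) = b (p x)) : a = b := by
  apply LinearMap.ext_on (h.span G hG)
  rintro _ ⟨x, hx, rfl⟩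
  exact hab x hx

lemma fun_le {G : Finset V} (hG : G ∈ 𝓕) {a : (Fin d → ℝ) →ₗ[ℝ] ℝ}
    (ha : ∀ x ∈ G, a (p x) = 1) : (∀ x ∈ fv 𝓕, a (p x) ≤ 1) ∧
      ∀ x ∈ fv 𝓕, x ∉ G → a (p x) < 1 := by
  obtain ⟨b, hb1, hb2⟩ := h.supp G hG
  have hab : a = b := h.ext_fun hG fun x hx => by rw [ha x hx, hb1 x hx]
  rw [hab]
  refine ⟨fun x hx => ?_, hb2⟩
  by_cases hxG : x ∈ G
  · exact (hb1 x hxG).le
  · exact (hb2 x hx hxG).le

/-- the key estimate: a functional which is at most `1` on the vertices and equals `1` at a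
point of the polytope is dominated by a facet functional -/
lemma key {m : (Fin d → ℝ) →ₗ[ℝ] ℝ} (hm : ∀ x ∈ fv 𝓕, m (p x) ≤ 1) {y : Fin d → ℝ}
    (hy : m y = 1) (hyP : ∀ G ∈ 𝓕, ∀ a : (Fin d → ℝ) →ₗ[ℝ] ℝ, (∀ x ∈ G, a (p x) = 1) → a y ≤ 1) :
    ∃ G ∈ 𝓕, ∃ a : (Fin d → ℝ) →ₗ[ℝ] ℝ, (∀ x ∈ G, a (p x) = 1) ∧ a y = 1 := by
  obtain ⟨G, hG, c, hc, hyc⟩ := h.cover y
  obtain ⟨a, ha1, ha2⟩ := h.supp G hG
  refine ⟨G, hG, a, ha1, le_antisymm (hyP G hG a ha1) ?_⟩
  have h1 : a y = ∑ x ∈ G, c x := by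
    rw [hyc, map_sum]
    refine Finset.sum_congr rfl fun x hx => ?_
    rw [map_smul, ha1 x hx, smul_eq_mul, mul_one]
  have h2 : m y = ∑ x ∈ G, c x * m (p x) := by
    rw [hyc, map_sum]
    refine Finset.sum_congr rfl fun x hx => ?_
    rw [map_smul, smul_eq_mul]
  rw [h1, ← hy, h2]
  refine Finset.sum_le_sum fun x hx => ?_
  have := mul_le_mul_of_nonneg_left (hm x (fv_of_mem hG hx)) (hc x hx)
  rwa [mul_one] at this

/-- vertices are determined by facets -/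
lemma inter_facets {F' G : Finset V} (hG : G ∈ 𝓕) (hF' : F' ⊆ G) {x : V} (hx : x ∉ F') :
    ∃ G' ∈ 𝓕, F' ⊆ G' ∧ x ∉ G' := by
  by_cases hxG : x ∈ G
  · obtain ⟨N, hN, hne, hsub⟩ := h.nb G hG x hxG
    refine ⟨N, hN, fun y hy => hsub (Finset.mem_erase.mpr ⟨fun h' => hx (h' ▸ hy), hF' hy⟩), ?_⟩
    intro hxN
    apply hne
    symm
    apply Finset.eq_of_subset_of_card_le
    · intro y hy
      by_cases hyx : y = x
      · rw [hyx]; exact hxN
      · exact hsub (Finset.mem_erase.mpr ⟨hyx, hy⟩)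
    · rw [h.sym.card N hN, h.sym.card G hG]
  · exact ⟨G, hG, hF', hxG⟩

lemma card_fv_pos (hd : 1 ≤ d) : ∃ x, x ∈ fv 𝓕 := by
  obtain ⟨G, hG⟩ := h.ne
  obtain ⟨x, hx⟩ : G.Nonempty := Finset.card_pos.mp (by rw [h.sym.card G hG]; omega)
  exact ⟨x, fv_of_mem hG hx⟩

end Rlz

/-- the polytope -/
def hull (𝓕 : Finset (Finset V)) (p : V → Fin d → ℝ) : Set (Fin d → ℝ) :=
  convexHull ℝ (p '' (fv 𝓕 : Set V))

lemma le_on_hull {S : Set (Fin d → ℝ)} {l : (Fin d → ℝ) →ₗ[ℝ] ℝ} {M : ℝ}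
    (h : ∀ x ∈ S, l x ≤ M) : ∀ y ∈ convexHull ℝ S, l y ≤ M := by
  have : convexHull ℝ S ⊆ {y | l y ≤ M} := by
    apply convexHull_min h
    exact convex_halfSpace_le l.isLinear M
  exact this

lemma mem_hull_iff {S : Finset V} {p : V → Fin d → ℝ} {y : Fin d → ℝ} :
    y ∈ convexHull ℝ (p '' (S : Set V)) ↔
      ∃ c : V → ℝ, (∀ x ∈ S, 0 ≤ c x) ∧ ∑ x ∈ S, c x = 1 ∧ y = ∑ x ∈ S, c x • p x := by
  constructor
  · have hsub : convexHull ℝ (p '' (S : Set V)) ⊆ {y | ∃ c : V → ℝ, (∀ x ∈ S, 0 ≤ c x) ∧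
        ∑ x ∈ S, c x = 1 ∧ y = ∑ x ∈ S, c x • p x} := by
      apply convexHull_min
      · rintro _ ⟨x, hx, rfl⟩
        have hx' : x ∈ S := hx
        refine ⟨fun z => if z = x then 1 else 0, ?_, ?_, ?_⟩
        · intro z _
          simp only
          split_ifs <;> norm_num
        · rw [Finset.sum_ite_eq' S x, if_pos hx']
        · rw [Finset.sum_eq_single x]
          · simp
          · intro z _ hz
            simp [hz]
          · exact fun h => absurd hx' h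
      · rintro y1 ⟨c1, h1, h2, rfl⟩ y2 ⟨c2, h3, h4, rfl⟩ a b ha hb hab
        refine ⟨fun x => a * c1 x + b * c2 x, ?_, ?_, ?_⟩
        · intro x hx
          have := h1 x hx
          have := h3 x hx
          positivity
        · rw [Finset.sum_add_distrib, ← Finset.mul_sum, ← Finset.mul_sum, h2, h4, mul_one, mul_one,
            hab]
        · rw [Finset.smul_sum, Finset.smul_sum, ← Finset.sum_add_distrib]
          refine Finset.sum_congr rfl fun x _ => ?_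
          rw [add_smul, mul_smul, mul_smul]
    exact fun h => hsub h
  · rintro ⟨c, h1, h2, rfl⟩
    exact (convex_convexHull ℝ _).sum_mem h1 h2
      (fun x hx => subset_convexHull ℝ _ ⟨x, hx, rfl⟩)

/-- a point of the convex hull of a finite set where a functional attains its maximum is a convex
combination of the points where it does -/
lemma mem_hull_of_max {S S' : Finset V} {p : V → Fin d → ℝ} {l : (Fin d → ℝ) →ₗ[ℝ] ℝ} {M : ℝ}
    (h : ∀ x ∈ S, l (p x) ≤ M) (hS' : ∀ x ∈ S, l (p x) = M → x ∈ S') (hSS : S' ⊆ S)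
    {y : Fin d → ℝ} (hy : y ∈ convexHull ℝ (p '' (S : Set V)))
    (hM : l y = M) : y ∈ convexHull ℝ (p '' (S' : Set V)) := by
  rw [mem_hull_iff] at hy ⊢
  obtain ⟨c, h1, h2, rfl⟩ := hy
  have h3 : ∑ x ∈ S, c x * (M - l (p x)) = 0 := by
    rw [map_sum] at hM
    simp only [map_smul, smul_eq_mul] at hM
    simp only [mul_sub]
    rw [Finset.sum_sub_distrib, ← Finset.sum_mul, h2, hM]
    ring
  have h4 : ∀ x ∈ S, c x * (M - l (p x)) = 0 := by
    refine (Finset.sum_eq_zero_iff_of_nonneg ?_).mp h3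
    intro x hx
    exact mul_nonneg (h1 x hx) (sub_nonneg.mpr (h x hx))
  have h5 : ∀ x ∈ S, x ∉ S' → c x = 0 := by
    intro x hx hx'
    rcases mul_eq_zero.mp (h4 x hx) with h | h
    · exact h
    · exact absurd (hS' x hx (sub_eq_zero.mp h).symm) hx'
  refine ⟨c, fun x hx => h1 x (hSS hx), ?_, ?_⟩
  · rw [← h2]
    exact Finset.sum_subset hSS h5
  · symm
    refine Finset.sum_subset hSS fun x hx hx' => ?_
    rw [h5 x hx hx', zero_smul]

namespace Rlz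

variable {𝓕 : Finset (Finset V)} {p : V → Fin d → ℝ} (h : Rlz φ d 𝓕 p)

include h

lemma mem_hull {x : V} (hx : x ∈ fv 𝓕) : p x ∈ hull 𝓕 p :=
  subset_convexHull ℝ _ ⟨x, hx, rfl⟩

lemma fun_le_hull {G : Finset V} (hG : G ∈ 𝓕) {a : (Fin d → ℝ) →ₗ[ℝ] ℝ}
    (ha : ∀ x ∈ G, a (p x) = 1) : ∀ y ∈ hull 𝓕 p, a y ≤ 1 := by
  apply le_on_hull
  rintro _ ⟨x, hx, rfl⟩
  exact (h.fun_le hG ha).1 x hx

/-- the facet functionals of the hull are exactly those of the family -/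
lemma isFacetFun_iff (hd : 1 ≤ d) {m : (Fin d → ℝ) →ₗ[ℝ] ℝ} :
    IsFacetFun (hull 𝓕 p) m ↔ ∃ G ∈ 𝓕, ∀ x ∈ G, m (p x) = 1 := by
  classical
  constructor
  · rintro ⟨hm, hspan⟩
    have hmv : ∀ x ∈ fv 𝓕, m (p x) ≤ 1 := fun x hx => hm _ (h.mem_hull hx)
    set S := (fv 𝓕).filter (fun x => m (p x) = 1) with hS
    have hSspan : Submodule.span ℝ (p '' (S : Set V)) = ⊤ := by
      rw [eq_top_iff, ← hspan, Submodule.span_le]
      rintro y ⟨hy, hmy⟩
      have h1 : y ∈ convexHull ℝ (p '' (S : Set V)) :=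
        mem_hull_of_max (S := fv 𝓕) (S' := S) hmv
          (fun x hx hx' => Finset.mem_filter.mpr ⟨hx, hx'⟩) (Finset.filter_subset _ _) hy hmy
      exact convexHull_subset_affineSpan _ h1 |> affineSpan_subset_span
    have hSne : S.Nonempty := by
      by_contra hcon
      rw [Finset.not_nonempty_iff_eq_empty] at hcon
      rw [hcon] at hSspan
      simp only [Finset.coe_empty, Set.image_empty, Submodule.span_empty] at hSspan
      have h1 : (Pi.single ⟨0, hd⟩ 1 : Fin d → ℝ) ∈ (⊤ : Submodule ℝ (Fin d → ℝ)) := trivial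
      rw [← hSspan, Submodule.mem_bot] at h1
      have := congrFun h1 ⟨0, hd⟩
      simp at this
    have hSpos : (0 : ℝ) < S.card := by exact_mod_cast Finset.card_pos.mpr hSne
    set y : Fin d → ℝ := ∑ x ∈ S, (1 / (S.card : ℝ)) • p x with hy
    have hmy : m y = 1 := by
      rw [hy, map_sum, Finset.sum_congr rfl (g := fun _ => 1 / (S.card : ℝ))]
      · rw [Finset.sum_const, nsmul_eq_mul]
        field_simp
      · intro x hx
        rw [map_smul, (Finset.mem_filter.mp hx).2, smul_eq_mul, mul_one]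
    have hyP : y ∈ hull 𝓕 p := by
      have : y ∈ convexHull ℝ (p '' (S : Set V)) := by
        rw [mem_hull_iff]
        refine ⟨fun _ => 1 / (S.card : ℝ), fun _ _ => by positivity, ?_, hy⟩
        rw [Finset.sum_const, nsmul_eq_mul]
        field_simp
      refine convexHull_mono (Set.image_mono ?_) this
      intro x hx
      exact (Finset.mem_filter.mp hx).1
    obtain ⟨G, hG, a, ha, hay⟩ := h.key hmv hmy (fun G hG a ha => h.fun_le_hull hG ha y hyP)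
    refine ⟨G, hG, ?_⟩
    -- all points of S lie on the facet
    have hle : ∀ x ∈ S, a (p x) ≤ 1 := fun x hx =>
      (h.fun_le hG ha).1 x (Finset.mem_filter.mp hx).1
    have hsum : ∑ x ∈ S, (1 - a (p x)) = 0 := by
      rw [hy, map_sum] at hay
      simp only [map_smul, smul_eq_mul] at hay
      rw [← Finset.mul_sum] at hay
      rw [Finset.sum_sub_distrib, Finset.sum_const, nsmul_eq_mul, mul_one]
      field_simp at hay
      linarith
    have heach : ∀ x ∈ S, a (p x) = 1 := by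
      have := (Finset.sum_eq_zero_iff_of_nonneg
        (fun x hx => sub_nonneg.mpr (hle x hx))).mp hsum
      intro x hx
      linarith [this x hx]
    have hma : m = a := by
      apply LinearMap.ext_on hSspan
      rintro _ ⟨x, hx, rfl⟩
      rw [heach x hx]
      exact (Finset.mem_filter.mp hx).2
    rw [hma]
    exact ha
  · rintro ⟨G, hG, hm⟩
    refine ⟨h.fun_le_hull hG hm, ?_⟩
    rw [eq_top_iff, ← h.span G hG]
    apply Submodule.span_mono
    rintro _ ⟨x, hx, rfl⟩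
    exact ⟨h.mem_hull (fv_of_mem hG hx), hm x hx⟩

end Rlz

end geo

end Pool.Agent.CSLBT
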