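import Pool.Agent.CSLBT.GeoStep
import Pool.Agent.CSLBT.Count

set_option linter.unusedSectionVars false
set_option linter.unusedVariables false

namespace Pool.Agent.CSLBT

open Matrix

section geobase

variable {V : Type*} [DecidableEq V] {d : ℕ} {φ : V → V}

theorem rlz_base (hφ : Function.Involutive φ) (hφ' : ∀ x, φ x ≠ x) (hd : 1 ≤ d)
    {X : Finset V} (hX : ∀ x ∈ X, φ x ∈ X) (hXc : X.card = 2 * d) {𝓕 : Finset (Finset V)}
    (h𝓕 : ∀ F, F ∈ 𝓕 ↔ F ⊆ X ∧ (∀ x ∈ F, φ x ∉ F) ∧ F.card = d) :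
    ∃ p : V → Fin d → ℝ, Rlz φ d 𝓕 p ∧ hull 𝓕 p = crossPoly d := by
  classical
  obtain ⟨Y, hYX, hYc, hYn, hYcov⟩ := reps φ hφ _ X rfl hX (fun x _ => hφ' x)
  have hYd : Y.card = d := by omega
  let e : {x // x ∈ Y} ≃ Fin d := Y.equivFinOfCardEq hYd
  let p : V → Fin d → ℝ := fun x => if h : x ∈ Y then Pi.single (e ⟨x, h⟩) 1 else
    if h : φ x ∈ Y then - Pi.single (e ⟨φ x, h⟩) 1 else 0
  have hpY : ∀ (x : V) (h : x ∈ Y), p x = Pi.single (e ⟨x, h⟩) 1 := by
    intro x h
    simp only [p, dif_pos h]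
  have hpY' : ∀ (x : V) (h : x ∈ Y), p (φ x) = - Pi.single (e ⟨x, h⟩) 1 := by
    intro x h
    have h1 : φ x ∉ Y := hYn x h
    have h2 : φ (φ x) ∈ Y := by rw [hφ]; exact h
    simp only [p, dif_neg h1, dif_pos h2]
    congr 3
    exact Subtype.ext (hφ x)
  have hodd : ∀ x ∈ X, p (φ x) = - p x := by
    intro x hx
    rcases hYcov x hx with h | h
    · rw [hpY' x h, hpY x h]
    · have := hpY' (φ x) h
      rw [hφ] at this
      rw [this, hpY (φ x) h, neg_neg]
  -- dot products
  have hdotYY : ∀ x ∈ Y, ∀ y ∈ Y, p x ⬝ᵥ p y = if x = y then 1 else 0 := by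
    intro x hx y hy
    rw [hpY x hx, hpY y hy, single_dotProduct, one_mul, Pi.single_apply]
    by_cases h : x = y
    · subst h; simp
    · rw [if_neg h, if_neg]
      intro h'
      exact h (congrArg Subtype.val (e.injective h'))
  have hdot : ∀ x ∈ X, ∀ y ∈ X, x ≠ y → p x ⬝ᵥ p y ≤ 0 := by
    intro x hx y hy hxy
    rcases hYcov x hx with h1 | h1 <;> rcases hYcov y hy with h2 | h2
    · rw [hdotYY x h1 y h2, if_neg hxy]
    · have e1 : p y = - p (φ y) := by rw [hodd y hy, neg_neg]
      rw [e1, dotProduct_neg, hdotYY x h1 _ h2]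
      split_ifs <;> norm_num
    · have e1 : p x = - p (φ x) := by rw [hodd x hx, neg_neg]
      rw [e1, neg_dotProduct, hdotYY _ h1 _ h2]
      split_ifs <;> norm_num
    · have e1 : p y = - p (φ y) := by rw [hodd y hy, neg_neg]
      have e2 : p x = - p (φ x) := by rw [hodd x hx, neg_neg]
      rw [e1, e2, neg_dotProduct_neg, hdotYY _ h1 _ h2, if_neg (fun h => hxy (hφ.injective h))]
  have hself : ∀ x ∈ X, p x ⬝ᵥ p x = 1 := by
    intro x hx
    rcases hYcov x hx with h1 | h1
    · rw [hdotYY x h1 x h1, if_pos rfl]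
    · have e2 : p x = - p (φ x) := by rw [hodd x hx, neg_neg]
      rw [e2, neg_dotProduct_neg, hdotYY _ h1 _ h1, if_pos rfl]
  -- the expansion along a transversal
  have hexp : ∀ G ∈ 𝓕, ∀ y : Fin d → ℝ, ∑ x ∈ G, (p x ⬝ᵥ y) • p x = y := by
    intro G hG y
    obtain ⟨hGX, hGn, hGc⟩ := (h𝓕 G).mp hG
    -- representative in Y
    let r : V → V := fun x => if x ∈ Y then x else φ x
    have hrY : ∀ x ∈ G, r x ∈ Y := by
      intro x hx
      simp only [r]
      split_ifs with h
      · exact h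
      · exact (hYcov x (hGX hx)).resolve_left h
    have hrinj : Set.InjOn r (G : Set V) := by
      intro x hx z hz hxz
      simp only [r] at hxz
      split_ifs at hxz with h1 h2 h2
      · exact hxz
      · exact absurd (show φ z ∈ G by rw [← hxz]; exact hx) (hGn z hz)
      · exact absurd (show φ x ∈ G by rw [hxz]; exact hz) (hGn x hx)
      · exact hφ.injective hxz
    have hrterm : ∀ x ∈ G, (p x ⬝ᵥ y) • p x = (p (r x) ⬝ᵥ y) • p (r x) := by
      intro x hx
      simp only [r]
      split_ifs with h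
      · rfl
      · have e2 : p (φ x) = - p x := hodd x (hGX hx)
        rw [e2, neg_dotProduct, neg_smul_neg]
    have himg : G.image r = Y := by
      apply Finset.eq_of_subset_of_card_le
      · intro z hz
        obtain ⟨x, hx, rfl⟩ := Finset.mem_image.mp hz
        exact hrY x hx
      · rw [Finset.card_image_of_injOn hrinj, hGc, hYd]
    rw [Finset.sum_congr rfl hrterm, ← Finset.sum_image (f := fun x => (p x ⬝ᵥ y) • p x) hrinj,
      himg]
    rw [← Finset.sum_attach, ← Finset.univ_eq_attach]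
    rw [← Equiv.sum_comp e.symm]
    ext j
    simp only [Finset.sum_apply, Pi.smul_apply, smul_eq_mul]
    rw [Finset.sum_eq_single j]
    · rw [hpY _ (e.symm j).2]
      simp
    · intro i _ hij
      rw [hpY _ (e.symm i).2]
      simp [Pi.single_apply, Ne.symm hij]
    · simp
  have hfv : fv 𝓕 = X := by
    ext x
    rw [mem_fv]
    constructor
    · rintro ⟨F, hF, hx⟩
      exact ((h𝓕 F).mp hF).1 hx
    · intro hx
      rcases hYcov x hx with h | h
      · exact ⟨Y, (h𝓕 Y).mpr ⟨hYX, hYn, hYd⟩, h⟩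
      · refine ⟨Y.image φ, (h𝓕 _).mpr ⟨?_, ?_, ?_⟩, (mem_image_invol hφ).mpr h⟩
        · intro z hz
          obtain ⟨y, hy, rfl⟩ := Finset.mem_image.mp hz
          exact hX y (hYX hy)
        · intro z hz hz'
          rw [mem_image_invol hφ] at hz hz'
          exact hYn _ hz hz'
        · rw [Finset.card_image_of_injective _ hφ.injective, hYd]
  refine ⟨p, ⟨⟨fun F hF => ((h𝓕 F).mp hF).2.2, ?_, fun F hF => ((h𝓕 F).mp hF).2.1⟩, ?_, ?_, ?_,
    ?_, ?_, ?_⟩, ?_⟩
  · intro F hF
    obtain ⟨h1, h2, h3⟩ := (h𝓕 F).mp hF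
    refine (h𝓕 _).mpr ⟨?_, ?_, ?_⟩
    · intro z hz
      obtain ⟨y, hy, rfl⟩ := Finset.mem_image.mp hz
      exact hX y (h1 hy)
    · intro z hz hz'
      rw [mem_image_invol hφ] at hz hz'
      exact h2 _ hz hz'
    · rw [Finset.card_image_of_injective _ hφ.injective, h3]
  · exact ⟨Y, (h𝓕 Y).mpr ⟨hYX, hYn, hYd⟩⟩
  · intro F hF x hx
    obtain ⟨h1, h2, h3⟩ := (h𝓕 F).mp hF
    have hφx : φ x ∉ F := h2 x hx
    refine ⟨insert (φ x) (F.erase x), (h𝓕 _).mpr ⟨?_, ?_, ?_⟩, ?_, Finset.subset_insert _ _⟩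
    · intro z hz
      rw [Finset.mem_insert] at hz
      rcases hz with rfl | hz
      · exact hX x (h1 hx)
      · exact h1 (Finset.mem_of_mem_erase hz)
    · intro z hz hz'
      rw [Finset.mem_insert, Finset.mem_erase] at hz hz'
      rcases hz with rfl | hz
      · rcases hz' with h | h
        · exact hφ' _ h
        · rw [hφ] at h; exact h.1 rfl
      · rcases hz' with h | h
        · exact hz.1 (hφ.injective h)
        · exact h2 z hz.2 h.2
    · rw [Finset.card_insert_of_notMem (fun h => hφx (Finset.mem_of_mem_erase h)),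
        Finset.card_erase_of_mem hx, h3]
      omega
    · intro h
      have : φ x ∈ F := by rw [← h]; exact Finset.mem_insert_self _ _
      exact hφx this
  · intro x hx
    rw [hfv] at hx
    exact hodd x hx
  · intro G hG
    obtain ⟨hGX, hGn, hGc⟩ := (h𝓕 G).mp hG
    refine ⟨∑ x ∈ G, (dotProductBilin ℝ ℝ (p x)), ?_, ?_⟩
    · intro z hz
      rw [LinearMap.sum_apply, Finset.sum_eq_single z]
      · exact hself z (hGX hz)
      · intro x hx hxz
        have h1 : p x ⬝ᵥ p z ≤ 0 := hdot x (hGX hx) z (hGX hz) hxz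
        have h2 : p (φ x) ⬝ᵥ p z ≤ 0 := hdot _ (hX x (hGX hx)) z (hGX hz)
          (fun h => hGn x hx (h ▸ hz))
        rw [hodd x (hGX hx), neg_dotProduct] at h2
        have h3 : p x ⬝ᵥ p z = 0 := le_antisymm h1 (by linarith)
        exact h3
      · exact fun h => absurd hz h
    · intro z hz hzG
      rw [hfv] at hz
      rw [LinearMap.sum_apply]
      refine lt_of_le_of_lt (Finset.sum_nonpos fun x hx => ?_) one_pos
      exact hdot x (hGX hx) z hz (fun h => hzG (h ▸ hx))
  · intro G hG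
    rw [eq_top_iff]
    intro y _
    rw [← hexp G hG y]
    exact Submodule.sum_mem _ fun x hx => Submodule.smul_mem _ _
      (Submodule.subset_span ⟨x, hx, rfl⟩)
  · intro y
    let g : V → V := fun x => if 0 ≤ p x ⬝ᵥ y then x else φ x
    have hgmem : ∀ x ∈ Y, g x = x ∨ g x = φ x := by
      intro x _
      simp only [g]
      split_ifs
      · left; rfl
      · right; rfl
    have hG : Y.image g ∈ 𝓕 := by
      rw [h𝓕]
      refine ⟨?_, ?_, ?_⟩
      · intro z hz
        obtain ⟨x, hx, rfl⟩ := Finset.mem_image.mp hz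
        rcases hgmem x hx with h | h <;> rw [h]
        · exact hYX hx
        · exact hX x (hYX hx)
      · intro z hz hz'
        obtain ⟨x, hx, rfl⟩ := Finset.mem_image.mp hz
        obtain ⟨x', hx', hxx⟩ := Finset.mem_image.mp hz'
        have key : x' = x := by
          rcases hgmem x hx with h | h <;> rcases hgmem x' hx' with h' | h' <;> rw [h, h'] at hxx
          · exact absurd (hxx ▸ hx') (hYn x hx)
          · exact hφ.injective hxx
          · rw [hφ] at hxx; exact hxx
          · rw [hφ] at hxx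
            exact absurd (show φ x' ∈ Y by rw [hxx]; exact hx) (hYn x' hx')
        rw [key] at hxx
        exact hφ' _ hxx.symm
      · rw [Finset.card_image_of_injOn, hYd]
        intro x hx z hz hxz
        have hx' : x ∈ Y := hx
        have hz' : z ∈ Y := hz
        rcases hgmem x hx' with h | h <;> rcases hgmem z hz' with h' | h' <;> rw [h, h'] at hxz
        · exact hxz
        · exact absurd (show φ z ∈ Y by rw [← hxz]; exact hx') (hYn z hz')
        · exact absurd (show φ x ∈ Y by rw [hxz]; exact hz') (hYn x hx')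
        · exact hφ.injective hxz
    refine ⟨Y.image g, hG, fun x => p x ⬝ᵥ y, ?_, (hexp _ hG y).symm⟩
    intro z hz
    obtain ⟨x, hx, rfl⟩ := Finset.mem_image.mp hz
    simp only [g]
    split_ifs with h
    · exact h
    · rw [hodd x (hYX hx), neg_dotProduct]
      linarith
  · unfold hull crossPoly
    rw [hfv]
    congr 1
    ext y
    constructor
    · rintro ⟨x, hx, rfl⟩
      rcases hYcov x hx with h | h
      · exact ⟨e ⟨x, h⟩, Or.inl (hpY x h)⟩
      · refine ⟨e ⟨φ x, h⟩, Or.inr ?_⟩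
        have := hpY' (φ x) h
        rwa [hφ] at this
    · rintro ⟨i, rfl | rfl⟩
      · refine ⟨(e.symm i : V), hYX (e.symm i).2, ?_⟩
        rw [hpY _ (e.symm i).2]
        simp
      · refine ⟨φ (e.symm i : V), hX _ (hYX (e.symm i).2), ?_⟩
        rw [hpY' _ (e.symm i).2]
        simp

end geobase

end Pool.Agent.CSLBT
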