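import Pool.Agent.CSLBT.GeoFace

set_option linter.unusedSectionVars false
set_option linter.unusedVariables false

namespace Pool.Agent.CSLBT

open Matrix Topology Filter

section geoconv

variable {V : Type*} [DecidableEq V] {d : ℕ} {φ : V → V}

/-- vertex and edge numbers of the cross-polytope -/
lemma base_count (hφ : Function.Involutive φ) (hφ' : ∀ x, φ x ≠ x) (hd : 2 ≤ d)
    {X : Finset V} (hX : ∀ x ∈ X, φ x ∈ X) (hXc : X.card = 2 * d) {𝓕 : Finset (Finset V)}
    (h𝓕 : ∀ F, F ∈ 𝓕 ↔ F ⊆ X ∧ (∀ x ∈ F, φ x ∉ F) ∧ F.card = d) :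
    (fv 𝓕).card = 2 * d ∧ (fe 𝓕).card + 2 * d = d * (2 * d) := by
  classical
  obtain ⟨Y, hYX, hYc, hYn, hYcov⟩ := reps φ hφ _ X rfl hX (fun x _ => hφ' x)
  have hYd : Y.card = d := by omega
  have hex : ∀ x ∈ X, ∀ y ∈ X, x ≠ y → y ≠ φ x → ∃ F ∈ 𝓕, x ∈ F ∧ y ∈ F := by
    intro x hx y hy hxy hyx
    have hxy' : φ x ≠ φ y := fun h => hxy (hφ.injective h)
    have hyx' : x ≠ φ y := fun h => hyx (by rw [h, hφ])
    have h1 : φ x ∈ X.erase x := Finset.mem_erase.mpr ⟨hφ' x, hX x hx⟩
    have h2 : y ∈ (X.erase x).erase (φ x) :=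
      Finset.mem_erase.mpr ⟨hyx, Finset.mem_erase.mpr ⟨hxy.symm, hy⟩⟩
    have h3 : φ y ∈ ((X.erase x).erase (φ x)).erase y :=
      Finset.mem_erase.mpr ⟨hφ' y, Finset.mem_erase.mpr ⟨hxy'.symm,
        Finset.mem_erase.mpr ⟨hyx'.symm, hX y hy⟩⟩⟩
    set Z := (((X.erase x).erase (φ x)).erase y).erase (φ y) with hZ
    have hZmem : ∀ z, z ∈ Z ↔ z ≠ φ y ∧ z ≠ y ∧ z ≠ φ x ∧ z ≠ x ∧ z ∈ X := by
      intro z
      simp only [hZ, Finset.mem_erase]
    have hZc : Z.card + 4 = X.card := by
      rw [hZ, Finset.card_erase_of_mem h3, Finset.card_erase_of_mem h2,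
        Finset.card_erase_of_mem h1, Finset.card_erase_of_mem hx]
      omega
    obtain ⟨Y', hY'Z, hY'c, hY'n, -⟩ := reps φ hφ _ Z rfl (by
      intro z hz
      rw [hZmem] at hz ⊢
      obtain ⟨e1, e2, e3, e4, e5⟩ := hz
      exact ⟨fun h => e2 (hφ.injective h), fun h => e1 (by rw [← h, hφ]),
        fun h => e4 (hφ.injective h), fun h => e3 (by rw [← h, hφ]), hX z e5⟩)
      (fun z _ => hφ' z)
    have hyY' : y ∉ Y' := fun h => by
      have := (hZmem y).mp (hY'Z h)
      exact this.2.1 rfl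
    have hyY'' : φ y ∉ Y' := fun h => by
      have := (hZmem _).mp (hY'Z h)
      exact this.1 rfl
    have hxY'' : φ x ∉ Y' := fun h => by
      have := (hZmem _).mp (hY'Z h)
      exact this.2.2.1 rfl
    have hxY' : x ∉ insert y Y' := by
      rw [Finset.mem_insert]
      rintro (h | h)
      · exact hxy h
      · have := (hZmem x).mp (hY'Z h)
        exact this.2.2.2.1 rfl
    refine ⟨insert x (insert y Y'), (h𝓕 _).mpr ⟨?_, ?_, ?_⟩, Finset.mem_insert_self _ _,
      Finset.mem_insert_of_mem (Finset.mem_insert_self _ _)⟩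
    · intro z hz
      rw [Finset.mem_insert, Finset.mem_insert] at hz
      rcases hz with rfl | rfl | hz
      · exact hx
      · exact hy
      · exact ((hZmem z).mp (hY'Z hz)).2.2.2.2
    · intro z hz hz'
      rw [Finset.mem_insert, Finset.mem_insert] at hz hz'
      rcases hz with rfl | rfl | hz
      · rcases hz' with h | h | h
        · exact hφ' _ h
        · exact hyx h.symm
        · exact hxY'' h
      · rcases hz' with h | h | h
        · exact hyx' h.symm
        · exact hφ' _ h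
        · exact hyY'' h
      · have hz1 := (hZmem z).mp (hY'Z hz)
        rcases hz' with h | h | h
        · exact hz1.2.2.1 (by rw [← h, hφ])
        · exact hz1.1 (by rw [← h, hφ])
        · exact hY'n z hz h
    · rw [Finset.card_insert_of_notMem hxY', Finset.card_insert_of_notMem hyY']
      omega
  have hfv : fv 𝓕 = X := by
    ext x
    rw [mem_fv]
    constructor
    · rintro ⟨F, hF, hx⟩
      exact ((h𝓕 F).mp hF).1 hx
    · intro hx
      obtain ⟨y, hy, hy'⟩ : ∃ y ∈ X, y ∉ ({x, φ x} : Finset V) := by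
        apply Finset.exists_mem_notMem_of_card_lt_card
        have := Finset.card_le_two (a := x) (b := φ x)
        omega
      simp only [Finset.mem_insert, Finset.mem_singleton, not_or] at hy'
      obtain ⟨F, hF, hxF, -⟩ := hex x hx y hy (Ne.symm hy'.1) hy'.2
      exact ⟨F, hF, hxF⟩
  refine ⟨by rw [hfv, hXc], ?_⟩
  have hunion : X.powersetCard 2 = fe 𝓕 ∪ Y.image (fun x => ({x, φ x} : Finset V)) := by
    ext e
    rw [Finset.mem_union, Finset.mem_powersetCard, mem_fe, Finset.mem_image]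
    constructor
    · rintro ⟨he, hc⟩
      obtain ⟨x, y, hxy, rfl⟩ := Finset.card_eq_two.mp hc
      have hx : x ∈ X := he (by simp)
      have hy : y ∈ X := he (by simp)
      by_cases hyx : y = φ x
      · right
        rcases hYcov x hx with h | h
        · exact ⟨x, h, by rw [hyx]⟩
        · exact ⟨φ x, h, by rw [hφ, hyx]; exact Finset.pair_comm _ _⟩
      · left
        obtain ⟨F, hF, h1, h2⟩ := hex x hx y hy hxy hyx
        refine ⟨hc, F, hF, fun z hz => ?_⟩
        rw [Finset.mem_insert, Finset.mem_singleton] at hz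
        rcases hz with rfl | rfl
        · exact h1
        · exact h2
    · rintro (⟨hc, F, hF, he⟩ | ⟨x, hx, rfl⟩)
      · exact ⟨fun z hz => ((h𝓕 F).mp hF).1 (he hz), hc⟩
      · refine ⟨fun z hz => ?_, Finset.card_pair (hφ' x).symm⟩
        rw [Finset.mem_insert, Finset.mem_singleton] at hz
        rcases hz with rfl | rfl
        · exact hYX hx
        · exact hX x (hYX hx)
  have hdisj : Disjoint (fe 𝓕) (Y.image (fun x => ({x, φ x} : Finset V))) := by
    rw [Finset.disjoint_left]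
    intro e he he'
    obtain ⟨-, F, hF, heF⟩ := mem_fe.mp he
    obtain ⟨x, hx, rfl⟩ := Finset.mem_image.mp he'
    exact ((h𝓕 F).mp hF).2.1 x (heF (by simp)) (heF (by simp))
  have hYimg : (Y.image (fun x => ({x, φ x} : Finset V))).card = d := by
    rw [Finset.card_image_of_injOn, hYd]
    intro x hx y hy hxy
    simp only at hxy
    have : x ∈ ({y, φ y} : Finset V) := by rw [← hxy]; simp
    rw [Finset.mem_insert, Finset.mem_singleton] at this
    rcases this with h | h
    · exact h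
    · exact absurd (show φ y ∈ Y by rw [← h]; exact hx) (hYn y hy)
  have hcard := congrArg Finset.card hunion
  rw [Finset.card_powersetCard, Finset.card_union_of_disjoint hdisj, hYimg, hXc,
    Nat.choose_two_right] at hcard
  have h2 : 2 * d * (2 * d - 1) / 2 = d * (2 * d - 1) := by
    rw [mul_assoc, Nat.mul_div_cancel_left _ (by norm_num)]
  rw [h2] at hcard
  obtain ⟨k, rfl⟩ : ∃ k, d = k + 1 := ⟨d - 1, by omega⟩
  have h3 : 2 * (k + 1) - 1 = 2 * k + 1 := by omega
  rw [h3] at hcard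
  nlinarith

lemma Stk.count (hφ : Function.Involutive φ) (hφ' : ∀ x, φ x ≠ x) (hd : 3 ≤ d)
    {𝓕 : Finset (Finset V)} (h : Stk φ d 𝓕) :
    SymFam φ d 𝓕 ∧ (fe 𝓕).card + 2 * d = d * (fv 𝓕).card := by
  induction h with
  | base X hX hXc 𝓕 h𝓕 =>
    obtain ⟨h1, h2⟩ := base_count hφ hφ' (by omega) hX hXc h𝓕
    refine ⟨?_, by rw [h1, h2]⟩
    obtain ⟨p, hp, -⟩ := rlz_base hφ hφ' (by omega) hX hXc h𝓕
    exact hp.sym
  | step 𝓕 𝓕' F w h hr ih =>
    obtain ⟨hs, hc⟩ := ih
    refine ⟨hr.symFam hφ hφ' hs (by omega), ?_⟩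
    rw [hr.fv_card hφ hφ' hs (by omega), hr.fe_card hφ hφ' hs hd]
    nlinarith

/-- the standard free involution on `ℕ × Bool` -/
def flip0 (x : ℕ × Bool) : ℕ × Bool := (x.1, !x.2)

lemma flip0_inv : Function.Involutive flip0 := by
  rintro ⟨n, b⟩
  simp [flip0]

lemma flip0_ne (x : ℕ × Bool) : flip0 x ≠ x := by
  rcases x with ⟨n, b⟩
  simp [flip0]

/-- Every symmetrically stacked polytope carries a combinatorial model. -/
theorem poly_to_rlz (hd : 3 ≤ d) {P : Set (Fin d → ℝ)} (hP : SymStackedPoly d P) :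
    ∃ (𝓕 : Finset (Finset (ℕ × Bool))) (p : ℕ × Bool → Fin d → ℝ), Rlz flip0 d 𝓕 p ∧
      hull 𝓕 p = P ∧ (fe 𝓕).card + 2 * d = d * (fv 𝓕).card := by
  classical
  induction hP with
  | cross =>
    let X : Finset (ℕ × Bool) := (Finset.range d) ×ˢ Finset.univ
    have hXc : X.card = 2 * d := by
      simp [X]; ring
    have hX : ∀ x ∈ X, flip0 x ∈ X := by
      rintro ⟨n, b⟩ h
      simp only [X, Finset.mem_product, Finset.mem_range, Finset.mem_univ, and_true] at h
      simpa [X, flip0] using h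
    have h𝓕 : ∀ F, F ∈ X.powerset.filter (fun F => (∀ x ∈ F, flip0 x ∉ F) ∧ F.card = d) ↔
        F ⊆ X ∧ (∀ x ∈ F, flip0 x ∉ F) ∧ F.card = d := by
      intro F
      rw [Finset.mem_filter, Finset.mem_powerset]
    obtain ⟨p, hp, hh⟩ := rlz_base flip0_inv flip0_ne (by omega) hX hXc h𝓕
    obtain ⟨h1, h2⟩ := base_count flip0_inv flip0_ne (by omega) hX hXc h𝓕
    exact ⟨_, p, hp, hh, by rw [h1, h2]⟩
  | stack P hP l hl v hv hv' ih =>
    obtain ⟨𝓕, p, hp, rfl, hc⟩ := ih
    obtain ⟨F, hF, hlF⟩ := (hp.isFacetFun_iff (by omega)).mp hl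
    obtain ⟨w, hw⟩ := Infinite.exists_notMem_finset (fv 𝓕)
    have hw' : flip0 w ∉ fv 𝓕 := fun h => hw (by
      have := hp.sym.fv_phi h
      rwa [flip0_inv] at this)
    let 𝓕' : Finset (Finset (ℕ × Bool)) :=
      𝓕.filter (fun G => G ≠ F ∧ G ≠ F.image flip0) ∪
        (F.image (fun y => insert w (F.erase y)) ∪
          F.image (fun y => insert (flip0 w) ((F.erase y).image flip0)))
    have hr : StackRel flip0 𝓕 𝓕' F w := by
      refine ⟨hF, fun G hG h => hw (fv_of_mem hG h), fun G hG h => hw' (fv_of_mem hG h), ?_⟩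
      intro G
      simp only [𝓕', Finset.mem_union, Finset.mem_filter, Finset.mem_image]
      constructor
      · rintro (h | ⟨y, hy, h⟩ | ⟨y, hy, h⟩)
        · left; exact h
        · right; left; exact ⟨y, hy, h.symm⟩
        · right; right; exact ⟨y, hy, h.symm⟩
      · rintro (h | ⟨y, hy, h⟩ | ⟨y, hy, h⟩)
        · left; exact h
        · right; left; exact ⟨y, hy, h.symm⟩
        · right; right; exact ⟨y, hy, h.symm⟩
    let p' : ℕ × Bool → Fin d → ℝ := fun x => if x = w then v else if x = flip0 w then -v else p x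
    have hp'w : p' w = v := by simp [p']
    have hp'w' : p' (flip0 w) = - p' w := by simp [p', flip0_ne w]
    have hp'x : ∀ x ∈ fv 𝓕, p' x = p x := by
      intro x hx
      have h1 : x ≠ w := fun h' => hw (h' ▸ hx)
      have h2 : x ≠ flip0 w := fun h' => hw' (h' ▸ hx)
      simp [p', h1, h2]
    have hvG : ∀ G ∈ 𝓕, G ≠ F → ∀ m : (Fin d → ℝ) →ₗ[ℝ] ℝ, (∀ x ∈ G, m (p x) = 1) → m v < 1 := by
      intro G hG hGF m hm
      refine hv' m ((hp.isFacetFun_iff (by omega)).mpr ⟨G, hG, hm⟩) ?_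
      rintro rfl
      obtain ⟨x, hx, hxF⟩ : ∃ x ∈ G, x ∉ F := by
        by_contra hcon
        push Not at hcon
        apply hGF
        exact Finset.eq_of_subset_of_card_le hcon (by
          rw [hp.sym.card G hG, hp.sym.card F hF])
      have h1 := (hp.fun_le hF hlF).2 x (fv_of_mem hG hx) hxF
      rw [hm x hx] at h1
      exact lt_irrefl _ h1
    have hstep := hp.step flip0_inv flip0_ne (by omega) hr hp'x hp'w' hlF
      (by rw [hp'w]; exact hv) (by rw [hp'w]; exact hvG)
    refine ⟨𝓕', p', hstep, ?_, ?_⟩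
    · rw [hull_step flip0_inv flip0_ne (by omega) hp.sym hr hp'x hp'w', hp'w]
    · rw [hr.fv_card flip0_inv flip0_ne hp.sym (by omega),
        hr.fe_card flip0_inv flip0_ne hp.sym (by omega)]
      nlinarith

end geoconv

end Pool.Agent.CSLBT
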