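import Pool.Agent.CSLBT.GeoBase

set_option linter.unusedSectionVars false
set_option linter.unusedVariables false

namespace Pool.Agent.CSLBT

open Matrix Topology Filter

section geoface

variable {V : Type*} [DecidableEq V] {d : ℕ} {φ : V → V}

namespace Rlz

variable {𝓕 : Finset (Finset V)} {p : V → Fin d → ℝ} (h : Rlz φ d 𝓕 p)

include h

/-- existence of a point beyond exactly one facet -/
lemma exists_beyond (hd : 1 ≤ d) {F : Finset V} (hF : F ∈ 𝓕) :
    ∃ (v : Fin d → ℝ) (a : (Fin d → ℝ) →ₗ[ℝ] ℝ), (∀ x ∈ F, a (p x) = 1) ∧ 1 < a v ∧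
      ∀ G ∈ 𝓕, G ≠ F → ∀ m : (Fin d → ℝ) →ₗ[ℝ] ℝ, (∀ x ∈ G, m (p x) = 1) → m v < 1 := by
  classical
  have hFc := h.sym.card F hF
  have hdpos : (0 : ℝ) < d := by exact_mod_cast hd
  set b : Fin d → ℝ := ∑ x ∈ F, (1 / (d : ℝ)) • p x with hb
  have hab : ∀ a : (Fin d → ℝ) →ₗ[ℝ] ℝ, a b = (1 / (d : ℝ)) * ∑ x ∈ F, a (p x) := by
    intro a
    rw [hb, map_sum, Finset.mul_sum]
    exact Finset.sum_congr rfl fun x _ => by rw [map_smul, smul_eq_mul]
  have hsum1 : (1 / (d : ℝ)) * ∑ x ∈ F, (1 : ℝ) = 1 := by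
    rw [Finset.sum_const, hFc, nsmul_eq_mul]
    field_simp
  choose! A hA1 hA2 using h.supp
  have hlt : ∀ G ∈ 𝓕, G ≠ F → A G b < 1 := by
    intro G hG hGF
    refine lt_of_lt_of_eq ?_ hsum1
    rw [hab]
    apply mul_lt_mul_of_pos_left _ (by positivity)
    obtain ⟨x, hx, hxG⟩ : ∃ x ∈ F, x ∉ G := by
      by_contra hcon
      push Not at hcon
      apply hGF
      symm
      exact Finset.eq_of_subset_of_card_le hcon (by rw [h.sym.card G hG, hFc])
    refine Finset.sum_lt_sum (fun x hx => (h.fun_le hG (hA1 G hG)).1 x (fv_of_mem hF hx))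
      ⟨x, hx, hA2 G hG x (fv_of_mem hF hx) hxG⟩
  have hev : ∀ᶠ ε : ℝ in 𝓝[>] 0, ∀ G ∈ 𝓕, G ≠ F → (1 + ε) * A G b < 1 := by
    rw [Finset.eventually_all]
    intro G hG
    by_cases hGF : G = F
    · exact Eventually.of_forall fun _ h' => absurd hGF h'
    · have h1 : Tendsto (fun ε : ℝ => (1 + ε) * A G b) (𝓝 0) (𝓝 ((1 + 0) * A G b)) := by
        apply Continuous.tendsto
        fun_prop
      have h2 : (1 + 0) * A G b < 1 := by rw [add_zero, one_mul]; exact hlt G hG hGF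
      have h3 := (h1.eventually (eventually_lt_nhds h2)).filter_mono
        (nhdsWithin_le_nhds (s := Set.Ioi (0 : ℝ)))
      filter_upwards [h3] with ε hε _ using hε
  obtain ⟨ε, hε, hεpos⟩ := (hev.and self_mem_nhdsWithin).exists
  have hεpos' : 0 < ε := hεpos
  refine ⟨(1 + ε) • b, A F, hA1 F hF, ?_, ?_⟩
  · rw [map_smul, hab, Finset.sum_congr rfl (hA1 F hF), hsum1, smul_eq_mul]
    linarith
  · intro G hG hGF m hm
    have hmA : m = A G := h.ext_fun hG fun x hx => by rw [hm x hx, hA1 G hG x hx]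
    rw [hmA, map_smul, smul_eq_mul]
    exact hε G hG hGF

/-- positions are distinct -/
lemma inj (hd : 1 ≤ d) {x y : V} (hx : x ∈ fv 𝓕) (hy : y ∈ fv 𝓕) (hxy : p x = p y) : x = y := by
  obtain ⟨G, hG, hxG⟩ := mem_fv.mp hx
  by_contra hne
  obtain ⟨G', hG', hsub, hyG'⟩ := h.inter_facets (F' := {x}) hG
    (Finset.singleton_subset_iff.mpr hxG) (x := y) (by
      rw [Finset.mem_singleton]; exact fun h' => hne h'.symm)
  obtain ⟨a, ha1, ha2⟩ := h.supp G' hG'
  have h1 := ha1 x (hsub (Finset.mem_singleton_self x))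
  have h2 := ha2 y hy hyG'
  rw [← hxy, h1] at h2
  exact lt_irrefl _ h2

/-- the proper faces of the hull are the subsets of the facets -/
lemma face_iff (hd : 1 ≤ d) {F' : Finset V} (hF' : F' ⊆ fv 𝓕) :
    (IsExposed ℝ (hull 𝓕 p) (convexHull ℝ (p '' (F' : Set V))) ∧
      convexHull ℝ (p '' (F' : Set V)) ≠ hull 𝓕 p) ↔ ∃ G ∈ 𝓕, F' ⊆ G := by
  classical
  obtain ⟨x0, hx0⟩ := h.card_fv_pos hd
  constructor
  · rintro ⟨hexp, hne⟩
    by_cases hF'e : F'.Nonempty
    swap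
    · rw [Finset.not_nonempty_iff_eq_empty] at hF'e
      obtain ⟨G, hG⟩ := h.ne
      exact ⟨G, hG, by rw [hF'e]; exact Finset.empty_subset _⟩
    obtain ⟨z0, hz0⟩ := hF'e
    have hz0B : p z0 ∈ convexHull ℝ (p '' (F' : Set V)) := subset_convexHull ℝ _ ⟨z0, hz0, rfl⟩
    obtain ⟨l, hl⟩ := hexp ⟨_, hz0B⟩
    have hlB : ∀ y, y ∈ convexHull ℝ (p '' (F' : Set V)) ↔ y ∈ hull 𝓕 p ∧
        ∀ z ∈ hull 𝓕 p, l z ≤ l y := by
      intro y
      rw [hl]
      exact Iff.rfl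
    set M := l (p z0) with hM
    have hmax : ∀ z ∈ hull 𝓕 p, l z ≤ M := ((hlB _).mp hz0B).2
    have hBM : ∀ y, y ∈ convexHull ℝ (p '' (F' : Set V)) ↔ y ∈ hull 𝓕 p ∧ l y = M := by
      intro y
      rw [hlB]
      constructor
      · rintro ⟨h1, h2⟩
        exact ⟨h1, le_antisymm (hmax y h1) (h2 _ ((hlB _).mp hz0B).1)⟩
      · rintro ⟨h1, h2⟩
        exact ⟨h1, fun z hz => by rw [h2]; exact hmax z hz⟩
    have hMpos : 0 < M := by
      by_contra hcon
      rw [not_lt] at hcon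
      apply hne
      have hzero : ∀ x ∈ fv 𝓕, l (p x) = 0 := by
        intro x hx
        have h1 := hmax _ (h.mem_hull hx)
        have h2 := hmax _ (h.mem_hull (h.sym.fv_phi hx))
        rw [h.odd x hx, map_neg] at h2
        linarith
      have hM0 : M = 0 := hzero z0 (hF' hz0)
      ext y
      rw [hBM]
      constructor
      · exact fun h' => h'.1
      · intro hy
        refine ⟨hy, ?_⟩
        obtain ⟨c, -, -, rfl⟩ := mem_hull_iff.mp hy
        rw [map_sum, hM0]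
        refine Finset.sum_eq_zero fun x hx => ?_
        rw [map_smul, hzero x hx, smul_zero]
    set m : (Fin d → ℝ) →ₗ[ℝ] ℝ := M⁻¹ • (l : (Fin d → ℝ) →ₗ[ℝ] ℝ) with hm
    have hmval : ∀ y, m y = M⁻¹ * l y := fun y => rfl
    have hmv : ∀ x ∈ fv 𝓕, m (p x) ≤ 1 := by
      intro x hx
      rw [hmval, inv_mul_le_iff₀ hMpos, mul_one]
      exact hmax _ (h.mem_hull hx)
    have hFpos : (0 : ℝ) < F'.card := by exact_mod_cast Finset.card_pos.mpr ⟨z0, hz0⟩
    set y : Fin d → ℝ := ∑ x ∈ F', (1 / (F'.card : ℝ)) • p x with hy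
    have hyB : y ∈ convexHull ℝ (p '' (F' : Set V)) := by
      rw [mem_hull_iff]
      refine ⟨fun _ => 1 / (F'.card : ℝ), fun _ _ => by positivity, ?_, hy⟩
      rw [Finset.sum_const, nsmul_eq_mul]
      field_simp
    have hyM := (hBM y).mp hyB
    have hmy : m y = 1 := by
      rw [hmval, hyM.2, inv_mul_cancel₀ hMpos.ne']
    obtain ⟨G, hG, a, ha, hay⟩ := h.key hmv hmy
      (fun G hG a ha => h.fun_le_hull hG ha y hyM.1)
    refine ⟨G, hG, fun x hx => ?_⟩
    have hle : ∀ x ∈ F', a (p x) ≤ 1 := fun x hx => (h.fun_le hG ha).1 x (hF' hx)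
    have hsum : ∑ x ∈ F', (1 - a (p x)) = 0 := by
      rw [hy, map_sum] at hay
      simp only [map_smul, smul_eq_mul] at hay
      rw [← Finset.mul_sum] at hay
      rw [Finset.sum_sub_distrib, Finset.sum_const, nsmul_eq_mul, mul_one]
      field_simp at hay
      linarith
    have heach := (Finset.sum_eq_zero_iff_of_nonneg
        (fun x hx => sub_nonneg.mpr (hle x hx))).mp hsum x hx
    by_contra hxG
    have := (h.fun_le hG ha).2 x (hF' hx) hxG
    linarith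
  · rintro ⟨G, hG, hF'G⟩
    have hx0P := h.mem_hull hx0
    by_cases hF'e : F'.Nonempty
    swap
    · rw [Finset.not_nonempty_iff_eq_empty] at hF'e
      subst hF'e
      simp only [Finset.coe_empty, Set.image_empty, convexHull_empty]
      refine ⟨isExposed_empty, ?_⟩
      intro h'
      rw [← h'] at hx0P
      exact hx0P
    obtain ⟨z0, hz0⟩ := hF'e
    choose! A hA1 hA2 using h.supp
    set 𝒢 := 𝓕.filter (fun G => F' ⊆ G) with h𝒢
    set l : (Fin d → ℝ) →ₗ[ℝ] ℝ := ∑ G ∈ 𝒢, A G with hl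
    have h𝒢mem : ∀ G, G ∈ 𝒢 ↔ G ∈ 𝓕 ∧ F' ⊆ G := fun G => Finset.mem_filter
    have hlF : ∀ x ∈ F', l (p x) = 𝒢.card := by
      intro x hx
      rw [hl, LinearMap.sum_apply, Finset.sum_congr rfl
        (fun G hG => hA1 G ((h𝒢mem G).mp hG).1 x (((h𝒢mem G).mp hG).2 hx))]
      simp
    have hlle : ∀ x ∈ fv 𝓕, l (p x) ≤ 𝒢.card := by
      intro x hx
      rw [hl, LinearMap.sum_apply]
      calc ∑ G ∈ 𝒢, A G (p x) ≤ ∑ G ∈ 𝒢, (1 : ℝ) := Finset.sum_le_sum fun G hG =>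
            (h.fun_le ((h𝒢mem G).mp hG).1 (hA1 G ((h𝒢mem G).mp hG).1)).1 x hx
        _ = 𝒢.card := by simp
    have hllt : ∀ x ∈ fv 𝓕, x ∉ F' → l (p x) < 𝒢.card := by
      intro x hx hxF'
      obtain ⟨G', hG', hsub, hxG'⟩ := h.inter_facets hG hF'G hxF'
      rw [hl, LinearMap.sum_apply]
      calc ∑ G ∈ 𝒢, A G (p x) < ∑ G ∈ 𝒢, (1 : ℝ) := Finset.sum_lt_sum (fun G hG =>
            (h.fun_le ((h𝒢mem G).mp hG).1 (hA1 G ((h𝒢mem G).mp hG).1)).1 x hx)
            ⟨G', (h𝒢mem G').mpr ⟨hG', hsub⟩, hA2 G' hG' x hx hxG'⟩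
        _ = 𝒢.card := by simp
    have hlP : ∀ y ∈ hull 𝓕 p, l y ≤ 𝒢.card := by
      apply le_on_hull
      rintro _ ⟨x, hx, rfl⟩
      exact hlle x hx
    have hlB : ∀ y ∈ convexHull ℝ (p '' (F' : Set V)), l y = 𝒢.card := by
      intro y hy
      obtain ⟨c, -, hc, rfl⟩ := mem_hull_iff.mp hy
      rw [map_sum, Finset.sum_congr rfl (fun x hx => by rw [map_smul, hlF x hx, smul_eq_mul]),
        ← Finset.sum_mul, hc, one_mul]
    have hsubP : convexHull ℝ (p '' (F' : Set V)) ⊆ hull 𝓕 p :=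
      convexHull_mono (Set.image_mono hF')
    have hz0B : p z0 ∈ convexHull ℝ (p '' (F' : Set V)) := subset_convexHull ℝ _ ⟨z0, hz0, rfl⟩
    constructor
    · intro _
      refine ⟨l.toContinuousLinearMap, ?_⟩
      ext y
      constructor
      · intro hy
        refine ⟨hsubP hy, fun z hz => ?_⟩
        rw [LinearMap.coe_toContinuousLinearMap', hlB y hy]
        exact hlP z hz
      · rintro ⟨hy, hmax⟩
        have h1 := hmax (p z0) (hsubP hz0B)
        rw [LinearMap.coe_toContinuousLinearMap', hlB _ hz0B] at h1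
        have h2 : l y = 𝒢.card := le_antisymm (hlP y hy) h1
        exact mem_hull_of_max hlle (fun x hx hx' => by
          by_contra hxF'
          exact absurd hx' (hllt x hx hxF').ne) hF' hy h2
    · intro heq
      have h1 : φ z0 ∉ F' := fun h' => h.sym.anti G hG z0 (hF'G hz0) (hF'G h')
      have h2 := h.sym.fv_phi (hF' hz0)
      have h3 := h.mem_hull h2
      rw [← heq] at h3
      exact absurd (hlB _ h3) (hllt _ h2 h1).ne

end Rlz

/-- exposed subsets of a convex hull of a finite set -/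
lemma exposed_point {S : Finset V} {p : V → Fin d → ℝ} {y : Fin d → ℝ}
    (h : IsExposed ℝ (convexHull ℝ (p '' (S : Set V))) {y}) : ∃ x ∈ S, p x = y := by
  classical
  obtain ⟨l, hl⟩ := h ⟨y, rfl⟩
  have hy : y ∈ convexHull ℝ (p '' (S : Set V)) ∧
      ∀ z ∈ convexHull ℝ (p '' (S : Set V)), l z ≤ l y := by
    have : y ∈ ({y} : Set (Fin d → ℝ)) := rfl
    rw [hl] at this
    exact this
  have h1 := mem_hull_of_max (S := S) (S' := S.filter (fun x => l (p x) = l y)) (p := p)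
    (l := (l : (Fin d → ℝ) →ₗ[ℝ] ℝ)) (M := l y)
    (fun x hx => hy.2 _ (subset_convexHull ℝ _ ⟨x, hx, rfl⟩))
    (fun x hx hx' => Finset.mem_filter.mpr ⟨hx, hx'⟩) (Finset.filter_subset _ _) hy.1 rfl
  have h2 : (p '' ((S.filter (fun x => l (p x) = l y) : Finset V) : Set V)).Nonempty := by
    rw [← convexHull_nonempty_iff (𝕜 := ℝ)]
    exact ⟨y, h1⟩
  obtain ⟨_, x, hx, rfl⟩ := h2
  have hx' := Finset.mem_filter.mp (Finset.mem_coe.mp hx)
  refine ⟨x, hx'.1, ?_⟩
  have h3 : p x ∈ {x | x ∈ convexHull ℝ (p '' (S : Set V)) ∧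
      ∀ z ∈ convexHull ℝ (p '' (S : Set V)), l z ≤ l x} := by
    refine ⟨subset_convexHull ℝ _ ⟨x, hx'.1, rfl⟩, fun z hz => ?_⟩
    rw [hx'.2]
    exact hy.2 z hz
  have h4 : p x ∈ ({y} : Set (Fin d → ℝ)) := by
    rw [hl]
    exact h3
  exact h4

/-- combinatorially stacked families are realized by stacked polytopes -/
theorem stk_to_poly (hφ : Function.Involutive φ) (hφ' : ∀ x, φ x ≠ x) (hd : 2 ≤ d)
    {𝓕 : Finset (Finset V)} (h : Stk φ d 𝓕) :
    ∃ p : V → Fin d → ℝ, Rlz φ d 𝓕 p ∧ SymStackedPoly d (hull 𝓕 p) := by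
  induction h with
  | base X hX hXc 𝓕 h𝓕 =>
    obtain ⟨p, hp, hh⟩ := rlz_base hφ hφ' (by omega) hX hXc h𝓕
    exact ⟨p, hp, by rw [hh]; exact SymStackedPoly.cross⟩
  | step 𝓕 𝓕' F w h hr ih =>
    obtain ⟨p, hp, hP⟩ := ih
    obtain ⟨v, a, ha, hav, hv⟩ := hp.exists_beyond (by omega) hr.hF
    have hwfv : w ∉ fv 𝓕 := by
      rw [mem_fv]
      rintro ⟨G, hG, hx⟩
      exact hr.hw G hG hx
    have hwfv' : φ w ∉ fv 𝓕 := by
      rw [mem_fv]
      rintro ⟨G, hG, hx⟩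
      exact hr.hw' G hG hx
    let p' : V → Fin d → ℝ := fun x => if x = w then v else if x = φ w then -v else p x
    have hp'w : p' w = v := by simp [p']
    have hp'w' : p' (φ w) = - p' w := by simp [p', hφ' w]
    have hp'x : ∀ x ∈ fv 𝓕, p' x = p x := by
      intro x hx
      have h1 : x ≠ w := fun h' => hwfv (h' ▸ hx)
      have h2 : x ≠ φ w := fun h' => hwfv' (h' ▸ hx)
      simp [p', h1, h2]
    have hstep := hp.step hφ hφ' hd hr hp'x hp'w' ha (by rw [hp'w]; exact hav)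
      (by rw [hp'w]; exact hv)
    refine ⟨p', hstep, ?_⟩
    rw [hull_step hφ hφ' hd hp.sym hr hp'x hp'w', hp'w]
    refine SymStackedPoly.stack _ hP a ?_ v hav ?_
    · exact (hp.isFacetFun_iff (by omega)).mpr ⟨F, hr.hF, ha⟩
    · intro m hm hma
      obtain ⟨G, hG, hmG⟩ := (hp.isFacetFun_iff (by omega)).mp hm
      refine hv G hG ?_ m hmG
      rintro rfl
      exact hma (hp.ext_fun hG fun x hx => by rw [hmG x hx, ha x hx])

end geoface

end Pool.Agent.CSLBT
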