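import Pool.Agent.CSLBT.Geo

set_option linter.unusedSectionVars false
set_option linter.unusedVariables false

namespace Pool.Agent.CSLBT

section geostep

variable {V : Type*} [DecidableEq V] {d : ℕ} {φ : V → V}

def SuppAt (X : Finset V) (p : V → Fin d → ℝ) (G : Finset V) : Prop :=
  ∃ a : (Fin d → ℝ) →ₗ[ℝ] ℝ, (∀ x ∈ G, a (p x) = 1) ∧ ∀ x ∈ X, x ∉ G → a (p x) < 1

lemma SuppAt.image (hφ : Function.Involutive φ) {X G : Finset V} {p : V → Fin d → ℝ}
    (hX : ∀ x ∈ X, φ x ∈ X) (hodd : ∀ x ∈ X, p (φ x) = - p x) (hGX : G ⊆ X)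
    (h : SuppAt X p G) : SuppAt X p (G.image φ) := by
  obtain ⟨a, h1, h2⟩ := h
  have hpx : ∀ x ∈ X, (-a) (p x) = a (p (φ x)) := by
    intro x hx
    rw [hodd x hx, map_neg, LinearMap.neg_apply]
  refine ⟨-a, ?_, ?_⟩
  · intro x hx
    rw [mem_image_invol hφ] at hx
    have hxX : x ∈ X := by
      have := hX _ (hGX hx)
      rwa [hφ] at this
    rw [hpx x hxX]
    exact h1 _ hx
  · intro x hx hxG
    rw [mem_image_invol hφ] at hxG
    rw [hpx x hx]
    exact h2 _ (hX x hx) hxG

lemma span_image_neg (hφ : Function.Involutive φ) {G : Finset V} {p : V → Fin d → ℝ}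
    (hodd : ∀ x ∈ G, p (φ x) = - p x) (h : Submodule.span ℝ (p '' (G : Set V)) = ⊤) :
    Submodule.span ℝ (p '' ((G.image φ : Finset V) : Set V)) = ⊤ := by
  rw [eq_top_iff, ← h, Submodule.span_le]
  rintro _ ⟨x, hx, rfl⟩
  have h1 : p (φ x) ∈ Submodule.span ℝ (p '' ((G.image φ : Finset V) : Set V)) :=
    Submodule.subset_span ⟨φ x, Finset.mem_coe.mpr (Finset.mem_image_of_mem φ hx), rfl⟩
  rw [hodd x hx] at h1
  have := Submodule.neg_mem _ h1
  rwa [neg_neg] at this

def Cone (p : V → Fin d → ℝ) (G : Finset V) (y : Fin d → ℝ) : Prop :=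
  ∃ c : V → ℝ, (∀ x ∈ G, 0 ≤ c x) ∧ y = ∑ x ∈ G, c x • p x

lemma Cone.image (hφ : Function.Involutive φ) {G : Finset V} {p : V → Fin d → ℝ}
    (hodd : ∀ x ∈ G, p (φ x) = - p x) {y : Fin d → ℝ} (h : Cone p G (-y)) :
    Cone p (G.image φ) y := by
  obtain ⟨c, h1, h2⟩ := h
  refine ⟨fun x => c (φ x), ?_, ?_⟩
  · intro x hx
    exact h1 _ ((mem_image_invol hφ).mp hx)
  · rw [Finset.sum_image (fun x _ y _ h => hφ.injective h)]
    simp only [hφ _]
    rw [Finset.sum_congr rfl (fun x hx => by rw [hodd x hx])]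
    simp only [smul_neg, Finset.sum_neg_distrib]
    rw [← h2, neg_neg]

/-- the stacked family is again realized -/
theorem Rlz.step (hφ : Function.Involutive φ) (hφ' : ∀ x, φ x ≠ x) (hd : 2 ≤ d)
    {𝓕 𝓕' : Finset (Finset V)} {F : Finset V} {w : V} {p p' : V → Fin d → ℝ}
    (h : Rlz φ d 𝓕 p) (hr : StackRel φ 𝓕 𝓕' F w) (hp' : ∀ x ∈ fv 𝓕, p' x = p x)
    (hodd : p' (φ w) = - p' w) {a : (Fin d → ℝ) →ₗ[ℝ] ℝ} (ha : ∀ x ∈ F, a (p x) = 1)
    (hv : 1 < a (p' w)) (hv' : ∀ G ∈ 𝓕, G ≠ F → ∀ m : (Fin d → ℝ) →ₗ[ℝ] ℝ,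
      (∀ x ∈ G, m (p x) = 1) → m (p' w) < 1) : Rlz φ d 𝓕' p' := by
  classical
  have hF := hr.hF
  have hFc := h.sym.card F hF
  have hwF := hr.hw F hF
  have hwF' := hr.hw' F hF
  have hwfv : w ∉ fv 𝓕 := by
    rw [mem_fv]
    rintro ⟨G, hG, hx⟩
    exact hr.hw G hG hx
  have hwfv' : φ w ∉ fv 𝓕 := by
    rw [mem_fv]
    rintro ⟨G, hG, hx⟩
    exact hr.hw' G hG hx
  have hfv := hr.fv_eq hφ hφ' h.sym hd
  have hsym' := hr.symFam hφ hφ' h.sym (by omega)
  have hodd' : ∀ x ∈ fv 𝓕', p' (φ x) = - p' x := by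
    intro x hx
    rw [hfv, Finset.mem_insert, Finset.mem_insert] at hx
    rcases hx with rfl | rfl | hx
    · exact hodd
    · rw [hφ, hodd, neg_neg]
    · rw [hp' x hx, hp' _ (h.sym.fv_phi hx)]
      exact h.odd x hx
  have hfv' : ∀ x ∈ fv 𝓕', φ x ∈ fv 𝓕' := fun x hx => hsym'.fv_phi hx
  have hmirror : ∀ y, insert (φ w) ((F.erase y).image φ) = (insert w (F.erase y)).image φ := by
    intro y; rw [Finset.image_insert]
  have hpF : ∀ x ∈ F, p' x = p x := fun x hx => hp' x (fv_of_mem hF hx)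
  -- the new point is in the interior of the cone over F
  obtain ⟨t, htpos, htv⟩ : ∃ t : V → ℝ, (∀ x ∈ F, 0 < t x) ∧ p' w = ∑ x ∈ F, t x • p x := by
    obtain ⟨G, hG, c, hc, hcv⟩ := h.cover (p' w)
    have hGF : G = F := by
      by_contra hne
      obtain ⟨b, hb1, -⟩ := h.supp G hG
      have h1 := hv' G hG hne b hb1
      rw [hcv, map_sum] at h1
      rw [hcv, map_sum] at hv
      have h2 : ∑ x ∈ G, a (c x • p x) ≤ ∑ x ∈ G, b (c x • p x) := by
        refine Finset.sum_le_sum fun x hx => ?_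
        rw [map_smul, map_smul, hb1 x hx, smul_eq_mul, smul_eq_mul]
        exact mul_le_mul_of_nonneg_left ((h.fun_le hF ha).1 x (fv_of_mem hG hx)) (hc x hx)
      linarith
    subst hGF
    refine ⟨c, fun x hx => ?_, hcv⟩
    rcases (hc x hx).lt_or_eq with h0 | h0
    · exact h0
    exfalso
    obtain ⟨N, hN, hNne, hNsub⟩ := h.nb G hF x hx
    obtain ⟨b, hb1, -⟩ := h.supp N hN
    have h1 := hv' N hN hNne b hb1
    rw [hcv, map_sum] at h1 hv
    have h2 : ∑ z ∈ G, a (c z • p z) = ∑ z ∈ G, b (c z • p z) := by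
      refine Finset.sum_congr rfl fun z hz => ?_
      rw [map_smul, map_smul, smul_eq_mul, smul_eq_mul]
      by_cases hzx : z = x
      · rw [hzx, ← h0, zero_mul, zero_mul]
      · rw [ha z hz, hb1 z (hNsub (Finset.mem_erase.mpr ⟨hzx, hz⟩))]
    linarith
  -- facet functionals at w
  have hsuppw : ∀ y ∈ F, SuppAt (fv 𝓕') p' (insert w (F.erase y)) := by
    intro y hy
    obtain ⟨N, hN, hNne, hNsub⟩ := h.nb F hF y hy
    obtain ⟨b, hb1, hb2⟩ := h.supp N hN
    have hbv := hv' N hN hNne b hb1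
    have hyN : y ∉ N := by
      intro hyN
      apply hNne
      symm
      apply Finset.eq_of_subset_of_card_le
      · intro z hz
        by_cases hzy : z = y
        · rw [hzy]; exact hyN
        · exact hNsub (Finset.mem_erase.mpr ⟨hzy, hz⟩)
      · rw [h.sym.card N hN, hFc]
    set θ := (a (p' w) - 1) / (a (p' w) - b (p' w)) with hθ
    have hden : 0 < a (p' w) - b (p' w) := by linarith
    have hθ0 : 0 < θ := div_pos (by linarith) hden
    have hθ1 : θ < 1 := by
      rw [hθ, div_lt_one hden]; linarith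
    have hval : (1 - θ) * a (p' w) + θ * b (p' w) = 1 := by
      have : θ * (a (p' w) - b (p' w)) = a (p' w) - 1 := by
        rw [hθ]; field_simp
      linarith
    have hgen : ∀ z, ((1 - θ) • a + θ • b) z = (1 - θ) * a z + θ * b z := by
      intro z; simp
    refine ⟨(1 - θ) • a + θ • b, ?_, ?_⟩
    · intro z hz
      rw [hgen]
      rw [Finset.mem_insert] at hz
      rcases hz with rfl | hz
      · exact hval
      · have hz' := Finset.mem_of_mem_erase hz
        rw [hpF z hz', ha z hz', hb1 z (hNsub hz)]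
        ring
    · intro z hz hzG
      rw [hgen]
      rw [Finset.mem_insert, not_or] at hzG
      rw [hfv, Finset.mem_insert, Finset.mem_insert] at hz
      rcases hz with rfl | rfl | hz
      · exact absurd rfl hzG.1
      · rw [hodd, map_neg, map_neg]
        linarith
      · rw [hp' z hz]
        have h1 := (h.fun_le hF ha).1 z hz
        have h2 := (h.fun_le hN hb1).1 z hz
        by_cases hzF : z ∈ F
        · have hzy : z = y := by
            by_contra hne
            exact hzG.2 (Finset.mem_erase.mpr ⟨hne, hzF⟩)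
          have h3 := hb2 z hz (by rw [hzy]; exact hyN)
          nlinarith
        · have h3 := (h.fun_le hF ha).2 z hz hzF
          nlinarith
  -- spanning at w
  have hspanw : ∀ y ∈ F, Submodule.span ℝ (p' '' ((insert w (F.erase y) : Finset V) : Set V)) = ⊤ := by
    intro y hy
    rw [eq_top_iff, ← h.span F hF, Submodule.span_le]
    have hmem : ∀ z ∈ F.erase y,
        p z ∈ Submodule.span ℝ (p' '' ((insert w (F.erase y) : Finset V) : Set V)) := by
      intro z hz
      rw [← hpF z (Finset.mem_of_mem_erase hz)]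
      exact Submodule.subset_span ⟨z, Finset.mem_coe.mpr (Finset.mem_insert_of_mem hz), rfl⟩
    have hw0 : p' w ∈ Submodule.span ℝ (p' '' ((insert w (F.erase y) : Finset V) : Set V)) :=
      Submodule.subset_span ⟨w, Finset.mem_coe.mpr (Finset.mem_insert_self _ _), rfl⟩
    rintro _ ⟨z, hz, rfl⟩
    by_cases hzy : z = y
    · have h1 : t y • p y = p' w - ∑ x ∈ F.erase y, t x • p x := by
        rw [htv, ← Finset.add_sum_erase F _ hy]
        abel
      have h2 : p y = (t y)⁻¹ • (p' w - ∑ x ∈ F.erase y, t x • p x) := by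
        rw [← h1, smul_smul, inv_mul_cancel₀ (htpos y hy).ne', one_smul]
      rw [hzy, h2]
      exact Submodule.smul_mem _ _ (Submodule.sub_mem _ hw0
        (Submodule.sum_mem _ fun x hx => Submodule.smul_mem _ _ (hmem x hx)))
    · exact hmem z (Finset.mem_erase.mpr ⟨hzy, hz⟩)
  -- subdividing the cone over F
  have hconeF : ∀ y, Cone p F y → ∃ x0 ∈ F, Cone p' (insert w (F.erase x0)) y := by
    rintro y ⟨c, hc, rfl⟩
    obtain ⟨x0, hx0, hmin⟩ := Finset.exists_min_image F (fun x => c x / t x)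
      (Finset.card_pos.mp (by omega))
    set lam := c x0 / t x0 with hlam
    have hlam0 : 0 ≤ lam := div_nonneg (hc x0 hx0) (htpos x0 hx0).le
    refine ⟨x0, hx0, fun x => if x = w then lam else c x - lam * t x, ?_, ?_⟩
    · intro x hx
      rw [Finset.mem_insert] at hx
      by_cases hxw : x = w
      · simp only [if_pos hxw]; exact hlam0
      · simp only [if_neg hxw]
        rcases hx with hx | hx
        · exact absurd hx hxw
        · have hx' := Finset.mem_of_mem_erase hx
          have := hmin x hx'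
          rw [le_div_iff₀ (htpos x hx')] at this
          linarith
    · have hwe : w ∉ F.erase x0 := fun h' => hwF (Finset.mem_of_mem_erase h')
      rw [Finset.sum_insert hwe]
      simp only [if_true]
      rw [htv]
      have h1 : ∑ x ∈ F.erase x0, (if x = w then lam else c x - lam * t x) • p' x =
          ∑ x ∈ F.erase x0, (c x - lam * t x) • p x := by
        refine Finset.sum_congr rfl fun x hx => ?_
        have hxw : x ≠ w := fun h' => hwe (h' ▸ hx)
        rw [if_neg hxw, hpF x (Finset.mem_of_mem_erase hx)]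
      have h2 : ∑ x ∈ F, (c x - lam * t x) • p x =
          ∑ x ∈ F.erase x0, (c x - lam * t x) • p x := by
        rw [← Finset.add_sum_erase F _ hx0]
        have : c x0 - lam * t x0 = 0 := by
          rw [hlam, div_mul_cancel₀ _ (htpos x0 hx0).ne', sub_self]
        rw [this, zero_smul, zero_add]
      rw [h1, ← h2, Finset.smul_sum, ← Finset.sum_add_distrib]
      refine Finset.sum_congr rfl fun x _ => ?_
      rw [smul_smul, ← add_smul]
      congr 1
      ring
  have hconeG : ∀ G ∈ 𝓕, ∀ y, Cone p G y → Cone p' G y := by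
    rintro G hG y ⟨c, hc, rfl⟩
    exact ⟨c, hc, Finset.sum_congr rfl fun x hx => by rw [hp' x (fv_of_mem hG hx)]⟩
  have hnewmem : ∀ y ∈ F, insert w (F.erase y) ∈ 𝓕' := fun y hy =>
    (hr.mem _).mpr (Or.inr (Or.inl ⟨y, hy, rfl⟩))
  have hnewfv : ∀ y ∈ F, insert w (F.erase y) ⊆ fv 𝓕' := fun y hy x hx =>
    fv_of_mem (hnewmem y hy) hx
  have hii : ∀ A : Finset V, (A.image φ).image φ = A := by
    intro A
    ext x
    rw [mem_image_invol hφ, mem_image_invol hφ, hφ]
  have hpφ : ∀ G ∈ 𝓕, G.image φ ∈ 𝓕 := h.sym.symm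
  have hFφ : F ≠ F.image φ := by
    intro h'
    obtain ⟨x, hx⟩ : F.Nonempty := Finset.card_pos.mp (by omega)
    have hx' : φ x ∈ F.image φ := Finset.mem_image_of_mem φ hx
    rw [← h'] at hx'
    exact h.sym.anti F hF x hx hx'
  refine ⟨hsym', ?_, ?_, hodd', ?_, ?_, ?_⟩
  · -- nonempty
    obtain ⟨x, hx⟩ : F.Nonempty := Finset.card_pos.mp (by omega)
    exact ⟨_, hnewmem x hx⟩
  · -- neighbours
    have hnew : ∀ y0 ∈ F, ∀ x ∈ insert w (F.erase y0), ∃ G ∈ 𝓕', G ≠ insert w (F.erase y0) ∧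
        (insert w (F.erase y0)).erase x ⊆ G := by
      intro y0 hy0 x hx
      rw [Finset.mem_insert] at hx
      rcases hx with rfl | hx
      · have hwe : x ∉ F.erase y0 := fun h' => hwF (Finset.mem_of_mem_erase h')
        rw [Finset.erase_insert hwe]
        obtain ⟨N, hN, hNne, hNsub⟩ := h.nb F hF y0 hy0
        refine ⟨N, (hr.mem N).mpr (Or.inl ⟨hN, hNne, ?_⟩), ?_, hNsub⟩
        · rintro rfl
          obtain ⟨z, hz⟩ : (F.erase y0).Nonempty := Finset.card_pos.mp (by
            rw [Finset.card_erase_of_mem hy0]; omega)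
          exact h.sym.anti F hF z (Finset.mem_of_mem_erase hz)
            ((mem_image_invol hφ).mp (hNsub hz))
        · intro h'
          exact hr.hw N hN (h' ▸ Finset.mem_insert_self _ _)
      · rw [Finset.mem_erase] at hx
        refine ⟨insert w (F.erase x), hnewmem x hx.2, ?_, ?_⟩
        · intro h'
          have h1 : y0 ∈ insert w (F.erase x) :=
            Finset.mem_insert_of_mem (Finset.mem_erase.mpr ⟨hx.1.symm, hy0⟩)
          rw [h', Finset.mem_insert, Finset.mem_erase] at h1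
          rcases h1 with h1 | h1
          · exact hwF (h1 ▸ hy0)
          · exact h1.1 rfl
        · intro z hz
          rw [Finset.mem_erase, Finset.mem_insert, Finset.mem_erase] at hz
          rw [Finset.mem_insert, Finset.mem_erase]
          rcases hz.2 with h1 | h1
          · left; exact h1
          · right; exact ⟨hz.1, h1.2⟩
    have hmir : ∀ G : Finset V, (∀ x ∈ G, ∃ N ∈ 𝓕', N ≠ G ∧ G.erase x ⊆ N) →
        ∀ x ∈ G.image φ, ∃ N ∈ 𝓕', N ≠ G.image φ ∧ (G.image φ).erase x ⊆ N := by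
      intro G hG x hx
      rw [mem_image_invol hφ] at hx
      obtain ⟨N, hN, hNne, hNsub⟩ := hG _ hx
      refine ⟨N.image φ, hsym'.symm N hN, ?_, ?_⟩
      · intro h'
        apply hNne
        have := congrArg (Finset.image φ) h'
        rwa [hii, hii] at this
      · intro z hz
        rw [Finset.mem_erase, mem_image_invol hφ] at hz
        rw [mem_image_invol hφ]
        exact hNsub (Finset.mem_erase.mpr ⟨fun h' => hz.1 (hφ.injective h'), hz.2⟩)
    intro G hG
    rcases (hr.mem G).mp hG with ⟨hG1, hG2, hG3⟩ | ⟨y, hy, rfl⟩ | ⟨y, hy, rfl⟩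
    · intro x hx
      obtain ⟨N, hN, hNne, hNsub⟩ := h.nb G hG1 x hx
      -- a facet containing the ridge inside F
      have hcase : ∀ H ∈ 𝓕, G.erase x ⊆ H → H ≠ G → ∃ z ∈ H, G.erase x = H.erase z := by
        intro H hH hsub hne
        have hc : (G.erase x).card + 1 = H.card := by
          rw [Finset.card_erase_of_mem hx, h.sym.card G hG1, h.sym.card H hH]; omega
        obtain ⟨z, hz, hz'⟩ := Finset.exists_mem_notMem_of_card_lt_card
          (s := G.erase x) (t := H) (by omega)
        refine ⟨z, hz, Finset.eq_of_subset_of_card_le ?_ ?_⟩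
        · intro y hy
          exact Finset.mem_erase.mpr ⟨fun h' => hz' (h' ▸ hy), hsub hy⟩
        · rw [Finset.card_erase_of_mem hz]; omega
      by_cases h1 : N = F
      · obtain ⟨z, hz, hzeq⟩ := hcase N hN hNsub hNne
        rw [h1] at hz hzeq
        refine ⟨_, hnewmem z hz, ?_, ?_⟩
        · intro h'
          exact hr.hw G hG1 (h' ▸ Finset.mem_insert_self _ _)
        · rw [hzeq]; exact Finset.subset_insert _ _
      by_cases h2 : N = F.image φ
      · obtain ⟨z, hz, hzeq⟩ := hcase N hN hNsub hNne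
        rw [h2, mem_image_invol hφ] at hz
        refine ⟨insert (φ w) ((F.erase (φ z)).image φ),
          (hr.mem _).mpr (Or.inr (Or.inr ⟨φ z, hz, rfl⟩)), ?_, ?_⟩
        · intro h'
          exact hr.hw' G hG1 (h' ▸ Finset.mem_insert_self _ _)
        · rw [hzeq, h2]
          intro y hy
          rw [Finset.mem_erase, mem_image_invol hφ] at hy
          rw [Finset.mem_insert, mem_image_invol hφ, Finset.mem_erase]
          right
          exact ⟨fun h' => hy.1 (hφ.injective h'), hy.2⟩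
      exact ⟨N, (hr.mem N).mpr (Or.inl ⟨hN, h1, h2⟩), hNne, hNsub⟩
    · exact hnew y hy
    · rw [hmirror]
      exact hmir _ (hnew y hy)
  · -- functionals
    intro G hG
    rcases (hr.mem G).mp hG with ⟨hG1, hG2, hG3⟩ | ⟨y, hy, rfl⟩ | ⟨y, hy, rfl⟩
    · obtain ⟨b, hb1, hb2⟩ := h.supp G hG1
      have hGp : ∀ x ∈ G, p' x = p x := fun x hx => hp' x (fv_of_mem hG1 hx)
      refine ⟨b, fun x hx => by rw [hGp x hx]; exact hb1 x hx, ?_⟩
      intro x hx hxG
      rw [hfv, Finset.mem_insert, Finset.mem_insert] at hx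
      rcases hx with rfl | rfl | hx
      · exact hv' G hG1 hG2 b hb1
      · rw [hodd, map_neg]
        have h1 : ∀ x ∈ G.image φ, (-b) (p x) = 1 := by
          intro x hx
          rw [mem_image_invol hφ] at hx
          have hxf : x ∈ fv 𝓕 := by
            have := h.sym.fv_phi (fv_of_mem hG1 hx)
            rwa [hφ] at this
          have := hb1 _ hx
          rw [h.odd x hxf, map_neg] at this
          rw [LinearMap.neg_apply]
          exact this
        have h2 := hv' (G.image φ) (hpφ G hG1) (fun h' => hG3 (by rw [← h', hii])) (-b) h1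
        rwa [LinearMap.neg_apply] at h2
      · rw [hp' x hx]
        exact hb2 x hx hxG
    · exact hsuppw y hy
    · rw [hmirror]
      exact (hsuppw y hy).image hφ hfv' hodd' (hnewfv y hy)
  · -- spanning
    intro G hG
    rcases (hr.mem G).mp hG with ⟨hG1, hG2, hG3⟩ | ⟨y, hy, rfl⟩ | ⟨y, hy, rfl⟩
    · have : p' '' (G : Set V) = p '' (G : Set V) := by
        apply Set.image_congr
        intro x hx
        exact hp' x (fv_of_mem hG1 hx)
      rw [this]
      exact h.span G hG1
    · exact hspanw y hy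
    · rw [hmirror]
      exact span_image_neg hφ (fun x hx => hodd' x (hnewfv y hy hx)) (hspanw y hy)
  · -- covering
    intro y
    obtain ⟨G, hG, hcone⟩ := h.cover y
    by_cases h1 : G = F
    · subst h1
      obtain ⟨x0, hx0, hc⟩ := hconeF y hcone
      exact ⟨_, hnewmem x0 hx0, hc⟩
    by_cases h2 : G = F.image φ
    · have hc1 : Cone p (G.image φ) (-y) := by
        apply Cone.image hφ
        · intro x hx
          exact h.odd x (fv_of_mem hG hx)
        · rw [neg_neg]; exact hcone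
      rw [h2, hii] at hc1
      obtain ⟨x0, hx0, hc⟩ := hconeF _ hc1
      have hc2 := Cone.image hφ (fun x hx => hodd' x (hnewfv x0 hx0 hx)) hc
      exact ⟨_, hsym'.symm _ (hnewmem x0 hx0), hc2⟩
    · exact ⟨G, (hr.mem G).mpr (Or.inl ⟨hG, h1, h2⟩), hconeG G hG y hcone⟩

/-- the hull of the stacked family -/
lemma hull_step (hφ : Function.Involutive φ) (hφ' : ∀ x, φ x ≠ x) (hd : 2 ≤ d)
    {𝓕 𝓕' : Finset (Finset V)} {F : Finset V} {w : V} {p p' : V → Fin d → ℝ}
    (hs : SymFam φ d 𝓕) (hr : StackRel φ 𝓕 𝓕' F w) (hp' : ∀ x ∈ fv 𝓕, p' x = p x)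
    (hodd : p' (φ w) = - p' w) :
    hull 𝓕' p' = convexHull ℝ (hull 𝓕 p ∪ {p' w, - p' w}) := by
  unfold hull
  have h1 : p' '' (fv 𝓕' : Set V) = p '' (fv 𝓕 : Set V) ∪ {p' w, - p' w} := by
    rw [hr.fv_eq hφ hφ' hs hd]
    ext y
    simp only [Finset.coe_insert, Set.mem_image, Set.mem_insert_iff, Finset.mem_coe, Set.mem_union,
      Set.mem_singleton_iff]
    constructor
    · rintro ⟨x, rfl | rfl | hx, rfl⟩
      · right; left; rfl
      · right; right; exact hodd
      · left; exact ⟨x, hx, (hp' x hx).symm⟩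
    · rintro (⟨x, hx, rfl⟩ | rfl | rfl)
      · exact ⟨x, Or.inr (Or.inr hx), hp' x hx⟩
      · exact ⟨w, Or.inl rfl, rfl⟩
      · exact ⟨φ w, Or.inr (Or.inl rfl), hodd⟩
  rw [h1, convexHull_convexHull_union_left]

end geostep

end Pool.Agent.CSLBT
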