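import Pool.Agent.CSLBT.Span

set_option linter.unusedSectionVars false
set_option linter.unusedVariables false

namespace Pool.Agent.CSLBT

open Filter Matrix

section grow

variable {V : Type*} [Fintype V] [DecidableEq V] {d : ℕ} {φ : V → V}

/-- a minimal family of generators whose sum is `T` -/
lemma exists_min_family (𝒜 : Set (Ch V)) {T : Ch V} (hT : T ∈ Submodule.span (ZMod 2) 𝒜) :
    ∃ s : Finset (Ch V), (∀ Q ∈ s, Q ∈ 𝒜) ∧ T = ∑ Q ∈ s, Q ∧
      ∀ t : Finset (Ch V), t ⊂ s → T ≠ ∑ Q ∈ t, Q := by
  classical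
  have h0 : ∃ s : Finset (Ch V), (∀ Q ∈ s, Q ∈ 𝒜) ∧ T = ∑ Q ∈ s, Q := by
    obtain ⟨f, t, ht, hft, hsum⟩ := Submodule.mem_span_iff_exists_finset_subset.mp hT
    refine ⟨t.filter (fun a => f a ≠ 0), fun Q hQ => ht (Finset.mem_filter.mp hQ).1, ?_⟩
    rw [← hsum, Finset.sum_filter]
    refine Finset.sum_congr rfl fun a _ => ?_
    by_cases h : f a = 0
    · rw [if_neg (by simpa using h), h, zero_smul]
    · rw [if_pos h, zmod2 _ h, one_smul]
  have hex : ∃ n, ∃ s : Finset (Ch V), (∀ Q ∈ s, Q ∈ 𝒜) ∧ T = ∑ Q ∈ s, Q ∧ s.card = n := by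
    obtain ⟨s, h1, h2⟩ := h0
    exact ⟨_, s, h1, h2, rfl⟩
  obtain ⟨s, h1, h2, h3⟩ := Nat.find_spec hex
  have hmin := fun m (hm : m < Nat.find hex) => Nat.find_min hex hm
  refine ⟨s, h1, h2, fun t ht heq => ?_⟩
  exact hmin t.card (by rw [← h3]; exact Finset.card_lt_card ht)
    ⟨t, fun Q hQ => h1 Q (ht.1 hQ), heq, rfl⟩

/-- some generator crosses the border of `X` -/
lemma cross_family {T : Ch V} (hT : MinCyc d T) {s : Finset (Ch V)} (hsum : T = ∑ Q ∈ s, Q)
    (hcyc : ∀ Q ∈ s, bd Q = 0) (hmin : ∀ t : Finset (Ch V), t ⊂ s → T ≠ ∑ Q ∈ t, Q)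
    (X : Finset V) {Q0 : Ch V} (hQ0 : Q0 ∈ s) (hQ0X : vert Q0 ⊆ X) (hTX : ¬ vert T ⊆ X) :
    ∃ Q ∈ s, ¬ vert Q ⊆ X ∧ ∃ F ∈ Q.support, F ⊆ X := by
  classical
  set s1 := s.filter (fun Q => vert Q ⊆ X) with hs1
  set s2 := s.filter (fun Q => ¬ vert Q ⊆ X) with hs2
  set Y := ∑ Q ∈ s1, Q with hY
  set Z := ∑ Q ∈ s2, Q with hZ
  have hYZ : T = Y + Z := by
    rw [hsum, hY, hZ, hs1, hs2, Finset.sum_filter_add_sum_filter_not]
  have hYb : bd Y = 0 := by
    rw [hY, map_sum]
    exact Finset.sum_eq_zero fun Q hQ => hcyc Q (Finset.mem_filter.mp hQ).1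
  have hYX : ∀ F ∈ Y.support, F ⊆ X := by
    intro F hF
    rw [hY] at hF
    have : ∃ Q ∈ s1, F ∈ Q.support := by
      by_contra hcon
      push Not at hcon
      rw [mem_supp, Finsupp.finsetSum_apply, Finset.sum_eq_zero] at hF
      · exact absurd hF (by decide)
      · intro Q hQ
        exact Finsupp.notMem_support_iff.mp (hcon Q hQ)
    obtain ⟨Q, hQ, hFQ⟩ := this
    exact (subset_vert hFQ).trans (Finset.mem_filter.mp hQ).2
  by_cases hdis : ∃ F ∈ Y.support, F ∈ Z.support
  · obtain ⟨F, hFY, hFZ⟩ := hdis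
    have : ∃ Q ∈ s2, F ∈ Q.support := by
      by_contra hcon
      push Not at hcon
      rw [hZ, mem_supp, Finsupp.finsetSum_apply, Finset.sum_eq_zero] at hFZ
      · exact absurd hFZ (by decide)
      · intro Q hQ
        exact Finsupp.notMem_support_iff.mp (hcon Q hQ)
    obtain ⟨Q, hQ, hFQ⟩ := this
    rw [hs2, Finset.mem_filter] at hQ
    exact ⟨Q, hQ.1, hQ.2, F, hFQ, hYX F hFY⟩
  · exfalso
    push Not at hdis
    have hYT : Y.support ⊆ T.support := by
      intro F hF
      rw [hYZ, mem_supp_add]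
      left
      exact ⟨hF, hdis F hF⟩
    rcases hT.2.2 Y hYb hYT with h | h
    · rw [h, zero_add, hZ] at hYZ
      refine hmin s2 ?_ hYZ
      rw [hs2]
      refine Finset.filter_ssubset.mpr ⟨Q0, hQ0, ?_⟩
      simpa using hQ0X
    · apply hTX
      intro x hx
      obtain ⟨F, hF, hxF⟩ := mem_vert.mp hx
      rw [← h] at hF
      exact hYX F hF hxF

/-- The growth argument: either there are only `2 d` vertices or some vertex has degree `d`. -/
theorem exists_deg (hφ : Function.Involutive φ) (hφ' : ∀ x, φ x ≠ x) (hd4 : 4 ≤ d)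
    {T : Ch V} (hT : MinCyc d T) (hTφ : ∀ x ∈ vert T, φ x ∈ vert T) {f : Fld V d}
    (hG : GG φ (Adj T)) (hf : Good φ f) (hI : Indep φ f (Adj T)) :
    (vert T).card = 2 * d ∨ ∃ (w : V) (F : Finset V), w ∈ vert T ∧ F.card = d ∧
      NoAnti φ (insert w F) ∧ w ∉ F ∧ (∀ y, Adj T w y ↔ y ∈ F) ∧
      (∀ x ∈ F, ∀ y ∈ F, x ≠ y → Adj T x y) := by
  classical
  have hspan := span_main hφ hφ' hd4 hG hf hI _ T hT (fun _ _ h => h) rfl
  obtain ⟨s, hsA, hsum, hsmin⟩ := exists_min_family _ hspan
  have hcyc : ∀ Q ∈ s, bd Q = 0 := by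
    intro Q hQ
    rcases hsA Q hQ with ⟨σ, -, -, rfl⟩ | ⟨h, -⟩
    · exact bd_bd _
    · exact h.cyc.1
  -- cliques
  have hclq : ∀ σ : Finset V, (∀ x ∈ σ, ∀ y ∈ σ, x ≠ y → Adj T x y) → NoAnti φ σ :=
    fun σ h x hx hx' => hG.anti x (φ x) (h x hx _ hx' (hφ' x).symm) rfl
  have hclqv : ∀ σ : Finset V, σ.card = d + 1 → (∀ x ∈ σ, ∀ y ∈ σ, x ≠ y → Adj T x y) →
      σ ⊆ vert T := by
    intro σ hc h x hx
    obtain ⟨y, hy, hyx⟩ : ∃ y ∈ σ, y ≠ x := by
      have h1 : ({x} : Finset V).card < σ.card := by
        rw [Finset.card_singleton, hc]; omega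
      obtain ⟨y, hy, hy'⟩ := Finset.exists_mem_notMem_of_card_lt_card h1
      exact ⟨y, hy, fun h => hy' (by rw [h]; exact Finset.mem_singleton_self _)⟩
    exact (h x hx y hy hyx.symm).left
  have hvbd : ∀ σ : Finset V, vert (bd (sg σ)) ⊆ σ := by
    intro σ x hx
    obtain ⟨F, hF, hxF⟩ := mem_vert.mp hx
    obtain ⟨w, hw, rfl⟩ := mem_supp_bd_sg.mp hF
    exact Finset.mem_of_mem_erase hxF
  by_cases hκ : ∃ Q0 ∈ s, MinCyc d Q0 ∧ (∀ x ∈ vert Q0, φ x ∈ vert Q0) ∧
      (vert Q0).card = 2 * d ∧ ∀ x y, Adj Q0 x y → Adj T x y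
  · obtain ⟨Q0, hQ0s, hQ0, hQ0φ, hQ0c, hQ0T⟩ := hκ
    have hQ0v : vert Q0 ⊆ vert T := by
      intro x hx
      obtain ⟨F, hF, hxF⟩ := mem_vert.mp hx
      obtain ⟨y, hy, hyx⟩ : ∃ y ∈ F, y ≠ x := by
        have h1 : ({x} : Finset V).card < F.card := by
          rw [Finset.card_singleton, hQ0.cyc.2 F hF]; omega
        obtain ⟨y, hy, hy'⟩ := Finset.exists_mem_notMem_of_card_lt_card h1
        exact ⟨y, hy, fun h => hy' (by rw [h]; exact Finset.mem_singleton_self _)⟩
      exact (hQ0T x y ⟨hyx.symm, F, hF, hxF, hy⟩).left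
    by_cases heq : vert Q0 = vert T
    · left; rw [← heq]; exact hQ0c
    right
    -- maximal rigid symmetric proper subset
    set Rig : Finset V → Prop := fun X => (∀ x ∈ X, φ x ∈ X) ∧ vert Q0 ⊆ X ∧ X ⊆ vert T ∧
      X ≠ vert T ∧ ∀ q : Fld V d, Sym φ q →
        (∀ x ∈ X, ∀ y ∈ X, Adj T x y → ell φ f q x y = 0) → ∀ x ∈ X, ∀ y ∈ X, q x = q y
      with hRig
    have hR0 : Rig (vert Q0) := by
      refine ⟨hQ0φ, subset_rfl, hQ0v, heq, ?_⟩
      intro q hq hE
      obtain ⟨F, hF⟩ := hQ0.nonempty
      obtain ⟨u, hu⟩ : F.Nonempty := Finset.card_pos.mp (by rw [hQ0.cyc.2 F hF]; omega)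
      have hanti : AntiAt φ u Q0 := by
        intro F hF x hx hx'
        exact absurd rfl (hG.anti x (φ x) (hQ0T _ _ ⟨(hφ' x).symm, F, hF, hx, hx'⟩))
      refine hf.const hφ hφ' (by omega) hQ0 hanti ?_ hq ?_
      · have : vert Q0 ⊆ pr φ (vert Q0) := fun x hx => mem_pr.mpr ⟨hx, hQ0φ x hx⟩
        have := Finset.card_le_card this
        omega
      · intro x y hxy
        exact hE x hxy.left y hxy.right (hQ0T x y hxy)
    obtain ⟨X, hX, hXmax⟩ := Finset.exists_max_image (Finset.univ.filter Rig) Finset.card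
      ⟨vert Q0, Finset.mem_filter.mpr ⟨Finset.mem_univ _, hR0⟩⟩
    rw [Finset.mem_filter] at hX
    obtain ⟨-, hXφ, hXQ, hXT, hXne, hXr⟩ := hX
    obtain ⟨Q, hQ, hQX, F, hF, hFX⟩ := cross_family hT hsum hcyc hsmin X hQ0s hXQ
      (fun h => hXne (Finset.Subset.antisymm hXT h))
    have hQA := hsA Q hQ
    rcases hQA with ⟨σ, hσc, hσ, rfl⟩ | ⟨hQm, hQφ, hQc, hQT⟩
    swap
    · exfalso
      apply hQX
      intro x hx
      have hFn : NoAnti φ F := by
        intro y hy hy'
        exact hG.anti y (φ y) (hQT _ _ ⟨(hφ' y).symm, F, hF, hy, hy'⟩) rfl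
      have hFv : F ⊆ vert Q := subset_vert hF
      by_contra hxX
      have h1 : x ∉ F := fun h => hxX (hFX h)
      have h2 : φ x ∉ F := fun h => hxX (by have := hXφ _ (hFX h); rwa [hφ] at this)
      have h10 : NoAnti φ (insert x F) := by
        intro y hy hy'
        rw [Finset.mem_insert] at hy hy'
        rcases hy with rfl | hy
        · rcases hy' with h | h
          · exact hφ' _ h
          · exact h2 h
        · rcases hy' with h | h
          · exact h2 (by rw [← h, hφ]; exact hy)
          · exact hFn y hy h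
      have h11 := noAnti_card (X := vert Q) hφ h10 (by
        intro y hy
        rw [Finset.mem_insert] at hy
        rcases hy with rfl | hy
        · exact hx
        · exact hFv hy) (by
        intro y hy
        rw [Finset.mem_insert] at hy
        rcases hy with rfl | hy
        · exact hQφ _ hx
        · exact hQφ _ (hFv hy))
      rw [Finset.card_insert_of_notMem h1, hQm.cyc.2 F hF] at h11
      omega
    · obtain ⟨w, hw, rfl⟩ := mem_supp_bd_sg.mp hF
      have hwX : w ∉ X := by
        intro h
        apply hQX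
        refine (hvbd σ).trans ?_
        intro x hx
        by_cases hxw : x = w
        · rw [hxw]; exact h
        · exact hFX (Finset.mem_erase.mpr ⟨hxw, hx⟩)
      have hwX' : φ w ∉ X := fun h => hwX (by have := hXφ _ h; rwa [hφ] at this)
      have hσn := hclq σ hσ
      have haff := hf.1.2 σ hσn (by omega)
      have hFc : (σ.erase w).card = d := by
        rw [Finset.card_erase_of_mem hw, hσc]; omega
      have hwT : w ∈ vert T := hclqv σ hσc hσ hw
      -- extension of constancy to w
      have hext : ∀ q : Fld V d, (∀ x ∈ X, ∀ y ∈ X, q x = q y) →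
          (∀ y ∈ σ.erase w, ell φ f q w y = 0) → ∀ y ∈ X, q w = q y := by
        intro q hc hE
        obtain ⟨y0, hy0⟩ : (σ.erase w).Nonempty := Finset.card_pos.mp (by omega)
        have hz : q w - q y0 = 0 := by
          refine haff.perp φ (by omega) hw _ ?_
          intro y hy
          have := hE y hy
          unfold ell at this
          rwa [hc y (hFX hy) y0 (hFX hy0)] at this
        intro y hy
        rw [sub_eq_zero.mp hz]
        exact hc y0 (hFX hy0) y hy
      -- the enlarged set
      have hX' : insert w (insert (φ w) X) = vert T := by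
        by_contra hne
        have hmem : insert w (insert (φ w) X) ∈ Finset.univ.filter Rig := by
          rw [Finset.mem_filter]
          refine ⟨Finset.mem_univ _, ?_, ?_, ?_, hne, ?_⟩
          · intro x hx
            rw [Finset.mem_insert, Finset.mem_insert] at hx ⊢
            rcases hx with rfl | rfl | hx
            · right; left; rfl
            · left; exact hφ _
            · right; right; exact hXφ x hx
          · exact hXQ.trans ((Finset.subset_insert _ _).trans (Finset.subset_insert _ _))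
          · intro x hx
            rw [Finset.mem_insert, Finset.mem_insert] at hx
            rcases hx with rfl | rfl | hx
            · exact hwT
            · exact hTφ _ hwT
            · exact hXT hx
          · intro q hq hE
            have hXsub : ∀ x ∈ X, x ∈ insert w (insert (φ w) X) := fun x hx =>
              Finset.mem_insert_of_mem (Finset.mem_insert_of_mem hx)
            have h1 := hXr q hq (fun x hx y hy => hE x (hXsub x hx) y (hXsub y hy))
            have h2 := hext q h1 (fun y hy => hE w (Finset.mem_insert_self _ _) y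
              (hXsub y (hFX hy)) (hσ w hw y (Finset.mem_of_mem_erase hy)
                (Finset.ne_of_mem_erase hy).symm))
            obtain ⟨y0, hy0⟩ : (σ.erase w).Nonempty := Finset.card_pos.mp (by omega)
            have h3 : ∀ x ∈ insert w (insert (φ w) X), q x = q y0 := by
              intro x hx
              rw [Finset.mem_insert, Finset.mem_insert] at hx
              rcases hx with rfl | rfl | hx
              · exact h2 y0 (hFX hy0)
              · rw [hq w]; exact h2 y0 (hFX hy0)
              · exact h1 x hx y0 (hFX hy0)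
            intro x hx y hy
            rw [h3 x hx, h3 y hy]
        have := hXmax _ hmem
        have hlt : X.card < (insert w (insert (φ w) X)).card := by
          apply Finset.card_lt_card
          refine Finset.ssubset_iff_subset_ne.mpr
            ⟨(Finset.subset_insert _ _).trans (Finset.subset_insert _ _), fun h => hwX ?_⟩
          rw [h]; exact Finset.mem_insert_self _ _
        omega
      refine ⟨w, σ.erase w, hwT, hFc, ?_, by simp, ?_, ?_⟩
      · rw [Finset.insert_erase hw]; exact hσn
      · intro y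
        constructor
        · intro hwy
          by_contra hyF
          have hyX : y ∈ X := by
            have := hwy.right
            rw [← hX', Finset.mem_insert, Finset.mem_insert] at this
            rcases this with h | h | h
            · exact absurd h hwy.1.symm
            · exact absurd h (hG.anti w y hwy)
            · exact h
          obtain ⟨q, hq1, hq2, hq3⟩ := hI w y hwy
          have h1 := hXr q hq1 (by
            intro a ha b hb hab
            refine hq3 a b hab ?_
            rintro (⟨h, -⟩ | ⟨-, h⟩ | ⟨h, -⟩ | ⟨-, h⟩)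
            · exact hwX (h ▸ ha)
            · exact hwX (h ▸ hb)
            · exact hwX' (h ▸ ha)
            · exact hwX' (h ▸ hb))
          have h2 := hext q h1 (by
            intro z hz
            refine hq3 w z (hσ w hw z (Finset.mem_of_mem_erase hz)
              (Finset.ne_of_mem_erase hz).symm) ?_
            rintro (⟨-, h⟩ | ⟨h, -⟩ | ⟨h, -⟩ | ⟨-, h⟩)
            · exact hyF (h ▸ hz)
            · exact hwX (h ▸ hyX)
            · exact hφ' w h.symm
            · exact hwX' (h ▸ hFX hz)) y hyX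
          apply hq2
          unfold ell
          rw [h2]
          simp
        · intro hy
          exact hσ w hw y (Finset.mem_of_mem_erase hy) (Finset.ne_of_mem_erase hy).symm
      · intro x hx y hy hxy
        exact hσ x (Finset.mem_of_mem_erase hx) y (Finset.mem_of_mem_erase hy) hxy
  · -- no small symmetric cycle: impossible
    exfalso
    have hsA' : ∀ Q ∈ s, ∃ σ : Finset V, σ.card = d + 1 ∧
        (∀ x ∈ σ, ∀ y ∈ σ, x ≠ y → Adj T x y) ∧ Q = bd (sg σ) := by
      intro Q hQ
      rcases hsA Q hQ with h | h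
      · exact h
      · exact absurd ⟨Q, hQ, h⟩ hκ
    have hsne : s.Nonempty := by
      by_contra hcon
      rw [Finset.not_nonempty_iff_eq_empty] at hcon
      rw [hcon, Finset.sum_empty] at hsum
      exact hT.1 hsum
    obtain ⟨Q0, hQ0⟩ := hsne
    obtain ⟨σ0, hσ0c, hσ0, hQ0eq⟩ := hsA' Q0 hQ0
    set Rig : Finset V → Prop := fun X => NoAnti φ X ∧ vert Q0 ⊆ X ∧ X ⊆ vert T ∧
      ∀ q : Fld V d, Sym φ q →
        (∀ x ∈ X, ∀ y ∈ X, Adj T x y → ell φ f q x y = 0) → RigidOn φ f X q
      with hRig
    have hR0 : Rig σ0 := by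
      refine ⟨hclq σ0 hσ0, by rw [hQ0eq]; exact hvbd σ0, hclqv σ0 hσ0c hσ0, ?_⟩
      intro q hq hE
      refine (hf.1.2 σ0 (hclq σ0 hσ0) (by omega)).rigid φ q ?_
      intro x hx y hy
      by_cases hxy : x = y
      · rw [hxy]; exact ell_self f q y
      · exact hE x hx y hy (hσ0 x hx y hy hxy)
    obtain ⟨X, hX, hXmax⟩ := Finset.exists_max_image (Finset.univ.filter Rig) Finset.card
      ⟨σ0, Finset.mem_filter.mpr ⟨Finset.mem_univ _, hR0⟩⟩
    rw [Finset.mem_filter] at hX
    obtain ⟨-, hXn, hXQ, hXT, hXr⟩ := hX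
    obtain ⟨F0, hF0⟩ := hT.nonempty
    obtain ⟨x0, hx0⟩ : F0.Nonempty := Finset.card_pos.mp (by rw [hT.cyc.2 F0 hF0]; omega)
    have hx0T := subset_vert hF0 hx0
    obtain ⟨Q, hQ, hQX, F, hF, hFX⟩ := cross_family hT hsum hcyc hsmin X hQ0 hXQ
      (fun h => hXn x0 (h hx0T) (h (hTφ x0 hx0T)))
    obtain ⟨σ, hσc, hσ, rfl⟩ := hsA' Q hQ
    obtain ⟨w, hw, rfl⟩ := mem_supp_bd_sg.mp hF
    have hwX : w ∉ X := by
      intro h
      apply hQX
      refine (hvbd σ).trans ?_
      intro x hx
      by_cases hxw : x = w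
      · rw [hxw]; exact h
      · exact hFX (Finset.mem_erase.mpr ⟨hxw, hx⟩)
    have hσn := hclq σ hσ
    have haff := hf.1.2 σ hσn (by omega)
    have hFc : (σ.erase w).card = d := by
      rw [Finset.card_erase_of_mem hw, hσc]; omega
    have hwT : w ∈ vert T := hclqv σ hσc hσ hw
    have hFn : NoAnti φ (σ.erase w) := fun x hx hx' =>
      hσn x (Finset.mem_of_mem_erase hx) (Finset.mem_of_mem_erase hx')
    by_cases hφw : φ w ∈ X
    · obtain ⟨f0, hf0⟩ : (σ.erase w).Nonempty := Finset.card_pos.mp (by omega)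
      have hf0' := Finset.mem_erase.mp hf0
      obtain ⟨q, hq1, hq2, hq3⟩ := hI w f0 (hσ w hw f0 hf0'.2 hf0'.1.symm)
      have hφf0 : φ f0 ∉ X := hXn f0 (hFX hf0)
      obtain ⟨A, τ, hA, hAq⟩ := hXr q hq1 (by
        intro a ha b hb hab
        refine hq3 a b hab ?_
        rintro (⟨h, -⟩ | ⟨-, h⟩ | ⟨-, h⟩ | ⟨h, -⟩)
        · exact hwX (h ▸ ha)
        · exact hwX (h ▸ hb)
        · exact hφf0 (h ▸ hb)
        · exact hφf0 (h ▸ ha))
      have hqw : q w = - (A *ᵥ pos φ f w) + τ := by
        rw [← hq1 w, hAq _ hφw, pos_anti φ hφ, mulVec_neg]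
      have hell : ∀ y ∈ σ.erase w, ell φ f q w y = 2 * (pos φ f y ⬝ᵥ (A *ᵥ pos φ f w)) := by
        intro y hy
        unfold ell
        rw [hqw, hAq y (hFX hy)]
        have e1 : - (A *ᵥ pos φ f w) + τ - (A *ᵥ pos φ f y + τ) =
            - (A *ᵥ pos φ f w) - A *ᵥ pos φ f y := by abel
        rw [e1, dotProduct_sub, dotProduct_neg, sub_dotProduct, sub_dotProduct,
          skew_dot_self A hA, skew_dot_self A hA,
          skew_dot A hA (pos φ f w) (pos φ f y)]
        ring
      have hAw : A *ᵥ pos φ f w = 0 := by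
        have hns : NoAnti φ (σ.erase f0) := fun x hx hx' =>
          hσn x (Finset.mem_of_mem_erase hx) (Finset.mem_of_mem_erase hx')
        have hnc : (σ.erase f0).card = d := by
          rw [Finset.card_erase_of_mem hf0'.2, hσc]; omega
        refine (hf.1.1 _ hns (by omega)).perp φ (by omega) _ ?_
        intro y hy
        rw [Finset.mem_erase] at hy
        by_cases hyw : y = w
        · rw [hyw]; exact skew_dot_self A hA _
        · have hyF : y ∈ σ.erase w := Finset.mem_erase.mpr ⟨hyw, hy.2⟩
          have h1 := hq3 w y (hσ w hw y hy.2 (Ne.symm hyw)) (by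
            rintro (⟨-, h⟩ | ⟨h, -⟩ | ⟨h, -⟩ | ⟨h, -⟩)
            · exact hy.1 h
            · exact hf0'.1 h.symm
            · exact hφ' w h.symm
            · exact hσn f0 hf0'.2 (h ▸ hw))
          rw [hell y hyF] at h1
          linarith
      apply hq2
      rw [hell f0 hf0, hAw]
      simp
    · -- the body can be enlarged
      have hmem : insert w X ∈ Finset.univ.filter Rig := by
        rw [Finset.mem_filter]
        refine ⟨Finset.mem_univ _, ?_, hXQ.trans (Finset.subset_insert _ _), ?_, ?_⟩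
        · intro x hx hx'
          rw [Finset.mem_insert] at hx hx'
          rcases hx with rfl | hx
          · rcases hx' with h | h
            · exact hφ' _ h
            · exact hφw h
          · rcases hx' with h | h
            · exact hφw (by rw [← h, hφ]; exact hx)
            · exact hXn x hx h
        · intro x hx
          rw [Finset.mem_insert] at hx
          rcases hx with rfl | hx
          · exact hwT
          · exact hXT hx
        · intro q hq hE
          have hXsub : ∀ x ∈ X, x ∈ insert w X := fun x hx => Finset.mem_insert_of_mem hx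
          have hσX : ∀ x ∈ σ, x ∈ insert w X := by
            intro x hx
            by_cases hxw : x = w
            · rw [hxw]; exact Finset.mem_insert_self _ _
            · exact hXsub x (hFX (Finset.mem_erase.mpr ⟨hxw, hx⟩))
          obtain ⟨A, τ, hA, hAq⟩ := hXr q hq (fun x hx y hy => hE x (hXsub x hx) y (hXsub y hy))
          obtain ⟨B, τ', hB, hBq⟩ := haff.rigid φ q (by
            intro x hx y hy
            by_cases hxy : x = y
            · rw [hxy]; exact ell_self f q y
            · exact hE x (hσX x hx) y (hσX y hy) (hσ x hx y hy hxy))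
          obtain ⟨h1, h2⟩ := (hf.1.2 _ hFn (by omega)).uniq φ (by omega)
            (Finset.card_pos.mp (by omega)) A B hA hB τ τ' (by
            intro x hx
            rw [← hAq x (hFX hx), ← hBq x (Finset.mem_of_mem_erase hx)])
          refine ⟨A, τ, hA, ?_⟩
          intro x hx
          rw [Finset.mem_insert] at hx
          rcases hx with rfl | hx
          · rw [hBq _ hw, h1, h2]
          · exact hAq x hx
      have := hXmax _ hmem
      rw [Finset.card_insert_of_notMem hwX] at this
      omega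

end grow

end Pool.Agent.CSLBT
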