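import Pool.Agent.CSLBT.Frame

set_option linter.unusedSectionVars false

namespace Pool.Agent.CSLBT

open Filter Matrix

section la

variable {d : ℕ}

lemma dot_expand (p1 p2 v1 v2 : Fin d → ℚ) :
    (p2 - p1) ⬝ᵥ (v2 - v1) = p2 ⬝ᵥ v2 - p2 ⬝ᵥ v1 - p1 ⬝ᵥ v2 + p1 ⬝ᵥ v1 := by
  rw [sub_dotProduct, dotProduct_sub, dotProduct_sub]
  ring

/-- prescribing dot products with a linearly independent family -/
lemma exists_dot {ι : Type*} [Fintype ι] [DecidableEq ι] (b : ι → Fin d → ℚ)
    (hb : LinearIndependent ℚ b) (c : ι → ℚ) : ∃ z : Fin d → ℚ, ∀ i, b i ⬝ᵥ z = c i := by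
  let T : (Fin d → ℚ) →ₗ[ℚ] (ι → ℚ) := Matrix.mulVecLin (Matrix.of b)
  have hT : ∀ z i, T z i = b i ⬝ᵥ z := fun z i => rfl
  have hsurj : LinearMap.range T = ⊤ := by
    by_contra hne
    obtain ⟨f, hf, hle⟩ := Submodule.exists_le_ker_of_lt_top _ (lt_top_iff_ne_top.mpr hne)
    apply hf
    have h1 : ∀ w : ι → ℚ, f w = ∑ i, w i * f (Pi.single i 1) := by
      intro w
      conv_lhs => rw [← Finset.univ_sum_single w, map_sum]
      refine Finset.sum_congr rfl fun i _ => ?_
      have : (Pi.single i (w i) : ι → ℚ) = w i • (Pi.single i (1 : ℚ) : ι → ℚ) := by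
        ext j
        by_cases hj : j = i
        · subst hj; simp
        · simp [Pi.single_apply, hj]
      rw [this, map_smul, smul_eq_mul]
    have h2 : ∀ z, ∑ i, (b i ⬝ᵥ z) * f (Pi.single i 1) = 0 := by
      intro z
      have : f (T z) = 0 := hle ⟨z, rfl⟩
      rw [h1] at this
      simpa [hT] using this
    have h3 : ∑ i, f (Pi.single i 1) • b i = 0 := by
      apply dotProduct_self_eq_zero.mp
      have := h2 (∑ i, f (Pi.single i 1) • b i)
      rw [← this, sum_dotProduct]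
      refine Finset.sum_congr rfl fun i _ => ?_
      rw [smul_dotProduct, smul_eq_mul, mul_comm]
    have h4 := Fintype.linearIndependent_iff.mp hb _ h3
    refine LinearMap.ext fun w => ?_
    rw [h1 w]
    refine (Finset.sum_eq_zero fun i _ => ?_)
    rw [h4 i, mul_zero]
  obtain ⟨z, hz⟩ : c ∈ LinearMap.range T := by rw [hsurj]; trivial
  exact ⟨z, fun i => by rw [← hT, hz]⟩

lemma finrank_perp {ι : Type*} [Fintype ι] [DecidableEq ι] (b : ι → Fin d → ℚ)
    (hb : LinearIndependent ℚ b) :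
    Module.finrank ℚ (LinearMap.ker (Matrix.mulVecLin (Matrix.of b))) + Fintype.card ι = d := by
  have h1 := LinearMap.finrank_range_add_finrank_ker (Matrix.mulVecLin (Matrix.of b))
  have h2 : LinearMap.range (Matrix.mulVecLin (Matrix.of b)) = ⊤ := by
    rw [LinearMap.range_eq_top]
    intro c
    obtain ⟨z, hz⟩ := exists_dot b hb c
    exact ⟨z, funext fun i => hz i⟩
  rw [h2] at h1
  simp at h1
  omega

lemma perp_line {ι : Type*} [Fintype ι] [DecidableEq ι] (b : ι → Fin d → ℚ)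
    (hb : LinearIndependent ℚ b) (hc : d ≤ Fintype.card ι + 1) :
    ∃ n : Fin d → ℚ, ∀ z : Fin d → ℚ, (∀ i, b i ⬝ᵥ z = 0) → ∃ α : ℚ, z = α • n := by
  have h := finrank_perp b hb
  have h1 : Module.finrank ℚ (LinearMap.ker (Matrix.mulVecLin (Matrix.of b))) ≤ 1 := by omega
  rw [finrank_le_one_iff] at h1
  obtain ⟨n, hn⟩ := h1
  refine ⟨n, fun z hz => ?_⟩
  have hz' : z ∈ LinearMap.ker (Matrix.mulVecLin (Matrix.of b)) := by
    rw [LinearMap.mem_ker]
    ext i
    exact hz i
  obtain ⟨c, hc⟩ := hn ⟨z, hz'⟩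
  exact ⟨c, by rw [← Submodule.coe_smul, hc]⟩

lemma perp_zero {ι : Type*} [Fintype ι] [DecidableEq ι] (b : ι → Fin d → ℚ)
    (hb : LinearIndependent ℚ b) (hc : d ≤ Fintype.card ι) (z : Fin d → ℚ)
    (hz : ∀ i, b i ⬝ᵥ z = 0) : z = 0 := by
  have h := finrank_perp b hb
  have h1 : Module.finrank ℚ (LinearMap.ker (Matrix.mulVecLin (Matrix.of b))) = 0 := by omega
  rw [Submodule.finrank_eq_zero] at h1
  have hz' : z ∈ LinearMap.ker (Matrix.mulVecLin (Matrix.of b)) := by
    rw [LinearMap.mem_ker]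
    ext i
    exact hz i
  rw [h1] at hz'
  exact hz'

lemma skew_eq_zero {ι : Type*} [Fintype ι] [DecidableEq ι] (b : ι → Fin d → ℚ)
    (hb : LinearIndependent ℚ b) (hc : d ≤ Fintype.card ι + 1) (A : Matrix (Fin d) (Fin d) ℚ)
    (hA : Aᵀ = -A) (h : ∀ i, A *ᵥ b i = 0) : A = 0 := by
  obtain ⟨n, hn⟩ := perp_line b hb hc
  have h1 : ∀ j, ∃ α : ℚ, A j = α • n := by
    intro j
    apply hn
    intro i
    have := congrFun (h i) j
    rw [dotProduct_comm]
    exact this
  choose α hα using h1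
  have hA' : ∀ i j, A j i = - A i j := by
    intro i j
    have := congrFun (congrFun hA i) j
    simpa using this
  have h2 : ∀ i j, A i j = α i * n j := by
    intro i j
    have := congrFun (hα i) j
    simpa using this
  ext i j
  have h3 : α j * n j = 0 := by
    have := hA' j j
    rw [h2] at this
    linarith
  rcases mul_eq_zero.mp h3 with h4 | h4
  · have := hA' j i
    rw [h2 j i, h4] at this
    simp [this]
  · simp [h2, h4]

end la

section frame

variable {V : Type*} [Fintype V] [DecidableEq V] {d : ℕ} (φ : V → V)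

def AffInd (f : Fld V d) (X : Finset V) : Prop :=
  ∀ c : V → ℚ, ∑ x ∈ X, c x • pos φ f x = 0 → ∑ x ∈ X, c x = 0 → ∀ x ∈ X, c x = 0

def LinInd (f : Fld V d) (X : Finset V) : Prop :=
  ∀ c : V → ℚ, ∑ x ∈ X, c x • pos φ f x = 0 → ∀ x ∈ X, c x = 0

lemma LinInd.li {f : Fld V d} {X : Finset V} (h : LinInd φ f X) :
    LinearIndependent ℚ (fun x : {x // x ∈ X} => pos φ f x) := by
  rw [Fintype.linearIndependent_iff]
  intro g hg i
  have := h (fun x => if hx : x ∈ X then g ⟨x, hx⟩ else 0) ?_ i i.2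
  · simpa using this
  · rw [← Finset.sum_attach]
    rw [← hg]
    simp [Finset.univ_eq_attach]

lemma AffInd.li {f : Fld V d} {X : Finset V} (h : AffInd φ f X) {u : V} (hu : u ∈ X) :
    LinearIndependent ℚ (fun x : {x // x ∈ X.erase u} => pos φ f u - pos φ f x) := by
  rw [Fintype.linearIndependent_iff]
  intro g hg i
  let c0 : V → ℚ := fun x => if hx : x ∈ X.erase u then g ⟨x, hx⟩ else 0
  let c : V → ℚ := fun x => if x = u then ∑ y ∈ X.erase u, c0 y else - c0 x
  have hc0 : ∀ x : {x // x ∈ X.erase u}, c0 x = g x := by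
    rintro ⟨x, hx⟩
    simp only [c0, dif_pos hx]
  have hcu : c u = ∑ y ∈ X.erase u, c0 y := by simp [c]
  have hce : ∀ x ∈ X.erase u, c x = - c0 x := by
    intro x hx
    have : x ≠ u := Finset.ne_of_mem_erase hx
    simp [c, this]
  have h1 : ∑ x ∈ X, c x • pos φ f x = 0 := by
    rw [← Finset.add_sum_erase X _ hu, hcu]
    rw [Finset.sum_congr (g := fun x => (- c0 x) • pos φ f x) rfl (fun x hx => by rw [hce x hx])]
    have : ∑ x ∈ X.erase u, c0 x • (pos φ f u - pos φ f x) = 0 := by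
      rw [← hg, ← Finset.sum_attach, Finset.univ_eq_attach]
      refine Finset.sum_congr rfl fun x _ => ?_
      rw [hc0]
    rw [Finset.sum_smul, ← Finset.sum_add_distrib, ← this]
    refine Finset.sum_congr rfl fun x _ => ?_
    module
  have h2 : ∑ x ∈ X, c x = 0 := by
    rw [← Finset.add_sum_erase X _ hu, hcu, Finset.sum_congr rfl (fun x hx => hce x hx)]
    simp
  have h3 := h c h1 h2 i (Finset.mem_of_mem_erase i.2)
  rw [hce i i.2, hc0] at h3
  linarith

/-- a skew matrix killing `d - 1` independent positions vanishes -/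
lemma LinInd.skew_zero {f : Fld V d} {X : Finset V} (h : LinInd φ f X) (hc : d ≤ X.card + 1)
    (A : Matrix (Fin d) (Fin d) ℚ) (hA : Aᵀ = -A) (hz : ∀ x ∈ X, A *ᵥ pos φ f x = 0) : A = 0 :=
  skew_eq_zero _ (h.li φ) (by simpa using hc) A hA (fun i => hz i i.2)

lemma LinInd.perp {f : Fld V d} {X : Finset V} (h : LinInd φ f X) (hc : d ≤ X.card)
    (z : Fin d → ℚ) (hz : ∀ x ∈ X, pos φ f x ⬝ᵥ z = 0) : z = 0 :=
  perp_zero _ (h.li φ) (by simpa using hc) z (fun i => hz i i.2)

lemma AffInd.perp {f : Fld V d} {X : Finset V} (h : AffInd φ f X) (hc : d + 1 ≤ X.card)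
    {u : V} (hu : u ∈ X)
    (z : Fin d → ℚ) (hz : ∀ x ∈ X.erase u, (pos φ f u - pos φ f x) ⬝ᵥ z = 0) : z = 0 := by
  refine perp_zero _ (h.li φ hu) ?_ z (fun i => hz i i.2)
  simp only [Fintype.card_coe, Finset.card_erase_of_mem hu]
  omega

lemma AffInd.tdir {f : Fld V d} {X : Finset V} (h : AffInd φ f X) (hc : d ≤ X.card)
    {u : V} (hu : u ∈ X) : ∃ t : Fin d → ℚ, ∀ z : Fin d → ℚ,
      (∀ x ∈ X.erase u, (pos φ f u - pos φ f x) ⬝ᵥ z = 0) → t ⬝ᵥ z = 0 → z = 0 := by
  have hcard : d ≤ Fintype.card {x // x ∈ X.erase u} + 1 := by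
    simp only [Fintype.card_coe, Finset.card_erase_of_mem hu]
    omega
  obtain ⟨n, hn⟩ := perp_line _ (h.li φ hu) hcard
  refine ⟨n, fun z hz hnz => ?_⟩
  obtain ⟨α, rfl⟩ := hn z (fun i => hz i i.2)
  rw [dotProduct_smul, smul_eq_mul, mul_eq_zero] at hnz
  rcases hnz with h0 | h0
  · simp [h0]
  · rw [dotProduct_self_eq_zero.mp h0]
    simp

/-- uniqueness of the rigid motion on `d` affinely independent vertices -/
lemma AffInd.uniq {f : Fld V d} {X : Finset V} (h : AffInd φ f X) (hc : d ≤ X.card)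
    (hne : X.Nonempty)
    (A B : Matrix (Fin d) (Fin d) ℚ) (hA : Aᵀ = -A) (hB : Bᵀ = -B) (τ σ : Fin d → ℚ)
    (hAB : ∀ x ∈ X, A *ᵥ pos φ f x + τ = B *ᵥ pos φ f x + σ) : A = B ∧ τ = σ := by
  obtain ⟨u, hu⟩ := hne
  have hcard : d ≤ Fintype.card {x // x ∈ X.erase u} + 1 := by
    simp only [Fintype.card_coe, Finset.card_erase_of_mem hu]
    omega
  have h0 : A - B = 0 := by
    refine skew_eq_zero _ (h.li φ hu) hcard (A - B) (by rw [transpose_sub, hA, hB]; abel) ?_
    rintro ⟨x, hx⟩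
    have h1 := hAB u hu
    have h2 := hAB x (Finset.mem_of_mem_erase hx)
    simp only [sub_mulVec, mulVec_sub]
    have e1 : A *ᵥ pos φ f u = B *ᵥ pos φ f u + σ - τ := by rw [← h1]; abel
    have e2 : A *ᵥ pos φ f x = B *ᵥ pos φ f x + σ - τ := by rw [← h2]; abel
    rw [e1, e2]
    abel
  have hAB' : A = B := sub_eq_zero.mp h0
  refine ⟨hAB', ?_⟩
  have h1 := hAB u hu
  rw [hAB'] at h1
  exact add_left_cancel h1

/-- a simplex is infinitesimally rigid -/
lemma AffInd.rigid {f : Fld V d} {X : Finset V} (h : AffInd φ f X) (q : Fld V d)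
    (hq : ∀ x ∈ X, ∀ y ∈ X, ell φ f q x y = 0) : RigidOn φ f X q := by
  by_cases hX : X.Nonempty
  swap
  · rw [Finset.not_nonempty_iff_eq_empty] at hX
    subst hX
    exact ⟨0, 0, by simp, fun x hx => by simp at hx⟩
  obtain ⟨u, hu⟩ := hX
  let ι := {x // x ∈ X.erase u}
  let b : ι → Fin d → ℚ := fun x => pos φ f u - pos φ f x
  let r : ι → Fin d → ℚ := fun x => q u - q x
  have hb : LinearIndependent ℚ b := h.li φ hu
  have hself : ∀ x : ι, b x ⬝ᵥ r x = 0 := fun x => hq u hu x (Finset.mem_of_mem_erase x.2)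
  have hskew : ∀ x y : ι, b x ⬝ᵥ r y + b y ⬝ᵥ r x = 0 := by
    intro x y
    have h1 := hq x (Finset.mem_of_mem_erase x.2) y (Finset.mem_of_mem_erase y.2)
    have h2 := hself x
    have h3 := hself y
    unfold ell at h1
    have e1 : pos φ f x - pos φ f y = b y - b x := by simp only [b]; abel
    have e2 : q x - q y = r y - r x := by simp only [r]; abel
    rw [e1, e2, dot_expand] at h1
    linarith
  -- dual family
  have hdual : ∀ x : ι, ∃ z : Fin d → ℚ, ∀ y, b y ⬝ᵥ z = if y = x then 1 else 0 :=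
    fun x => exists_dot b hb _
  choose β hβ using hdual
  let S : ι → ι → ℚ := fun x y => r x ⬝ᵥ b y
  have hS : ∀ x y, S x y = - S y x := by
    intro x y
    have := hskew x y
    simp only [S]
    rw [dotProduct_comm (r x), dotProduct_comm (r y)]
    linarith
  let A : Matrix (Fin d) (Fin d) ℚ :=
    ∑ x : ι, (vecMulVec (r x) (β x) - vecMulVec (β x) (r x))
      + ∑ x : ι, ∑ y : ι, S x y • vecMulVec (β x) (β y)
  have hA : Aᵀ = -A := by
    simp only [A, transpose_add, transpose_sum, transpose_sub, transpose_vecMulVec,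
      transpose_smul, neg_add]
    congr 1
    · rw [← Finset.sum_neg_distrib]
      refine Finset.sum_congr rfl fun x _ => ?_
      abel
    · rw [Finset.sum_comm, ← Finset.sum_neg_distrib]
      refine Finset.sum_congr rfl fun x _ => ?_
      rw [← Finset.sum_neg_distrib]
      refine Finset.sum_congr rfl fun y _ => ?_
      rw [hS y x, neg_smul]
  have hAb : ∀ y : ι, A *ᵥ b y = r y := by
    intro y
    simp only [A, add_mulVec, sum_mulVec, sub_mulVec, smul_mulVec, vecMulVec_mulVec,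
      op_smul_eq_smul]
    have e1 : ∀ x, β x ⬝ᵥ b y = if y = x then 1 else 0 := by
      intro x
      rw [dotProduct_comm, hβ]
    simp only [e1]
    rw [Finset.sum_sub_distrib]
    simp only [ite_smul, one_smul, zero_smul, smul_ite, smul_zero, Finset.sum_ite_eq,
      Finset.mem_univ, if_true]
    simp only [S]
    abel
  refine ⟨A, q u - A *ᵥ pos φ f u, hA, fun x hx => ?_⟩
  by_cases hxu : x = u
  · subst hxu
    abel
  · have hx' : x ∈ X.erase u := Finset.mem_erase.mpr ⟨hxu, hx⟩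
    have := hAb ⟨x, hx'⟩
    simp only [b, r, mulVec_sub] at this
    have e : A *ᵥ pos φ f x = A *ᵥ pos φ f u - (q u - q x) := by rw [← this]; abel
    rw [e]
    abel

end frame

end Pool.Agent.CSLBT
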