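import Pool.Agent.CSLBT.Count

set_option linter.unusedSectionVars false
set_option linter.unusedVariables false

namespace Pool.Agent.CSLBT

open Filter Matrix

section link

variable {V : Type*} [Fintype V] [DecidableEq V] {d : ℕ} (φ : V → V)

/-- a sufficiently generic position -/
def Good (f : Fld V d) : Prop :=
  GP φ f ∧
  (∀ (E : V → V → Prop) (X : Finset V),
    (∀ᶠ g in genF (Fld V d), RigA φ g E X) → RigA φ f E X) ∧
  (∀ (E : V → V → Prop) (X : Finset V),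
    (∀ᶠ g in genF (Fld V d), RigM φ g E X) → RigM φ f E X)

lemma good_eventually : ∀ᶠ f in genF (Fld V d), Good φ f := by
  have h1 : ∀ᶠ f in genF (Fld V d), ∀ (E : V → V → Prop) (X : Finset V),
      (∀ᶠ g in genF (Fld V d), RigA φ g E X) → RigA φ f E X := by
    rw [eventually_all]
    intro E
    rw [eventually_all]
    intro X
    by_cases h : ∀ᶠ g in genF (Fld V d), RigA φ g E X
    · filter_upwards [h] with f hf _ using hf
    · filter_upwards with f hf using absurd hf h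
  have h2 : ∀ᶠ f in genF (Fld V d), ∀ (E : V → V → Prop) (X : Finset V),
      (∀ᶠ g in genF (Fld V d), RigM φ g E X) → RigM φ f E X := by
    rw [eventually_all]
    intro E
    rw [eventually_all]
    intro X
    by_cases h : ∀ᶠ g in genF (Fld V d), RigM φ g E X
    · filter_upwards [h] with f hf _ using hf
    · filter_upwards with f hf using absurd hf h
  filter_upwards [h1, h2, gp_eventually (d := d) φ] with f hf1 hf2 hf3 using ⟨hf3, hf1, hf2⟩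

variable {φ}

lemma Good.rig (hφ : Function.Involutive φ) (hφ' : ∀ x, φ x ≠ x) (hd3 : 3 ≤ d) {f : Fld V d}
    (hf : Good φ f) {S : Ch V} {u : V} (hS : MinCyc d S) (hSa : AntiAt φ u S) {q : Fld V d}
    (hq : Sym φ q) (hE : Sat φ f q (Adj S)) : RigidOn φ f (vert S) q := by
  have h := rigid_main (d := d) hφ hφ' hd3 _ S u hS hSa rfl
  by_cases hpr : (pr φ (vert S)).card < 2 * d
  · exact (hf.2.2 _ _ (h.1 hpr)).rigS q hq hE
  · exact (hf.2.1 _ _ (h.2 (not_lt.mp hpr))).rigS q hq hE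

lemma Good.const (hφ : Function.Involutive φ) (hφ' : ∀ x, φ x ≠ x) (hd3 : 3 ≤ d) {f : Fld V d}
    (hf : Good φ f) {S : Ch V} {u : V} (hS : MinCyc d S) (hSa : AntiAt φ u S)
    (hpr : 2 * d ≤ (pr φ (vert S)).card + 2) {q : Fld V d}
    (hq : Sym φ q) (hE : Sat φ f q (Adj S)) : ∀ x ∈ vert S, ∀ y ∈ vert S, q x = q y :=
  rigid_const hφ hφ' hf.1 hpr hq (hf.rig hφ hφ' hd3 hS hSa hq hE)

/-- rigidity of a lift in spite of a deleted edge, many pairs -/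
lemma bigA (hφ : Function.Involutive φ) (hφ' : ∀ x, φ x ≠ x) {u v : V} (huv : u ≠ v)
    (hvu : v ≠ φ u) {D P : Ch V} (hDv : ∀ x ∈ vert D, x ≠ v ∧ x ≠ φ v)
    (hD : ∀ᶠ f in genF (Fld V d), RigS φ f (Adj D) (vert D))
    (hpr : 2 * d ≤ (pr φ (vert D)).card + 2)
    (hcmP : ∀ x ∈ vert P, cm φ u v x ∈ vert D)
    (hliftP : ∀ a b, Adj D a b → ∃ x y, cm φ u v x = a ∧ cm φ u v y = b ∧ Adj P x y)
    (hanti : AntiAt φ u P) {w0 : V} (hw0u : w0 ≠ u) (hw0v : w0 ≠ v)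
    {F0 : Finset V} (hF0 : F0 ∈ P.support) (hF0u : u ∈ F0) (hF0v : v ∈ F0) (hF0w : w0 ∈ F0)
    {W : Finset V} (hWc : W.card + 1 = d) (huW : u ∉ W) (hvW : v ∉ W)
    (hvW' : φ v ∉ W) (hone : ∃ z, OneAnti φ z (insert u W)) (hw0W : w0 ∉ W)
    (hW : ∀ w ∈ W, ∃ F' ∈ P.support, u ∈ F' ∧ v ∈ F' ∧ w ∈ F') :
    ∀ᶠ f in genF (Fld V d), RigA φ f
      (fun x y => (Adj P x y ∨ Adj P (φ x) (φ y)) ∧ ¬ Same φ v w0 x y)
      (Finset.univ.filter (fun x => cm φ u v x ∈ vert D)) := by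
  have huv' : u ≠ φ v := (phiv_ne_u hφ hvu).symm
  have hnov : ∀ F ∈ P.support, v ∈ F → φ v ∉ F :=
    fun F hF h1 h2 => (hanti F hF).noBoth hφ hφ' huv hvu ⟨h1, h2⟩
  have hw0v' : w0 ≠ φ v := by
    rintro rfl
    exact hnov F0 hF0 hF0v hF0w
  have key := vsA (φ := φ) (d := d) (u := u) (v := v) hDv hD hpr
    (fun x y => (Adj P x y ∨ Adj P (φ x) (φ y)) ∧ ¬ Same φ v w0 x y) ?_ ?_ ?_ hWc huW hvW hvW'
    hone ?_ ?_ hφ hφ' huv hvu
  · filter_upwards [key] with f hf q hq hE x hx y hy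
    rw [Finset.mem_filter] at hx hy
    exact hf q hq hE x y hx.2 hy.2
  · rintro x y ⟨h | h, -⟩
    · exact ⟨Or.inl (hcmP x h.left), Or.inl (hcmP y h.right)⟩
    · exact ⟨Or.inr (hcmP _ h.left), Or.inr (hcmP _ h.right)⟩
  · intro a b hab
    obtain ⟨x, y, rfl, rfl, hxy⟩ := hliftP a b hab
    by_cases hs : Same φ v w0 x y
    · rcases hs with ⟨rfl, rfl⟩ | ⟨rfl, rfl⟩ | ⟨rfl, rfl⟩ | ⟨rfl, rfl⟩
      · refine ⟨u, y, by rw [cm_u hφ huv hvu, cm_v], rfl,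
          Or.inl ⟨hw0u.symm, F0, hF0, hF0u, hF0w⟩, ?_⟩
        rintro (⟨h, -⟩ | ⟨h, -⟩ | ⟨h, -⟩ | ⟨-, h⟩)
        · exact huv h
        · exact hw0u h.symm
        · exact huv' h
        · exact hw0v' h
      · refine ⟨x, u, rfl, by rw [cm_u hφ huv hvu, cm_v],
          Or.inl ⟨hw0u, F0, hF0, hF0w, hF0u⟩, ?_⟩
        rintro (⟨h, -⟩ | ⟨-, h⟩ | ⟨h, -⟩ | ⟨-, h⟩)
        · exact hw0v h
        · exact huv h
        · exact hw0v' h
        · exact huv' h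
      · refine ⟨φ u, φ w0, by rw [cm_phiu hφ huv hvu, cm_phiv hφ'], rfl,
          Or.inr ?_, ?_⟩
        · rw [hφ, hφ]; exact ⟨hw0u.symm, F0, hF0, hF0u, hF0w⟩
        rintro (⟨h, -⟩ | ⟨-, h⟩ | ⟨h, -⟩ | ⟨h, -⟩)
        · exact hvu h.symm
        · exact hw0v' (by rw [← h, hφ])
        · exact huv (hφ.injective h)
        · exact hw0u (hφ.injective h).symm
      · refine ⟨φ w0, φ u, rfl, by rw [cm_phiu hφ huv hvu, cm_phiv hφ'],
          Or.inr ?_, ?_⟩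
        · rw [hφ, hφ]; exact ⟨hw0u, F0, hF0, hF0w, hF0u⟩
        rintro (⟨h, -⟩ | ⟨-, h⟩ | ⟨h, -⟩ | ⟨-, h⟩)
        · exact hw0v' (by rw [← h, hφ])
        · exact hvu h.symm
        · exact hw0v (hφ.injective h)
        · exact huv (hφ.injective h)
    · exact ⟨x, y, rfl, rfl, Or.inl hxy, hs⟩
  · refine ⟨Or.inl ⟨huv, F0, hF0, hF0u, hF0v⟩, ?_⟩
    rintro (⟨h, -⟩ | ⟨h, -⟩ | ⟨h, -⟩ | ⟨-, h⟩)
    · exact huv h
    · exact hw0u h.symm
    · exact huv' h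
    · exact hφ' v h.symm
  · intro w hw
    left
    obtain ⟨F', hF', h1, h2, h3⟩ := hW w hw
    refine ⟨Or.inl ⟨fun h => huW (h ▸ hw), F', hF', h1, h3⟩, ?_⟩
    rintro (⟨h, -⟩ | ⟨h, -⟩ | ⟨h, -⟩ | ⟨-, h⟩)
    · exact huv h
    · exact hw0u h.symm
    · exact huv' h
    · exact hvW' (h ▸ hw)
  · intro w hw
    obtain ⟨F', hF', h1, h2, h3⟩ := hW w hw
    refine ⟨Or.inl ⟨fun h => hvW (h ▸ hw), F', hF', h2, h3⟩, ?_⟩
    rintro (⟨-, h⟩ | ⟨h, -⟩ | ⟨h, -⟩ | ⟨-, h⟩)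
    · exact hw0W (h ▸ hw)
    · exact hw0v h.symm
    · exact hφ' v h.symm
    · exact hvW' (h ▸ hw)

/-- rigidity of a lift in spite of a deleted edge, few pairs -/
lemma bigM (hφ : Function.Involutive φ) (hφ' : ∀ x, φ x ≠ x) {u v : V} (huv : u ≠ v)
    (hvu : v ≠ φ u) (hd3 : 3 ≤ d) {D P : Ch V} (hDv : ∀ x ∈ vert D, x ≠ v ∧ x ≠ φ v)
    (hDu : u ∈ vert D)
    (hD : ∀ᶠ f in genF (Fld V d), RigM φ f (Adj D) (vert D))
    (hcmP : ∀ x ∈ vert P, cm φ u v x ∈ vert D)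
    (hliftP : ∀ a b, Adj D a b → ∃ x y, cm φ u v x = a ∧ cm φ u v y = b ∧ Adj P x y)
    (hanti : AntiAt φ u P) (hPv : vert P = insert v (vert D)) (hvP : φ v ∉ vert P)
    (hPb : bd P = 0) (hPd : ∀ F ∈ P.support, F.card = d)
    {w0 : V} (hw0u : w0 ≠ u) (hw0v : w0 ≠ v)
    {F0 : Finset V} (hF0 : F0 ∈ P.support) (hF0u : u ∈ F0) (hF0v : v ∈ F0) (hF0w : w0 ∈ F0)
    {W : Finset V} (hWc : W.card + 1 = d) (huW : u ∉ W) (hvW : v ∉ W)
    (hvW' : φ v ∉ W) (hone : ∃ z, OneAnti φ z (insert u W)) (hw0W : w0 ∉ W)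
    (hW : ∀ w ∈ W, ∃ F' ∈ P.support, u ∈ F' ∧ v ∈ F' ∧ w ∈ F') :
    ∀ᶠ f in genF (Fld V d), RigM φ f
      (fun x y => Adj P x y ∧ ¬ Same φ v w0 x y) (vert P) := by
  have huv' : u ≠ φ v := (phiv_ne_u hφ hvu).symm
  obtain ⟨z, hz, hF1⟩ := exists_cross hPb hF0 hF0v
  set F1 := insert z (F0.erase v) with hF1def
  have hvF1 : v ∉ F1 := by
    rw [hF1def, Finset.mem_insert]
    rintro (h | h)
    · exact hz (h ▸ hF0v)
    · simp at h
  have hF1c := hPd F1 hF1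
  have hnv : ∀ x ∈ vert P, x ≠ φ v := fun x hx h => hvP (h ▸ hx)
  have key := vsM (φ := φ) (d := d) (u := u) (v := v) hDv hDu hD
    (fun x y => Adj P x y ∧ ¬ Same φ v w0 x y) ?_ ?_ ?_ hWc huW
    hvW hvW' hone ?_ ?_ (F0 := F1) ?_ hF1c (Finset.card_pos.mp (by omega)) ?_ ?_ hφ hφ' huv hvu
  · rw [← hPv] at key
    exact key
  · rintro x y ⟨hxy, -⟩
    rw [← hPv]
    exact ⟨hxy.left, hxy.right⟩
  · intro a b hab
    obtain ⟨x, y, rfl, rfl, hxy⟩ := hliftP a b hab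
    by_cases hs : Same φ v w0 x y
    · rcases hs with ⟨rfl, rfl⟩ | ⟨rfl, rfl⟩ | ⟨rfl, rfl⟩ | ⟨rfl, rfl⟩
      · refine ⟨u, y, by rw [cm_u hφ huv hvu, cm_v], rfl,
          ⟨hw0u.symm, F0, hF0, hF0u, hF0w⟩, ?_⟩
        rintro (⟨h, -⟩ | ⟨h, -⟩ | ⟨h, -⟩ | ⟨-, h⟩)
        · exact huv h
        · exact hw0u h.symm
        · exact huv' h
        · exact hnv _ hxy.right h
      · refine ⟨x, u, rfl, by rw [cm_u hφ huv hvu, cm_v],
          ⟨hw0u, F0, hF0, hF0w, hF0u⟩, ?_⟩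
        rintro (⟨h, -⟩ | ⟨-, h⟩ | ⟨h, -⟩ | ⟨-, h⟩)
        · exact hw0v h
        · exact huv h
        · exact hnv _ hxy.left h
        · exact huv' h
      · exact absurd hxy.left hvP
      · exact absurd hxy.right hvP
    · exact ⟨x, y, rfl, rfl, hxy, hs⟩
  · refine ⟨⟨huv, F0, hF0, hF0u, hF0v⟩, ?_⟩
    rintro (⟨h, -⟩ | ⟨h, -⟩ | ⟨h, -⟩ | ⟨-, h⟩)
    · exact huv h
    · exact hw0u h.symm
    · exact huv' h
    · exact hφ' v h.symm
  · intro w hw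
    left
    obtain ⟨F', hF', h1, h2, h3⟩ := hW w hw
    refine ⟨⟨fun h => huW (h ▸ hw), F', hF', h1, h3⟩, ?_⟩
    rintro (⟨h, -⟩ | ⟨h, -⟩ | ⟨h, -⟩ | ⟨-, h⟩)
    · exact huv h
    · exact hw0u h.symm
    · exact huv' h
    · exact hvW' (h ▸ hw)
  · intro w hw
    obtain ⟨F', hF', h1, h2, h3⟩ := hW w hw
    refine ⟨⟨fun h => hvW (h ▸ hw), F', hF', h2, h3⟩, ?_⟩
    rintro (⟨-, h⟩ | ⟨h, -⟩ | ⟨h, -⟩ | ⟨-, h⟩)
    · exact hw0W (h ▸ hw)
    · exact hw0v h.symm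
    · exact hφ' v h.symm
    · exact hvW' (h ▸ hw)
  · intro x hx
    have h1 : x ∈ vert P := subset_vert hF1 hx
    have h2 := hcmP x h1
    have e1 : x ≠ v := by
      rintro rfl
      exact hvF1 hx
    rwa [cm_of_ne e1 (hnv x h1)] at h2
  · exact ⟨u, hanti F1 hF1⟩
  · intro x hx y hy hxy
    left
    refine ⟨⟨hxy, F1, hF1, hx, hy⟩, ?_⟩
    rintro (⟨h, -⟩ | ⟨-, h⟩ | ⟨h, -⟩ | ⟨-, h⟩)
    · exact hvF1 (h ▸ hx)
    · exact hvF1 (h ▸ hy)
    · exact hnv x (subset_vert hF1 hx) h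
    · exact hnv y (subset_vert hF1 hy) h

/-- In a lift spanning all vertices, the link of a contracted edge has few vertices. -/
lemma link_bound (hφ : Function.Involutive φ) (hφ' : ∀ x, φ x ≠ x) (hd3 : 3 ≤ d)
    {G : V → V → Prop} (hG : GG φ G) {f : Fld V d} (hf : Good φ f) (hI : Indep φ f G)
    {S : Ch V} (hS : MinCyc d S) (hno : ∀ F ∈ S.support, NoAnti φ F) {u v : V}
    (hadj : Adj S u v) (hvu : v ≠ φ u)
    (hcase : 2 * d ≤ (pr φ (vert S)).card ∨ ((pr φ (vert S)).card < 2 * d ∧ φ v ∉ vert S))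
    {D : Ch V} (hDm : MinCyc d D) (hDs : D.support ⊆ (cc φ u v S).support)
    (hv : vert (piece φ u v S D) = vert S)
    (hPG : ∀ x y, Adj (piece φ u v S D) x y → G x y) {u1 v1 : V}
    (h1 : (u1 = u ∧ v1 = v) ∨ (u1 = φ u ∧ v1 = φ v))
    {F : Finset V} (hF : F ∈ (piece φ u v S D).support) (hu1F : u1 ∈ F) (hv1F : v1 ∈ F)
    {W : Finset V} (hW : ∀ w ∈ W, w ≠ u1 ∧ w ≠ v1 ∧
      ∃ F' ∈ (piece φ u v S D).support, u1 ∈ F' ∧ v1 ∈ F' ∧ w ∈ F') : W.card < d := by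
  classical
  by_contra hcon
  rw [not_lt] at hcon
  have huv := hadj.1
  have hcard := hS.cyc.2
  have hanti : AntiAt φ u S := fun F hF x hx hx' => absurd hx' (hno F hF x hx)
  set P := piece φ u v S D with hPdef
  have hDb := hDm.cyc.1
  have hPok := fun F hF => piece_okay (F := F) hφ hφ' huv hvu hanti hadj hcard hDb hDs hF
  have hPb := bd_piece hφ hφ' huv hvu hanti hDb hDs
  have hPanti : AntiAt φ u P := fun F hF => (hPok F hF).1.2.2
  have hDv : ∀ x ∈ vert D, x ≠ v ∧ x ≠ φ v :=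
    fun x hx => vert_X_ne hφ hφ' huv hvu hanti hDs hx
  have hcmP : ∀ x ∈ vert P, cm φ u v x ∈ vert D :=
    fun x hx => piece_cm_mem hφ hφ' huv hvu hanti hadj hDb hDs hx
  have hDanti := antiAt_X hφ hφ' huv hvu hanti hDs
  have hmain := rigid_main (d := d) hφ hφ' hd3 _ D u hDm hDanti rfl
  have hlift : ∀ a b, Adj D a b → ∃ x y, cm φ u v x = a ∧ cm φ u v y = b ∧ Adj P x y := by
    intro a b hab
    obtain ⟨x, y, h1, h2, h3⟩ := adj_lift hφ hφ' huv hvu hanti hadj hDb hDs hab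
    exact ⟨x, y, h1, h2, h3.mono (TX_sub_piece hφ hφ' huv hvu hanti hadj hDb hDs)⟩
  have hu1v1 : u1 ≠ v1 := by
    rcases h1 with ⟨rfl, rfl⟩ | ⟨rfl, rfl⟩
    · exact huv
    · exact phi_ne hφ huv
  have hv1u1 : v1 ≠ φ u1 := by
    rcases h1 with ⟨rfl, rfl⟩ | ⟨rfl, rfl⟩
    · exact hvu
    · exact phi_ne hφ hvu
  have hPanti1 : AntiAt φ u1 P := by
    rcases h1 with ⟨rfl, rfl⟩ | ⟨rfl, rfl⟩
    · exact hPanti
    · exact hPanti.flip hφ
  obtain ⟨W1, hWc, huW, hvW, hvW', hone, hW1⟩ := getW hφ hφ' hu1v1 hv1u1 hd3 hPb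
    (fun F hF => (hPok F hF).2) hPanti1 hF hu1F hv1F
  obtain ⟨w0, hw0, hw0W⟩ := Finset.exists_mem_notMem_of_card_lt_card (s := W1) (t := W) (by omega)
  obtain ⟨hw0u, hw0v, F0, hF0, hF0u, hF0v, hF0w⟩ := hW w0 hw0
  have hGvw : G v1 w0 := hPG v1 w0 ⟨hw0v.symm, F0, hF0, hF0v, hF0w⟩
  obtain ⟨q, hq1, hq2, hq3⟩ := hI v1 w0 hGvw
  have hsatA : Sat φ f q (fun x y => (Adj P x y ∨ Adj P (φ x) (φ y)) ∧ ¬ Same φ v1 w0 x y) := by
    rintro x y ⟨h, hs⟩
    refine hq3 x y ?_ hs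
    rcases h with h | h
    · exact hPG x y h
    · have := hG.phi _ _ (hPG _ _ h)
      rwa [hφ, hφ] at this
  rcases hcase with hpr | ⟨hpr, hvS⟩
  · have hprD : 2 * d ≤ (pr φ (vert D)).card + 2 := by
      have := pr_drop hφ hφ' huv hvu hanti hadj hDb hDs
      rw [← hPdef, hv] at this
      omega
    have hDr : ∀ᶠ f in genF (Fld V d), RigS φ f (Adj D) (vert D) := by
      by_cases h : (pr φ (vert D)).card < 2 * d
      · filter_upwards [hmain.1 h] with f hf using hf.rigS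
      · filter_upwards [hmain.2 (not_lt.mp h)] with f hf using hf.rigS
    have hcm : cm φ u1 v1 = cm φ u v := by
      rcases h1 with ⟨rfl, rfl⟩ | ⟨rfl, rfl⟩
      · rfl
      · exact funext (cm_symm hφ hφ')
    have hDv1 : ∀ x ∈ vert D, x ≠ v1 ∧ x ≠ φ v1 := by
      intro x hx
      rcases h1 with ⟨rfl, rfl⟩ | ⟨rfl, rfl⟩
      · exact hDv x hx
      · rw [hφ]; exact (hDv x hx).symm
    have key := bigA (d := d) hφ hφ' hu1v1 hv1u1 hDv1 hDr hprD (P := P)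
      (by rw [hcm]; exact hcmP) (by rw [hcm]; exact hlift) hPanti1 hw0u hw0v hF0 hF0u hF0v hF0w
      hWc huW hvW hvW' hone hw0W hW1
    have h2 := hf.2.1 _ _ key q hq1 hsatA v1 ?_ w0 ?_
    · apply hq2
      unfold ell
      rw [h2]
      simp
    · rw [Finset.mem_filter, hcm]
      exact ⟨Finset.mem_univ _, hcmP v1 (subset_vert hF hv1F)⟩
    · rw [Finset.mem_filter, hcm]
      exact ⟨Finset.mem_univ _, hcmP w0 (subset_vert hF0 hF0w)⟩
  · have hvP : φ v ∉ vert P := by rw [hv]; exact hvS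
    have h1' : u1 = u ∧ v1 = v := by
      rcases h1 with h | ⟨rfl, rfl⟩
      · exact h
      · exact absurd (subset_vert hF hv1F) hvP
    obtain ⟨rfl, rfl⟩ := h1'
    have hDu : u1 ∈ vert D := by
      have := hcmP u1 (subset_vert hF hu1F)
      rwa [cm_u hφ huv hvu] at this
    have hDT : ∀ x ∈ vert D, x ∈ vert S := by
      intro x hx
      obtain ⟨y, hy, rfl⟩ := Finset.mem_image.mp (vert_X_sub hφ hφ' huv hvu hanti hDs hx)
      by_cases h1 : y = v1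
      · rw [h1, cm_v]; exact hadj.left
      by_cases h2 : y = φ v1
      · exact absurd (h2 ▸ hy) hvS
      rw [cm_of_ne h1 h2]; exact hy
    have hTX : vert P = insert v1 (vert D) := by
      rw [hv]
      ext x
      rw [Finset.mem_insert]
      constructor
      · intro hx
        by_cases h1 : x = v1
        · left; exact h1
        right
        have h2 : x ≠ φ v1 := fun h => hvS (h ▸ hx)
        have := hcmP x (by rw [hv]; exact hx)
        rwa [cm_of_ne h1 h2] at this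
      · rintro (h | h)
        · rw [h]; exact hadj.right
        · exact hDT x h
    have hprD : (pr φ (vert D)).card < 2 * d :=
      lt_of_le_of_lt (Finset.card_le_card (pr_mono hDT)) hpr
    have key := bigM (d := d) hφ hφ' huv hvu hd3 hDv hDu (hmain.1 hprD) hcmP hlift hPanti hTX hvP
      hPb (fun F hF => (hPok F hF).2) hw0u hw0v hF0 hF0u hF0v hF0w
      hWc huW hvW hvW' hone hw0W hW1
    have h2 := (hf.2.2 _ _ key).rigS q hq1 (fun x y h => hsatA x y ⟨Or.inl h.1, h.2⟩)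
    exact hq2 (h2.ell_eq_zero φ (subset_vert hF hv1F) (subset_vert hF0 hF0w))

end link

end Pool.Agent.CSLBT
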