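import Pool.Agent.CSLBT.Contract

set_option linter.unusedSectionVars false
set_option linter.unusedVariables false

namespace Pool.Agent.CSLBT

open Filter Matrix

section piece

variable {V : Type*} [Fintype V] [DecidableEq V] (φ : V → V)

/-- facets of `T` mapping to facets of `X` -/
noncomputable def TX (u v : V) (T X : Ch V) : Ch V :=
  T.filter (fun F => F.image (cm φ u v) ∈ X.support ∧ Nd φ u v F)

/-- the lift of a cycle `X` below the contraction of `T` -/
noncomputable def piece (u v : V) (T X : Ch V) : Ch V :=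
  TX φ u v T X + HH φ u v (bd (TX φ u v T X))

/-- paired vertices of a set -/
def pr (X : Finset V) : Finset V := X.filter (fun x => φ x ∈ X)

variable {φ}
variable (hφ : Function.Involutive φ) (hφ' : ∀ x, φ x ≠ x) {u v : V} (huv : u ≠ v)
  (hvu : v ≠ φ u)

lemma mem_pr {X : Finset V} {x : V} : x ∈ pr φ X ↔ x ∈ X ∧ φ x ∈ X := by
  simp [pr]

lemma mem_TX {T X : Ch V} {F : Finset V} : F ∈ (TX φ u v T X).support ↔
    F ∈ T.support ∧ F.image (cm φ u v) ∈ X.support ∧ Nd φ u v F := by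
  simp only [TX, Finsupp.support_filter, Finset.mem_filter]

lemma mem_supp_bd {S : Ch V} {R : Finset V} (h : R ∈ (bd S).support) :
    ∃ F ∈ S.support, ∃ x ∈ F, R = F.erase x := by
  obtain ⟨F, hF, hR⟩ := exists_of_mem_supp h
  refine ⟨F, hF, ?_⟩
  rw [bd_sg] at hR
  by_contra hcon
  push Not at hcon
  rw [mem_supp, Finsupp.finsetSum_apply, Finset.sum_eq_zero] at hR
  · exact absurd hR (by decide)
  · intro x hx
    rw [sg_apply, if_neg]
    exact fun h => hcon x hx h.symm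

include hφ hφ' huv hvu

lemma AntiAt.noBoth {T : Ch V} (hT : AntiAt φ u T) {F : Finset V} (hF : F ∈ T.support) :
    ¬ (v ∈ F ∧ φ v ∈ F) := (hT F hF).noBoth hφ hφ' huv hvu

lemma mem_supp_cc {T : Ch V} (hT : AntiAt φ u T) {G : Finset V}
    (hG : G ∈ (cc φ u v T).support) :
    ∃ F ∈ T.support, Nd φ u v F ∧ G = F.image (cm φ u v) := by
  obtain ⟨F, hF, hG⟩ := exists_of_mem_supp hG
  rw [cc_sg hφ hφ' huv hvu (hT.noBoth hφ hφ' huv hvu hF)] at hG
  split_ifs at hG with h
  · rw [mem_supp_sg] at hG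
    exact ⟨F, hF, h, hG⟩
  · simp at hG

lemma cc_TX {T X : Ch V} (hT : AntiAt φ u T) (hX : X.support ⊆ (cc φ u v T).support) :
    cc φ u v (TX φ u v T X) = X := by
  ext G
  rw [lin_apply]
  by_cases hG : G ∈ X.support
  · rw [mem_supp.mp hG]
    have h1 := mem_supp.mp (hX hG)
    rw [lin_apply] at h1
    rw [← h1]
    refine Finset.sum_subset (fun F hF => (mem_TX.mp hF).1) ?_
    intro F hF hF'
    rw [cc_sg hφ hφ' huv hvu (hT.noBoth hφ hφ' huv hvu hF)]
    split_ifs with h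
    · rw [sg_apply, if_neg]
      intro h2
      exact hF' (mem_TX.mpr ⟨hF, by rw [h2]; exact hG, h⟩)
    · rfl
  · rw [Finsupp.notMem_support_iff.mp hG]
    refine Finset.sum_eq_zero fun F hF => ?_
    obtain ⟨h1, h2, h3⟩ := mem_TX.mp hF
    rw [cc_sg hφ hφ' huv hvu (hT.noBoth hφ hφ' huv hvu h1), if_pos h3, sg_apply, if_neg]
    intro h
    exact hG (h ▸ h2)

lemma cc_bd_TX {T X : Ch V} (hT : AntiAt φ u T) (hXb : bd X = 0)
    (hX : X.support ⊆ (cc φ u v T).support) : cc φ u v (bd (TX φ u v T X)) = 0 := by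
  rw [bd_cc hφ hφ' huv hvu, cc_TX hφ hφ' huv hvu hT hX, hXb]

lemma bd_piece {T X : Ch V} (hT : AntiAt φ u T) (hXb : bd X = 0)
    (hX : X.support ⊆ (cc φ u v T).support) : bd (piece φ u v T X) = 0 := by
  have h := HH_homotopy hφ hφ' huv hvu (bd (TX φ u v T X))
  rw [bd_bd, map_zero, add_zero, cc_bd_TX hφ hφ' huv hvu hT hXb hX, add_zero] at h
  rw [piece, map_add, h, add_self_ch]

omit hφ hφ' huv hvu in
lemma bd_TX_sub {T X : Ch V} : ∀ R ∈ (bd (TX φ u v T X)).support, ∃ F ∈ T.support, R ⊆ F := by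
  intro R hR
  obtain ⟨F, hF, x, hx, rfl⟩ := mem_supp_bd hR
  exact ⟨F, (mem_TX.mp hF).1, Finset.erase_subset _ _⟩

lemma HH_part {T X : Ch V} (hT : AntiAt φ u T) (hadj : Adj T u v) (hXb : bd X = 0)
    (hX : X.support ⊆ (cc φ u v T).support) {F : Finset V}
    (hF : F ∈ (HH φ u v (bd (TX φ u v T X))).support) :
    (u ∈ F ∧ v ∈ F) ∨ (φ u ∈ F ∧ φ v ∈ F) := by
  obtain ⟨-, R, -, -, h⟩ := HH_supp hφ hφ' huv hvu hT hadj bd_TX_sub
    (cc_bd_TX hφ hφ' huv hvu hT hXb hX) hF
  rcases h with ⟨h1, rfl⟩ | ⟨h1, rfl⟩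
  · left; exact ⟨Finset.mem_insert_self _ _, Finset.mem_insert_of_mem h1⟩
  · right; exact ⟨Finset.mem_insert_self _ _, Finset.mem_insert_of_mem h1⟩

lemma TX_not_HH {T X : Ch V} (hT : AntiAt φ u T) (hadj : Adj T u v) (hXb : bd X = 0)
    (hX : X.support ⊆ (cc φ u v T).support) {F : Finset V}
    (hF : F ∈ (TX φ u v T X).support) : F ∉ (HH φ u v (bd (TX φ u v T X))).support := by
  intro h
  rcases HH_part hφ hφ' huv hvu hT hadj hXb hX h with h | h
  · exact not_nd hφ hφ' huv hvu h.1 h.2 (mem_TX.mp hF).2.2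
  · exact not_nd' hφ hφ' huv hvu h.1 h.2 (mem_TX.mp hF).2.2

lemma piece_supp {T X : Ch V} (hT : AntiAt φ u T) (hadj : Adj T u v) (hXb : bd X = 0)
    (hX : X.support ⊆ (cc φ u v T).support) :
    (piece φ u v T X).support = (TX φ u v T X).support ∪
      (HH φ u v (bd (TX φ u v T X))).support := by
  apply supp_add_disjoint
  rw [Finset.disjoint_left]
  exact fun F hF => TX_not_HH hφ hφ' huv hvu hT hadj hXb hX hF

lemma TX_sub_piece {T X : Ch V} (hT : AntiAt φ u T) (hadj : Adj T u v) (hXb : bd X = 0)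
    (hX : X.support ⊆ (cc φ u v T).support) :
    (TX φ u v T X).support ⊆ (piece φ u v T X).support := by
  rw [piece_supp hφ hφ' huv hvu hT hadj hXb hX]
  exact Finset.subset_union_left

omit hφ hφ' huv hvu in
lemma okay_facet {T : Ch V} (hT : AntiAt φ u T) {F : Finset V} (hF : F ∈ T.support) :
    Okay φ u v T F :=
  ⟨subset_vert hF, fun x hx y hy hxy => Or.inl ⟨hxy, F, hF, hx, hy⟩, hT F hF⟩

lemma piece_okay {d : ℕ} {T X : Ch V} (hT : AntiAt φ u T) (hadj : Adj T u v)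
    (hd : ∀ F ∈ T.support, F.card = d) (hXb : bd X = 0)
    (hX : X.support ⊆ (cc φ u v T).support) {F : Finset V}
    (hF : F ∈ (piece φ u v T X).support) : Okay φ u v T F ∧ F.card = d := by
  rw [piece_supp hφ hφ' huv hvu hT hadj hXb hX, Finset.mem_union] at hF
  rcases hF with hF | hF
  · have := (mem_TX.mp hF).1
    exact ⟨okay_facet hT this, hd F this⟩
  · obtain ⟨h1, R, hR, hc, -⟩ := HH_supp hφ hφ' huv hvu hT hadj bd_TX_sub
      (cc_bd_TX hφ hφ' huv hvu hT hXb hX) hF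
    refine ⟨h1, ?_⟩
    obtain ⟨F0, hF0, x, hx, rfl⟩ := mem_supp_bd hR
    rw [hc, Finset.card_erase_of_mem hx, hd F0 (mem_TX.mp hF0).1]
    have : 0 < F0.card := Finset.card_pos.mpr ⟨x, hx⟩
    rw [hd F0 (mem_TX.mp hF0).1] at this
    omega

lemma piece_cm_mem {T X : Ch V} (hT : AntiAt φ u T) (hadj : Adj T u v) (hXb : bd X = 0)
    (hX : X.support ⊆ (cc φ u v T).support) {x : V} (hx : x ∈ vert (piece φ u v T X)) :
    cm φ u v x ∈ vert X := by
  obtain ⟨F, hF, hxF⟩ := mem_vert.mp hx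
  have hTX : ∀ F ∈ (TX φ u v T X).support, ∀ x ∈ F, cm φ u v x ∈ vert X := by
    intro F hF x hx
    exact mem_vert.mpr ⟨_, (mem_TX.mp hF).2.1, Finset.mem_image_of_mem _ hx⟩
  rw [piece_supp hφ hφ' huv hvu hT hadj hXb hX, Finset.mem_union] at hF
  rcases hF with hF | hF
  · exact hTX F hF x hxF
  · obtain ⟨-, R, hR, -, h⟩ := HH_supp hφ hφ' huv hvu hT hadj bd_TX_sub
      (cc_bd_TX hφ hφ' huv hvu hT hXb hX) hF
    obtain ⟨F0, hF0, y, hy, rfl⟩ := mem_supp_bd hR
    rcases h with ⟨h1, rfl⟩ | ⟨h1, rfl⟩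
    · rw [Finset.mem_insert] at hxF
      rcases hxF with rfl | hxF
      · rw [cm_u hφ huv hvu, ← cm_v (φ := φ) (u := x) (v := v)]
        exact hTX F0 hF0 v (Finset.mem_of_mem_erase h1)
      · exact hTX F0 hF0 x (Finset.mem_of_mem_erase hxF)
    · rw [Finset.mem_insert] at hxF
      rcases hxF with rfl | hxF
      · rw [cm_phiu hφ huv hvu, ← cm_phiv hφ' (u := u) (v := v)]
        exact hTX F0 hF0 _ (Finset.mem_of_mem_erase h1)
      · exact hTX F0 hF0 x (Finset.mem_of_mem_erase hxF)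

lemma vert_X_sub {T X : Ch V} (hT : AntiAt φ u T)
    (hX : X.support ⊆ (cc φ u v T).support) : vert X ⊆ (vert T).image (cm φ u v) := by
  intro x hx
  obtain ⟨G, hG, hxG⟩ := mem_vert.mp hx
  obtain ⟨F, hF, -, rfl⟩ := mem_supp_cc hφ hφ' huv hvu hT (hX hG)
  obtain ⟨y, hy, rfl⟩ := Finset.mem_image.mp hxG
  exact Finset.mem_image_of_mem _ (subset_vert hF hy)

lemma vert_X_ne {T X : Ch V} (hT : AntiAt φ u T)
    (hX : X.support ⊆ (cc φ u v T).support) {x : V} (hx : x ∈ vert X) : x ≠ v ∧ x ≠ φ v := by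
  obtain ⟨y, -, rfl⟩ := Finset.mem_image.mp (vert_X_sub hφ hφ' huv hvu hT hX hx)
  exact ⟨cm_ne_v hφ huv hvu y, cm_ne_phiv hφ huv hvu y⟩

lemma vert_X_card {T X : Ch V} (hT : AntiAt φ u T) (hadj : Adj T u v)
    (hX : X.support ⊆ (cc φ u v T).support) : (vert X).card < (vert T).card := by
  have h1 : (vert T).image (cm φ u v) = ((vert T).erase v).image (cm φ u v) := by
    ext x
    simp only [Finset.mem_image, Finset.mem_erase]
    constructor
    · rintro ⟨y, hy, rfl⟩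
      by_cases hyv : y = v
      · exact ⟨u, ⟨huv, hadj.left⟩, by rw [hyv, cm_v, cm_u hφ huv hvu]⟩
      · exact ⟨y, ⟨hyv, hy⟩, rfl⟩
    · rintro ⟨y, hy, rfl⟩
      exact ⟨y, hy.2, rfl⟩
  calc (vert X).card ≤ ((vert T).image (cm φ u v)).card :=
        Finset.card_le_card (vert_X_sub hφ hφ' huv hvu hT hX)
    _ = (((vert T).erase v).image (cm φ u v)).card := by rw [h1]
    _ ≤ ((vert T).erase v).card := Finset.card_image_le
    _ < (vert T).card := Finset.card_erase_lt_of_mem hadj.right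

lemma antiAt_X {T X : Ch V} (hT : AntiAt φ u T)
    (hX : X.support ⊆ (cc φ u v T).support) : AntiAt φ u X := by
  intro G hG x hx hx'
  obtain ⟨F, hF, -, rfl⟩ := mem_supp_cc hφ hφ' huv hvu hT (hX hG)
  by_contra hcon
  push Not at hcon
  obtain ⟨hxu, hxu'⟩ := hcon
  have key : ∀ y, y ≠ u → y ≠ φ u → y ∈ F.image (cm φ u v) → y ∈ F := by
    intro y hyu hyu' hy
    obtain ⟨z, hz, rfl⟩ := Finset.mem_image.mp hy
    by_cases h1 : z = v
    · subst h1
      exact absurd cm_v hyu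
    by_cases h2 : z = φ v
    · subst h2
      exact absurd (cm_phiv hφ') hyu'
    · rwa [cm_of_ne h1 h2]
  have h1 := key x hxu hxu' hx
  have h2 := key (φ x) (fun h => hxu' (by rw [← h, hφ])) (fun h => hxu (hφ.injective h)) hx'
  rcases hT F hF x h1 h2 with h | h
  · exact hxu h
  · exact hxu' h

lemma card_X {d : ℕ} {T X : Ch V} (hT : AntiAt φ u T) (hd : ∀ F ∈ T.support, F.card = d)
    (hX : X.support ⊆ (cc φ u v T).support) : ∀ G ∈ X.support, G.card = d := by
  intro G hG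
  obtain ⟨F, hF, hnd, rfl⟩ := mem_supp_cc hφ hφ' huv hvu hT (hX hG)
  rw [hnd, hd F hF]

lemma adj_lift {T X : Ch V} (hT : AntiAt φ u T) (hadj : Adj T u v) (hXb : bd X = 0)
    (hX : X.support ⊆ (cc φ u v T).support) {a b : V} (hab : Adj X a b) :
    ∃ x y, cm φ u v x = a ∧ cm φ u v y = b ∧ Adj (TX φ u v T X) x y := by
  obtain ⟨hne, G, hG, ha, hb⟩ := hab
  have h1 := mem_supp.mp (hX hG)
  obtain ⟨F, hF, hG'⟩ := exists_of_mem_supp (hX hG)
  rw [cc_sg hφ hφ' huv hvu (hT.noBoth hφ hφ' huv hvu hF)] at hG'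
  split_ifs at hG' with hnd
  swap
  · simp at hG'
  rw [mem_supp_sg] at hG'
  rw [hG', Finset.mem_image] at ha hb
  obtain ⟨x, hx, rfl⟩ := ha
  obtain ⟨y, hy, rfl⟩ := hb
  refine ⟨x, y, rfl, rfl, fun h => hne (by rw [h]), F, ?_, hx, hy⟩
  exact mem_TX.mpr ⟨hF, hG' ▸ hG, hnd⟩

/-- the lift of a nonzero cycle contains one of the two contracted edges -/
lemma piece_extra {d : ℕ} {T X : Ch V} (hTm : MinCyc d T) (hT : AntiAt φ u T)
    (hadj : Adj T u v) (hXb : bd X = 0)
    (hX : X.support ⊆ (cc φ u v T).support) (hX0 : X ≠ 0) :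
    ∃ F ∈ (piece φ u v T X).support, (u ∈ F ∧ v ∈ F) ∨ (φ u ∈ F ∧ φ v ∈ F) := by
  by_cases h0 : HH φ u v (bd (TX φ u v T X)) = 0
  · exfalso
    have h1 : bd (TX φ u v T X) = 0 := by
      have := bd_piece hφ hφ' huv hvu hT hXb hX
      rwa [piece, h0, add_zero] at this
    rcases hTm.2.2 (TX φ u v T X) h1 (fun F hF => (mem_TX.mp hF).1) with h | h
    · apply hX0
      rw [← cc_TX hφ hφ' huv hvu hT hX, h, map_zero]
    · obtain ⟨-, F, hF, hu, hv⟩ := hadj
      rw [← h] at hF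
      exact not_nd hφ hφ' huv hvu hu hv (mem_TX.mp hF).2.2
  · obtain ⟨F, hF⟩ := Finsupp.support_nonempty_iff.mpr h0
    refine ⟨F, ?_, HH_part hφ hφ' huv hvu hT hadj hXb hX hF⟩
    rw [piece_supp hφ hφ' huv hvu hT hadj hXb hX]
    exact Finset.mem_union_right _ hF

omit hφ hφ' huv hvu in
lemma piece_zero (T : Ch V) : piece φ u v T 0 = 0 := by
  have : TX φ u v T 0 = 0 := by
    rw [← Finsupp.support_eq_empty, Finset.eq_empty_iff_forall_notMem]
    intro F hF
    have := (mem_TX.mp hF).2.1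
    simp at this
  rw [piece, this, map_zero, map_zero, add_zero]

omit hφ hφ' huv hvu in
lemma piece_add (T : Ch V) {X D : Ch V} (h : Disjoint X.support D.support) :
    piece φ u v T (X + D) = piece φ u v T X + piece φ u v T D := by
  have : TX φ u v T (X + D) = TX φ u v T X + TX φ u v T D := by
    apply ch_ext_supp
    rw [supp_add_disjoint]
    · ext F
      simp only [mem_TX, supp_add_disjoint h, Finset.mem_union]
      tauto
    · rw [Finset.disjoint_left]
      intro F h1 h2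
      exact Finset.disjoint_left.mp h (mem_TX.mp h1).2.1 (mem_TX.mp h2).2.1
  rw [piece, this, map_add, map_add, piece, piece]
  abel

omit hφ hφ' huv hvu in
variable (φ u v) in
/-- the part of `T` not seen by the contraction -/
noncomputable def Trest (T : Ch V) : Ch V := T + TX φ u v T (cc φ u v T)

omit hφ hφ' huv hvu in
lemma Trest_sub {T : Ch V} : (Trest φ u v T).support ⊆ T.support := by
  rw [Trest, supp_add_of_subset (fun F hF => (mem_TX.mp hF).1)]
  exact Finset.sdiff_subset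

lemma cc_Trest {T : Ch V} (hT : AntiAt φ u T) : cc φ u v (Trest φ u v T) = 0 := by
  rw [Trest, map_add, cc_TX hφ hφ' huv hvu hT subset_rfl, add_self_ch]

lemma rest_eq {T : Ch V} (hT : AntiAt φ u T) (hb : bd T = 0) :
    T + piece φ u v T (cc φ u v T) = bd (HH φ u v (Trest φ u v T)) := by
  have h := HH_homotopy hφ hφ' huv hvu (Trest φ u v T)
  rw [cc_Trest hφ hφ' huv hvu hT, add_zero] at h
  have h2 : bd (Trest φ u v T) = bd (TX φ u v T (cc φ u v T)) := by
    rw [Trest, map_add, hb, zero_add]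
  rw [h2] at h
  have h3 : T + piece φ u v T (cc φ u v T) =
      Trest φ u v T + HH φ u v (bd (TX φ u v T (cc φ u v T))) := by
    rw [piece, Trest, add_assoc]
  calc T + piece φ u v T (cc φ u v T)
      = Trest φ u v T + HH φ u v (bd (TX φ u v T (cc φ u v T))) := h3
    _ = (bd (HH φ u v (Trest φ u v T)) + HH φ u v (bd (TX φ u v T (cc φ u v T))))
          + HH φ u v (bd (TX φ u v T (cc φ u v T))) := by rw [h]
    _ = _ := by rw [add_assoc, add_self_ch, add_zero]

lemma rest_okay {d : ℕ} {T : Ch V} (hT : AntiAt φ u T) (hadj : Adj T u v)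
    (hd : ∀ F ∈ T.support, F.card = d) {F : Finset V}
    (hF : F ∈ (HH φ u v (Trest φ u v T)).support) :
    Okay φ u v T F ∧ F.card = d + 1 := by
  obtain ⟨h1, R, hR, hc, -⟩ := HH_supp hφ hφ' huv hvu hT hadj
    (fun R hR => ⟨R, Trest_sub hR, subset_rfl⟩) (cc_Trest hφ hφ' huv hvu hT) hF
  exact ⟨h1, by rw [hc, hd R (Trest_sub hR)]⟩

/-- number of paired vertices drops by at most two -/
lemma pr_drop {T X : Ch V} (hT : AntiAt φ u T) (hadj : Adj T u v) (hXb : bd X = 0)
    (hX : X.support ⊆ (cc φ u v T).support) :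
    (pr φ (vert (piece φ u v T X))).card ≤ (pr φ (vert X)).card + 2 := by
  have hsub : pr φ (vert (piece φ u v T X)) ⊆ pr φ (vert X) ∪ {v, φ v} := by
    intro x hx
    rw [mem_pr] at hx
    rw [Finset.mem_union]
    by_cases h1 : x = v
    · right; simp [h1]
    by_cases h2 : x = φ v
    · right; simp [h2]
    left
    rw [mem_pr]
    have e1 := piece_cm_mem hφ hφ' huv hvu hT hadj hXb hX hx.1
    have e2 := piece_cm_mem hφ hφ' huv hvu hT hadj hXb hX hx.2
    rw [cm_of_ne h1 h2] at e1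
    rw [cm_of_ne (fun h => h2 (by rw [← h, hφ])) (fun h => h1 (hφ.injective h))] at e2
    exact ⟨e1, e2⟩
  calc _ ≤ (pr φ (vert X) ∪ {v, φ v}).card := Finset.card_le_card hsub
    _ ≤ (pr φ (vert X)).card + ({v, φ v} : Finset V).card := Finset.card_union_le _ _
    _ ≤ _ := by
      have := Finset.card_le_two (a := v) (b := φ v)
      omega

end piece

end Pool.Agent.CSLBT
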