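import Pool.Agent.CSLBT.Split

set_option linter.unusedSectionVars false
set_option linter.unusedVariables false

namespace Pool.Agent.CSLBT

open Filter Matrix

section rigid

variable {V : Type*} [Fintype V] [DecidableEq V] {d : ℕ} {φ : V → V}

/-- common neighbours coming from a facet containing an edge -/
lemma getW (hφ : Function.Involutive φ) (hφ' : ∀ x, φ x ≠ x) {u v : V} (huv : u ≠ v)
    (hvu : v ≠ φ u) (hd3 : 3 ≤ d) {P : Ch V} (hP : bd P = 0) (hd : ∀ F ∈ P.support, F.card = d)
    (hanti : AntiAt φ u P) {F : Finset V} (hF : F ∈ P.support) (hu : u ∈ F) (hv : v ∈ F) :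
    ∃ W : Finset V, W.card + 1 = d ∧ u ∉ W ∧ v ∉ W ∧ φ v ∉ W ∧ (∃ z, OneAnti φ z (insert u W)) ∧
      ∀ w ∈ W, ∃ F' ∈ P.support, u ∈ F' ∧ v ∈ F' ∧ w ∈ F' := by
  have hvF : v ∈ F.erase u := Finset.mem_erase.mpr ⟨huv.symm, hv⟩
  set R := (F.erase u).erase v with hR
  have hRc : R.card + 2 = d := by
    rw [hR, Finset.card_erase_of_mem hvF, Finset.card_erase_of_mem hu, hd F hF]
    omega
  have hRF : R ⊆ F := (Finset.erase_subset _ _).trans (Finset.erase_subset _ _)
  have huR : u ∉ R := by simp [hR]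
  have hvR : v ∉ R := by simp [hR]
  have hFR : ∀ x ∈ F, x = u ∨ x = v ∨ x ∈ R := by
    intro x hx
    by_cases h1 : x = u
    · left; exact h1
    by_cases h2 : x = v
    · right; left; exact h2
    right; right
    exact Finset.mem_erase.mpr ⟨h2, Finset.mem_erase.mpr ⟨h1, hx⟩⟩
  have hvF' : φ v ∉ F := fun h => (hanti F hF).noBoth hφ hφ' huv hvu ⟨hv, h⟩
  -- choose the vertex to be exchanged
  have main : ∀ w0 ∈ R, (φ u ∈ F → w0 = φ u) →
      ∃ W : Finset V, W.card + 1 = d ∧ u ∉ W ∧ v ∉ W ∧ φ v ∉ W ∧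
      (∃ z, OneAnti φ z (insert u W)) ∧
      ∀ w ∈ W, ∃ F' ∈ P.support, u ∈ F' ∧ v ∈ F' ∧ w ∈ F' := by
    intro w0 hw0 hw0u
    obtain ⟨z, hzF, hF'⟩ := exists_cross hP hF (hRF hw0)
    set F' := insert z (F.erase w0) with hF'def
    have hzR : z ∉ R := fun h => hzF (hRF h)
    have huF' : u ∈ F' := Finset.mem_insert_of_mem (Finset.mem_erase.mpr
      ⟨fun h => huR (h ▸ hw0), hu⟩)
    have hvF'' : v ∈ F' := Finset.mem_insert_of_mem (Finset.mem_erase.mpr
      ⟨fun h => hvR (h ▸ hw0), hv⟩)
    have hzF' : z ∈ F' := Finset.mem_insert_self _ _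
    refine ⟨insert z R, ?_, ?_, ?_, ?_, ?_, ?_⟩
    · rw [Finset.card_insert_of_notMem hzR]; omega
    · rw [Finset.mem_insert]
      rintro (h | h)
      · exact hzF (h ▸ hu)
      · exact huR h
    · rw [Finset.mem_insert]
      rintro (h | h)
      · exact hzF (h ▸ hv)
      · exact hvR h
    · rw [Finset.mem_insert]
      rintro (h | h)
      · exact (hanti F' hF').noBoth hφ hφ' huv hvu ⟨hvF'', by rw [h]; exact hzF'⟩
      · exact hvF' (hRF h)
    · -- at most one antipodal pair
      by_cases hφu : φ u ∈ F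
      · have hw0' := hw0u hφu
        refine ⟨u, ?_⟩
        intro x hx hx'
        rw [Finset.mem_insert, Finset.mem_insert] at hx hx'
        by_contra hcon
        push Not at hcon
        obtain ⟨hxu, hxu'⟩ := hcon
        have hxF' : x ∈ F' := by
          rcases hx with h | h | h
          · exact absurd h hxu
          · rw [h]; exact hzF'
          · exact Finset.mem_insert_of_mem (Finset.mem_erase.mpr
              ⟨fun h' => hxu' (by rw [h', hw0']), hRF h⟩)
        have hφxF' : φ x ∈ F' := by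
          rcases hx' with h | h | h
          · exact absurd (by rw [← h, hφ]) hxu'
          · rw [h]; exact hzF'
          · exact Finset.mem_insert_of_mem (Finset.mem_erase.mpr
              ⟨fun h' => hxu (hφ.injective (by rw [h', hw0'])), hRF h⟩)
        rcases hanti F' hF' x hxF' hφxF' with h | h
        · exact hxu h
        · exact hxu' h
      · have hno : ∀ x ∈ F, φ x ∉ F := by
          intro x hx hx'
          rcases hanti F hF x hx hx' with h | h
          · rw [h] at hx'; exact hφu hx'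
          · rw [h] at hx; exact hφu hx
        refine ⟨z, ?_⟩
        intro x hx hx'
        rw [Finset.mem_insert, Finset.mem_insert] at hx hx'
        by_contra hcon
        push Not at hcon
        obtain ⟨hxz, hxz'⟩ := hcon
        have hxF : x ∈ F := by
          rcases hx with h | h | h
          · rw [h]; exact hu
          · exact absurd h hxz
          · exact hRF h
        have hφxF : φ x ∈ F := by
          rcases hx' with h | h | h
          · rw [h]; exact hu
          · exact absurd (by rw [← h, hφ]) hxz'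
          · exact hRF h
        exact hno x hxF hφxF
    · intro w hw
      rw [Finset.mem_insert] at hw
      rcases hw with h | h
      · exact ⟨F', hF', huF', hvF'', h ▸ hzF'⟩
      · exact ⟨F, hF, hu, hv, hRF h⟩
  by_cases hφu : φ u ∈ F
  · have : φ u ∈ R := by
      rcases hFR _ hφu with h | h | h
      · exact absurd h (hφ' u)
      · exact absurd h.symm hvu
      · exact h
    exact main (φ u) this (fun _ => rfl)
  · obtain ⟨w0, hw0⟩ : R.Nonempty := Finset.card_pos.mp (by omega)
    exact main w0 hw0 (fun h => absurd h hφu)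

lemma choose1 (hφ : Function.Involutive φ) (hφ' : ∀ x, φ x ≠ x) (hd3 : 3 ≤ d) {T : Ch V}
    {u0 : V} (hT : MinCyc d T) (hanti : AntiAt φ u0 T) (hpr : (pr φ (vert T)).card < 2 * d) :
    ∃ u v, AntiAt φ u T ∧ Adj T u v ∧ v ≠ φ u ∧ φ v ∉ vert T := by
  have hex : ∀ F ∈ T.support, NoAnti φ F → ∃ v ∈ F, φ v ∉ vert T := by
    intro F hF hn
    by_contra hcon
    push Not at hcon
    have := noAnti_card (X := pr φ (vert T)) hφ hn
      (fun x hx => mem_pr.mpr ⟨subset_vert hF hx, hcon x hx⟩)
      (fun x hx => mem_pr.mpr ⟨hcon x hx, by rw [hφ]; exact subset_vert hF hx⟩)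
    rw [hT.cyc.2 F hF] at this
    omega
  by_cases hA : ∃ F ∈ T.support, u0 ∈ F ∧ φ u0 ∈ F
  · obtain ⟨F, hF, hu, hu'⟩ := hA
    obtain ⟨z, hz, hF1⟩ := exists_cross hT.cyc.1 hF hu'
    set F1 := insert z (F.erase (φ u0))
    have hu1 : φ u0 ∉ F1 := by
      rw [Finset.mem_insert]
      rintro (h | h)
      · exact hz (h ▸ hu')
      · simp at h
    have hu2 : u0 ∈ F1 := Finset.mem_insert_of_mem (Finset.mem_erase.mpr ⟨(hφ' u0).symm, hu⟩)
    have hn : NoAnti φ F1 := by
      intro x hx hx'
      rcases hanti F1 hF1 x hx hx' with h | h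
      · rw [h] at hx'; exact hu1 hx'
      · rw [h] at hx; exact hu1 hx
    obtain ⟨v, hv, hv'⟩ := hex F1 hF1 hn
    have hvu : v ≠ u0 := by
      rintro rfl
      exact hv' (subset_vert hF hu')
    refine ⟨u0, v, hanti, ⟨hvu.symm, F1, hF1, hu2, hv⟩, ?_, hv'⟩
    rintro rfl
    exact hu1 hv
  · push Not at hA
    have hno : ∀ F ∈ T.support, NoAnti φ F := by
      intro F hF x hx hx'
      rcases hanti F hF x hx hx' with h | h
      · rw [h] at hx hx'; exact hA F hF hx hx'
      · rw [h] at hx hx'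
        rw [hφ] at hx'
        exact hA F hF hx' hx
    obtain ⟨F, hF⟩ := hT.nonempty
    obtain ⟨v, hv, hv'⟩ := hex F hF (hno F hF)
    obtain ⟨u, hu⟩ : (F.erase v).Nonempty := Finset.card_pos.mp (by
      rw [Finset.card_erase_of_mem hv, hT.cyc.2 F hF]; omega)
    rw [Finset.mem_erase] at hu
    refine ⟨u, v, fun F hF x hx hx' => absurd hx' (hno F hF x hx), ⟨hu.1, F, hF, hu.2, hv⟩, ?_, hv'⟩
    rintro rfl
    exact hno F hF u hu.2 hv

lemma choose2 (hφ : Function.Involutive φ) (hφ' : ∀ x, φ x ≠ x) (hd3 : 3 ≤ d) {T : Ch V}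
    {u0 : V} (hT : MinCyc d T) (hanti : AntiAt φ u0 T) :
    ∃ u v, AntiAt φ u T ∧ Adj T u v ∧ v ≠ φ u := by
  by_cases hA : ∃ F ∈ T.support, u0 ∈ F ∧ φ u0 ∈ F
  · obtain ⟨F, hF, hu, hu'⟩ := hA
    have hu'' : φ u0 ∈ F.erase u0 := Finset.mem_erase.mpr ⟨hφ' u0, hu'⟩
    obtain ⟨v, hv⟩ : ((F.erase u0).erase (φ u0)).Nonempty := Finset.card_pos.mp (by
      rw [Finset.card_erase_of_mem hu'', Finset.card_erase_of_mem hu, hT.cyc.2 F hF]; omega)
    rw [Finset.mem_erase, Finset.mem_erase] at hv
    exact ⟨u0, v, hanti, ⟨hv.2.1.symm, F, hF, hu, hv.2.2⟩, hv.1⟩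
  · push Not at hA
    have hno : ∀ F ∈ T.support, NoAnti φ F := by
      intro F hF x hx hx'
      rcases hanti F hF x hx hx' with h | h
      · rw [h] at hx hx'; exact hA F hF hx hx'
      · rw [h] at hx hx'
        rw [hφ] at hx'
        exact hA F hF hx' hx
    obtain ⟨F, hF⟩ := hT.nonempty
    obtain ⟨v, hv⟩ : F.Nonempty := Finset.card_pos.mp (by rw [hT.cyc.2 F hF]; omega)
    obtain ⟨u, hu⟩ : (F.erase v).Nonempty := Finset.card_pos.mp (by
      rw [Finset.card_erase_of_mem hv, hT.cyc.2 F hF]; omega)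
    rw [Finset.mem_erase] at hu
    refine ⟨u, v, fun F hF x hx hx' => absurd hx' (hno F hF x hx), ⟨hu.1, F, hF, hu.2, hv⟩, ?_⟩
    rintro rfl
    exact hno F hF u hu.2 hv

lemma ell_self (f q : Fld V d) (x : V) : ell φ f q x x = 0 := by simp [ell]

lemma okay_sat_M {f q : Fld V d} {T : Ch V} {u v : V} (hv : φ v ∉ vert T)
    (hE : Sat φ f q (Adj T)) (hB : Bars φ f q (vert T)) {F : Finset V}
    (hF : Okay φ u v T F) : ∀ x ∈ F, ∀ y ∈ F, ell φ f q x y = 0 := by
  intro x hx y hy
  by_cases hxy : x = y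
  · rw [hxy]; exact ell_self f q y
  rcases hF.2.1 x hx y hy hxy with h | h | ⟨-, h⟩ | ⟨h, -⟩
  · exact hE x y h
  · rw [h]
    exact hB x (hF.1 hx) (h ▸ hF.1 hy)
  · exact absurd (h ▸ hF.1 hy) hv
  · exact absurd (h ▸ hF.1 hx) hv

lemma okay_sat_A (hφ : Function.Involutive φ) {f q : Fld V d} {T : Ch V} {u v : V}
    (hadj : Adj T u v)
    (hE : Sat φ f q (Adj T)) (hq : Sym φ q) {F : Finset V}
    (hF : Okay φ u v T F) : ∀ x ∈ F, ∀ y ∈ F, ell φ f q x y = 0 := by
  intro x hx y hy
  by_cases hxy : x = y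
  · rw [hxy]; exact ell_self f q y
  rcases hF.2.1 x hx y hy hxy with h | h | ⟨h, h'⟩ | ⟨h, h'⟩
  · exact hE x y h
  · rw [h]
    exact ell_self_anti φ f q hq x
  · rw [h, h', ell_anti φ hφ f q hq, hE u v hadj, neg_zero]
  · rw [h, h', ell_anti φ hφ f q hq, ell_comm, hE u v hadj, neg_zero]

/-- assembling the pieces of the decomposition -/
lemma assemble (hφ : Function.Involutive φ) (hφ' : ∀ x, φ x ≠ x) (hd3 : 3 ≤ d)
    {f q : Fld V d} (hf : GP φ f) {T : Ch V} (hT : MinCyc d T) {u v : V} (hvu : v ≠ φ u)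
    (hanti : AntiAt φ u T) (hadj : Adj T u v)
    (hokay : ∀ F : Finset V, Okay φ u v T F → ∀ x ∈ F, ∀ y ∈ F, ell φ f q x y = 0)
    (hsmall : ∀ S : Ch V, MinCyc d S → AntiAt φ u S → vert S ⊂ vert T →
      Sat φ f q (Adj S) → RigidOn φ f (vert S) q)
    (hbig : ∀ D : Ch V, MinCyc d D → D.support ⊆ (cc φ u v T).support →
      vert (piece φ u v T D) = vert T → RigidOn φ f (vert (piece φ u v T D)) q) :
    RigidOn φ f (vert T) q := by
  classical
  have huv := hadj.1
  have hcard := hT.cyc.2
  let 𝒮 : Set (Ch V) := {Q | bd Q = 0 ∧ RigidOn φ f (vert Q) q ∧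
      ∀ F ∈ Q.support, AffInd φ f F ∧ F.card = d}
  refine glue (by omega) hT 𝒮 (fun Q hQ => hQ) ?_
  -- simplices
  have h1 : bd (HH φ u v (Trest φ u v T)) ∈ Submodule.span (ZMod 2) 𝒮 := by
    rw [ch_eq_sum (HH φ u v (Trest φ u v T)), map_sum]
    refine Submodule.sum_mem _ fun σ hσ => Submodule.subset_span ?_
    obtain ⟨hok, hσc⟩ := rest_okay hφ hφ' huv hvu hanti hadj hcard hσ
    have hvs : vert (bd (sg σ)) ⊆ σ := by
      intro x hx
      obtain ⟨F, hF, hxF⟩ := mem_vert.mp hx
      obtain ⟨G, hG, y, hy, rfl⟩ := mem_supp_bd hF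
      rw [mem_supp_sg] at hG
      rw [← hG]
      exact Finset.mem_of_mem_erase hxF
    refine ⟨bd_bd _, ?_, ?_⟩
    · exact ((hf.oneAnti φ hφ hφ' hok.2.2 (by omega)).rigid φ q (hokay σ hok)).mono φ hvs
    · intro F hF
      obtain ⟨G, hG, y, hy, rfl⟩ := mem_supp_bd hF
      rw [mem_supp_sg] at hG
      subst hG
      refine ⟨hf.oneAnti φ hφ hφ' (hok.2.2.mono (Finset.erase_subset _ _)) ?_, ?_⟩
      · rw [Finset.card_erase_of_mem hy]; omega
      · rw [Finset.card_erase_of_mem hy]; omega
  -- lifts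
  have hcyc : IsCyc d (cc φ u v T) :=
    ⟨by rw [← bd_cc hφ hφ' huv hvu, hT.cyc.1, map_zero],
      card_X hφ hφ' huv hvu hanti hcard subset_rfl⟩
  have h2 : piece φ u v T (cc φ u v T) ∈ Submodule.span (ZMod 2) 𝒮 := by
    refine cyc_induction hcyc (fun X => piece φ u v T X ∈ Submodule.span (ZMod 2) 𝒮) ?_ ?_
    · rw [piece_zero]; exact Submodule.zero_mem _
    · intro X D _ hD _ hDs hdis hX
      rw [piece_add T hdis]
      refine Submodule.add_mem _ hX ?_
      have hPb := bd_piece hφ hφ' huv hvu hanti hD.cyc.1 hDs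
      have hPok := fun F hF => piece_okay (F := F) hφ hφ' huv hvu hanti hadj hcard hD.cyc.1 hDs hF
      have hPv : vert (piece φ u v T D) ⊆ vert T := by
        intro x hx
        obtain ⟨F, hF, hxF⟩ := mem_vert.mp hx
        exact (hPok F hF).1.1 hxF
      have haff : ∀ F ∈ (piece φ u v T D).support, AffInd φ f F ∧ F.card = d := by
        intro F hF
        obtain ⟨h1, h2⟩ := hPok F hF
        exact ⟨hf.oneAnti φ hφ hφ' h1.2.2 (by omega), h2⟩
      by_cases hv : vert (piece φ u v T D) = vert T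
      · exact Submodule.subset_span ⟨hPb, hbig D hD hDs hv, haff⟩
      · have hss : vert (piece φ u v T D) ⊂ vert T := Finset.ssubset_iff_subset_ne.mpr ⟨hPv, hv⟩
        have hPc : IsCyc d (piece φ u v T D) := ⟨hPb, fun F hF => (hPok F hF).2⟩
        refine Submodule.span_le.mpr ?_ (mem_span_min hPc)
        rintro S ⟨hS, hSs⟩
        refine Submodule.subset_span ⟨hS.cyc.1, ?_, fun F hF => haff F (hSs hF)⟩
        refine hsmall S hS ?_ (lt_of_le_of_lt (vert_mono hSs) hss) ?_
        · intro F hF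
          exact (hPok F (hSs hF)).1.2.2
        · rintro x y ⟨-, F, hF, hx, hy⟩
          exact hokay F (hPok F (hSs hF)).1 x hx y hy
  have h3 := rest_eq hφ hφ' huv hvu hanti hT.cyc.1
  have h4 : T = bd (HH φ u v (Trest φ u v T)) + piece φ u v T (cc φ u v T) := by
    rw [← h3, add_assoc, add_self_ch, add_zero]
  rw [h4]
  exact Submodule.add_mem _ h1 h2

lemma pr_mono {X Y : Finset V} (h : X ⊆ Y) : pr φ X ⊆ pr φ Y := by
  intro x hx
  rw [mem_pr] at hx ⊢
  exact ⟨h hx.1, h hx.2⟩

instance : Finite (Ch V) := by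
  unfold Ch
  infer_instance

/-- Main rigidity theorem. -/
theorem rigid_main (hφ : Function.Involutive φ) (hφ' : ∀ x, φ x ≠ x) (hd3 : 3 ≤ d) (n : ℕ) :
    ∀ (T : Ch V) (u : V), MinCyc d T → AntiAt φ u T → (vert T).card = n →
      ((pr φ (vert T)).card < 2 * d → ∀ᶠ f in genF (Fld V d), RigM φ f (Adj T) (vert T)) ∧
      (2 * d ≤ (pr φ (vert T)).card → ∀ᶠ f in genF (Fld V d), RigA φ f (Adj T) (vert T)) := by
  induction n using Nat.strong_induction_on with
  | _ n ih =>
  intro T u0 hT hanti0 hn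
  have hIHM : ∀ᶠ f in genF (Fld V d), ∀ (S : Ch V) (u : V), MinCyc d S → AntiAt φ u S →
      (vert S).card < n → (pr φ (vert S)).card < 2 * d → RigM φ f (Adj S) (vert S) := by
    rw [eventually_all]
    intro S
    rw [eventually_all]
    intro u
    by_cases h : MinCyc d S ∧ AntiAt φ u S ∧ (vert S).card < n ∧ (pr φ (vert S)).card < 2 * d
    · filter_upwards [(ih _ h.2.2.1 S u h.1 h.2.1 rfl).1 h.2.2.2] with f hf _ _ _ _ using hf
    · filter_upwards with f h1 h2 h3 h4 using absurd ⟨h1, h2, h3, h4⟩ h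
  have hIHA : ∀ᶠ f in genF (Fld V d), ∀ (S : Ch V) (u : V), MinCyc d S → AntiAt φ u S →
      (vert S).card < n → 2 * d ≤ (pr φ (vert S)).card → RigA φ f (Adj S) (vert S) := by
    rw [eventually_all]
    intro S
    rw [eventually_all]
    intro u
    by_cases h : MinCyc d S ∧ AntiAt φ u S ∧ (vert S).card < n ∧ 2 * d ≤ (pr φ (vert S)).card
    · filter_upwards [(ih _ h.2.2.1 S u h.1 h.2.1 rfl).2 h.2.2.2] with f hf _ _ _ _ using hf
    · filter_upwards with f h1 h2 h3 h4 using absurd ⟨h1, h2, h3, h4⟩ h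
  have hcard := hT.cyc.2
  constructor
  · -- few antipodal pairs
    intro hpr
    obtain ⟨u, v, hanti, hadj, hvu, hvT⟩ := choose1 hφ hφ' hd3 hT hanti0 hpr
    have huv := hadj.1
    have hVS : ∀ᶠ f in genF (Fld V d), ∀ D : Ch V, MinCyc d D →
        D.support ⊆ (cc φ u v T).support → vert (piece φ u v T D) = vert T →
        RigM φ f (Adj (piece φ u v T D)) (vert T) := by
      rw [eventually_all]
      intro D
      by_cases h : MinCyc d D ∧ D.support ⊆ (cc φ u v T).support ∧
        vert (piece φ u v T D) = vert T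
      swap
      · filter_upwards with f h1 h2 h3 using absurd ⟨h1, h2, h3⟩ h
      obtain ⟨hD, hDs, hv⟩ := h
      set P := piece φ u v T D with hPdef
      have hDb := hD.cyc.1
      have hPok := fun F hF => piece_okay (F := F) hφ hφ' huv hvu hanti hadj hcard hDb hDs hF
      have hPb := bd_piece hφ hφ' huv hvu hanti hDb hDs
      have hPanti : AntiAt φ u P := fun F hF => (hPok F hF).1.2.2
      have hDv : ∀ x ∈ vert D, x ≠ v ∧ x ≠ φ v :=
        fun x hx => vert_X_ne hφ hφ' huv hvu hanti hDs hx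
      have hcmP : ∀ x ∈ vert P, cm φ u v x ∈ vert D :=
        fun x hx => piece_cm_mem hφ hφ' huv hvu hanti hadj hDb hDs hx
      have hDu : u ∈ vert D := by
        have := hcmP u (by rw [hv]; exact hadj.left)
        rwa [cm_u hφ huv hvu] at this
      have hDT : ∀ x ∈ vert D, x ∈ vert T := by
        intro x hx
        obtain ⟨y, hy, rfl⟩ := Finset.mem_image.mp (vert_X_sub hφ hφ' huv hvu hanti hDs hx)
        by_cases h1 : y = v
        · rw [h1, cm_v]; exact hadj.left
        by_cases h2 : y = φ v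
        · exact absurd (h2 ▸ hy) hvT
        rw [cm_of_ne h1 h2]; exact hy
      have hTX : vert T = insert v (vert D) := by
        ext x
        rw [Finset.mem_insert]
        constructor
        · intro hx
          by_cases h1 : x = v
          · left; exact h1
          right
          have h2 : x ≠ φ v := fun h => hvT (h ▸ hx)
          have := hcmP x (by rw [hv]; exact hx)
          rwa [cm_of_ne h1 h2] at this
        · rintro (h | h)
          · rw [h]; exact hadj.right
          · exact hDT x h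
      have hprD : (pr φ (vert D)).card < 2 * d :=
        lt_of_le_of_lt (Finset.card_le_card (pr_mono hDT)) hpr
      have hDn : (vert D).card < n := by
        rw [← hn]; exact vert_X_card hφ hφ' huv hvu hanti hadj hDs
      have hDr := (ih _ hDn D u hD (antiAt_X hφ hφ' huv hvu hanti hDs) rfl).1 hprD
      -- a facet containing u, v
      obtain ⟨F, hF, hFuv⟩ := piece_extra hφ hφ' huv hvu hT hanti hadj hDb hDs hD.1
      have hFuv' : u ∈ F ∧ v ∈ F := by
        rcases hFuv with h | h
        · exact h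
        · exact absurd ((hPok F hF).1.1 h.2) hvT
      obtain ⟨W, hWc, huW, hvW, hvW', hone, hW⟩ := getW hφ hφ' huv hvu hd3 hPb
        (fun F hF => (hPok F hF).2) hPanti hF hFuv'.1 hFuv'.2
      obtain ⟨z, hz, hF1⟩ := exists_cross hPb hF hFuv'.2
      set F1 := insert z (F.erase v) with hF1def
      have hvF1 : v ∉ F1 := by
        rw [hF1def, Finset.mem_insert]
        rintro (h | h)
        · exact hz (h ▸ hFuv'.2)
        · simp at h
      have hF1c := (hPok F1 hF1).2
      have key := vsM (φ := φ) (d := d) (u := u) (v := v) hDv hDu hDr (Adj P) ?_ ?_ ?_ hWc huW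
        hvW hvW' hone ?_ ?_ (F0 := F1) ?_ hF1c (Finset.card_pos.mp (by omega)) ?_ ?_ hφ hφ' huv hvu
      · rw [← hTX] at key
        filter_upwards [key] with f hf _ _ _ using hf
      · intro x y hxy
        rw [← hTX, ← hv]
        exact ⟨hxy.left, hxy.right⟩
      · intro a b hab
        obtain ⟨x, y, h1, h2, h3⟩ := adj_lift hφ hφ' huv hvu hanti hadj hDb hDs hab
        exact ⟨x, y, h1, h2, h3.mono (TX_sub_piece hφ hφ' huv hvu hanti hadj hDb hDs)⟩
      · exact ⟨huv, F, hF, hFuv'.1, hFuv'.2⟩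
      · intro w hw
        obtain ⟨F', hF', h1, h2, h3⟩ := hW w hw
        left
        exact ⟨fun h => huW (h ▸ hw), F', hF', h1, h3⟩
      · intro w hw
        obtain ⟨F', hF', h1, h2, h3⟩ := hW w hw
        exact ⟨fun h => hvW (h ▸ hw), F', hF', h2, h3⟩
      · intro x hx
        have h1 : x ∈ vert P := subset_vert hF1 hx
        have h2 := hcmP x h1
        have e1 : x ≠ v := by
          rintro rfl
          exact hvF1 hx
        have e2 : x ≠ φ v := by
          rintro rfl
          apply hvT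
          rw [← hv]
          exact h1
        rwa [cm_of_ne e1 e2] at h2
      · exact ⟨u, (hPok F1 hF1).1.2.2⟩
      · intro x hx y hy hxy
        left
        exact ⟨hxy, F1, hF1, hx, hy⟩
    filter_upwards [hIHM, hVS, gp_eventually (d := d) φ] with f hf1 hf2 hgp q hE hB
    have hokay : ∀ F : Finset V, Okay φ u v T F → ∀ x ∈ F, ∀ y ∈ F, ell φ f q x y = 0 :=
      fun F hF => okay_sat_M hvT hE hB hF
    refine assemble hφ hφ' hd3 hgp hT hvu hanti hadj hokay ?_ ?_
    · intro S hS hSa hSv hSE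
      have hSv' : vert S ⊆ vert T := hSv.1
      refine hf1 S u hS hSa (by rw [← hn]; exact Finset.card_lt_card hSv)
        (lt_of_le_of_lt (Finset.card_le_card (pr_mono hSv')) hpr) q hSE ?_
      intro x hx hx'
      exact hB x (hSv' hx) (hSv' hx')
    · intro D hD hDs hv
      have hPok := fun F hF => piece_okay (F := F) hφ hφ' huv hvu hanti hadj hcard hD.cyc.1 hDs hF
      rw [hv]
      refine hf2 D hD hDs hv q ?_ hB
      rintro x y ⟨-, F, hF, hx, hy⟩
      exact hokay F (hPok F hF).1 x hx y hy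
  · -- many antipodal pairs
    intro hpr
    obtain ⟨u, v, hanti, hadj, hvu⟩ := choose2 hφ hφ' hd3 hT hanti0
    have huv := hadj.1
    have hVS : ∀ᶠ f in genF (Fld V d), ∀ D : Ch V, MinCyc d D →
        D.support ⊆ (cc φ u v T).support → vert (piece φ u v T D) = vert T →
        ∀ q : Fld V d, Sym φ q → Sat φ f q (Adj (piece φ u v T D)) →
        ∀ x ∈ vert T, ∀ y ∈ vert T, q x = q y := by
      rw [eventually_all]
      intro D
      by_cases h : MinCyc d D ∧ D.support ⊆ (cc φ u v T).support ∧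
        vert (piece φ u v T D) = vert T
      swap
      · filter_upwards with f h1 h2 h3 using absurd ⟨h1, h2, h3⟩ h
      obtain ⟨hD, hDs, hv⟩ := h
      set P := piece φ u v T D with hPdef
      have hDb := hD.cyc.1
      have hPok := fun F hF => piece_okay (F := F) hφ hφ' huv hvu hanti hadj hcard hDb hDs hF
      have hPb := bd_piece hφ hφ' huv hvu hanti hDb hDs
      have hPanti : AntiAt φ u P := fun F hF => (hPok F hF).1.2.2
      have hDv : ∀ x ∈ vert D, x ≠ v ∧ x ≠ φ v :=
        fun x hx => vert_X_ne hφ hφ' huv hvu hanti hDs hx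
      have hcmP : ∀ x ∈ vert P, cm φ u v x ∈ vert D :=
        fun x hx => piece_cm_mem hφ hφ' huv hvu hanti hadj hDb hDs hx
      have hprD : 2 * d ≤ (pr φ (vert D)).card + 2 := by
        have := pr_drop hφ hφ' huv hvu hanti hadj hDb hDs
        rw [← hPdef, hv] at this
        omega
      have hDn : (vert D).card < n := by
        rw [← hn]; exact vert_X_card hφ hφ' huv hvu hanti hadj hDs
      have hDanti := antiAt_X hφ hφ' huv hvu hanti hDs
      have hDr : ∀ᶠ f in genF (Fld V d), RigS φ f (Adj D) (vert D) := by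
        by_cases h : (pr φ (vert D)).card < 2 * d
        · filter_upwards [(ih _ hDn D u hD hDanti rfl).1 h] with f hf using hf.rigS
        · filter_upwards [(ih _ hDn D u hD hDanti rfl).2 (not_lt.mp h)] with f hf using hf.rigS
      let E : V → V → Prop := fun x y => Adj P x y ∨ Adj P (φ x) (φ y)
      have hEX : ∀ x y, E x y → (cm φ u v x ∈ vert D ∨ cm φ u v (φ x) ∈ vert D) ∧
          (cm φ u v y ∈ vert D ∨ cm φ u v (φ y) ∈ vert D) := by
        rintro x y (h | h)
        · exact ⟨Or.inl (hcmP x h.left), Or.inl (hcmP y h.right)⟩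
        · exact ⟨Or.inr (hcmP _ h.left), Or.inr (hcmP _ h.right)⟩
      have hlift : ∀ a b, Adj D a b → ∃ x y, cm φ u v x = a ∧ cm φ u v y = b ∧ E x y := by
        intro a b hab
        obtain ⟨x, y, h1, h2, h3⟩ := adj_lift hφ hφ' huv hvu hanti hadj hDb hDs hab
        exact ⟨x, y, h1, h2, Or.inl (h3.mono (TX_sub_piece hφ hφ' huv hvu hanti hadj hDb hDs))⟩
      have hfin : (∀ᶠ f in genF (Fld V d), ∀ q : Fld V d, Sym φ q → Sat φ f q E →
          ∀ x y, cm φ u v x ∈ vert D → cm φ u v y ∈ vert D → q x = q y) := by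
        obtain ⟨F, hF, hFuv⟩ := piece_extra hφ hφ' huv hvu hT hanti hadj hDb hDs hD.1
        rcases hFuv with hFuv' | hFuv'
        · obtain ⟨W, hWc, huW, hvW, hvW', hone, hW⟩ := getW hφ hφ' huv hvu hd3 hPb
            (fun F hF => (hPok F hF).2) hPanti hF hFuv'.1 hFuv'.2
          refine vsA hDv hDr hprD E hEX hlift ?_ hWc huW hvW hvW' hone ?_ ?_ hφ hφ' huv hvu
          · left; exact ⟨huv, F, hF, hFuv'.1, hFuv'.2⟩
          · intro w hw
            obtain ⟨F', hF', h1, h2, h3⟩ := hW w hw
            left; left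
            exact ⟨fun h => huW (h ▸ hw), F', hF', h1, h3⟩
          · intro w hw
            obtain ⟨F', hF', h1, h2, h3⟩ := hW w hw
            left
            exact ⟨fun h => hvW (h ▸ hw), F', hF', h2, h3⟩
        · have hcm : cm φ (φ u) (φ v) = cm φ u v := funext (cm_symm hφ hφ')
          obtain ⟨W, hWc, huW, hvW, hvW', hone, hW⟩ := getW hφ hφ' (phi_ne hφ huv)
            (phi_ne hφ hvu) hd3 hPb
            (fun F hF => (hPok F hF).2) (hPanti.flip hφ) hF hFuv'.1 hFuv'.2
          rw [← hcm]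
          rw [← hcm] at hEX hlift
          refine vsA (u := φ u) (v := φ v) ?_ hDr hprD E hEX hlift ?_ hWc huW hvW hvW' hone ?_ ?_
            hφ hφ' (phi_ne hφ huv) (phi_ne hφ hvu)
          · intro x hx
            rw [hφ v]
            exact (hDv x hx).symm
          · left; exact ⟨phi_ne hφ huv, F, hF, hFuv'.1, hFuv'.2⟩
          · intro w hw
            obtain ⟨F', hF', h1, h2, h3⟩ := hW w hw
            left; left
            exact ⟨fun h => huW (h ▸ hw), F', hF', h1, h3⟩
          · intro w hw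
            obtain ⟨F', hF', h1, h2, h3⟩ := hW w hw
            left
            exact ⟨fun h => hvW (h ▸ hw), F', hF', h2, h3⟩
      filter_upwards [hfin] with f hf _ _ _ q hq hqE x hx y hy
      rw [← hv] at hx hy
      refine hf q hq ?_ x y (hcmP x hx) (hcmP y hy)
      rintro a b (h | h)
      · exact hqE a b h
      · have := hqE _ _ h
        rwa [ell_anti φ hφ f q hq, neg_eq_zero] at this
    filter_upwards [hIHM, hIHA, hVS, gp_eventually (d := d) φ] with f hf1 hf1' hf2 hgp q hq hE
    have hokay : ∀ F : Finset V, Okay φ u v T F → ∀ x ∈ F, ∀ y ∈ F, ell φ f q x y = 0 :=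
      fun F hF => okay_sat_A hφ hadj hE hq hF
    have hrig : RigidOn φ f (vert T) q := by
      refine assemble hφ hφ' hd3 hgp hT hvu hanti hadj hokay ?_ ?_
      · intro S hS hSa hSv hSE
        have hSn : (vert S).card < n := by rw [← hn]; exact Finset.card_lt_card hSv
        by_cases h : (pr φ (vert S)).card < 2 * d
        · exact (hf1 S u hS hSa hSn h).rigS q hq hSE
        · exact (hf1' S u hS hSa hSn (not_lt.mp h)).rigS q hq hSE
      · intro D hD hDs hv
        have hPok := fun F hF =>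
          piece_okay (F := F) hφ hφ' huv hvu hanti hadj hcard hD.cyc.1 hDs hF
        rw [hv]
        refine RigidOn.of_const φ (hf2 D hD hDs hv q hq ?_)
        rintro x y ⟨-, F, hF, hx, hy⟩
        exact hokay F (hPok F hF).1 x hx y hy
    exact rigid_const hφ hφ' hgp (by omega) hq hrig

end rigid

end Pool.Agent.CSLBT
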