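import Pool.Agent.CSLBT.Bstar

set_option linter.unusedSectionVars false
set_option linter.unusedVariables false

namespace Pool.Agent.CSLBT

open Filter Matrix

section span

variable {V : Type*} [Fintype V] [DecidableEq V] {d : ℕ} {φ : V → V}

/-- the generating cycles: boundaries of cliques and small symmetric cycles -/
def AA (φ : V → V) (d : ℕ) (G : V → V → Prop) : Set (Ch V) :=
  {Q | (∃ σ : Finset V, σ.card = d + 1 ∧ (∀ x ∈ σ, ∀ y ∈ σ, x ≠ y → G x y) ∧ Q = bd (sg σ)) ∨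
    (MinCyc d Q ∧ (∀ x ∈ vert Q, φ x ∈ vert Q) ∧ (vert Q).card = 2 * d ∧
      ∀ x y, Adj Q x y → G x y)}

lemma mem_span_of_min {Sp : Submodule (ZMod 2) (Ch V)} {Y : Ch V} (hY : IsCyc d Y)
    (h : ∀ Q, MinCyc d Q → Q.support ⊆ Y.support → Q ∈ Sp) : Y ∈ Sp := by
  refine Submodule.span_le.mpr ?_ (mem_span_min hY)
  rintro Q ⟨hQ, hQs⟩
  exact h Q hQ hQs

/-- decomposition of a cycle along a contraction -/
lemma decomp_span (hφ : Function.Involutive φ) (hφ' : ∀ x, φ x ≠ x)
    {Sp : Submodule (ZMod 2) (Ch V)} {S : Ch V} (hS : IsCyc d S) {u v : V} (huv : u ≠ v)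
    (hvu : v ≠ φ u) (hanti : AntiAt φ u S)
    (h1 : ∀ σ ∈ (HH φ u v (Trest φ u v S)).support, bd (sg σ) ∈ Sp)
    (h2 : ∀ D, MinCyc d D → D.support ⊆ (cc φ u v S).support → piece φ u v S D ∈ Sp) :
    S ∈ Sp := by
  have hcyc : IsCyc d (cc φ u v S) :=
    ⟨by rw [← bd_cc hφ hφ' huv hvu, hS.1, map_zero],
      card_X hφ hφ' huv hvu hanti hS.2 subset_rfl⟩
  have h3 := rest_eq hφ hφ' huv hvu hanti hS.1
  have h4 : S = bd (HH φ u v (Trest φ u v S)) + piece φ u v S (cc φ u v S) := by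
    rw [← h3, add_assoc, add_self_ch, add_zero]
  rw [h4]
  refine Submodule.add_mem _ ?_ ?_
  · rw [ch_eq_sum (HH φ u v (Trest φ u v S)), map_sum]
    exact Submodule.sum_mem _ h1
  · refine cyc_induction hcyc (fun X => piece φ u v S X ∈ Sp) ?_ ?_
    · rw [piece_zero]; exact Submodule.zero_mem _
    · intro X D _ hD _ hDs hdis hX
      rw [piece_add S hdis]
      exact Submodule.add_mem _ hX (h2 D hD hDs)

/-- added sets are cliques when the edge is simple -/
lemma okay_clique (hφ : Function.Involutive φ) (hφ' : ∀ x, φ x ≠ x) {G : V → V → Prop}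
    (hG : GG φ G) {S : Ch V} (hSG : ∀ x y, Adj S x y → G x y)
    (hno : ∀ F ∈ S.support, NoAnti φ F) {u v : V} (hadj : Adj S u v) (hvu : v ≠ φ u)
    (hs1 : ¬ Adj S u (φ v)) (hs2 : ¬ Adj S (φ u) v) {Y : Ch V}
    (hY : ∀ R ∈ Y.support, ∃ F ∈ S.support, R ⊆ F) (hcc : cc φ u v Y = 0)
    {F : Finset V} (hF : F ∈ (HH φ u v Y).support) :
    ∀ x ∈ F, ∀ y ∈ F, x ≠ y → G x y := by
  have huv := hadj.1
  have hanti : AntiAt φ u S := fun F hF x hx hx' => absurd hx' (hno F hF x hx)
  obtain ⟨hok, R, hR, -, hRF⟩ := HH_supp hφ hφ' huv hvu hanti hadj hY hcc hF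
  obtain ⟨F0, hF0, hRF0⟩ := hY R hR
  have hnoF : NoAnti φ F := by
    rcases hRF with ⟨h1, rfl⟩ | ⟨h1, rfl⟩
    · intro x hx hx'
      rw [Finset.mem_insert] at hx hx'
      have key : φ u ∉ R := by
        intro h
        exact hs2 ⟨hvu.symm, F0, hF0, hRF0 h, hRF0 h1⟩
      rcases hx with rfl | hx
      · rcases hx' with h | h
        · exact hφ' _ h
        · exact key h
      · rcases hx' with h | h
        · exact key (by rw [← h, hφ]; exact hx)
        · exact hno F0 hF0 x (hRF0 hx) (hRF0 h)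
    · intro x hx hx'
      rw [Finset.mem_insert] at hx hx'
      have key : u ∉ R := by
        intro h
        exact hs1 ⟨(phiv_ne_u hφ hvu).symm, F0, hF0, hRF0 h, hRF0 h1⟩
      rcases hx with rfl | hx
      · rcases hx' with h | h
        · exact hφ' _ h
        · rw [hφ] at h; exact key h
      · rcases hx' with h | h
        · exact key (hφ.injective h ▸ hx)
        · exact hno F0 hF0 x (hRF0 hx) (hRF0 h)
  intro x hx y hy hxy
  rcases hok.2.1 x hx y hy hxy with h | h | ⟨rfl, rfl⟩ | ⟨rfl, rfl⟩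
  · exact hSG x y h
  · exact absurd (h ▸ hy) (hnoF x hx)
  · exact hG.phi _ _ (hSG _ _ hadj)
  · exact hG.phi _ _ (hSG _ _ hadj.symm)

/-- removing a contracted edge from a spanning lift -/
lemma flip_away (hφ : Function.Involutive φ) (hφ' : ∀ x, φ x ≠ x) (hd4 : 4 ≤ d)
    {G : V → V → Prop} (hG : GG φ G) {f : Fld V d} (hf : Good φ f) (hI : Indep φ f G)
    {S : Ch V} (hS : MinCyc d S) (hno : ∀ F ∈ S.support, NoAnti φ F)
    {u v : V} (hadj : Adj S u v) (hvu : v ≠ φ u)
    (hcase : 2 * d ≤ (pr φ (vert S)).card ∨ ((pr φ (vert S)).card < 2 * d ∧ φ v ∉ vert S))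
    {D : Ch V} (hDm : MinCyc d D) (hDs : D.support ⊆ (cc φ u v S).support)
    (hv : vert (piece φ u v S D) = vert S) (hPc : IsCyc d (piece φ u v S D))
    (hPG : ∀ x y, Adj (piece φ u v S D) x y → G x y)
    {u1 v1 : V} (h1 : (u1 = u ∧ v1 = v) ∨ (u1 = φ u ∧ v1 = φ v)) :
    ∃ Z : Ch V, Z ∈ Submodule.span (ZMod 2) (AA φ d G) ∧
      IsCyc d Z ∧ (∀ x y, Adj Z x y → Adj (piece φ u v S D) x y) ∧
      (∀ F ∈ (piece φ u v S D + Z).support, ¬ (u1 ∈ F ∧ v1 ∈ F)) ∧
      (∀ F ∈ Z.support, φ u1 ∉ F) := by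
  classical
  set P := piece φ u v S D with hPdef
  have huv := hadj.1
  by_cases hex : ∃ F ∈ P.support, u1 ∈ F ∧ v1 ∈ F
  · obtain ⟨F, hF, hu1, hv1⟩ := hex
    have hu1v1 : u1 ≠ v1 := by
      rcases h1 with ⟨rfl, rfl⟩ | ⟨rfl, rfl⟩
      · exact huv
      · exact phi_ne hφ huv
    obtain ⟨σ, hσc, hσu, hσv, hσA, hσF⟩ := flip_edge hPc.1 hPc.2 hd4 hu1v1 hF hu1 hv1
      (fun W hW => link_bound hφ hφ' (by omega) hG hf hI hS hno hadj hvu hcase hDm hDs hv hPG h1
        hF hu1 hv1 hW)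
    refine ⟨bd (sg σ), ?_, ⟨bd_bd _, ?_⟩, ?_, hσF, ?_⟩
    · exact Submodule.subset_span (Or.inl ⟨σ, hσc,
        fun x hx y hy hxy => hPG x y (hσA x hx y hy hxy), rfl⟩)
    · intro F' hF'
      obtain ⟨w, hw, rfl⟩ := mem_supp_bd_sg.mp hF'
      rw [Finset.card_erase_of_mem hw, hσc]
      omega
    · rintro x y ⟨hxy, F', hF', hx, hy⟩
      obtain ⟨w, hw, rfl⟩ := mem_supp_bd_sg.mp hF'
      exact hσA x (Finset.mem_of_mem_erase hx) y (Finset.mem_of_mem_erase hy) hxy
    · intro F' hF' hcon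
      obtain ⟨w, hw, rfl⟩ := mem_supp_bd_sg.mp hF'
      exact hG.anti u1 (φ u1) (hPG _ _ (hσA u1 hσu (φ u1) (Finset.mem_of_mem_erase hcon)
        (hφ' u1).symm)) rfl
  · push Not at hex
    refine ⟨0, Submodule.zero_mem _, ⟨by simp, by simp⟩, ?_, ?_, by simp⟩
    · rintro x y ⟨-, F, hF, -⟩
      simp at hF
    · rintro F hF ⟨h2, h3⟩
      rw [add_zero] at hF
      exact hex F hF h2 h3

/-- a cycle avoiding the edge `u v` misses one of its vertices -/
lemma miss_edge (hφ : Function.Involutive φ) (hφ' : ∀ x, φ x ≠ x) (hd3 : 3 ≤ d)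
    {G : V → V → Prop} (hG : GG φ G) {f : Fld V d} (hf : Good φ f) (hI : Indep φ f G)
    {Q : Ch V} (hQ : MinCyc d Q) (hQG : ∀ x y, Adj Q x y → G x y) {u v : V} (huv : G u v)
    (h1 : ∀ F ∈ Q.support, ¬ (u ∈ F ∧ v ∈ F)) (h2 : ∀ F ∈ Q.support, ¬ (φ u ∈ F ∧ φ v ∈ F)) :
    ¬ (u ∈ vert Q ∧ v ∈ vert Q) := by
  rintro ⟨hu, hv⟩
  have hno : ∀ F ∈ Q.support, NoAnti φ F := by
    intro F hF x hx hx'
    exact hG.anti x (φ x) (hQG x (φ x) ⟨(hφ' x).symm, F, hF, hx, hx'⟩) rfl
  have hanti : AntiAt φ u Q := fun F hF x hx hx' => absurd hx' (hno F hF x hx)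
  obtain ⟨q, hq1, hq2, hq3⟩ := hI u v huv
  refine hq2 ((hf.rig hφ hφ' hd3 hQ hanti hq1 ?_).ell_eq_zero φ hu hv)
  rintro x y hxy
  refine hq3 x y (hQG x y hxy) ?_
  obtain ⟨-, F, hF, hx, hy⟩ := hxy
  rintro (⟨rfl, rfl⟩ | ⟨rfl, rfl⟩ | ⟨rfl, rfl⟩ | ⟨rfl, rfl⟩)
  · exact h1 F hF ⟨hx, hy⟩
  · exact h1 F hF ⟨hy, hx⟩
  · exact h2 F hF ⟨hx, hy⟩
  · exact h2 F hF ⟨hy, hx⟩

/-- The inductive step at a simple edge. -/
lemma step_simple (hφ : Function.Involutive φ) (hφ' : ∀ x, φ x ≠ x) (hd4 : 4 ≤ d)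
    {G : V → V → Prop} (hG : GG φ G) {f : Fld V d} (hf : Good φ f) (hI : Indep φ f G)
    {S : Ch V} (hS : MinCyc d S) (hSG : ∀ x y, Adj S x y → G x y)
    (ih : ∀ Q : Ch V, MinCyc d Q → (∀ x y, Adj Q x y → G x y) → vert Q ⊂ vert S →
      Q ∈ Submodule.span (ZMod 2) (AA φ d G))
    {u v : V} (hadj : Adj S u v) (hs1 : ¬ Adj S u (φ v)) (hs2 : ¬ Adj S (φ u) v)
    (hcase : 2 * d ≤ (pr φ (vert S)).card ∨ ((pr φ (vert S)).card < 2 * d ∧ φ v ∉ vert S)) :
    S ∈ Submodule.span (ZMod 2) (AA φ d G) := by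
  classical
  have huv := hadj.1
  have hvu : v ≠ φ u := hG.anti u v (hSG u v hadj)
  have hcard := hS.cyc.2
  have hno : ∀ F ∈ S.support, NoAnti φ F := by
    intro F hF x hx hx'
    exact hG.anti x (φ x) (hSG x (φ x) ⟨(hφ' x).symm, F, hF, hx, hx'⟩) rfl
  have hanti : AntiAt φ u S := fun F hF x hx hx' => absurd hx' (hno F hF x hx)
  refine decomp_span hφ hφ' hS.cyc huv hvu hanti ?_ ?_
  · intro σ hσ
    refine Submodule.subset_span (Or.inl ⟨σ, ?_, ?_, rfl⟩)
    · exact (rest_okay hφ hφ' huv hvu hanti hadj hcard hσ).2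
    · exact okay_clique hφ hφ' hG hSG hno hadj hvu hs1 hs2
        (fun R hR => ⟨R, Trest_sub hR, subset_rfl⟩) (cc_Trest hφ hφ' huv hvu hanti) hσ
  · intro D hDm hDs
    have hDb := hDm.cyc.1
    have hPok := fun F hF => piece_okay (F := F) hφ hφ' huv hvu hanti hadj hcard hDb hDs hF
    have hPb := bd_piece hφ hφ' huv hvu hanti hDb hDs
    have hPG : ∀ x y, Adj (piece φ u v S D) x y → G x y := by
      rintro x y ⟨hxy, F, hF, hx, hy⟩
      rw [piece_supp hφ hφ' huv hvu hanti hadj hDb hDs, Finset.mem_union] at hF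
      rcases hF with hF | hF
      · exact hSG x y ⟨hxy, F, (mem_TX.mp hF).1, hx, hy⟩
      · exact okay_clique hφ hφ' hG hSG hno hadj hvu hs1 hs2 bd_TX_sub
          (cc_bd_TX hφ hφ' huv hvu hanti hDb hDs) hF x hx y hy hxy
    have hPc : IsCyc d (piece φ u v S D) := ⟨hPb, fun F hF => (hPok F hF).2⟩
    have hPv : vert (piece φ u v S D) ⊆ vert S := by
      intro x hx
      obtain ⟨F, hF, hxF⟩ := mem_vert.mp hx
      exact (hPok F hF).1.1 hxF
    by_cases hv : vert (piece φ u v S D) = vert S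
    swap
    · have hss := Finset.ssubset_iff_subset_ne.mpr ⟨hPv, hv⟩
      refine mem_span_of_min hPc fun Q hQ hQs => ?_
      exact ih Q hQ (fun x y h => hPG x y (h.mono hQs)) (lt_of_le_of_lt (vert_mono hQs) hss)
    obtain ⟨Z1, hZ1, hZ1c, hZ1A, hZ1F, hZ1u⟩ := flip_away hφ hφ' hd4 hG hf hI hS hno hadj hvu
      hcase hDm hDs hv hPc hPG (Or.inl ⟨rfl, rfl⟩)
    obtain ⟨Z2, hZ2, hZ2c, hZ2A, hZ2F, hZ2u⟩ := flip_away hφ hφ' hd4 hG hf hI hS hno hadj hvu
      hcase hDm hDs hv hPc hPG (Or.inr ⟨rfl, rfl⟩)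
    rw [hφ] at hZ2u
    set P := piece φ u v S D with hPdef
    have hP1 : P = (P + Z1 + Z2) + (Z1 + Z2) := by
      have : (P + Z1 + Z2) + (Z1 + Z2) = P + (Z1 + Z1) + (Z2 + Z2) := by abel
      rw [this, add_self_ch, add_self_ch, add_zero, add_zero]
    rw [hP1]
    refine Submodule.add_mem _ ?_ (Submodule.add_mem _ hZ1 hZ2)
    have hAdjsub : ∀ x y, Adj (P + Z1 + Z2) x y → Adj P x y := by
      rintro x y ⟨hxy, F, hF, hx, hy⟩
      rw [mem_supp_add] at hF
      rcases hF with ⟨hF, -⟩ | ⟨-, hF⟩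
      · rw [mem_supp_add] at hF
        rcases hF with ⟨hF, -⟩ | ⟨-, hF⟩
        · exact ⟨hxy, F, hF, hx, hy⟩
        · exact hZ1A x y ⟨hxy, F, hF, hx, hy⟩
      · exact hZ2A x y ⟨hxy, F, hF, hx, hy⟩
    have hcyc : IsCyc d (P + Z1 + Z2) := (hPc.add hZ1c).add hZ2c
    refine mem_span_of_min hcyc fun Q hQ hQs => ?_
    have hQG : ∀ x y, Adj Q x y → G x y := fun x y h => hPG x y (hAdjsub x y (h.mono hQs))
    have hQv : vert Q ⊆ vert S := by
      intro x hx
      obtain ⟨F, hF, hxF⟩ := mem_vert.mp hx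
      obtain ⟨y, hy, hyx⟩ : ∃ y ∈ F, y ≠ x := by
        have h1 : ({x} : Finset V).card < F.card := by
          rw [Finset.card_singleton, hQ.cyc.2 F hF]; omega
        obtain ⟨y, hy, hy'⟩ := Finset.exists_mem_notMem_of_card_lt_card h1
        exact ⟨y, hy, fun h => hy' (by rw [h]; exact Finset.mem_singleton_self _)⟩
      rw [← hv]
      exact (hAdjsub x y ⟨hyx.symm, F, hQs hF, hxF, hy⟩).left
    refine ih Q hQ hQG (Finset.ssubset_iff_subset_ne.mpr ⟨hQv, ?_⟩)
    intro heq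
    refine miss_edge hφ hφ' (by omega) hG hf hI hQ hQG (hSG u v hadj) ?_ ?_
      ⟨by rw [heq]; exact hadj.left, by rw [heq]; exact hadj.right⟩
    · intro F hF hcon
      have := hQs hF
      rw [mem_supp_add] at this
      rcases this with ⟨h3, -⟩ | ⟨-, h3⟩
      · exact hZ1F F h3 hcon
      · exact hZ2u F h3 hcon.1
    · intro F hF hcon
      have := hQs hF
      have hcomm : P + Z1 + Z2 = P + Z2 + Z1 := by abel
      rw [hcomm, mem_supp_add] at this
      rcases this with ⟨h3, -⟩ | ⟨-, h3⟩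
      · exact hZ2F F h3 hcon
      · exact hZ1u F h3 hcon.1

/-- degree sum -/
lemma deg_sum {G : V → V → Prop} (hG : GG φ G) (X : Finset V) [DecidableRel G]
    (h : ∀ x ∈ X, 2 * d ≤ (Finset.univ.filter (fun y => G x y)).card) :
    2 * d * X.card ≤ 2 * (es G).card := by
  classical
  have h1 : ∀ x ∈ X, (Finset.univ.filter (fun y => G x y)).card ≤
      ((es G).filter (fun e => x ∈ e)).card := by
    intro x hx
    apply Finset.card_le_card_of_injOn (fun y => ({x, y} : Finset V))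
    · intro y hy
      simp only [Finset.coe_filter, Finset.mem_univ, true_and, Set.mem_ofPred_eq] at hy ⊢
      exact ⟨mem_es.mpr ⟨x, y, hy, rfl⟩, Finset.mem_insert_self _ _⟩
    · intro y hy z hz hyz
      simp only [Finset.coe_filter, Finset.mem_univ, true_and, Set.mem_ofPred_eq] at hy hz hyz
      rcases pair_eq hyz (hG.ne x y hy) with h | h
      · exact h.2
      · exact absurd h.1 (hG.ne x z hz)
  have h2 : ∑ x ∈ X, ((es G).filter (fun e => x ∈ e)).card =
      ∑ e ∈ es G, (X.filter (fun x => x ∈ e)).card := by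
    exact Finset.sum_card_bipartiteAbove_eq_sum_card_bipartiteBelow (fun x e => x ∈ e)
  have h3 : ∀ e ∈ es G, (X.filter (fun x => x ∈ e)).card ≤ 2 := by
    intro e he
    obtain ⟨x, y, hxy, rfl⟩ := mem_es.mp he
    calc _ ≤ ({x, y} : Finset V).card := by
          apply Finset.card_le_card
          intro z hz
          exact (Finset.mem_filter.mp hz).2
      _ ≤ 2 := Finset.card_le_two
  calc 2 * d * X.card = ∑ x ∈ X, 2 * d := by rw [Finset.sum_const, smul_eq_mul]; ring
    _ ≤ ∑ x ∈ X, ((es G).filter (fun e => x ∈ e)).card :=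
        Finset.sum_le_sum fun x hx => (h x hx).trans (h1 x hx)
    _ = ∑ e ∈ es G, (X.filter (fun x => x ∈ e)).card := h2
    _ ≤ ∑ e ∈ es G, 2 := Finset.sum_le_sum h3
    _ = 2 * (es G).card := by rw [Finset.sum_const, smul_eq_mul]; ring

/-- cycles without simple edges, many pairs -/
lemma no_simple_A (hφ : Function.Involutive φ) (hφ' : ∀ x, φ x ≠ x) (hd3 : 3 ≤ d)
    {G : V → V → Prop} (hG : GG φ G) {f : Fld V d} (hf : Good φ f) (hI : Indep φ f G)
    {S : Ch V} (hS : MinCyc d S) (hSG : ∀ x y, Adj S x y → G x y)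
    (hns : ∀ u v, Adj S u v → Adj S u (φ v) ∨ Adj S (φ u) v) :
    (∀ x ∈ vert S, φ x ∈ vert S) ∧ (vert S).card = 2 * d := by
  classical
  have hbS := hS.cyc.1
  have hd := hS.cyc.2
  have hno : ∀ F ∈ S.support, NoAnti φ F := by
    intro F hF x hx hx'
    exact hG.anti x (φ x) (hSG x (φ x) ⟨(hφ' x).symm, F, hF, hx, hx'⟩) rfl
  set Gs : V → V → Prop := fun x y => Adj S x y ∨ Adj S (φ x) (φ y) with hGsdef
  have hGsG : ∀ x y, Gs x y → G x y := by
    rintro x y (h | h)
    · exact hSG x y h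
    · have := hG.phi _ _ (hSG _ _ h)
      rwa [hφ, hφ] at this
  have hGs : GG φ Gs := by
    refine ⟨fun x y h => hG.ne x y (hGsG x y h), ?_, fun x y h => hG.anti x y (hGsG x y h), ?_⟩
    · rintro x y (h | h)
      · left; exact h.symm
      · right; exact h.symm
    · rintro x y (h | h)
      · right; rw [hφ, hφ]; exact h
      · left; exact h
  have hGsφ : ∀ x y, Gs x y → Gs x (φ y) := by
    have key : ∀ x y, Adj S x y → Gs x (φ y) := by
      intro x y h
      rcases hns x y h with h | h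
      · left; exact h
      · right; rw [hφ]; exact h
    rintro x y (h | h)
    · exact key x y h
    · have := hGs.phi _ _ (key _ _ h)
      rwa [hφ, hφ] at this
  have hGsφ' : ∀ x y, Gs (φ x) y ↔ Gs x y := by
    intro x y
    constructor
    · intro h
      have := hGs.phi _ _ h
      rw [hφ] at this
      have := hGsφ _ _ this
      rwa [hφ] at this
    · intro h
      have := hGs.phi _ _ (hGsφ _ _ h)
      rwa [hφ] at this
  set X := vert S ∪ (vert S).image φ with hXdef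
  have hXmem : ∀ x, x ∈ X ↔ x ∈ vert S ∨ φ x ∈ vert S := by
    intro x
    rw [hXdef, Finset.mem_union, Finset.mem_image]
    constructor
    · rintro (h | ⟨y, hy, rfl⟩)
      · left; exact h
      · right; rw [hφ]; exact hy
    · rintro (h | h)
      · left; exact h
      · right; exact ⟨φ x, h, hφ x⟩
  have hXφ : ∀ x ∈ X, φ x ∈ X := by
    intro x hx
    rw [hXmem] at hx ⊢
    rw [hφ]
    exact hx.symm
  obtain ⟨F0, hF0⟩ := hS.nonempty
  obtain ⟨x0, hx0⟩ : F0.Nonempty := Finset.card_pos.mp (by rw [hd F0 hF0]; omega)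
  have hXne : X.Nonempty := ⟨x0, (hXmem x0).mpr (Or.inl (subset_vert hF0 hx0))⟩
  have hcount := count_indep hφ hφ' hGs hXφ hXne (by
    rintro x y (h | h)
    · exact ⟨(hXmem x).mpr (Or.inl h.left), (hXmem y).mpr (Or.inl h.right)⟩
    · exact ⟨(hXmem x).mpr (Or.inr h.left), (hXmem y).mpr (Or.inr h.right)⟩) (hI.mono hGsG)
  -- a vertex of small degree
  obtain ⟨x, hxX, hxdeg⟩ : ∃ x ∈ X, (Finset.univ.filter (fun y => Gs x y)).card < 2 * d := by
    by_contra hcon
    push Not at hcon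
    have := deg_sum (d := d) hGs X hcon
    have h2 : 0 < X.card := Finset.card_pos.mpr hXne
    nlinarith
  set N := Finset.univ.filter (fun y => Gs x y) with hNdef
  have hNmem : ∀ y, y ∈ N ↔ Gs x y := by intro y; simp [hNdef]
  have hN : ∀ y ∈ N, φ y ∈ N := by
    intro y hy
    rw [hNmem] at hy ⊢
    exact hGsφ x y hy
  have hxN : x ∉ N := fun h => hGs.ne x x ((hNmem x).mp h) rfl
  have hxN' : φ x ∉ N := fun h => by
    have := hN _ h
    rw [hφ] at this
    exact hxN this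
  have hFN : ∀ z, z = x ∨ z = φ x → ∀ F ∈ S.support, z ∈ F → F.erase z ⊆ N := by
    intro z hz F hF hzF y hy
    rw [Finset.mem_erase] at hy
    have h1 : Gs z y := Or.inl ⟨hy.1.symm, F, hF, hzF, hy.2⟩
    rw [hNmem]
    rcases hz with rfl | rfl
    · exact h1
    · exact (hGsφ' x y).mp h1
  have hzN : ∀ z, z = x ∨ z = φ x → z ∉ N := by
    rintro z (rfl | rfl)
    · exact hxN
    · exact hxN'
  have hb : ∀ z, z = x ∨ z = φ x → z ∈ vert S → φ z ∈ vert S := fun z hz hzS =>
    bstar hφ hφ' hd3 hG hf hI hS hSG hzS hN hxdeg (hzN z hz) (hFN z hz)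
  have hxS : x ∈ vert S ∧ φ x ∈ vert S := by
    rcases (hXmem x).mp hxX with h | h
    · exact ⟨h, hb x (Or.inl rfl) h⟩
    · have := hb (φ x) (Or.inr rfl) h
      rw [hφ] at this
      exact ⟨this, h⟩
  have htr : ∀ z, z = x ∨ z = φ x → ∀ ρ, ρ ⊆ N → NoAnti φ ρ → ρ.card + 1 = d →
      insert z ρ ∈ S.support := by
    intro z hz ρ h1 h2 h3
    refine transN hφ hφ' hbS hd hno ?_ hN hxdeg (hzN z hz) (hFN z hz) h1 h2 h3
    rcases hz with rfl | rfl
    · exact hxS.1
    · exact hxS.2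
  -- S is the sum of all transversals
  set X' := insert x (insert (φ x) N) with hX'def
  have hX'φ : ∀ y ∈ X', φ y ∈ X' := by
    intro y hy
    rw [hX'def, Finset.mem_insert, Finset.mem_insert] at hy ⊢
    rcases hy with rfl | rfl | hy
    · right; left; rfl
    · left; exact hφ _
    · right; right; exact hN y hy
  have hkap : (kap φ d X').support ⊆ S.support := by
    intro F hF
    obtain ⟨h1, h2, h3⟩ := mem_kap.mp hF
    have hz : ∃ z, (z = x ∨ z = φ x) ∧ z ∈ F := by
      by_contra hcon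
      push Not at hcon
      have h4 : F ⊆ N := by
        intro y hy
        have := h1 hy
        rw [hX'def, Finset.mem_insert, Finset.mem_insert] at this
        rcases this with h | h | h
        · exact absurd hy (hcon y (Or.inl h))
        · exact absurd hy (hcon y (Or.inr h))
        · exact h
      have := noAnti_card (X := N) hφ h2 (fun y hy => h4 hy) (fun y hy => hN y (h4 hy))
      omega
    obtain ⟨z, hz, hzF⟩ := hz
    have h5 := htr z hz (F.erase z) ?_ ?_ ?_
    · rwa [Finset.insert_erase hzF] at h5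
    · intro y hy
      rw [Finset.mem_erase] at hy
      have := h1 hy.2
      rw [hX'def, Finset.mem_insert, Finset.mem_insert] at this
      have hφz : φ z ∉ F := h2 z hzF
      rcases this with h | h | h
      · rcases hz with rfl | rfl
        · exact absurd h hy.1
        · exfalso; apply hφz; rw [hφ, ← h]; exact hy.2
      · rcases hz with rfl | rfl
        · exfalso; apply hφz; rw [← h]; exact hy.2
        · exact absurd h hy.1
      · exact h
    · intro y hy hy'
      exact h2 y (Finset.mem_of_mem_erase hy) (Finset.mem_of_mem_erase hy')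
    · rw [Finset.card_erase_of_mem hzF, h3]; omega
  have hX'c : X'.card < 2 * d + 2 := by
    have h1 := Finset.card_insert_le x (insert (φ x) N)
    have h2 := Finset.card_insert_le (φ x) N
    rw [hX'def]
    omega
  -- nonzero
  obtain ⟨F1, hF1, hxF1⟩ := mem_vert.mp hxS.1
  have hF1k : F1 ∈ (kap φ d X').support := by
    refine mem_kap.mpr ⟨?_, hno F1 hF1, hd F1 hF1⟩
    intro y hy
    by_cases h : y = x
    · rw [h]; exact Finset.mem_insert_self _ _
    · exact Finset.mem_insert_of_mem (Finset.mem_insert_of_mem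
        (hFN x (Or.inl rfl) F1 hF1 hxF1 (Finset.mem_erase.mpr ⟨h, hy⟩)))
  have hkS : kap φ d X' = S := by
    rcases hS.2.2 _ (bd_kap hφ hφ' hX'φ) hkap with h | h
    · rw [h] at hF1k
      simp at hF1k
    · exact h
  have hvφ : ∀ y ∈ vert S, φ y ∈ vert S := by
    intro y hy
    obtain ⟨F, hF, hyF⟩ := mem_vert.mp hy
    rw [← hkS] at hF
    obtain ⟨h1, h2, h3⟩ := mem_kap.mp hF
    rw [← hkS]
    refine mem_vert.mpr ⟨insert (φ y) (F.erase y), mem_kap.mpr ⟨?_, ?_, ?_⟩,
      Finset.mem_insert_self _ _⟩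
    · intro z hz
      rw [Finset.mem_insert] at hz
      rcases hz with rfl | hz
      · exact hX'φ y (h1 hyF)
      · exact h1 (Finset.mem_of_mem_erase hz)
    · intro z hz hz'
      rw [Finset.mem_insert, Finset.mem_erase] at hz hz'
      rcases hz with rfl | hz
      · rcases hz' with h | h
        · exact hφ' _ h
        · rw [hφ] at h; exact h.1 rfl
      · rcases hz' with h | h
        · exact hz.1 (hφ.injective h)
        · exact h2 z hz.2 h.2
    · rw [(card_insert_erase hyF (hφ' y)).mpr (h2 y hyF), h3]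
  refine ⟨hvφ, ?_⟩
  have h1 := noAnti_card (X := vert S) hφ (hno F0 hF0) (fun y hy => subset_vert hF0 hy)
    (fun y hy => hvφ y (subset_vert hF0 hy))
  rw [hd F0 hF0] at h1
  have h2 : vert S ⊆ X' := by
    intro y hy
    obtain ⟨F, hF, hyF⟩ := mem_vert.mp hy
    rw [← hkS] at hF
    exact (mem_kap.mp hF).1 hyF
  have h3 := Finset.card_le_card h2
  -- parity
  obtain ⟨Y, -, hYc, -⟩ := reps φ hφ _ (vert S) rfl hvφ (fun y _ => hφ' y)
  omega

/-- Every minimal cycle in the graph is generated by cliques and small symmetric cycles. -/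
theorem span_main (hφ : Function.Involutive φ) (hφ' : ∀ x, φ x ≠ x) (hd4 : 4 ≤ d)
    {G : V → V → Prop} (hG : GG φ G) {f : Fld V d} (hf : Good φ f) (hI : Indep φ f G) (n : ℕ) :
    ∀ S : Ch V, MinCyc d S → (∀ x y, Adj S x y → G x y) → (vert S).card = n →
      S ∈ Submodule.span (ZMod 2) (AA φ d G) := by
  classical
  induction n using Nat.strong_induction_on with
  | _ n ih =>
  intro S hS hSG hn
  have ih' : ∀ Q : Ch V, MinCyc d Q → (∀ x y, Adj Q x y → G x y) → vert Q ⊂ vert S →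
      Q ∈ Submodule.span (ZMod 2) (AA φ d G) := fun Q hQ hQG hQv =>
    ih _ (by rw [← hn]; exact Finset.card_lt_card hQv) Q hQ hQG rfl
  have hd := hS.cyc.2
  have hno : ∀ F ∈ S.support, NoAnti φ F := by
    intro F hF x hx hx'
    exact hG.anti x (φ x) (hSG x (φ x) ⟨(hφ' x).symm, F, hF, hx, hx'⟩) rfl
  by_cases hpr : 2 * d ≤ (pr φ (vert S)).card
  · by_cases hs : ∃ u v, Adj S u v ∧ ¬ Adj S u (φ v) ∧ ¬ Adj S (φ u) v
    · obtain ⟨u, v, h1, h2, h3⟩ := hs
      exact step_simple hφ hφ' hd4 hG hf hI hS hSG ih' h1 h2 h3 (Or.inl hpr)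
    · push Not at hs
      have := no_simple_A hφ hφ' (by omega) hG hf hI hS hSG (by
        intro u v h
        by_cases h1 : Adj S u (φ v)
        · left; exact h1
        · right; exact hs u v h h1)
      exact Submodule.subset_span (Or.inr ⟨hS, this.1, this.2, hSG⟩)
  · rw [not_le] at hpr
    by_cases hs : ∃ u v, Adj S u v ∧ ¬ Adj S (φ u) v ∧ φ v ∉ vert S
    · obtain ⟨u, v, h1, h2, h3⟩ := hs
      exact step_simple hφ hφ' hd4 hG hf hI hS hSG ih' h1 (fun h => h3 h.right) h2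
        (Or.inr ⟨hpr, h3⟩)
    · exfalso
      push Not at hs
      obtain ⟨F, hF⟩ := hS.nonempty
      obtain ⟨v, hvF, hv⟩ : ∃ v ∈ F, φ v ∉ vert S := by
        by_contra hcon
        push Not at hcon
        have := noAnti_card (X := pr φ (vert S)) hφ (hno F hF)
          (fun x hx => mem_pr.mpr ⟨subset_vert hF hx, hcon x hx⟩)
          (fun x hx => mem_pr.mpr ⟨hcon x hx, by rw [hφ]; exact subset_vert hF hx⟩)
        rw [hd F hF] at this
        omega
      apply hv
      refine bstar hφ hφ' (by omega) hG hf hI hS hSG (subset_vert hF hvF)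
        (N := Finset.univ.filter (fun y => Adj S y v)) ?_ ?_ ?_ ?_
      · intro y hy
        rw [Finset.mem_filter] at hy ⊢
        refine ⟨Finset.mem_univ _, ?_⟩
        by_contra hcon
        exact hv (hs y v hy.2 hcon)
      · refine lt_of_le_of_lt (Finset.card_le_card ?_) hpr
        intro y hy
        rw [Finset.mem_filter] at hy
        rw [mem_pr]
        refine ⟨hy.2.left, ?_⟩
        by_contra hcon
        by_cases h1 : Adj S (φ y) v
        · exact hcon h1.left
        · exact hv (hs y v hy.2 h1)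
      · intro h
        rw [Finset.mem_filter] at h
        exact h.2.1 rfl
      · intro F' hF' hvF' y hy
        rw [Finset.mem_erase] at hy
        rw [Finset.mem_filter]
        exact ⟨Finset.mem_univ _, hy.1, F', hF', hy.2, hvF'⟩

end span

end Pool.Agent.CSLBT
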