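import Pool.Agent.CSLBT.Piece

set_option linter.unusedSectionVars false
set_option linter.unusedVariables false

namespace Pool.Agent.CSLBT

open Filter Matrix

section split

variable {V : Type*} [Fintype V] [DecidableEq V] {d : ℕ} (φ : V → V)

def Sat (f q : Fld V d) (E : V → V → Prop) : Prop := ∀ x y, E x y → ell φ f q x y = 0
def Sym (q : Fld V d) : Prop := ∀ x, q (φ x) = q x
def Bars (f q : Fld V d) (X : Finset V) : Prop := ∀ x ∈ X, φ x ∈ X → ell φ f q x (φ x) = 0
def RigA (f : Fld V d) (E : V → V → Prop) (X : Finset V) : Prop :=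
  ∀ q : Fld V d, Sym φ q → Sat φ f q E → ∀ x ∈ X, ∀ y ∈ X, q x = q y
def RigM (f : Fld V d) (E : V → V → Prop) (X : Finset V) : Prop :=
  ∀ q : Fld V d, Sat φ f q E → Bars φ f q X → RigidOn φ f X q
def RigS (f : Fld V d) (E : V → V → Prop) (X : Finset V) : Prop :=
  ∀ q : Fld V d, Sym φ q → Sat φ f q E → RigidOn φ f X q

variable {φ}

lemma Sym.bars {q : Fld V d} (h : Sym φ q) (f : Fld V d) (X : Finset V) : Bars φ f q X :=
  fun x _ _ => ell_self_anti φ f q h x

lemma RigM.rigS {f : Fld V d} {E : V → V → Prop} {X : Finset V} (h : RigM φ f E X) :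
    RigS φ f E X := fun q hq hE => h q hE (hq.bars f X)

lemma RigA.rigS {f : Fld V d} {E : V → V → Prop} {X : Finset V} (h : RigA φ f E X) :
    RigS φ f E X := fun q hq hE => RigidOn.of_const φ (h q hq hE)

/-- selecting representatives -/
lemma sel (hφ : Function.Involutive φ) (hφ' : ∀ x, φ x ≠ x) (k : ℕ) :
    ∀ X : Finset V, (∀ x ∈ X, φ x ∈ X) → 2 * k ≤ X.card →
      ∃ Y ⊆ X, Y.card = k ∧ NoAnti φ Y := by
  induction k with
  | zero => exact fun X _ _ => ⟨∅, Finset.empty_subset _, rfl, fun x hx => by simp at hx⟩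
  | succ k ih =>
    intro X hX hc
    obtain ⟨x, hx⟩ : X.Nonempty := Finset.card_pos.mp (by omega)
    have hφx : φ x ∈ X.erase x := Finset.mem_erase.mpr ⟨hφ' x, hX x hx⟩
    obtain ⟨Y, hY, hYc, hYn⟩ := ih ((X.erase x).erase (φ x)) (by
      intro y hy
      simp only [Finset.mem_erase] at hy ⊢
      refine ⟨fun h => hy.2.1 (hφ.injective h), fun h => hy.1 (by rw [← h, hφ]), hX y hy.2.2⟩)
      (by
        rw [Finset.card_erase_of_mem hφx, Finset.card_erase_of_mem hx]
        omega)
    have hxY : x ∉ Y := fun h => by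
      have := hY h
      simp at this
    refine ⟨insert x Y, ?_, ?_, ?_⟩
    · intro y hy
      rw [Finset.mem_insert] at hy
      rcases hy with rfl | hy
      · exact hx
      · exact Finset.mem_of_mem_erase (Finset.mem_of_mem_erase (hY hy))
    · rw [Finset.card_insert_of_notMem hxY, hYc]
    · intro y hy hy'
      rw [Finset.mem_insert] at hy hy'
      rcases hy with rfl | hy
      · rcases hy' with h | h
        · exact hφ' y h
        · have := hY h
          simp at this
      · rcases hy' with h | h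
        · have := hY hy
          rw [← h, hφ] at this
          simp at this
        · exact hYn y hy h

lemma pr_closed (hφ : Function.Involutive φ) (X : Finset V) : ∀ x ∈ pr φ X, φ x ∈ pr φ X := by
  intro x hx
  rw [mem_pr] at hx ⊢
  exact ⟨hx.2, by rw [hφ]; exact hx.1⟩

lemma noAnti_card (hφ : Function.Involutive φ) {F X : Finset V} (hF : NoAnti φ F)
    (h : ∀ x ∈ F, x ∈ X) (h' : ∀ x ∈ F, φ x ∈ X) : 2 * F.card ≤ X.card := by
  have h1 : (F ∪ F.image φ).card = 2 * F.card := by
    rw [Finset.card_union_of_disjoint, Finset.card_image_of_injective _ hφ.injective]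
    · omega
    · rw [Finset.disjoint_left]
      intro x hx hx'
      obtain ⟨y, hy, rfl⟩ := Finset.mem_image.mp hx'
      exact hF y hy hx
  rw [← h1]
  apply Finset.card_le_card
  intro x hx
  rw [Finset.mem_union, Finset.mem_image] at hx
  rcases hx with hx | ⟨y, hy, rfl⟩
  · exact h x hx
  · exact h' y hy

/-- a symmetric field which is a rigid motion on a set with many antipodal pairs is constant -/
lemma rigid_const (hφ : Function.Involutive φ) (hφ' : ∀ x, φ x ≠ x) {f : Fld V d}
    (hf : GP φ f) {X : Finset V} (hX : 2 * d ≤ (pr φ X).card + 2) {q : Fld V d}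
    (hq : Sym φ q) (hr : RigidOn φ f X q) : ∀ x ∈ X, ∀ y ∈ X, q x = q y := by
  obtain ⟨A, τ, hA, h⟩ := hr
  have hA0 : ∀ x ∈ pr φ X, A *ᵥ pos φ f x = 0 := by
    intro x hx
    rw [mem_pr] at hx
    have h1 := h x hx.1
    have h2 := h (φ x) hx.2
    rw [hq x, h1, pos_anti φ hφ, mulVec_neg] at h2
    have h3 : A *ᵥ pos φ f x = - (A *ᵥ pos φ f x) := add_right_cancel h2
    have h4 : (2 : ℚ) • (A *ᵥ pos φ f x) = 0 := by
      rw [two_smul]
      nth_rewrite 2 [h3]
      abel
    simpa using h4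
  rcases Nat.eq_zero_or_pos d with rfl | hd
  · intro x _ y _
    ext i
    exact i.elim0
  obtain ⟨Y, hY, hYc, hYn⟩ := sel hφ hφ' (d - 1) (pr φ X) (pr_closed hφ X) (by omega)
  have hA1 : A = 0 := (hf.1 Y hYn (by omega)).skew_zero φ (by omega) A hA
    (fun x hx => hA0 x (hY hx))
  intro x hx y hy
  rw [h x hx, h y hy, hA1]
  simp

/-- gluing of rigid cycles -/
lemma glue {f q : Fld V d} {T : Ch V} (hd : 0 < d) (hT : MinCyc d T) (𝒮 : Set (Ch V))
    (h𝒮 : ∀ Q ∈ 𝒮, bd Q = 0 ∧ RigidOn φ f (vert Q) q ∧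
      ∀ F ∈ Q.support, AffInd φ f F ∧ F.card = d)
    (hspan : T ∈ Submodule.span (ZMod 2) 𝒮) : RigidOn φ f (vert T) q := by
  classical
  have h1 : ∀ X ∈ Submodule.span (ZMod 2) 𝒮, ∀ F ∈ X.support, ∃ Q ∈ 𝒮, F ∈ Q.support := by
    intro X hX
    refine Submodule.span_induction (p := fun X _ => ∀ F ∈ X.support, ∃ Q ∈ 𝒮, F ∈ Q.support)
      ?_ ?_ ?_ ?_ hX
    · intro Q hQ F hF; exact ⟨Q, hQ, hF⟩
    · intro F hF; simp at hF
    · intro X Y _ _ hX hY F hF
      have := Finsupp.support_add hF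
      rw [Finset.mem_union] at this
      rcases this with h | h
      · exact hX F h
      · exact hY F h
    · intro a X _ hX F hF
      exact hX F (Finsupp.support_smul hF)
  obtain ⟨F0, hF0⟩ := hT.nonempty
  obtain ⟨Q0, hQ0, hF0Q⟩ := h1 T hspan F0 hF0
  obtain ⟨-, ⟨A, τ, hA, hq⟩, -⟩ := h𝒮 Q0 hQ0
  obtain ⟨R, hR⟩ : ∃ R : Finset V → Prop, ∀ F, R F ↔ ∀ x ∈ F, q x = A *ᵥ pos φ f x + τ :=
    ⟨_, fun _ => Iff.rfl⟩
  have h2 : ∀ X ∈ Submodule.span (ZMod 2) 𝒮, bd (X.filter R) = 0 := by
    intro X hX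
    refine Submodule.span_induction (p := fun X _ => bd (X.filter R) = 0) ?_ ?_ ?_ ?_ hX
    · intro Q hQ
      obtain ⟨hbQ, ⟨B, σ, hB, hqB⟩, hFQ⟩ := h𝒮 Q hQ
      by_cases hAB : B = A ∧ σ = τ
      · have : Q.filter R = Q := by
          rw [Finsupp.filter_eq_self_iff]
          intro F hF
          rw [← Finsupp.mem_support_iff] at hF
          rw [hR]
          intro x hx
          rw [hqB x (subset_vert hF hx), hAB.1, hAB.2]
        rw [this, hbQ]
      · have : Q.filter R = 0 := by
          rw [Finsupp.filter_eq_zero_iff]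
          intro F hF
          by_contra hne
          have hF' : F ∈ Q.support := Finsupp.mem_support_iff.mpr hne
          obtain ⟨haf, hcard⟩ := hFQ F hF'
          apply hAB
          refine haf.uniq φ (by omega) (Finset.card_pos.mp (by omega)) B A hB hA σ τ ?_
          intro x hx
          rw [← hqB x (subset_vert hF' hx), (hR F).mp hF x hx]
        rw [this, map_zero]
    · rw [Finsupp.filter_zero, map_zero]
    · intro X Y _ _ hX hY
      rw [Finsupp.filter_add, map_add, hX, hY, add_zero]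
    · intro a X _ hX
      rw [Finsupp.filter_smul, map_smul, hX, smul_zero]
  have h3 : (T.filter R).support ⊆ T.support := by
    rw [Finsupp.support_filter]
    exact Finset.filter_subset _ _
  have hRF0 : R F0 := (hR F0).mpr fun x hx => hq x (subset_vert hF0Q hx)
  rcases hT.2.2 (T.filter R) (h2 T hspan) h3 with h | h
  · exfalso
    have : F0 ∈ (T.filter R).support := by
      rw [Finsupp.support_filter, Finset.mem_filter]
      exact ⟨hF0, hRF0⟩
    rw [h] at this
    simp at this
  · refine ⟨A, τ, hA, ?_⟩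
    intro x hx
    obtain ⟨F, hF, hxF⟩ := mem_vert.mp hx
    rw [← h, Finsupp.support_filter, Finset.mem_filter] at hF
    exact (hR F).mp hF.2 x hxF

variable (hφ : Function.Involutive φ) (hφ' : ∀ x, φ x ≠ x) {u v : V} (huv : u ≠ v)
  (hvu : v ≠ φ u)

include hφ hφ' in
lemma cm_phi (x : V) : cm φ u v (φ x) = φ (cm φ u v x) := by
  by_cases h1 : x = v
  · subst h1; rw [cm_phiv hφ', cm_v]
  by_cases h2 : x = φ v
  · subst h2; rw [hφ v, cm_v, cm_phiv hφ', hφ u]
  · rw [cm_of_ne h1 h2, cm_of_ne]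
    · exact fun h => h2 (by rw [← h, hφ])
    · exact fun h => h1 (hφ.injective h)

include hφ hφ' in
lemma pos_comp_cm (f : Fld V d) (x : V) :
    pos φ (fun x => f (cm φ u v x)) x = pos φ f (cm φ u v x) := by
  simp only [pos, cm_phi hφ hφ']

lemma AffInd.congr {f g : Fld V d} {X : Finset V} (h : AffInd φ f X)
    (hfg : ∀ x ∈ X, pos φ f x = pos φ g x) : AffInd φ g X := by
  intro c hc hs
  refine h c ?_ hs
  rw [← hc]
  exact Finset.sum_congr rfl fun x hx => by rw [hfg x hx]

/-- two vertices at the same position with enough common neighbours -/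
lemma eq_of_common {f0 q : Fld V d} {W : Finset V} {t : Fin d → ℚ}
    (ht : ∀ z : Fin d → ℚ,
      (∀ x ∈ (insert u W).erase u, (pos φ f0 u - pos φ f0 x) ⬝ᵥ z = 0) → t ⬝ᵥ z = 0 → z = 0)
    (hv : pos φ f0 v = pos φ f0 u) (huW : u ∉ W)
    (h1 : ∀ w ∈ W, ell φ f0 q u w = 0) (h2 : ∀ w ∈ W, ell φ f0 q v w = 0)
    (h3 : t ⬝ᵥ (q u - q v) = 0) : q u = q v := by
  have := ht (q u - q v) ?_ h3
  · exact sub_eq_zero.mp this
  · intro w hw
    rw [Finset.erase_insert huW] at hw
    have e1 := h1 w hw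
    have e2 := h2 w hw
    unfold ell at e1 e2
    rw [hv] at e2
    have : q u - q v = (q u - q w) - (q v - q w) := by abel
    rw [this, dotProduct_sub, e1, e2, sub_zero]

/-- the functional `q ↦ t ⬝ (q u - q v)` -/
def dirL (t : Fin d → ℚ) (u v : V) : Fld V d →ₗ[ℚ] ℚ where
  toFun q := t ⬝ᵥ (q u - q v)
  map_add' q r := by
    simp only [Pi.add_apply]
    rw [show q u + r u - (q v + r v) = (q u - q v) + (r u - r v) by abel, dotProduct_add]
  map_smul' c q := by
    simp only [Pi.smul_apply, RingHom.id_apply]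
    rw [show c • q u - c • q v = c • (q u - q v) by module, dotProduct_smul]

include hφ hφ' huv hvu in
lemma step_row {f0 q : Fld V d} {t : Fin d → ℚ} (hv : pos φ f0 v = pos φ f0 u) {ε : ℚ}
    (hε : ε ≠ 0) (h : ell φ (f0 + ε • (Pi.single v t : Fld V d)) q u v = 0) :
    t ⬝ᵥ (q u - q v) = 0 := by
  rw [ell_add_smul] at h
  have h1 : ell φ f0 q u v = 0 := by
    unfold ell
    rw [hv, sub_self, zero_dotProduct]
  have h2 : pos φ (Pi.single v t : Fld V d) v = t := by
    unfold pos
    rw [Pi.single_eq_same, Pi.single_eq_of_ne (hφ' v), sub_zero]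
  have h3 : pos φ (Pi.single v t : Fld V d) u = 0 := by
    unfold pos
    rw [Pi.single_eq_of_ne huv, Pi.single_eq_of_ne hvu.symm, sub_zero]
  rw [h1, zero_add, mul_eq_zero] at h
  rcases h with h | h
  · exact absurd h hε
  · unfold ell at h
    rw [h2, h3, zero_sub, neg_dotProduct, neg_eq_zero] at h
    exact h

/-- Vertex splitting, symmetric version. -/
lemma vsA {D : Ch V} (hDv : ∀ x ∈ vert D, x ≠ v ∧ x ≠ φ v)
    (hD : ∀ᶠ f in genF (Fld V d), RigS φ f (Adj D) (vert D))
    (hpr : 2 * d ≤ (pr φ (vert D)).card + 2)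
    (E : V → V → Prop)
    (hEX : ∀ x y, E x y → (cm φ u v x ∈ vert D ∨ cm φ u v (φ x) ∈ vert D) ∧
      (cm φ u v y ∈ vert D ∨ cm φ u v (φ y) ∈ vert D))
    (hlift : ∀ a b, Adj D a b → ∃ x y, cm φ u v x = a ∧ cm φ u v y = b ∧ E x y)
    (hEuv : E u v) {W : Finset V} (hWc : W.card + 1 = d) (huW : u ∉ W) (hvW : v ∉ W)
    (hvW' : φ v ∉ W) (hone : ∃ z, OneAnti φ z (insert u W))
    (hWu : ∀ w ∈ W, E u w ∨ w = φ u) (hWv : ∀ w ∈ W, E v w)
    (hφ : Function.Involutive φ) (hφ' : ∀ x, φ x ≠ x) (huv : u ≠ v) (hvu : v ≠ φ u) :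
    ∀ᶠ f in genF (Fld V d), ∀ q : Fld V d, Sym φ q → Sat φ f q E →
      ∀ x y, cm φ u v x ∈ vert D → cm φ u v y ∈ vert D → q x = q y := by
  classical
  by_cases hne : (vert D).Nonempty
  swap
  · rw [Finset.not_nonempty_iff_eq_empty] at hne
    filter_upwards with f q _ _ x y hx _
    rw [hne] at hx
    simp at hx
  obtain ⟨x0, hx0⟩ := hne
  have hcm0 : cm φ u v x0 = x0 := cm_of_ne (hDv x0 hx0).1 (hDv x0 hx0).2
  let InX : V → Prop := fun x => cm φ u v x ∈ vert D ∨ cm φ u v (φ x) ∈ vert D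
  have hInX : ∀ x, InX (φ x) ↔ InX x := by
    intro x
    simp only [InX, hφ x]
    exact or_comm
  let 𝒲 : Submodule ℚ (Fld V d) :=
    { carrier := {q | (∀ x, q (φ x) = q x) ∧ q x0 = 0 ∧ ∀ x, ¬ InX x → q x = 0}
      add_mem' := by
        rintro q r ⟨h1, h2, h3⟩ ⟨h1', h2', h3'⟩
        refine ⟨fun x => ?_, ?_, fun x hx => ?_⟩
        · simp only [Pi.add_apply, h1, h1']
        · simp only [Pi.add_apply, h2, h2', add_zero]
        · simp only [Pi.add_apply, h3 x hx, h3' x hx, add_zero]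
      zero_mem' := ⟨fun x => rfl, rfl, fun x _ => rfl⟩
      smul_mem' := by
        rintro c q ⟨h1, h2, h3⟩
        refine ⟨fun x => ?_, ?_, fun x hx => ?_⟩
        · simp only [Pi.smul_apply, h1]
        · simp only [Pi.smul_apply, h2, smul_zero]
        · simp only [Pi.smul_apply, h3 x hx, smul_zero] }
  obtain ⟨f1, hf1D, hf1⟩ := (hD.and (gp_eventually (d := d) φ)).exists
  let f0 : Fld V d := fun x => f1 (cm φ u v x)
  have hpos : ∀ x, pos φ f0 x = pos φ f1 (cm φ u v x) := pos_comp_cm hφ hφ' f1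
  have hcmu : cm φ u v u = u := cm_u hφ huv hvu
  have hv0 : pos φ f0 v = pos φ f0 u := by rw [hpos, hpos, cm_v, hcmu]
  have haff1 : AffInd φ f1 (insert u W) := by
    obtain ⟨z, hz⟩ := hone
    refine hf1.oneAnti φ hφ hφ' hz ?_
    rw [Finset.card_insert_of_notMem huW]; omega
  have haff0 : AffInd φ f0 (insert u W) := by
    refine haff1.congr ?_
    intro x hx
    rw [Finset.mem_insert] at hx
    rw [hpos]
    rcases hx with rfl | hx
    · rw [hcmu]
    · rw [cm_of_ne]
      · rintro rfl; exact hvW hx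
      · rintro rfl; exact hvW' hx
  obtain ⟨t, ht⟩ := haff0.tdir φ (by rw [Finset.card_insert_of_notMem huW]; omega)
    (Finset.mem_insert_self u W)
  have key := inj_eventually_of_limit φ 𝒲 E f0 (Pi.single v t) (dirL t u v) ?_ ?_
  · filter_upwards [key] with f hf q hq hE x y hx hy
    have hr : ∀ x, InX x → q x = q x0 := by
      let r : Fld V d := fun x => if InX x then q x - q x0 else 0
      have hr0 : r = 0 := by
        apply hf r
        · refine ⟨fun x => ?_, ?_, fun x hx => ?_⟩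
          · simp only [r, hInX, hq x]
          · simp [r]
          · simp only [r, if_neg hx]
        · intro x y hxy
          obtain ⟨h1, h2⟩ := hEX x y hxy
          have := hE x y hxy
          unfold ell at this ⊢
          have e1 : r x = q x - q x0 := by simp only [r]; rw [if_pos h1]
          have e2 : r y = q y - q x0 := by simp only [r]; rw [if_pos h2]
          rw [e1, e2, ← this]
          congr 1
          abel
      intro x hx
      have := congrFun hr0 x
      simp only [r, if_pos hx, Pi.zero_apply] at this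
      exact sub_eq_zero.mp this
    rw [hr x (Or.inl hx), hr y (Or.inl hy)]
  · intro q hq hE hτ
    obtain ⟨hsym, hq0, hqout⟩ := hq
    have hquv : q u = q v := by
      refine eq_of_common ht hv0 huW ?_ (fun w hw => hE v w (hWv w hw)) hτ
      intro w hw
      rcases hWu w hw with h | h
      · exact hE u w h
      · rw [h]
        exact ell_self_anti φ f0 q hsym u
    have hqcm : ∀ x, q (cm φ u v x) = q x := by
      intro x
      by_cases h1 : x = v
      · rw [h1, cm_v, hquv]
      by_cases h2 : x = φ v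
      · rw [h2, cm_phiv hφ', hsym, hsym, hquv]
      · rw [cm_of_ne h1 h2]
    have hsat : Sat φ f1 q (Adj D) := by
      intro a b hab
      obtain ⟨x, y, rfl, rfl, hxy⟩ := hlift a b hab
      have := hE x y hxy
      unfold ell at this ⊢
      rw [hpos, hpos] at this
      rw [hqcm, hqcm]
      exact this
    have hrig := hf1D q hsym hsat
    have hconst := rigid_const hφ hφ' hf1 hpr hsym hrig
    have hz : ∀ x, cm φ u v x ∈ vert D → q x = 0 := by
      intro x hx
      rw [← hqcm x, hconst _ hx x0 hx0, hq0]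
    ext1 x
    by_cases hx : InX x
    · rcases hx with hx | hx
      · exact hz x hx
      · rw [← hsym x]; exact hz _ hx
    · exact hqout x hx
  · intro ε hε q _ hE
    exact step_row hφ hφ' huv hvu hv0 hε (hE u v hEuv)

/-- Vertex splitting, asymmetric version. -/
lemma vsM {D : Ch V} (hDv : ∀ x ∈ vert D, x ≠ v ∧ x ≠ φ v) (hDu : u ∈ vert D)
    (hD : ∀ᶠ f in genF (Fld V d), RigM φ f (Adj D) (vert D))
    (E : V → V → Prop)
    (hEX : ∀ x y, E x y → x ∈ insert v (vert D) ∧ y ∈ insert v (vert D))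
    (hlift : ∀ a b, Adj D a b → ∃ x y, cm φ u v x = a ∧ cm φ u v y = b ∧ E x y)
    (hEuv : E u v) {W : Finset V} (hWc : W.card + 1 = d) (huW : u ∉ W) (hvW : v ∉ W)
    (hvW' : φ v ∉ W) (hone : ∃ z, OneAnti φ z (insert u W))
    (hWu : ∀ w ∈ W, E u w ∨ w = φ u) (hWv : ∀ w ∈ W, E v w)
    {F0 : Finset V} (hF0 : F0 ⊆ vert D) (hF0c : F0.card = d) (hF0n : F0.Nonempty)
    (hF0one : ∃ z, OneAnti φ z F0)
    (hF0E : ∀ x ∈ F0, ∀ y ∈ F0, x ≠ y → E x y ∨ y = φ x)
    (hφ : Function.Involutive φ) (hφ' : ∀ x, φ x ≠ x) (huv : u ≠ v) (hvu : v ≠ φ u) :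
    ∀ᶠ f in genF (Fld V d), RigM φ f E (insert v (vert D)) := by
  classical
  set X : Finset V := insert v (vert D) with hXdef
  have hDX : ∀ x ∈ vert D, x ∈ X := fun x hx => Finset.mem_insert_of_mem hx
  have hcmX : ∀ x ∈ vert D, cm φ u v x = x := fun x hx => cm_of_ne (hDv x hx).1 (hDv x hx).2
  let 𝒲 : Submodule ℚ (Fld V d) :=
    { carrier := {q | (∀ x ∈ F0, q x = 0) ∧ ∀ x, x ∉ X → q x = 0}
      add_mem' := by
        rintro q r ⟨h1, h2⟩ ⟨h1', h2'⟩
        refine ⟨fun x hx => ?_, fun x hx => ?_⟩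
        · simp only [Pi.add_apply, h1 x hx, h1' x hx, add_zero]
        · simp only [Pi.add_apply, h2 x hx, h2' x hx, add_zero]
      zero_mem' := ⟨fun x _ => rfl, fun x _ => rfl⟩
      smul_mem' := by
        rintro c q ⟨h1, h2⟩
        refine ⟨fun x hx => ?_, fun x hx => ?_⟩
        · simp only [Pi.smul_apply, h1 x hx, smul_zero]
        · simp only [Pi.smul_apply, h2 x hx, smul_zero] }
  let E' : V → V → Prop := fun x y => E x y ∨ (x ∈ X ∧ φ x ∈ X ∧ y = φ x)
  obtain ⟨f1, hf1D, hf1⟩ := (hD.and (gp_eventually (d := d) φ)).exists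
  let f0 : Fld V d := fun x => f1 (cm φ u v x)
  have hpos : ∀ x, pos φ f0 x = pos φ f1 (cm φ u v x) := pos_comp_cm hφ hφ' f1
  have hcmu : cm φ u v u = u := cm_u hφ huv hvu
  have hv0 : pos φ f0 v = pos φ f0 u := by rw [hpos, hpos, cm_v, hcmu]
  have haff1 : AffInd φ f1 (insert u W) := by
    obtain ⟨z, hz⟩ := hone
    refine hf1.oneAnti φ hφ hφ' hz ?_
    rw [Finset.card_insert_of_notMem huW]; omega
  have haff0 : AffInd φ f0 (insert u W) := by
    refine haff1.congr ?_
    intro x hx
    rw [Finset.mem_insert] at hx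
    rw [hpos]
    rcases hx with rfl | hx
    · rw [hcmu]
    · rw [cm_of_ne]
      · rintro rfl; exact hvW hx
      · rintro rfl; exact hvW' hx
  obtain ⟨t, ht⟩ := haff0.tdir φ (by rw [Finset.card_insert_of_notMem huW]; omega)
    (Finset.mem_insert_self u W)
  obtain ⟨z0, hz0⟩ := hF0one
  have key := inj_eventually_of_limit φ 𝒲 E' f0 (Pi.single v t) (dirL t u v) ?_ ?_
  · filter_upwards [key, gp_eventually (d := d) φ] with f hf hgp q hE hbars
    have haffF : AffInd φ f F0 := hgp.oneAnti φ hφ hφ' hz0 (by omega)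
    obtain ⟨A, τ, hA, hAq⟩ := haffF.rigid φ q (by
      intro x hx y hy
      by_cases hxy : x = y
      · subst hxy; simp [ell]
      · rcases hF0E x hx y hy hxy with h | h
        · exact hE x y h
        · subst h
          exact hbars x (hDX x (hF0 hx)) (hDX _ (hF0 hy)))
    let r : Fld V d := fun x => if x ∈ X then q x - (A *ᵥ pos φ f x + τ) else 0
    have hell : ∀ x y, x ∈ X → y ∈ X → ell φ f r x y = ell φ f q x y := by
      intro x y hx hy
      unfold ell
      have e1 : r x = q x - (A *ᵥ pos φ f x + τ) := by simp only [r, if_pos hx]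
      have e2 : r y = q y - (A *ᵥ pos φ f y + τ) := by simp only [r, if_pos hy]
      rw [e1, e2]
      have : q x - (A *ᵥ pos φ f x + τ) - (q y - (A *ᵥ pos φ f y + τ))
          = (q x - q y) - A *ᵥ (pos φ f x - pos φ f y) := by
        rw [mulVec_sub]; abel
      rw [this, dotProduct_sub, skew_dot_self A hA, sub_zero]
    have hr0 : r = 0 := by
      apply hf r
      · refine ⟨fun x hx => ?_, fun x hx => ?_⟩
        · have : x ∈ X := hDX x (hF0 hx)
          simp only [r, if_pos this, hAq x hx, sub_self]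
        · simp only [r, if_neg hx]
      · rintro x y (hxy | ⟨h1, h2, rfl⟩)
        · rw [hell x y (hEX x y hxy).1 (hEX x y hxy).2]
          exact hE x y hxy
        · rw [hell x _ h1 h2]
          exact hbars x h1 h2
    refine ⟨A, τ, hA, fun x hx => ?_⟩
    have := congrFun hr0 x
    simp only [r, if_pos hx, Pi.zero_apply] at this
    exact sub_eq_zero.mp this
  · intro q hq hE hτ
    obtain ⟨hqF, hqout⟩ := hq
    have hquv : q u = q v := by
      refine eq_of_common ht hv0 huW ?_ (fun w hw => hE v w (Or.inl (hWv w hw))) hτ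
      intro w hw
      rcases hWu w hw with h | h
      · exact hE u w (Or.inl h)
      · have hwX : φ u ∈ X := by
          rw [← h]
          exact (hEX v w (hWv w hw)).2
        rw [h]
        exact hE u _ (Or.inr ⟨hDX u hDu, hwX, rfl⟩)
    have hqcm : ∀ x ∈ X, q (cm φ u v x) = q x := by
      intro x hx
      rw [hXdef, Finset.mem_insert] at hx
      rcases hx with h1 | h1
      · rw [h1, cm_v, hquv]
      · rw [hcmX x h1]
    have hsat : Sat φ f1 q (Adj D) := by
      intro a b hab
      obtain ⟨x, y, rfl, rfl, hxy⟩ := hlift a b hab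
      have := hE x y (Or.inl hxy)
      unfold ell at this ⊢
      rw [hpos, hpos] at this
      rw [hqcm x (hEX x y hxy).1, hqcm y (hEX x y hxy).2]
      exact this
    have hbars : Bars φ f1 q (vert D) := by
      intro x hx hx'
      have := hE x (φ x) (Or.inr ⟨hDX x hx, hDX _ hx', rfl⟩)
      unfold ell at this ⊢
      rwa [hpos, hpos, hcmX x hx, hcmX _ hx'] at this
    obtain ⟨A, τ, hA, hAq⟩ := hf1D q hsat hbars
    have haffF : AffInd φ f1 F0 := hf1.oneAnti φ hφ hφ' hz0 (by omega)
    obtain ⟨hA0, hτ0⟩ := haffF.uniq φ (by omega) hF0n A 0 hA (by simp) τ 0 (by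
      intro x hx
      rw [← hAq x (hF0 hx), hqF x hx]
      simp)
    have hzD : ∀ x ∈ vert D, q x = 0 := by
      intro x hx
      rw [hAq x hx, hA0, hτ0]
      simp
    ext1 x
    by_cases hx : x ∈ X
    · rw [← hqcm x hx]
      rw [hXdef, Finset.mem_insert] at hx
      rcases hx with h1 | h1
      · rw [h1, cm_v]; exact hzD u hDu
      · rw [hcmX x h1]; exact hzD x h1
    · exact hqout x hx
  · intro ε hε q _ hE
    exact step_row hφ hφ' huv hvu hv0 hε (hE u v (Or.inl hEuv))

end split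

end Pool.Agent.CSLBT
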