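import Pool.Agent.CSLBT.Link

set_option linter.unusedSectionVars false
set_option linter.unusedVariables false

namespace Pool.Agent.CSLBT

open Filter Matrix

section star

variable {V : Type*} [Fintype V] [DecidableEq V] {d : ℕ} {φ : V → V}

/-- facets of the boundary of a simplex -/
lemma mem_supp_bd_sg {σ F : Finset V} : F ∈ (bd (sg σ)).support ↔ ∃ w ∈ σ, F = σ.erase w := by
  constructor
  · intro h
    obtain ⟨G, hG, x, hx, rfl⟩ := mem_supp_bd h
    rw [mem_supp_sg] at hG
    subst hG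
    exact ⟨x, hx, rfl⟩
  · rintro ⟨w, hw, rfl⟩
    rw [mem_supp, bd_sg, Finsupp.finsetSum_apply, Finset.sum_eq_single w]
    · rw [sg_apply, if_pos rfl]
    · intro x hx hxw
      rw [sg_apply, if_neg]
      intro h
      have : x ∈ σ.erase w := Finset.mem_erase.mpr ⟨hxw, hx⟩
      rw [← h] at this
      simp at this
    · exact fun h => absurd hw h

/-- supports of sums -/
lemma mem_supp_add {S T : Ch V} {F : Finset V} : F ∈ (S + T).support ↔
    (F ∈ S.support ∧ F ∉ T.support) ∨ (F ∉ S.support ∧ F ∈ T.support) := by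
  rw [mem_supp, Finsupp.add_apply]
  by_cases h1 : F ∈ S.support <;> by_cases h2 : F ∈ T.support
  · rw [mem_supp.mp h1, mem_supp.mp h2]
    simp only [h1, h2, not_true_eq_false, and_false, false_and, or_self, iff_false]
    decide
  · rw [mem_supp.mp h1, Finsupp.notMem_support_iff.mp h2]
    simp [h1, h2]
  · rw [mem_supp.mp h2, Finsupp.notMem_support_iff.mp h1]
    simp [h1, h2]
  · rw [Finsupp.notMem_support_iff.mp h1, Finsupp.notMem_support_iff.mp h2]
    simp [h1, h2]

/-- replacing an edge whose link has few vertices -/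
lemma flip_edge {P : Ch V} (hPb : bd P = 0) (hPd : ∀ F ∈ P.support, F.card = d) (hd4 : 4 ≤ d)
    {u v : V} (huv : u ≠ v) {F0 : Finset V} (hF0 : F0 ∈ P.support) (hu0 : u ∈ F0) (hv0 : v ∈ F0)
    (hbound : ∀ W : Finset V, (∀ w ∈ W, w ≠ u ∧ w ≠ v ∧
      ∃ F ∈ P.support, u ∈ F ∧ v ∈ F ∧ w ∈ F) → W.card < d) :
    ∃ σ : Finset V, σ.card = d + 1 ∧ u ∈ σ ∧ v ∈ σ ∧ (∀ x ∈ σ, ∀ y ∈ σ, x ≠ y → Adj P x y) ∧
      ∀ F ∈ (P + bd (sg σ)).support, ¬ (u ∈ F ∧ v ∈ F) := by
  classical
  set ρ : Finset V := Finset.univ.filter (fun w => w ≠ u ∧ w ≠ v ∧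
    ∃ F ∈ P.support, u ∈ F ∧ v ∈ F ∧ w ∈ F) with hρdef
  have hmem : ∀ w, w ∈ ρ ↔ w ≠ u ∧ w ≠ v ∧ ∃ F ∈ P.support, u ∈ F ∧ v ∈ F ∧ w ∈ F := by
    intro w
    simp [hρdef]
  have hρc : ρ.card < d := hbound ρ fun w hw => (hmem w).mp hw
  have huρ : u ∉ ρ := fun h => ((hmem u).mp h).1 rfl
  have hvρ : v ∉ ρ := fun h => ((hmem v).mp h).2.1 rfl
  have hsub : ∀ F ∈ P.support, u ∈ F → v ∈ F → (F.erase u).erase v ⊆ ρ := by
    intro F hF hu hv w hw
    simp only [Finset.mem_erase] at hw
    exact (hmem w).mpr ⟨hw.2.1, hw.1, F, hF, hu, hv, hw.2.2⟩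
  have hcard2 : ∀ F ∈ P.support, u ∈ F → v ∈ F → ((F.erase u).erase v).card + 2 = d := by
    intro F hF hu hv
    have hvF : v ∈ F.erase u := Finset.mem_erase.mpr ⟨huv.symm, hv⟩
    rw [Finset.card_erase_of_mem hvF, Finset.card_erase_of_mem hu, hPd F hF]
    omega
  -- every vertex of a facet at the edge can be exchanged
  have hcross : ∀ F ∈ P.support, u ∈ F → v ∈ F → ∀ w ∈ (F.erase u).erase v,
      ∃ z ∈ ρ, z ∉ F ∧ insert z (F.erase w) ∈ P.support := by
    intro F hF hu hv w hw
    simp only [Finset.mem_erase] at hw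
    obtain ⟨z, hz, hF'⟩ := exists_cross hPb hF hw.2.2
    refine ⟨z, (hmem z).mpr ⟨fun h => hz (h ▸ hu), fun h => hz (h ▸ hv), _, hF', ?_, ?_, ?_⟩,
      hz, hF'⟩
    · exact Finset.mem_insert_of_mem (Finset.mem_erase.mpr ⟨hw.2.1.symm, hu⟩)
    · exact Finset.mem_insert_of_mem (Finset.mem_erase.mpr ⟨hw.1.symm, hv⟩)
    · exact Finset.mem_insert_self _ _
  have hρd : ρ.card + 1 = d := by
    obtain ⟨w, hw⟩ : ((F0.erase u).erase v).Nonempty := Finset.card_pos.mp (by
      have := hcard2 F0 hF0 hu0 hv0; omega)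
    obtain ⟨z, hz, hzF, -⟩ := hcross F0 hF0 hu0 hv0 w hw
    have h1 : insert z ((F0.erase u).erase v) ⊆ ρ := by
      intro x hx
      rw [Finset.mem_insert] at hx
      rcases hx with rfl | hx
      · exact hz
      · exact hsub F0 hF0 hu0 hv0 hx
    have h2 := Finset.card_le_card h1
    rw [Finset.card_insert_of_notMem (by simp [hzF])] at h2
    have := hcard2 F0 hF0 hu0 hv0
    omega
  -- facets at the edge
  have hform : ∀ F ∈ P.support, u ∈ F → v ∈ F → ∃ w ∈ ρ, F = insert u (insert v (ρ.erase w)) := by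
    intro F hF hu hv
    have h1 := hsub F hF hu hv
    have h2 := hcard2 F hF hu hv
    obtain ⟨w, hw, hwF⟩ := Finset.exists_mem_notMem_of_card_lt_card
      (s := (F.erase u).erase v) (t := ρ) (by omega)
    refine ⟨w, hw, ?_⟩
    have h3 : (F.erase u).erase v = ρ.erase w := by
      apply Finset.eq_of_subset_of_card_le
      · intro x hx
        exact Finset.mem_erase.mpr ⟨fun h => hwF (h ▸ hx), h1 hx⟩
      · rw [Finset.card_erase_of_mem hw]
        omega
    rw [← h3, Finset.insert_erase (Finset.mem_erase.mpr ⟨huv.symm, hv⟩), Finset.insert_erase hu]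
  obtain ⟨w0, hw0, hF0eq⟩ := hform F0 hF0 hu0 hv0
  have hall : ∀ w ∈ ρ, insert u (insert v (ρ.erase w)) ∈ P.support := by
    intro w hw
    by_cases h : w = w0
    · rw [h, ← hF0eq]; exact hF0
    have hwF0 : w ∈ (F0.erase u).erase v := by
      rw [Finset.mem_erase, Finset.mem_erase, hF0eq]
      refine ⟨fun h' => hvρ (h' ▸ hw), fun h' => huρ (h' ▸ hw), ?_⟩
      exact Finset.mem_insert_of_mem (Finset.mem_insert_of_mem (Finset.mem_erase.mpr ⟨h, hw⟩))
    obtain ⟨z, hz, hzF, hF'⟩ := hcross F0 hF0 hu0 hv0 w hwF0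
    simp only [Finset.mem_erase] at hwF0
    have hzw : z = w0 := by
      by_contra hne
      apply hzF
      rw [hF0eq]
      exact Finset.mem_insert_of_mem (Finset.mem_insert_of_mem (Finset.mem_erase.mpr ⟨hne, hz⟩))
    have huF' : u ∈ insert z (F0.erase w) :=
      Finset.mem_insert_of_mem (Finset.mem_erase.mpr ⟨hwF0.2.1.symm, hu0⟩)
    have hvF' : v ∈ insert z (F0.erase w) :=
      Finset.mem_insert_of_mem (Finset.mem_erase.mpr ⟨hwF0.1.symm, hv0⟩)
    obtain ⟨w', hw', heq⟩ := hform _ hF' huF' hvF'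
    have : w = w' := by
      by_contra hne
      have h1 : w ∈ insert u (insert v (ρ.erase w')) :=
        Finset.mem_insert_of_mem (Finset.mem_insert_of_mem (Finset.mem_erase.mpr ⟨hne, hw⟩))
      rw [← heq, Finset.mem_insert, Finset.mem_erase] at h1
      rcases h1 with h1 | h1
      · exact h (h1.trans hzw)
      · exact h1.1 rfl
    rw [this, ← heq]
    exact hF'
  set σ : Finset V := insert u (insert v ρ) with hσ
  have hvσ : v ∉ ρ := hvρ
  have huσ : u ∉ insert v ρ := by
    rw [Finset.mem_insert]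
    rintro (h | h)
    · exact huv h
    · exact huρ h
  have hσe : ∀ w ∈ ρ, σ.erase w = insert u (insert v (ρ.erase w)) := by
    intro w hw
    have e1 : u ≠ w := by rintro rfl; exact huρ hw
    have e2 : v ≠ w := by rintro rfl; exact hvρ hw
    rw [hσ, Finset.erase_insert_of_ne e1, Finset.erase_insert_of_ne e2]
  refine ⟨σ, ?_, Finset.mem_insert_self _ _,
    Finset.mem_insert_of_mem (Finset.mem_insert_self _ _), ?_, ?_⟩
  · rw [hσ, Finset.card_insert_of_notMem huσ, Finset.card_insert_of_notMem hvρ]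
    omega
  · intro x hx y hy hxy
    -- pick a vertex of ρ different from x and y
    obtain ⟨w, hw, hwx, hwy⟩ : ∃ w ∈ ρ, w ≠ x ∧ w ≠ y := by
      have h1 : ({x, y} : Finset V).card < ρ.card := by
        have := Finset.card_le_two (a := x) (b := y)
        omega
      obtain ⟨w, hw, hw'⟩ := Finset.exists_mem_notMem_of_card_lt_card h1
      simp only [Finset.mem_insert, Finset.mem_singleton, not_or] at hw'
      exact ⟨w, hw, hw'.1, hw'.2⟩
    refine ⟨hxy, σ.erase w, ?_, ?_, ?_⟩
    · rw [hσe w hw]; exact hall w hw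
    · exact Finset.mem_erase.mpr ⟨hwx.symm, hx⟩
    · exact Finset.mem_erase.mpr ⟨hwy.symm, hy⟩
  · rintro F hF ⟨huF, hvF⟩
    rw [mem_supp_add, mem_supp_bd_sg] at hF
    rcases hF with ⟨h1, h2⟩ | ⟨h1, w, hw, rfl⟩
    · obtain ⟨w, hw, rfl⟩ := hform F h1 huF hvF
      exact h2 ⟨w, Finset.mem_insert_of_mem (Finset.mem_insert_of_mem hw), (hσe w hw).symm⟩
    · have hwu : w ≠ u := by
        rintro rfl
        simp at huF
      have hwv : w ≠ v := by
        rintro rfl
        simp at hvF
      have hwρ : w ∈ ρ := by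
        rw [hσ, Finset.mem_insert, Finset.mem_insert] at hw
        rcases hw with h | h | h
        · exact absurd h hwu
        · exact absurd h hwv
        · exact h
      rw [hσe w hwρ] at h1
      exact h1 (hall w hwρ)

/-- a set of transversals closed under flips contains everything -/
lemma flip_closed (hφ : Function.Involutive φ) (hφ' : ∀ x, φ x ≠ x) {N : Finset V}
    (hN : ∀ x ∈ N, φ x ∈ N) {k : ℕ} (hNc : N.card < 2 * k + 2) (Pr : Finset V → Prop)
    (hflip : ∀ ρ, ρ ⊆ N → NoAnti φ ρ → ρ.card = k → Pr ρ → ∀ w ∈ ρ,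
      Pr (insert (φ w) (ρ.erase w))) (n : ℕ) :
    ∀ ρ0 : Finset V, ρ0 ⊆ N → NoAnti φ ρ0 → ρ0.card = k → Pr ρ0 →
      ∀ ρ, ρ ⊆ N → NoAnti φ ρ → ρ.card = k → (ρ \ ρ0).card = n → Pr ρ := by
  induction n with
  | zero =>
    intro ρ0 h1 h2 h3 h4 ρ h5 h6 h7 h8
    have h9 : ρ ⊆ ρ0 := by
      rwa [Finset.card_eq_zero, Finset.sdiff_eq_empty_iff_subset] at h8
    have : ρ = ρ0 := Finset.eq_of_subset_of_card_le h9 (by omega)
    rw [this]; exact h4
  | succ n ih =>
    intro ρ0 h1 h2 h3 h4 ρ h5 h6 h7 h8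
    obtain ⟨w, hw⟩ : (ρ \ ρ0).Nonempty := Finset.card_pos.mp (by omega)
    have hw' := Finset.mem_sdiff.mp hw
    have hφw : φ w ∈ ρ0 := by
      by_contra hcon
      have h10 : NoAnti φ (insert w ρ0) := by
        intro x hx hx'
        rw [Finset.mem_insert] at hx hx'
        rcases hx with rfl | hx
        · rcases hx' with h | h
          · exact hφ' _ h
          · exact hcon h
        · rcases hx' with h | h
          · exact hcon (by rw [← h, hφ]; exact hx)
          · exact h2 x hx h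
      have h11 := noAnti_card (X := N) hφ h10 (by
        intro x hx
        rw [Finset.mem_insert] at hx
        rcases hx with rfl | hx
        · exact h5 hw'.1
        · exact h1 hx) (by
        intro x hx
        rw [Finset.mem_insert] at hx
        rcases hx with rfl | hx
        · exact hN _ (h5 hw'.1)
        · exact hN _ (h1 hx))
      rw [Finset.card_insert_of_notMem hw'.2] at h11
      omega
    have hfl := hflip ρ0 h1 h2 h3 h4 (φ w) hφw
    rw [hφ] at hfl
    have hwe : w ∉ ρ0.erase (φ w) := fun h => hw'.2 (Finset.mem_of_mem_erase h)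
    refine ih (insert w (ρ0.erase (φ w))) ?_ ?_ ?_ hfl ρ h5 h6 h7 ?_
    · intro x hx
      rw [Finset.mem_insert] at hx
      rcases hx with rfl | hx
      · exact h5 hw'.1
      · exact h1 (Finset.mem_of_mem_erase hx)
    · intro x hx hx'
      rw [Finset.mem_insert, Finset.mem_erase] at hx hx'
      rcases hx with rfl | hx
      · rcases hx' with h | h
        · exact hφ' _ h
        · exact h.1 rfl
      · rcases hx' with h | h
        · exact hx.1 (by rw [← h, hφ])
        · exact h2 x hx.2 h.2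
    · rw [Finset.card_insert_of_notMem hwe, Finset.card_erase_of_mem hφw]
      have : 0 < ρ0.card := Finset.card_pos.mpr ⟨_, hφw⟩
      omega
    · have : ρ \ insert w (ρ0.erase (φ w)) = (ρ \ ρ0).erase w := by
        ext x
        simp only [Finset.mem_sdiff, Finset.mem_insert, Finset.mem_erase, not_or, not_and]
        constructor
        · rintro ⟨h9, h10, h11⟩
          refine ⟨h10, h9, fun h12 => ?_⟩
          have h13 : x ≠ φ w := by
            rintro rfl
            exact h6 w hw'.1 h9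
          exact h11 h13 h12
        · rintro ⟨h9, h10, h11⟩
          exact ⟨h10, h9, fun _ => h11⟩
      rw [this, Finset.card_erase_of_mem hw]
      omega

/-- vertices at `v` in a small symmetric set can be flipped -/
lemma flipN (hφ : Function.Involutive φ) (hφ' : ∀ x, φ x ≠ x) {S : Ch V} (hb : bd S = 0)
    (hd : ∀ F ∈ S.support, F.card = d) (hno : ∀ F ∈ S.support, NoAnti φ F) {v : V}
    {N : Finset V} (hN : ∀ x ∈ N, φ x ∈ N) (hNc : N.card < 2 * d)
    (hFN : ∀ F ∈ S.support, v ∈ F → F.erase v ⊆ N) {F : Finset V} (hF : F ∈ S.support)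
    (hv : v ∈ F) {w : V} (hw : w ∈ F.erase v) : insert (φ w) (F.erase w) ∈ S.support := by
  rw [Finset.mem_erase] at hw
  obtain ⟨z, hz, hF'⟩ := exists_cross hb hF hw.2
  have hvF' : v ∈ insert z (F.erase w) :=
    Finset.mem_insert_of_mem (Finset.mem_erase.mpr ⟨hw.1.symm, hv⟩)
  have hzv : z ≠ v := fun h => hz (h ▸ hv)
  have hzN : z ∈ N := hFN _ hF' hvF' (Finset.mem_erase.mpr ⟨hzv, Finset.mem_insert_self _ _⟩)
  have hzw : z = φ w := by
    by_contra hne
    have h1 : φ z ∉ F := by
      intro h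
      have hne' : φ z ≠ w := fun h' => hne (by rw [← h', hφ])
      exact hno _ hF' z (Finset.mem_insert_self _ _)
        (Finset.mem_insert_of_mem (Finset.mem_erase.mpr ⟨hne', h⟩))
    have h2 : NoAnti φ (insert z (F.erase v)) := by
      intro x hx hx'
      rw [Finset.mem_insert, Finset.mem_erase] at hx hx'
      rcases hx with rfl | hx
      · rcases hx' with h | h
        · exact hφ' _ h
        · exact h1 h.2
      · rcases hx' with h | h
        · exact h1 (by rw [← h, hφ]; exact hx.2)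
        · exact hno F hF x hx.2 h.2
    have h3 := noAnti_card (X := N) hφ h2 (by
      intro x hx
      rw [Finset.mem_insert] at hx
      rcases hx with rfl | hx
      · exact hzN
      · exact hFN F hF hv hx) (by
      intro x hx
      rw [Finset.mem_insert] at hx
      rcases hx with rfl | hx
      · exact hN _ hzN
      · exact hN _ (hFN F hF hv hx))
    rw [Finset.card_insert_of_notMem (fun h => hz (Finset.mem_of_mem_erase h)),
      Finset.card_erase_of_mem hv, hd F hF] at h3
    have : 0 < F.card := Finset.card_pos.mpr ⟨v, hv⟩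
    rw [hd F hF] at this
    omega
  rw [← hzw]
  exact hF'

/-- all transversals of the neighbourhood occur -/
lemma transN (hφ : Function.Involutive φ) (hφ' : ∀ x, φ x ≠ x) {S : Ch V} (hb : bd S = 0)
    (hd : ∀ F ∈ S.support, F.card = d) (hno : ∀ F ∈ S.support, NoAnti φ F) {v : V}
    (hv : v ∈ vert S)
    {N : Finset V} (hN : ∀ x ∈ N, φ x ∈ N) (hNc : N.card < 2 * d) (hvN : v ∉ N)
    (hFN : ∀ F ∈ S.support, v ∈ F → F.erase v ⊆ N) {ρ : Finset V} (hρ : ρ ⊆ N)
    (hρn : NoAnti φ ρ) (hρc : ρ.card + 1 = d) : insert v ρ ∈ S.support := by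
  obtain ⟨F, hF, hvF⟩ := mem_vert.mp hv
  refine flip_closed hφ hφ' hN (k := ρ.card) (by omega) (fun ρ => insert v ρ ∈ S.support) ?_ _
    (F.erase v) (hFN F hF hvF) ?_ ?_ ?_ ρ hρ hρn rfl rfl
  · intro ρ' h1 h2 h3 h4 w hw
    have hvρ : v ∉ ρ' := fun h => hvN (h1 h)
    have := flipN (d := d) hφ hφ' hb hd hno hN hNc hFN h4 (Finset.mem_insert_self _ _)
      (w := w) (by rw [Finset.erase_insert hvρ]; exact hw)
    have e1 : v ≠ w := by rintro rfl; exact hvρ hw
    rw [Finset.erase_insert_of_ne e1, Finset.insert_comm] at this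
    exact this
  · intro x hx hx'
    exact hno F hF x (Finset.mem_of_mem_erase hx) (Finset.mem_of_mem_erase hx')
  · rw [Finset.card_erase_of_mem hvF, hd F hF]
    omega
  · rw [Finset.insert_erase hvF]
    exact hF

/-- the sum of all transversals -/
noncomputable def kap (φ : V → V) (d : ℕ) (X : Finset V) : Ch V := by
  classical
  exact ∑ ρ ∈ X.powerset.filter (fun ρ => NoAnti φ ρ ∧ ρ.card = d), sg ρ

lemma mem_kap {X F : Finset V} : F ∈ (kap φ d X).support ↔
    F ⊆ X ∧ NoAnti φ F ∧ F.card = d := by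
  classical
  rw [mem_supp, kap, Finsupp.finsetSum_apply]
  simp only [sg_apply]
  rw [Finset.sum_ite_eq']
  simp only [Finset.mem_filter, Finset.mem_powerset]
  split_ifs with h
  · simp [h]
  · simp only [h, iff_false]
    decide

lemma bd_kap (hφ : Function.Involutive φ) (hφ' : ∀ x, φ x ≠ x) {X : Finset V}
    (hX : ∀ x ∈ X, φ x ∈ X) : bd (kap φ d X) = 0 := by
  classical
  rw [kap, map_sum]
  simp only [bd_sg]
  rw [Finset.sum_sigma']
  refine Finset.sum_involution (fun p _ => ⟨insert (φ p.2) (p.1.erase p.2), φ p.2⟩) ?_ ?_ ?_ ?_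
  · rintro ⟨ρ, w⟩ h
    simp only [Finset.mem_sigma, Finset.mem_filter, Finset.mem_powerset] at h
    simp only
    rw [Finset.erase_insert (fun h' => h.1.2.1 w h.2 (Finset.mem_of_mem_erase h'))]
    exact add_self_ch _
  · rintro ⟨ρ, w⟩ h _ heq
    have h1 := congrArg Sigma.snd heq
    exact hφ' w h1
  · rintro ⟨ρ, w⟩ h
    simp only [Finset.mem_sigma, Finset.mem_filter, Finset.mem_powerset] at h ⊢
    obtain ⟨⟨h1, h2, h3⟩, h4⟩ := h
    refine ⟨⟨?_, ?_, ?_⟩, Finset.mem_insert_self _ _⟩
    · intro x hx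
      rw [Finset.mem_insert] at hx
      rcases hx with rfl | hx
      · exact hX w (h1 h4)
      · exact h1 (Finset.mem_of_mem_erase hx)
    · intro x hx hx'
      rw [Finset.mem_insert, Finset.mem_erase] at hx hx'
      rcases hx with rfl | hx
      · rcases hx' with h | h
        · exact hφ' _ h
        · rw [hφ] at h; exact h.1 rfl
      · rcases hx' with h | h
        · exact hx.1 (hφ.injective h)
        · exact h2 x hx.2 h.2
    · rw [Finset.card_insert_of_notMem (fun h' => h2 w h4 (Finset.mem_of_mem_erase h')),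
        Finset.card_erase_of_mem h4, h3]
      have : 0 < ρ.card := Finset.card_pos.mpr ⟨w, h4⟩
      omega
  · rintro ⟨ρ, w⟩ h
    simp only [Finset.mem_sigma, Finset.mem_filter, Finset.mem_powerset] at h
    obtain ⟨⟨h1, h2, h3⟩, h4⟩ := h
    simp only [hφ w]
    rw [Finset.erase_insert (fun h' => h2 w h4 (Finset.mem_of_mem_erase h')),
      Finset.insert_erase h4]

lemma con_bd (v u : V) (huv : u ≠ v) (T : Ch V) : bd (con v u T) = con v u (bd T) := by
  have h1 := homotopy v u huv T
  have e1 := congrArg bd h1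
  simp only [map_add, bd_bd, zero_add] at e1
  have e2 := homotopy v u huv (bd T)
  simp only [bd_bd, map_zero, add_zero] at e2
  rw [e2] at e1
  exact (add_left_cancel e1).symm

end star

end Pool.Agent.CSLBT
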