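import Pool.Agent.CSLBT.TopInv

/-!
# Invariance of domain in a chart
-/

set_option linter.unusedSectionVars false
set_option linter.unusedVariables false

open Metric Set Filter Topology Module
open scoped Topology ContDiff unitInterval

namespace Pool.Agent.CSLBT.Topo

section gen

variable {X : Type*} [NormedAddCommGroup X] [NormedSpace ℝ X] [FiniteDimensional ℝ X]
variable {Y : Type*} [NormedAddCommGroup Y] [NormedSpace ℝ Y] [FiniteDimensional ℝ Y]

/-- Invariance of domain for normed spaces of equal dimension. -/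
theorem iod_nhds (h : finrank ℝ X = finrank ℝ Y) (f : X → Y) (x0 : X) (s : Set X)
    (hs : s ∈ 𝓝 x0) (hc : ContinuousOn f s) (hi : InjOn f s) : f '' s ∈ 𝓝 (f x0) := by
  let L : EuclideanSpace ℝ (Fin (finrank ℝ X)) ≃L[ℝ] X :=
    ContinuousLinearEquiv.ofFinrankEq (by simp)
  let L' : EuclideanSpace ℝ (Fin (finrank ℝ X)) ≃L[ℝ] Y :=
    ContinuousLinearEquiv.ofFinrankEq (by simp [h])
  have h1 : L ⁻¹' s ∈ 𝓝 (L.symm x0) := by
    apply L.continuous.continuousAt
    rw [L.apply_symm_apply]; exact hs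
  obtain ⟨r, hr, hrs⟩ := Metric.nhds_basis_closedBall.mem_iff.1 h1
  have h2 := iod rfl (fun x => L'.symm (f (L x))) (L.symm x0) r hr
    (L'.symm.continuous.comp_continuousOn (hc.comp L.continuous.continuousOn (fun x hx => hrs hx)))
    (fun x hx y hy hxy => L.injective (hi (hrs hx) (hrs hy) (L'.symm.injective hxy)))
  have h3 : L'.symm ⁻¹' ((fun x => L'.symm (f (L x))) '' closedBall (L.symm x0) r) ∈ 𝓝 (f x0) := by
    apply L'.symm.continuous.continuousAt
    have : f x0 = f (L (L.symm x0)) := by rw [L.apply_symm_apply]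
    rw [this]; exact h2
  refine Filter.mem_of_superset h3 ?_
  rintro y ⟨x, hx, hxy⟩
  exact ⟨L x, hrs hx, L'.symm.injective hxy⟩

/-- no continuous injection into a space of smaller dimension -/
theorem no_inj_nhds (h : finrank ℝ Y < finrank ℝ X) (f : X → Y) (x0 : X) (s : Set X)
    (hs : s ∈ 𝓝 x0) (hc : ContinuousOn f s) (hi : InjOn f s) : False := by
  let L : EuclideanSpace ℝ (Fin (finrank ℝ X)) ≃L[ℝ] X :=
    ContinuousLinearEquiv.ofFinrankEq (by simp)
  let L' : EuclideanSpace ℝ (Fin (finrank ℝ Y)) ≃L[ℝ] Y :=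
    ContinuousLinearEquiv.ofFinrankEq (by simp)
  have h1 : L ⁻¹' s ∈ 𝓝 (L.symm x0) := by
    apply L.continuous.continuousAt
    rw [L.apply_symm_apply]; exact hs
  obtain ⟨r, hr, hrs⟩ := Metric.nhds_basis_ball.mem_iff.1 h1
  exact no_inj (by simpa using h) (ball (L.symm x0) r) isOpen_ball ⟨_, mem_ball_self hr⟩
    (fun x => L'.symm (f (L x)))
    (L'.symm.continuous.comp_continuousOn (hc.comp L.continuous.continuousOn (fun x hx => hrs hx)))
    (fun x hx y hy hxy => L.injective (hi (hrs hx) (hrs hy) (L'.symm.injective hxy)))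

end gen

section chart

variable {M : Type*} [TopologicalSpace M]
variable {E : Type*} [NormedAddCommGroup E] [NormedSpace ℝ E] [FiniteDimensional ℝ E]
variable {X : Type*} [NormedAddCommGroup X] [NormedSpace ℝ X] [FiniteDimensional ℝ X]

/-- the basic set-up for maps into `M` -/
lemma into_aux (e : OpenPartialHomeomorph M E) (τ : X → M) (u0 : X) (s : Set X) (hs : s ∈ 𝓝 u0)
    (hc : ContinuousOn τ s) (hi : InjOn τ s) (he : τ u0 ∈ e.source) :
    s ∩ τ ⁻¹' e.source ∈ 𝓝 u0 ∧ ContinuousOn (fun u => e (τ u)) (s ∩ τ ⁻¹' e.source) ∧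
      InjOn (fun u => e (τ u)) (s ∩ τ ⁻¹' e.source) := by
  refine ⟨?_, ?_, ?_⟩
  · exact Filter.inter_mem hs ((hc.continuousAt hs) (e.open_source.mem_nhds he))
  · exact e.continuousOn.comp (hc.mono inter_subset_left) (fun u hu => hu.2)
  · intro u hu v hv huv
    exact hi hu.1 hv.1 (e.injOn hu.2 hv.2 huv)

theorem into_nhds (e : OpenPartialHomeomorph M E) (hX : finrank ℝ X = finrank ℝ E)
    (τ : X → M) (u0 : X) (s : Set X) (hs : s ∈ 𝓝 u0)
    (hc : ContinuousOn τ s) (hi : InjOn τ s) (he : τ u0 ∈ e.source) : τ '' s ∈ 𝓝 (τ u0) := by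
  obtain ⟨h1, h2, h3⟩ := into_aux e τ u0 s hs hc hi he
  have h4 := iod_nhds hX _ u0 _ h1 h2 h3
  have h5 : e ⁻¹' ((fun u => e (τ u)) '' (s ∩ τ ⁻¹' e.source)) ∈ 𝓝 (τ u0) :=
    (e.continuousAt he) h4
  refine Filter.mem_of_superset (Filter.inter_mem h5 (e.open_source.mem_nhds he)) ?_
  rintro x ⟨⟨u, hu, hux⟩, hx⟩
  exact ⟨u, hu.1, e.injOn hu.2 hx hux⟩

theorem into_false (e : OpenPartialHomeomorph M E) (hX : finrank ℝ E < finrank ℝ X)
    (τ : X → M) (u0 : X) (s : Set X) (hs : s ∈ 𝓝 u0)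
    (hc : ContinuousOn τ s) (hi : InjOn τ s) (he : τ u0 ∈ e.source) : False := by
  obtain ⟨h1, h2, h3⟩ := into_aux e τ u0 s hs hc hi he
  exact no_inj_nhds hX _ u0 _ h1 h2 h3

/-- the basic set-up for maps out of `M` -/
lemma out_aux (e : OpenPartialHomeomorph M E) (κ : M → X) (x : M) (O : Set M) (hO : O ∈ 𝓝 x)
    (hc : ContinuousOn κ O) (hi : InjOn κ O) (he : x ∈ e.source) :
    e.target ∩ e.symm ⁻¹' O ∈ 𝓝 (e x) ∧
      ContinuousOn (fun y => κ (e.symm y)) (e.target ∩ e.symm ⁻¹' O) ∧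
      InjOn (fun y => κ (e.symm y)) (e.target ∩ e.symm ⁻¹' O) := by
  refine ⟨?_, ?_, ?_⟩
  · refine Filter.inter_mem (e.open_target.mem_nhds (e.map_source he)) ?_
    apply e.continuousAt_symm (e.map_source he)
    rw [e.left_inv he]; exact hO
  · exact hc.comp (e.continuousOn_symm.mono inter_subset_left) (fun u hu => hu.2)
  · intro u hu v hv huv
    exact e.symm.injOn hu.1 hv.1 (hi hu.2 hv.2 huv)

theorem out_nhds (e : OpenPartialHomeomorph M E) (hX : finrank ℝ E = finrank ℝ X)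
    (κ : M → X) (x : M) (O : Set M) (hO : O ∈ 𝓝 x)
    (hc : ContinuousOn κ O) (hi : InjOn κ O) (he : x ∈ e.source) : κ '' O ∈ 𝓝 (κ x) := by
  obtain ⟨h1, h2, h3⟩ := out_aux e κ x O hO hc hi he
  have h4 := iod_nhds hX _ (e x) _ h1 h2 h3
  rw [e.left_inv he] at h4
  refine Filter.mem_of_superset h4 ?_
  rintro _ ⟨u, hu, rfl⟩
  exact ⟨e.symm u, hu.2, rfl⟩

theorem out_false (e : OpenPartialHomeomorph M E) (hX : finrank ℝ X < finrank ℝ E)
    (κ : M → X) (x : M) (O : Set M) (hO : O ∈ 𝓝 x)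
    (hc : ContinuousOn κ O) (hi : InjOn κ O) (he : x ∈ e.source) : False := by
  obtain ⟨h1, h2, h3⟩ := out_aux e κ x O hO hc hi he
  exact no_inj_nhds hX _ (e x) _ h1 h2 h3

end chart

end Pool.Agent.CSLBT.Topo
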