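import Mathlib

/-!
# Simplicial spheres and manifolds
-/

namespace Pool.Agent.CSLBT

variable {V : Type*} [Fintype V]

/-- The geometric realization of `K`, the union of its closed simplices in barycentric
coordinates: the functions `α : V → ℝ` that are nonnegative, have sum `1` and vanish outside some
face of `K`. It carries the subspace topology of `V → ℝ`. -/
def realization (K : AbstractSimplicialComplex V) : Set (V → ℝ) :=
  {α | (∀ v, 0 ≤ α v) ∧ ∑ v, α v = 1 ∧ ∃ F ∈ K.faces, ∀ v, v ∉ F → α v = 0}

/-- `K` is a simplicial sphere of dimension `m`: its geometric realization is homeomorphic to the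
unit sphere of `ℝ^(m+1)`. -/
def IsSimplicialSphere (K : AbstractSimplicialComplex V) (m : ℕ) : Prop :=
  Nonempty (realization K ≃ₜ Metric.sphere (0 : EuclideanSpace ℝ (Fin (m + 1))) 1)

/-- `K` is a connected simplicial manifold of dimension `m` (without boundary): its geometric
realization is connected and every point has an open neighbourhood homeomorphic to an open subset
of `ℝ^m`. -/
structure IsConnectedManifold (K : AbstractSimplicialComplex V) (m : ℕ) : Prop where
  conn : ConnectedSpace (realization K)
  chart : ∀ x : realization K,
    ∃ e : OpenPartialHomeomorph (realization K) (EuclideanSpace ℝ (Fin m)), x ∈ e.source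

/-- `K` is a strongly connected pseudomanifold of dimension `d - 1`: it is pure of dimension
`d - 1`, every `(d-2)`-face is in exactly two facets, and any two facets are joined by a chain of
facets in which consecutive ones share a `(d-2)`-face. -/
structure IsPseudomanifold [DecidableEq V] (K : AbstractSimplicialComplex V) (d : ℕ) : Prop where
  pure : ∀ F ∈ K.faces, ∃ G ∈ K.faces, F ⊆ G ∧ G.card = d
  ridge : ∀ R ∈ K.faces, R.card + 1 = d →
    {G : Finset V | G ∈ K.faces ∧ R ⊆ G ∧ G.card = d}.ncard = 2
  nonempty : K.faces.Nonempty
  strong : ∀ G ∈ K.faces, ∀ G' ∈ K.faces, G.card = d → G'.card = d →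
    Relation.ReflTransGen (fun A B : Finset V => A ∈ K.faces ∧ B ∈ K.faces ∧ A.card = d ∧
      B.card = d ∧ (A ∩ B).card + 1 = d) G G'

end Pool.Agent.CSLBT
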