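import Pool.Agent.CSLBT.TopThin

/-!
# Thin sets do not separate Euclidean space
-/

set_option linter.unusedSectionVars false
set_option linter.unusedVariables false

open Metric Set Filter Topology Module
open scoped Topology ContDiff unitInterval

namespace Pool.Agent.CSLBT.Topo

variable {E : Type*} [NormedAddCommGroup E] [InnerProductSpace ℝ E] [FiniteDimensional ℝ E]
variable {V : Type*} [Fintype V]

/-- inversion in the unit sphere -/
noncomputable def inv (y : E) : E := (‖y‖ ^ 2)⁻¹ • y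

lemma inv_zero : inv (0 : E) = 0 := by simp [inv]

lemma norm_inv' (y : E) : ‖inv y‖ = ‖y‖⁻¹ := by
  by_cases hy : y = 0
  · simp [hy, inv_zero]
  · have : ‖y‖ ≠ 0 := norm_ne_zero_iff.2 hy
    rw [inv, norm_smul, norm_inv, norm_pow, norm_norm]
    field_simp

lemma inv_ne_zero' {y : E} (hy : y ≠ 0) : inv y ≠ 0 := by
  rw [← norm_ne_zero_iff, norm_inv']
  exact inv_ne_zero (norm_ne_zero_iff.2 hy)

lemma inv_inv' (y : E) : inv (inv y) = y := by
  by_cases hy : y = 0
  · simp [hy, inv_zero]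
  · have : ‖y‖ ≠ 0 := norm_ne_zero_iff.2 hy
    have h1 : inv (inv y) = (‖inv y‖ ^ 2)⁻¹ • inv y := rfl
    rw [h1, norm_inv', inv, smul_smul]
    have : ((‖y‖⁻¹ ^ 2)⁻¹ * (‖y‖ ^ 2)⁻¹) = 1 := by field_simp
    rw [this, one_smul]

lemma inv_injective : Function.Injective (inv : E → E) :=
  Function.LeftInverse.injective inv_inv'

lemma inv_cont : ContinuousOn (inv : E → E) {0}ᶜ := by
  apply ContinuousOn.smul
  · apply ContinuousOn.inv₀
    · fun_prop
    · intro x hx
      have : ‖x‖ ≠ 0 := norm_ne_zero_iff.2 hx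
      positivity
  · fun_prop

/-- Thin closed sets do not separate Euclidean space. -/
theorem nonsep {T : Set (V → ℝ)} (hT : Thin (finrank ℝ E) T) {V1 V2 : Set E} (h1 : IsOpen V1)
    (h2 : IsOpen V2) (hd : Disjoint V1 V2) (hn1 : V1.Nonempty) (hn2 : V2.Nonempty)
    (j : E → (V → ℝ)) (hjc : ContinuousOn j (V1 ∪ V2)ᶜ) (hji : InjOn j (V1 ∪ V2)ᶜ)
    (hjT : MapsTo j (V1 ∪ V2)ᶜ T) : False := by
  classical
  obtain ⟨p, hp⟩ := hn1
  obtain ⟨q, hq⟩ := hn2
  have hq1 : q ∉ V1 := Set.disjoint_right.1 hd hq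
  let ι : E → E := fun y => q + inv y
  have hι0 : ι 0 = q := by simp [ι, inv_zero]
  have hιc : ContinuousOn ι {0}ᶜ := continuousOn_const.add inv_cont
  have hιi : Function.Injective ι := fun x y hxy => inv_injective (add_left_cancel hxy)
  obtain ⟨δ, hδ, hδV⟩ := Metric.isOpen_iff.1 h2 q hq
  have hfar : ∀ y : E, ι y ∉ V2 → ‖y‖ ≤ δ⁻¹ := by
    intro y hy
    by_contra hcon
    push Not at hcon
    apply hy
    apply hδV
    rw [mem_ball, dist_eq_norm]
    show ‖q + inv y - q‖ < δ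
    rw [add_sub_cancel_left, norm_inv']
    exact inv_lt_of_inv_lt₀ hδ hcon
  have hop : ∀ U : Set E, IsOpen U → IsOpen ({0}ᶜ ∩ ι ⁻¹' U) := fun U hU =>
    hιc.isOpen_inter_preimage isOpen_compl_singleton hU
  let W : Set E := {y | ι y ∈ V1}
  let A : Set E := {y | y = 0 ∨ ι y ∈ (V1 ∪ V2)ᶜ}
  have hW0 : (0 : E) ∉ W := by
    show ι 0 ∉ V1
    rw [hι0]; exact hq1
  have hW : IsOpen W := by
    have : W = {0}ᶜ ∩ ι ⁻¹' V1 := by
      ext y
      constructor
      · intro hy
        refine ⟨?_, hy⟩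
        rintro rfl
        exact hW0 hy
      · exact fun hy => hy.2
    rw [this]; exact hop V1 h1
  have hWb : Bornology.IsBounded W := by
    refine (isBounded_closedBall (x := (0:E)) (r := δ⁻¹)).subset ?_
    intro y hy
    rw [mem_closedBall, dist_zero_right]
    exact hfar y (Set.disjoint_left.1 hd hy)
  have hAcl : IsClosed A := by
    rw [← isOpen_compl_iff]
    have : Aᶜ = {0}ᶜ ∩ ι ⁻¹' (V1 ∪ V2) := by
      ext y
      simp only [A, mem_compl_iff, mem_setOf_eq, not_or, not_not, mem_inter_iff,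
        mem_singleton_iff, mem_preimage]
    rw [this]; exact hop _ (h1.union h2)
  have hA : IsCompact A := by
    refine (isCompact_closedBall (0:E) δ⁻¹).of_isClosed_subset hAcl ?_
    rintro y (rfl | hy)
    · simp [hδ.le]
    · rw [mem_closedBall, dist_zero_right]
      exact hfar y (fun h => hy (Or.inr h))
  have hWA : frontier W ⊆ A := by
    intro y hy
    by_contra hyA
    have hy' : y ≠ 0 ∧ ι y ∈ V1 ∪ V2 := by
      simpa only [A, mem_setOf_eq, not_or, mem_compl_iff, not_not] using hyA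
    rcases hy'.2 with h | h
    · have : y ∈ interior W := by rw [hW.interior_eq]; exact h
      exact hy.2 this
    · have hnb : ({0}ᶜ ∩ ι ⁻¹' V2) ∈ 𝓝 y := (hop V2 h2).mem_nhds ⟨hy'.1, h⟩
      obtain ⟨w, hw1, hw2⟩ := mem_closure_iff_nhds.1 hy.1 _ hnb
      exact Set.disjoint_left.1 hd hw2 hw1.2
  have hdWA : Disjoint W A := by
    rw [Set.disjoint_left]
    rintro y hy (rfl | hy')
    · exact hW0 hy
    · exact hy' (Or.inl hy)
  have hWne : W.Nonempty := by
    refine ⟨inv (p - q), ?_⟩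
    show q + inv (inv (p - q)) ∈ V1
    rw [inv_inv', add_sub_cancel]; exact hp
  have hmaps : MapsTo ι (A \ {0}) (V1 ∪ V2)ᶜ := by
    rintro y ⟨rfl | hy, hy0⟩
    · exact absurd rfl hy0
    · exact hy
  refine nonsep_core hA (approx_thin hT hA (z := 0) (Or.inl rfl) (fun y => j (ι y)) ?_ ?_ ?_)
    hW hWb hWA hdWA hWne
  · exact hjc.comp (hιc.mono (fun y hy => hy.2)) hmaps
  · intro x hx y hy hxy
    exact hιi (hji (hmaps hx) (hmaps hy) hxy)
  · exact fun y hy => hjT (hmaps hy)

end Pool.Agent.CSLBT.Topo
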