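import Pool.Agent.CSLBT.TopStrong

/-!
# The lower bound theorem for simplicial spheres, manifolds and pseudomanifolds
-/

set_option linter.unusedSectionVars false
set_option linter.unusedVariables false

open Metric Set Filter Topology Module
open scoped Topology ContDiff unitInterval

namespace Pool.Agent.CSLBT

variable {V : Type*} [Fintype V] [DecidableEq V] {n d : ℕ} {K : AbstractSimplicialComplex V}
  {φ : V → V}

/-- Simplicial spheres are connected simplicial manifolds. -/
theorem IsSimplicialSphere.manifold {m : ℕ} (hm : 1 ≤ m) (hK : IsSimplicialSphere K m) :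
    IsConnectedManifold K m := by
  obtain ⟨h⟩ := hK
  refine ⟨?_, fun x => ?_⟩
  · have h1 : IsConnected (sphere (0 : EuclideanSpace ℝ (Fin (m + 1))) 1) := by
      apply isConnected_sphere _ _ zero_le_one
      rw [← Module.finrank_eq_rank, finrank_euclideanSpace, Fintype.card_fin]
      exact_mod_cast (by omega : 1 < m + 1)
    have h2 : ConnectedSpace (sphere (0 : EuclideanSpace ℝ (Fin (m + 1))) 1) :=
      isConnected_iff_connectedSpace.1 h1
    exact h.symm.surjective.connectedSpace h.symm.continuous
  · have hf : Fact (finrank ℝ (EuclideanSpace ℝ (Fin (m + 1))) = m + 1) := ⟨by simp⟩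
    refine ⟨h.toOpenPartialHomeomorph.trans (chartAt (EuclideanSpace ℝ (Fin m)) (h x)), ?_⟩
    rw [OpenPartialHomeomorph.trans_source]
    refine ⟨mem_univ _, ?_⟩
    exact mem_chart_source (EuclideanSpace ℝ (Fin m)) (h x)

/-- the ridges of a cycle inside a pseudomanifold -/
lemma IsPseudomanifold.minCyc (hK : IsPseudomanifold K d) (hd : 2 ≤ d) :
    MinCyc d (chOf (facets K d)) := by
  classical
  set 𝓕 := facets K d with h𝓕
  have hmem : ∀ G, G ∈ 𝓕 ↔ G ∈ K.faces ∧ G.card = d := fun G => mem_facets
  have hcard : ∀ G ∈ 𝓕, G.card = d := fun G hG => ((hmem G).mp hG).2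
  have hne : 𝓕.Nonempty := by
    obtain ⟨F, hF⟩ := hK.nonempty
    obtain ⟨G, hG, -, hGc⟩ := hK.pure F hF
    exact ⟨G, (hmem G).mpr ⟨hG, hGc⟩⟩
  have hridge : ∀ R : Finset V, R.card + 1 = d → (∃ G ∈ 𝓕, R ⊆ G) →
      (𝓕.filter (fun G => R ⊆ G)).card = 2 := by
    rintro R hR ⟨G, hG, hRG⟩
    have hRne : R.Nonempty := Finset.card_pos.mp (by omega)
    have hRK := down K ((hmem G).mp hG).1 hRG hRne
    have := hK.ridge R hRK hR
    rw [← this, ← Set.ncard_coe_finset]
    congr 1
    ext G'
    simp only [Finset.coe_filter, hmem]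
    constructor
    · rintro ⟨⟨h1, h2⟩, h3⟩
      exact ⟨h1, h3, h2⟩
    · rintro ⟨h1, h3, h2⟩
      exact ⟨⟨h1, h2⟩, h3⟩
  have hbd : bd (chOf 𝓕) = 0 := by
    ext R
    by_cases hR : R.card + 1 = d
    · rw [bd_apply _ (by rw [chOf_supp]; exact hcard) hR, chOf_supp]
      by_cases h : ∃ G ∈ 𝓕, R ⊆ G
      · rw [hridge R hR h]; rfl
      · push Not at h
        rw [Finset.filter_false_of_mem (fun G hG => h G hG)]
        rfl
    · rw [Finsupp.coe_zero, Pi.zero_apply, ← Finsupp.notMem_support_iff]
      intro h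
      obtain ⟨F, hF, x, hx, rfl⟩ := mem_supp_bd h
      rw [chOf_supp] at hF
      apply hR
      rw [Finset.card_erase_of_mem hx, hcard F hF]
      omega
  refine ⟨?_, ⟨hbd, by rw [chOf_supp]; exact hcard⟩, ?_⟩
  · intro h
    obtain ⟨G, hG⟩ := hne
    rw [← chOf_supp 𝓕, h] at hG
    simp at hG
  · intro X hX hXs
    rw [chOf_supp] at hXs
    by_cases hX0 : X = 0
    · left; exact hX0
    right
    obtain ⟨G0, hG0⟩ := Finsupp.support_nonempty_iff.mpr hX0
    apply ch_ext_supp
    rw [chOf_supp]
    apply Finset.Subset.antisymm hXs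
    intro G' hG'
    have hreach := hK.strong G0 ((hmem G0).1 (hXs hG0)).1 G' ((hmem G').1 hG').1
      (hcard G0 (hXs hG0)) (hcard G' hG')
    clear hG'
    induction hreach with
    | refl => exact hG0
    | @tail A B _ hstep ih =>
      obtain ⟨hA, hB, hAc, hBc, hAB⟩ := hstep
      have hA𝓕 : A ∈ 𝓕 := (hmem A).2 ⟨hA, hAc⟩
      have hB𝓕 : B ∈ 𝓕 := (hmem B).2 ⟨hB, hBc⟩
      have hne : A ≠ B := by
        rintro rfl
        rw [Finset.inter_self] at hAB
        omega
      have h4 := hridge (A ∩ B) hAB ⟨A, hA𝓕, Finset.inter_subset_left⟩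
      have h5 : 𝓕.filter (fun G => A ∩ B ⊆ G) = {A, B} := by
        symm
        apply Finset.eq_of_subset_of_card_le
        · intro H hH
          rw [Finset.mem_insert, Finset.mem_singleton] at hH
          rw [Finset.mem_filter]
          rcases hH with rfl | rfl
          · exact ⟨hA𝓕, Finset.inter_subset_left⟩
          · exact ⟨hB𝓕, Finset.inter_subset_right⟩
        · rw [h4, Finset.card_pair hne]
      by_contra hcon
      have h6 : X.support.filter (fun G => A ∩ B ⊆ G) = {A} := by
        ext H
        rw [Finset.mem_filter, Finset.mem_singleton]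
        constructor
        · rintro ⟨h7, h8⟩
          have : H ∈ 𝓕.filter (fun G => A ∩ B ⊆ G) := Finset.mem_filter.mpr ⟨hXs h7, h8⟩
          rw [h5, Finset.mem_insert, Finset.mem_singleton] at this
          rcases this with h9 | h9
          · exact h9
          · exact absurd (h9 ▸ h7) hcon
        · rintro rfl
          exact ⟨ih, Finset.inter_subset_left⟩
      have h7 := bd_apply X (fun F hF => hcard F (hXs hF)) hAB
      rw [hX, h6, Finset.card_singleton, Finsupp.coe_zero, Pi.zero_apply, Nat.cast_one] at h7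
      exact absurd h7 (by decide)

/-- Connected simplicial manifolds are strongly connected pseudomanifolds. -/
theorem IsConnectedManifold.pseudo {m : ℕ} (hm : 1 ≤ m) (hK : IsConnectedManifold K m) :
    IsPseudomanifold K (m + 1) := by
  classical
  have hch : Charted K m := hK.chart
  have hconn := hK.conn
  have hp := pure_of_charted hch
  refine ⟨hp, ?_, ?_, ?_⟩
  · intro R hR hRc
    exact ridge_ncard hch hR (by omega)
  · obtain ⟨α⟩ := hconn.toNonempty
    exact ⟨_, sp_mem α.2⟩
  · intro G hG G' hG' hGc hG'c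
    let rel : Finset V → Finset V → Prop := fun A B => A ∈ K.faces ∧ B ∈ K.faces ∧
      A.card = m + 1 ∧ B.card = m + 1 ∧ (A ∩ B).card + 1 = m + 1
    let 𝒞 : Finset (Finset V) := (facets K (m + 1)).filter (fun H => Relation.ReflTransGen rel G H)
    have h𝒞 : facets K (m + 1) ⊆ 𝒞 := by
      apply strong_of_charted hconn hch hm (Finset.filter_subset _ _)
      · exact ⟨G, Finset.mem_filter.2 ⟨mem_facets.2 ⟨hG, hGc⟩, Relation.ReflTransGen.refl⟩⟩
      · intro R hR A hA B hB hRA hRB
        obtain ⟨hA1, hA2⟩ := Finset.mem_filter.1 hA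
        obtain ⟨hAK, hAc⟩ := mem_facets.1 hA1
        obtain ⟨hBK, hBc⟩ := mem_facets.1 hB
        refine Finset.mem_filter.2 ⟨hB, ?_⟩
        by_cases hAB : A = B
        · rw [← hAB]; exact hA2
        · refine hA2.tail ⟨hAK, hBK, hAc, hBc, ?_⟩
          have h1 : R ⊆ A ∩ B := Finset.subset_inter hRA hRB
          have h2 := Finset.card_le_card h1
          have h3 : (A ∩ B).card < A.card := by
            apply Finset.card_lt_card
            refine Finset.inter_subset_left.ssubset_of_ne ?_
            intro h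
            apply hAB
            apply Finset.eq_of_subset_of_card_le
            · rw [← h]; exact Finset.inter_subset_right
            · omega
          omega
    exact (Finset.mem_filter.1 (h𝒞 (mem_facets.2 ⟨hG', hG'c⟩))).2

/-- The lower bound theorem for centrally symmetric simplicial spheres, connected simplicial
manifolds, normal pseudomanifolds and strongly connected pseudomanifolds. -/
theorem main_all (hd : 4 ≤ d) (hcs : IsCS K φ)
    (hK : IsSimplicialSphere K (d - 1) ∨ IsConnectedManifold K (d - 1) ∨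
      IsNormalPseudomanifold K d ∨ IsPseudomanifold K d) :
    ((d.choose 2 : ℕ) : ℤ) - d ≤ g2 K d ∧
    (g2 K d = ((d.choose 2 : ℕ) : ℤ) - d ↔
      ∃ (P : Set (Fin d → ℝ)) (p : V → Fin d → ℝ), SymStackedPoly d P ∧
        IsBoundaryComplex K P p) ∧
    (g2 K d = ((d.choose 2 : ℕ) : ℤ) - d →
      ∃ (P : Set (Fin d → ℝ)) (p : V → Fin d → ℝ), SymStackedPoly d P ∧
        IsBoundaryComplex K P p ∧ ∀ x, p (φ x) = - p x) := by
  have hman : IsConnectedManifold K (d - 1) → IsPseudomanifold K d := by
    intro h
    have := h.pseudo (by omega)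
    rwa [Nat.sub_add_cancel (by omega)] at this
  rcases hK with h | h | h | h
  · have h1 := hman (h.manifold (by omega))
    exact main_cyc hd hcs h1.pure (h1.minCyc (by omega))
  · have h1 := hman h
    exact main_cyc hd hcs h1.pure (h1.minCyc (by omega))
  · exact main_npm hd hcs h
  · exact main_cyc hd hcs h.pure (h.minCyc (by omega))

end Pool.Agent.CSLBT
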