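import Pool.Agent.CSLBT.TopChart
import Pool.Agent.CSLBT.TopDefs
import Pool.Agent.CSLBT.Complex

/-!
# Purity and ridges of simplicial manifolds
-/

set_option linter.unusedSectionVars false
set_option linter.unusedVariables false

open Metric Set Filter Topology Module
open scoped Topology ContDiff unitInterval

namespace Pool.Agent.CSLBT

variable {V : Type*} [Fintype V] [DecidableEq V] {n : ℕ} {K : AbstractSimplicialComplex V}

/-- all points of the realization have charts in `ℝ^n` -/
def Charted (K : AbstractSimplicialComplex V) (n : ℕ) : Prop :=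
  ∀ x : realization K,
    ∃ e : OpenPartialHomeomorph (realization K) (EuclideanSpace ℝ (Fin n)), x ∈ e.source

section maps

variable {X : Type*} [NormedAddCommGroup X] [NormedSpace ℝ X] [FiniteDimensional ℝ X]

open Classical in
lemma into_real (hch : Charted K n) (T : X → (V → ℝ)) (u0 : X) (s : Set X) (hs : s ∈ 𝓝 u0)
    (hT : ContinuousOn T s) (hi : InjOn T s) (hm : ∀ u ∈ s, T u ∈ realization K) :
    (finrank ℝ X = n → ∃ W ∈ 𝓝 (T u0), ∀ α ∈ realization K, α ∈ W → α ∈ T '' s) ∧
      ¬ (n < finrank ℝ X) := by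
  let b : realization K := ⟨T u0, hm u0 (mem_of_mem_nhds hs)⟩
  let τ : X → realization K := fun u => if h : T u ∈ realization K then ⟨T u, h⟩ else b
  have hτ : ∀ u ∈ s, (τ u : V → ℝ) = T u := by
    intro u hu
    simp only [τ, dif_pos (hm u hu)]
  have hτc : ContinuousOn τ s := by
    rw [Topology.IsInducing.subtypeVal.continuousOn_iff]
    exact hT.congr hτ
  have hτi : InjOn τ s := by
    intro u hu v hv huv
    apply hi hu hv
    rw [← hτ u hu, ← hτ v hv, huv]
  obtain ⟨e, he⟩ := hch (τ u0)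
  refine ⟨fun hX => ?_, fun hX => ?_⟩
  · have h1 := Topo.into_nhds e (by simpa using hX) τ u0 s hs hτc hτi he
    obtain ⟨W, hW, hWs⟩ := mem_nhds_subtype _ _ _ |>.1 h1
    rw [hτ u0 (mem_of_mem_nhds hs)] at hW
    refine ⟨W, hW, fun α hα hαW => ?_⟩
    obtain ⟨u, hu, hux⟩ := hWs (show (⟨α, hα⟩ : realization K) ∈ Subtype.val ⁻¹' W from hαW)
    refine ⟨u, hu, ?_⟩
    rw [← hτ u hu, hux]
  · exact Topo.into_false e (by simpa using hX) τ u0 s hs hτc hτi he

lemma out_real (hch : Charted K n) (κ : (V → ℝ) → X) (hκ : Continuous κ) (b : V → ℝ)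
    (hb : b ∈ realization K) (O : Set (V → ℝ)) (hO : O ∈ 𝓝 b)
    (hi : InjOn κ (O ∩ realization K)) :
    (finrank ℝ X = n → κ '' (O ∩ realization K) ∈ 𝓝 (κ b)) ∧ ¬ (finrank ℝ X < n) := by
  obtain ⟨e, he⟩ := hch ⟨b, hb⟩
  have h1 : (Subtype.val ⁻¹' O : Set (realization K)) ∈ 𝓝 (⟨b, hb⟩ : realization K) :=
    continuous_subtype_val.continuousAt hO
  have h2 : ContinuousOn (fun α : realization K => κ α) (Subtype.val ⁻¹' O) :=
    (hκ.comp continuous_subtype_val).continuousOn
  have h3 : InjOn (fun α : realization K => κ α) (Subtype.val ⁻¹' O) := by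
    intro u hu v hv huv
    exact Subtype.ext (hi ⟨hu, u.2⟩ ⟨hv, v.2⟩ huv)
  refine ⟨fun hX => ?_, fun hX => ?_⟩
  · have h4 := Topo.out_nhds e (by simpa using hX.symm) _ _ _ h1 h2 h3 he
    refine Filter.mem_of_superset h4 ?_
    rintro _ ⟨u, hu, rfl⟩
    exact ⟨u, ⟨hu, u.2⟩, rfl⟩
  · exact Topo.out_false e (by simpa using hX) _ _ _ h1 h2 h3 he

end maps

/-- completing weights to barycentric coordinates -/
noncomputable def cmpl (x0 : V) (w : V → ℝ) : V → ℝ :=
  fun v => w v + if v = x0 then 1 - ∑ u, w u else 0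

lemma cmpl_ne {x0 v : V} (w : V → ℝ) (h : v ≠ x0) : cmpl x0 w v = w v := by
  simp [cmpl, h]

lemma cmpl_self {x0 : V} (w : V → ℝ) : cmpl x0 w x0 = w x0 + (1 - ∑ u, w u) := by
  simp [cmpl]

lemma cmpl_sum (x0 : V) (w : V → ℝ) : ∑ v, cmpl x0 w v = 1 := by
  simp [cmpl, Finset.sum_add_distrib]

lemma cmpl_continuous (x0 : V) : Continuous (cmpl x0) := by
  unfold cmpl
  apply continuous_pi
  intro v
  split_ifs
  · fun_prop
  · fun_prop

lemma cmpl_mem {x0 : V} {w : V → ℝ} {F : Finset V} (hF : F ∈ K.faces) (hx : x0 ∈ F)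
    (hw : ∀ v, 0 ≤ w v) (hs : ∑ v, w v ≤ 1) (h0 : ∀ v, v ∉ F → w v = 0) :
    cmpl x0 w ∈ realization K := by
  refine ⟨fun v => ?_, cmpl_sum x0 w, F, hF, fun v hv => ?_⟩
  · unfold cmpl
    split_ifs
    · have := hw v
      linarith
    · have := hw v
      linarith
  · have : v ≠ x0 := fun h => hv (h ▸ hx)
    rw [cmpl_ne w this]; exact h0 v hv

open Classical in
/-- the support -/
noncomputable def sp (α : V → ℝ) : Finset V := Finset.univ.filter (fun v => α v ≠ 0)

omit [DecidableEq V] in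
lemma mem_sp {α : V → ℝ} {v : V} : v ∈ sp α ↔ α v ≠ 0 := by
  simp [sp]

lemma sp_mem {α : V → ℝ} (hα : α ∈ realization K) : sp α ∈ K.faces := by
  obtain ⟨h1, h2, F, hF, h3⟩ := hα
  refine down K hF ?_ ?_
  · intro v hv
    by_contra h
    exact mem_sp.1 hv (h3 v h)
  · rw [Finset.nonempty_iff_ne_empty]
    intro h
    have : ∑ v, α v = 0 := by
      apply Finset.sum_eq_zero
      intro v _
      by_contra hv
      have := mem_sp.2 hv
      rw [h] at this
      simp at this
    rw [this] at h2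
    norm_num at h2

lemma face_nonempty {F : Finset V} (hF : F ∈ K.faces) : F.Nonempty :=
  (K.isRelLowerSet_faces hF).1

/-- the base weight -/
noncomputable def bw (V : Type*) [Fintype V] : ℝ := (2 * (Fintype.card V : ℝ))⁻¹

omit [DecidableEq V] in
lemma bw_pos (x : V) : 0 < bw V := by
  have : 0 < Fintype.card V := Fintype.card_pos_iff.2 ⟨x⟩
  unfold bw
  positivity

omit [DecidableEq V] in
lemma bw_sum (x : V) {w : V → ℝ} (hw : ∀ v, w v ≤ 2 * bw V) : ∑ v, w v ≤ 1 := by
  have h0 : 0 < (Fintype.card V : ℝ) := by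
    exact_mod_cast Fintype.card_pos_iff.2 ⟨x⟩
  calc ∑ v, w v ≤ ∑ v : V, 2 * bw V := Finset.sum_le_sum (fun v _ => hw v)
    _ = 1 := by
      rw [Finset.sum_const, Finset.card_univ, nsmul_eq_mul, bw]
      field_simp

/-- Simplicial manifolds are pure. -/
theorem pure_of_charted (hch : Charted K n) : IsPure K (n + 1) := by
  classical
  intro F hF
  obtain ⟨G, hG, hmax⟩ := Finset.exists_max_image
    (Finset.univ.filter (fun G : Finset V => G ∈ K.faces ∧ F ⊆ G)) Finset.card
    ⟨F, by simp [hF]⟩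
  obtain ⟨-, hGK, hFG⟩ := Finset.mem_filter.1 hG
  have hmax' : ∀ H ∈ K.faces, G ⊆ H → H = G := by
    intro H hH hGH
    symm
    apply Finset.eq_of_subset_of_card_le hGH
    exact hmax H (Finset.mem_filter.2 ⟨Finset.mem_univ _, hH, hFG.trans hGH⟩)
  refine ⟨G, hGK, hFG, ?_⟩
  obtain ⟨x0, hx0⟩ := face_nonempty hGK
  have hc := bw_pos x0
  set c := bw V with hcdef
  let w : (↥(G.erase x0) → ℝ) → V → ℝ := fun u v => if h : v ∈ G.erase x0 then c + u ⟨v, h⟩ else 0
  have hw1 : ∀ u v (h : v ∈ G.erase x0), w u v = c + u ⟨v, h⟩ := fun u v h => dif_pos h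
  have hw0 : ∀ u v, v ∉ G.erase x0 → w u v = 0 := fun u v h => dif_neg h
  have hwx : ∀ u, w u x0 = 0 := fun u => hw0 u x0 (Finset.notMem_erase _ _)
  have hwc : Continuous w := by
    apply continuous_pi
    intro v
    by_cases h : v ∈ G.erase x0
    · have : (fun u => w u v) = fun u => c + u ⟨v, h⟩ := funext fun u => hw1 u v h
      rw [this]; fun_prop
    · have : (fun u => w u v) = fun _ => 0 := funext fun u => hw0 u v h
      rw [this]; fun_prop
  have hub : ∀ u ∈ closedBall (0 : ↥(G.erase x0) → ℝ) c, ∀ v, |u v| ≤ c := by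
    intro u hu v
    rw [mem_closedBall, dist_zero_right] at hu
    exact (norm_le_pi_norm u v).trans hu
  have hmem : ∀ u ∈ closedBall (0 : ↥(G.erase x0) → ℝ) c, cmpl x0 (w u) ∈ realization K := by
    intro u hu
    refine cmpl_mem hGK hx0 ?_ ?_ ?_
    · intro v
      by_cases h : v ∈ G.erase x0
      · rw [hw1 u v h]
        have := (abs_le.1 (hub u hu ⟨v, h⟩)).1
        linarith
      · rw [hw0 u v h]
    · apply bw_sum x0
      intro v
      by_cases h : v ∈ G.erase x0
      · rw [hw1 u v h]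
        have := (abs_le.1 (hub u hu ⟨v, h⟩)).2
        linarith
      · rw [hw0 u v h]; positivity
    · intro v hv
      exact hw0 u v (fun h => hv (Finset.mem_of_mem_erase h))
  have hcard : Module.finrank ℝ (↥(G.erase x0) → ℝ) + 1 = G.card := by
    rw [Module.finrank_fintype_fun_eq_card, Fintype.card_coe]
    exact Finset.card_erase_add_one hx0
  have h1 := (into_real hch (fun u => cmpl x0 (w u)) 0 (closedBall 0 c)
    (closedBall_mem_nhds _ hc) ((cmpl_continuous x0).comp hwc).continuousOn (by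
      intro u hu v hv huv
      ext ⟨y, hy⟩
      have hyx : y ≠ x0 := Finset.ne_of_mem_erase hy
      have h2 := congrFun huv y
      simp only [cmpl_ne _ hyx, hw1 _ y hy] at h2
      linarith) hmem).2
  have h2 := (out_real hch (fun (α : V → ℝ) (v : ↥(G.erase x0)) => α v) (by fun_prop)
    (cmpl x0 (w 0)) (hmem 0 (by simp [hc.le])) {α | ∀ v ∈ G, 0 < α v} (by
      apply IsOpen.mem_nhds
      · have : {α : V → ℝ | ∀ v ∈ G, 0 < α v} = ⋂ v ∈ G, {α : V → ℝ | 0 < α v} := by
          ext α; simp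
        rw [this]
        apply isOpen_biInter_finset
        intro v _
        exact isOpen_lt continuous_const (continuous_apply v)
      · intro v hv
        by_cases hvx : v = x0
        · subst hvx
          rw [cmpl_self, hwx, zero_add]
          have h3 : ∑ u, w 0 u ≤ ∑ u : V, c := by
            apply Finset.sum_le_sum
            intro u _
            by_cases h : u ∈ G.erase v
            · rw [hw1 _ u h]; simp
            · rw [hw0 _ u h]; exact hc.le
          have h4 : ∑ u : V, 2 * c ≤ 1 := bw_sum v (fun _ => le_refl _)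
          rw [← Finset.mul_sum] at h4
          linarith
        · rw [cmpl_ne _ hvx, hw1 _ v (Finset.mem_erase.2 ⟨hvx, hv⟩)]
          simpa using hc) (by
      rintro α ⟨hα, hαK⟩ β ⟨hβ, hβK⟩ hαβ
      have hsup : ∀ γ : V → ℝ, (∀ v ∈ G, 0 < γ v) → γ ∈ realization K → ∀ v, v ∉ G → γ v = 0 := by
        intro γ hγ hγK v hv
        by_contra h
        have h5 : sp γ = G := hmax' _ (sp_mem hγK) (fun x hx => mem_sp.2 (hγ x hx).ne')
        apply hv
        rw [← h5]; exact mem_sp.2 h
      have hv : ∀ v, v ≠ x0 → α v = β v := by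
        intro v hvx
        by_cases hvG : v ∈ G
        · exact congrFun hαβ ⟨v, Finset.mem_erase.2 ⟨hvx, hvG⟩⟩
        · rw [hsup α hα hαK v hvG, hsup β hβ hβK v hvG]
      have hx : α x0 = β x0 := by
        have e1 := hαK.2.1
        have e2 := hβK.2.1
        rw [← Finset.add_sum_erase _ _ (Finset.mem_univ x0)] at e1 e2
        have e3 : ∑ x ∈ Finset.univ.erase x0, α x = ∑ x ∈ Finset.univ.erase x0, β x :=
          Finset.sum_congr rfl (fun v hv' => hv v (Finset.ne_of_mem_erase hv'))
        linarith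
      ext v
      by_cases hvx : v = x0
      · rw [hvx]; exact hx
      · exact hv v hvx)).2
  omega

end Pool.Agent.CSLBT
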