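import Pool.Agent.CSLBT.TopReal

/-!
# Ridges of simplicial manifolds
-/

set_option linter.unusedSectionVars false
set_option linter.unusedVariables false

open Metric Set Filter Topology Module
open scoped Topology ContDiff unitInterval

namespace Pool.Agent.CSLBT

variable {V : Type*} [Fintype V] [DecidableEq V] {n : ℕ} {K : AbstractSimplicialComplex V}

lemma isOpen_pos (R : Finset V) : IsOpen {α : V → ℝ | ∀ v ∈ R, 0 < α v} := by
  have : {α : V → ℝ | ∀ v ∈ R, 0 < α v} = ⋂ v ∈ R, {α : V → ℝ | 0 < α v} := by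
    ext α; simp
  rw [this]
  apply isOpen_biInter_finset
  intro v _
  exact isOpen_lt continuous_const (continuous_apply v)

/-- the faces above a ridge -/
lemma above_ridge (hp : IsPure K (n + 1)) {R F : Finset V} (hR : R.card = n) (hF : F ∈ K.faces)
    (hRF : R ⊆ F) : F = R ∨ ∃ y, y ∉ R ∧ F = insert y R := by
  obtain ⟨G, hG, hFG, hGc⟩ := hp F hF
  have h1 : F.card ≤ n + 1 := hGc ▸ Finset.card_le_card hFG
  by_cases h : F = R
  · exact Or.inl h
  · right
    obtain ⟨y, hy, hyR⟩ := Finset.exists_of_ssubset (hRF.ssubset_of_ne (Ne.symm h))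
    refine ⟨y, hyR, ?_⟩
    symm
    apply Finset.eq_of_subset_of_card_le (Finset.insert_subset hy hRF)
    rw [Finset.card_insert_of_notMem hyR, hR]; exact h1

/-- A ridge is not in only one facet. -/
theorem ridge_two (hch : Charted K n) (hp : IsPure K (n + 1)) {R : Finset V} (hRK : R ∈ K.faces)
    (hR : R.card = n) {z : V} (hz : z ∉ R) (hzR : insert z R ∈ K.faces) :
    ∃ y, y ≠ z ∧ y ∉ R ∧ insert y R ∈ K.faces := by
  classical
  by_contra hcon
  push Not at hcon
  obtain ⟨x0, hx0⟩ := face_nonempty hRK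
  have hc := bw_pos x0
  set c := bw V with hcdef
  let w : V → ℝ := fun v => if v ∈ R.erase x0 then c else 0
  have hw1 : ∀ v ∈ R.erase x0, w v = c := fun v h => if_pos h
  have hw0 : ∀ v, v ∉ R.erase x0 → w v = 0 := fun v h => if_neg h
  have hwn : ∀ v, 0 ≤ w v := by
    intro v
    by_cases h : v ∈ R.erase x0
    · rw [hw1 v h]; exact hc.le
    · rw [hw0 v h]
  have hwc : ∀ v, w v ≤ c := by
    intro v
    by_cases h : v ∈ R.erase x0
    · rw [hw1 v h]
    · rw [hw0 v h]; exact hc.le
  have hsum : ∑ v, w v ≤ 1 := bw_sum x0 (fun v => by have := hwc v; linarith)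
  have hb : cmpl x0 w ∈ realization K :=
    cmpl_mem hRK hx0 hwn hsum (fun v hv => hw0 v (fun h => hv (Finset.mem_of_mem_erase h)))
  have hbR : ∀ v, v ∉ R → cmpl x0 w v = 0 := by
    intro v hv
    have hvx : v ≠ x0 := fun h => hv (h ▸ hx0)
    rw [cmpl_ne _ hvx, hw0 v (fun h => hv (Finset.mem_of_mem_erase h))]
  have hbpos : ∀ v ∈ R, 0 < cmpl x0 w v := by
    intro v hv
    by_cases hvx : v = x0
    · subst hvx
      rw [cmpl_self, hw0 _ (Finset.notMem_erase _ _), zero_add]
      have h3 : ∑ u, w u ≤ ∑ u : V, c := Finset.sum_le_sum (fun u _ => hwc u)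
      have h4 : ∑ u : V, 2 * c ≤ 1 := bw_sum v (fun _ => le_refl _)
      rw [← Finset.mul_sum] at h4
      have h5 : 0 < ∑ u : V, c := by
        rw [Finset.sum_const, Finset.card_univ, nsmul_eq_mul]
        have : 0 < (Fintype.card V : ℝ) := by exact_mod_cast Fintype.card_pos_iff.2 ⟨v⟩
        positivity
      linarith
    · rw [cmpl_ne _ hvx, hw1 _ (Finset.mem_erase.2 ⟨hvx, hv⟩)]
      exact hc
  -- the support of points near `b`
  have hsup : ∀ γ : V → ℝ, (∀ v ∈ R, 0 < γ v) → γ ∈ realization K →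
      ∀ v, v ∉ R → v ≠ z → γ v = 0 := by
    intro γ hγ hγK v hv hvz
    by_contra h
    rcases above_ridge hp hR (sp_mem hγK) (fun x hx => mem_sp.2 (hγ x hx).ne') with h5 | ⟨y, hy, h5⟩
    · apply hv
      rw [← h5]; exact mem_sp.2 h
    · have h6 : v ∈ insert y R := by rw [← h5]; exact mem_sp.2 h
      rcases Finset.mem_insert.1 h6 with h7 | h7
      · subst h7
        exact hcon v hvz hv (h5 ▸ sp_mem hγK)
      · exact hv h7
  have hsumR : ∀ γ : V → ℝ, (∀ v ∈ R, 0 < γ v) → γ ∈ realization K → γ z + ∑ v ∈ R, γ v = 1 := by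
    intro γ hγ hγK
    rw [← hγK.2.1, ← Finset.sum_insert hz]
    apply Finset.sum_subset (Finset.subset_univ _)
    intro v _ hv
    rw [Finset.mem_insert, not_or] at hv
    exact hsup γ hγ hγK v hv.2 hv.1
  have himg := (out_real hch (fun (α : V → ℝ) (v : ↥R) => α v) (by fun_prop)
    (cmpl x0 w) hb {α | ∀ v ∈ R, 0 < α v} ((isOpen_pos R).mem_nhds hbpos) (by
      rintro α ⟨hα, hαK⟩ β ⟨hβ, hβK⟩ hαβ
      have hR' : ∀ v ∈ R, α v = β v := fun v hv => congrFun hαβ ⟨v, hv⟩
      ext v
      by_cases hv : v ∈ R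
      · exact hR' v hv
      · by_cases hvz : v = z
        · have e1 := hsumR α hα hαK
          have e2 := hsumR β hβ hβK
          rw [Finset.sum_congr rfl hR'] at e1
          rw [hvz]; linarith
        · rw [hsup α hα hαK v hv hvz, hsup β hβ hβK v hv hvz])).1 (by
    rw [Module.finrank_fintype_fun_eq_card, Fintype.card_coe, hR])
  -- move outwards
  have hcont : Continuous (fun (ε : ℝ) (v : ↥R) => cmpl x0 w v + ε) := by fun_prop
  have h1 : ∀ᶠ ε in 𝓝 (0:ℝ), (fun (v : ↥R) => cmpl x0 w v + ε) ∈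
      (fun (α : V → ℝ) (v : ↥R) => α v) '' ({α | ∀ v ∈ R, 0 < α v} ∩ realization K) := by
    apply hcont.continuousAt
    simpa using himg
  obtain ⟨ε, hε, hε0⟩ := ((h1.filter_mono nhdsWithin_le_nhds).and
    (self_mem_nhdsWithin : Ioi (0:ℝ) ∈ 𝓝[>] (0:ℝ))).exists
  obtain ⟨α, ⟨hα, hαK⟩, hαε⟩ := hε
  have h2 : ∀ v ∈ R, α v = cmpl x0 w v + ε := fun v hv => congrFun hαε ⟨v, hv⟩
  have h3 : ∑ v ∈ R, cmpl x0 w v = 1 := by
    rw [← hb.2.1]
    apply Finset.sum_subset (Finset.subset_univ _)
    intro v _ hv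
    exact hbR v hv
  have h4 : ∑ v ∈ R, α v ≤ 1 := by
    rw [← hαK.2.1]
    exact Finset.sum_le_sum_of_subset_of_nonneg (Finset.subset_univ _) (fun v _ _ => hαK.1 v)
  rw [Finset.sum_congr rfl h2, Finset.sum_add_distrib, h3, Finset.sum_const, nsmul_eq_mul] at h4
  have h5 : 0 < (R.card : ℝ) := by exact_mod_cast Finset.card_pos.2 ⟨x0, hx0⟩
  have h6 : (0:ℝ) < ε := hε0
  have : 0 < (R.card : ℝ) * ε := by positivity
  linarith

/-- A ridge is not in three facets. -/
theorem ridge_three (hch : Charted K n) {R : Finset V} (hRK : R ∈ K.faces)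
    (hR : R.card = n) {z1 z2 z3 : V} (hz1 : z1 ∉ R) (hz2 : z2 ∉ R) (hz3 : z3 ∉ R)
    (h1 : insert z1 R ∈ K.faces) (h2 : insert z2 R ∈ K.faces) (h3 : insert z3 R ∈ K.faces)
    (h12 : z1 ≠ z2) (h13 : z1 ≠ z3) (h23 : z2 ≠ z3) : False := by
  classical
  obtain ⟨x0, hx0⟩ := face_nonempty hRK
  have hc := bw_pos x0
  set c := bw V with hcdef
  have hz1x : z1 ≠ x0 := fun h => hz1 (h ▸ hx0)
  have hz2x : z2 ≠ x0 := fun h => hz2 (h ▸ hx0)
  have hz3x : z3 ≠ x0 := fun h => hz3 (h ▸ hx0)
  let w : (↥R → ℝ) → V → ℝ := fun u v =>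
    if h : v ∈ R.erase x0 then c + u ⟨v, Finset.mem_of_mem_erase h⟩
    else if v = z1 then max (u ⟨x0, hx0⟩) 0 else if v = z2 then max (-u ⟨x0, hx0⟩) 0 else 0
  have hwe : ∀ u v (h : v ∈ R.erase x0), w u v = c + u ⟨v, Finset.mem_of_mem_erase h⟩ :=
    fun u v h => dif_pos h
  have hw1 : ∀ u, w u z1 = max (u ⟨x0, hx0⟩) 0 := by
    intro u
    have : z1 ∉ R.erase x0 := fun h => hz1 (Finset.mem_of_mem_erase h)
    simp only [w, dif_neg this, if_pos]
  have hw2 : ∀ u, w u z2 = max (-u ⟨x0, hx0⟩) 0 := by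
    intro u
    have : z2 ∉ R.erase x0 := fun h => hz2 (Finset.mem_of_mem_erase h)
    simp only [w, dif_neg this, if_neg h12.symm, if_pos]
  have hw0 : ∀ u v, v ∉ R.erase x0 → v ≠ z1 → v ≠ z2 → w u v = 0 := by
    intro u v h hv1 hv2
    simp only [w, dif_neg h, if_neg hv1, if_neg hv2]
  have hwx : ∀ u, w u x0 = 0 := fun u => hw0 u x0 (Finset.notMem_erase _ _) hz1x.symm hz2x.symm
  have hwc : Continuous w := by
    apply continuous_pi
    intro v
    by_cases h : v ∈ R.erase x0
    · have : (fun u => w u v) = fun u => c + u ⟨v, Finset.mem_of_mem_erase h⟩ :=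
        funext fun u => hwe u v h
      rw [this]; fun_prop
    · by_cases hv1 : v = z1
      · subst hv1
        have : (fun u => w u v) = fun u => max (u ⟨x0, hx0⟩) 0 := funext fun u => hw1 u
        rw [this]; fun_prop
      · by_cases hv2 : v = z2
        · subst hv2
          have : (fun u => w u v) = fun u => max (-u ⟨x0, hx0⟩) 0 := funext fun u => hw2 u
          rw [this]; fun_prop
        · have : (fun u => w u v) = fun _ => 0 := funext fun u => hw0 u v h hv1 hv2
          rw [this]; fun_prop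
  have hub : ∀ u ∈ closedBall (0 : ↥R → ℝ) c, ∀ v, |u v| ≤ c := by
    intro u hu v
    rw [mem_closedBall, dist_zero_right] at hu
    exact (norm_le_pi_norm u v).trans hu
  have hmem : ∀ u ∈ closedBall (0 : ↥R → ℝ) c, cmpl x0 (w u) ∈ realization K := by
    intro u hu
    have hux := abs_le.1 (hub u hu ⟨x0, hx0⟩)
    have hnn : ∀ v, 0 ≤ w u v := by
      intro v
      by_cases h : v ∈ R.erase x0
      · rw [hwe u v h]
        have := (abs_le.1 (hub u hu ⟨v, Finset.mem_of_mem_erase h⟩)).1
        linarith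
      · by_cases hv1 : v = z1
        · rw [hv1, hw1]; exact le_max_right _ _
        · by_cases hv2 : v = z2
          · rw [hv2, hw2]; exact le_max_right _ _
          · rw [hw0 u v h hv1 hv2]
    have hle : ∀ v, w u v ≤ 2 * c := by
      intro v
      by_cases h : v ∈ R.erase x0
      · rw [hwe u v h]
        have := (abs_le.1 (hub u hu ⟨v, Finset.mem_of_mem_erase h⟩)).2
        linarith
      · by_cases hv1 : v = z1
        · rw [hv1, hw1]
          apply max_le
          · linarith [hux.2]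
          · positivity
        · by_cases hv2 : v = z2
          · rw [hv2, hw2]
            apply max_le
            · linarith [hux.1]
            · positivity
          · rw [hw0 u v h hv1 hv2]; positivity
    rcases le_total 0 (u ⟨x0, hx0⟩) with hs | hs
    · refine cmpl_mem h1 (Finset.mem_insert_of_mem hx0) hnn (bw_sum x0 hle) ?_
      intro v hv
      rw [Finset.mem_insert, not_or] at hv
      by_cases hv2 : v = z2
      · rw [hv2, hw2]
        exact max_eq_right (by linarith)
      · exact hw0 u v (fun h => hv.2 (Finset.mem_of_mem_erase h)) hv.1 hv2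
    · refine cmpl_mem h2 (Finset.mem_insert_of_mem hx0) hnn (bw_sum x0 hle) ?_
      intro v hv
      rw [Finset.mem_insert, not_or] at hv
      by_cases hv1 : v = z1
      · rw [hv1, hw1]
        exact max_eq_right hs
      · exact hw0 u v (fun h => hv.2 (Finset.mem_of_mem_erase h)) hv1 hv.1
  obtain ⟨W, hW, hWs⟩ := (into_real hch (fun u => cmpl x0 (w u)) 0 (closedBall 0 c)
    (closedBall_mem_nhds _ hc) ((cmpl_continuous x0).comp hwc).continuousOn (by
      intro u hu v hv huv
      ext ⟨y, hy⟩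
      by_cases hyx : y = x0
      · subst hyx
        have e1 := congrFun huv z1
        have e2 := congrFun huv z2
        simp only [cmpl_ne _ hz1x, cmpl_ne _ hz2x, hw1, hw2] at e1 e2
        rcases le_total 0 (u ⟨y, hx0⟩) with a | a <;> rcases le_total 0 (v ⟨y, hx0⟩) with b | b
        · rw [max_eq_left a, max_eq_left b] at e1; exact e1
        · rw [max_eq_left a, max_eq_right b] at e1
          rw [max_eq_right (by linarith), max_eq_left (by linarith)] at e2
          linarith
        · rw [max_eq_right a, max_eq_left b] at e1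
          rw [max_eq_left (by linarith), max_eq_right (by linarith)] at e2
          linarith
        · rw [max_eq_left (by linarith), max_eq_left (by linarith)] at e2
          linarith
      · have e1 := congrFun huv y
        simp only [cmpl_ne _ hyx, hwe _ y (Finset.mem_erase.2 ⟨hyx, hy⟩)] at e1
        linarith) hmem).1 (by
    rw [Module.finrank_fintype_fun_eq_card, Fintype.card_coe, hR])
  -- the third page
  let W0 : ℝ → V → ℝ := fun ε v => w 0 v + if v = z3 then ε else 0
  have hz3e : z3 ∉ R.erase x0 := fun h => hz3 (Finset.mem_of_mem_erase h)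
  have hw03 : w 0 z3 = 0 := hw0 0 z3 hz3e h13.symm h23.symm
  have hw0e : ∀ v, v ∈ R.erase x0 → w 0 v = c := by
    intro v h
    rw [hwe 0 v h]; simp
  have hw0n : ∀ v, v ∉ R.erase x0 → w 0 v = 0 := by
    intro v h
    by_cases hv1 : v = z1
    · rw [hv1, hw1]; simp
    · by_cases hv2 : v = z2
      · rw [hv2, hw2]; simp
      · exact hw0 0 v h hv1 hv2
  have hcont : Continuous (fun ε : ℝ => cmpl x0 (W0 ε)) := by
    apply (cmpl_continuous x0).comp
    apply continuous_pi
    intro v
    simp only [W0]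
    split_ifs <;> fun_prop
  have hW00 : W0 0 = w 0 := by
    ext v; simp [W0]
  have hev : ∀ᶠ ε in 𝓝 (0:ℝ), cmpl x0 (W0 ε) ∈ W := by
    apply hcont.continuousAt
    show W ∈ 𝓝 (cmpl x0 (W0 0))
    rw [hW00]; exact hW
  have hev2 : ∀ᶠ ε in 𝓝 (0:ℝ), ε < c := eventually_lt_nhds hc
  obtain ⟨ε, ⟨hε, hεc⟩, hε0⟩ := (((hev.and hev2).filter_mono nhdsWithin_le_nhds).and
    (self_mem_nhdsWithin : Ioi (0:ℝ) ∈ 𝓝[>] (0:ℝ))).exists
  have hε0' : (0:ℝ) < ε := hε0
  have hmem3 : cmpl x0 (W0 ε) ∈ realization K := by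
    refine cmpl_mem h3 (Finset.mem_insert_of_mem hx0) ?_ (bw_sum x0 ?_) ?_
    · intro v
      simp only [W0]
      by_cases h : v ∈ R.erase x0
      · rw [hw0e v h]
        split_ifs <;> linarith
      · rw [hw0n v h]
        split_ifs <;> linarith
    · intro v
      simp only [W0]
      by_cases h : v ∈ R.erase x0
      · rw [hw0e v h]
        split_ifs <;> linarith
      · rw [hw0n v h]
        split_ifs <;> linarith
    · intro v hv
      rw [Finset.mem_insert, not_or] at hv
      simp only [W0, if_neg hv.1, add_zero]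
      exact hw0n v (fun h => hv.2 (Finset.mem_of_mem_erase h))
  obtain ⟨u, hu, hux⟩ := hWs _ hmem3 hε
  have e1 := congrFun hux z3
  have e2 : w u z3 = 0 := hw0 u z3 hz3e h13.symm h23.symm
  simp only [cmpl_ne _ hz3x, W0, if_pos, hw03, e2, zero_add] at e1
  linarith

/-- Every ridge of a simplicial manifold is in exactly two facets. -/
theorem ridge_of_charted (hch : Charted K n) {R : Finset V} (hRK : R ∈ K.faces)
    (hR : R.card = n) : ∃ z1 z2, z1 ≠ z2 ∧ z1 ∉ R ∧ z2 ∉ R ∧ insert z1 R ∈ K.faces ∧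
      insert z2 R ∈ K.faces ∧ ∀ y, y ∉ R → insert y R ∈ K.faces → y = z1 ∨ y = z2 := by
  have hp := pure_of_charted hch
  obtain ⟨G, hG, hRG, hGc⟩ := hp R hRK
  obtain ⟨z1, hz1G, hz1⟩ := Finset.exists_mem_notMem_of_card_lt_card (s := R) (t := G) (by omega)
  have h1 : insert z1 R ∈ K.faces :=
    down K hG (Finset.insert_subset hz1G hRG) (Finset.insert_nonempty _ _)
  obtain ⟨z2, h21, hz2, h2⟩ := ridge_two hch hp hRK hR hz1 h1
  refine ⟨z1, z2, h21.symm, hz1, hz2, h1, h2, ?_⟩
  intro y hy hyK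
  by_contra hcon
  push Not at hcon
  exact ridge_three hch hRK hR hz1 hz2 hy h1 h2 hyK h21.symm hcon.1.symm hcon.2.symm

/-- Every ridge of a simplicial manifold is in exactly two facets. -/
theorem ridge_ncard (hch : Charted K n) {R : Finset V} (hRK : R ∈ K.faces)
    (hR : R.card = n) : {G : Finset V | G ∈ K.faces ∧ R ⊆ G ∧ G.card = n + 1}.ncard = 2 := by
  obtain ⟨z1, z2, h12, hz1, hz2, h1, h2, h3⟩ := ridge_of_charted hch hRK hR
  have : {G : Finset V | G ∈ K.faces ∧ R ⊆ G ∧ G.card = n + 1} = {insert z1 R, insert z2 R} := by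
    ext G
    simp only [Set.mem_insert_iff, Set.mem_singleton_iff]
    constructor
    · rintro ⟨hG, hRG, hGc⟩
      rcases above_ridge (pure_of_charted hch) hR hG hRG with h | ⟨y, hy, h⟩
      · rw [h] at hGc; omega
      · rcases h3 y hy (h ▸ hG) with h4 | h4
        · left; rw [h, h4]
        · right; rw [h, h4]
    · rintro (rfl | rfl)
      · exact ⟨h1, Finset.subset_insert _ _, by rw [Finset.card_insert_of_notMem hz1, hR]⟩
      · exact ⟨h2, Finset.subset_insert _ _, by rw [Finset.card_insert_of_notMem hz2, hR]⟩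
  rw [this]
  apply Set.ncard_pair
  intro h
  apply h12
  have : z1 ∈ insert z2 R := h ▸ Finset.mem_insert_self _ _
  rcases Finset.mem_insert.1 this with h4 | h4
  · exact h4
  · exact absurd h4 hz1

end Pool.Agent.CSLBT
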