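import Pool.Agent.CSLBT.TopZero

/-!
# Small compact sets do not separate Euclidean space
-/

set_option linter.unusedSectionVars false
set_option linter.unusedVariables false

open Metric Set Filter Topology Module
open scoped Topology ContDiff unitInterval

namespace Pool.Agent.CSLBT.Topo

variable {E : Type*} [NormedAddCommGroup E] [InnerProductSpace ℝ E] [FiniteDimensional ℝ E]

/-- Borsuk: if `F₀` and a nowhere vanishing `G` are linearly homotopic in `E ∖ 0` over the closed
set `A`, then `F₀` restricted to `A` extends to a nowhere vanishing map. -/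
theorem ext_nonzero (A : Set E) (hA : IsClosed A) (F₀ G : E → E) (hF : Continuous F₀)
    (hG : Continuous G) (hG0 : ∀ x, G x ≠ 0)
    (hseg : ∀ x ∈ A, ∀ s ∈ Icc (0:ℝ) 1, (1 - s) • F₀ x + s • G x ≠ 0) :
    ∃ H : E → E, Continuous H ∧ (∀ x, H x ≠ 0) ∧ ∀ x ∈ A, H x = F₀ x := by
  classical
  -- the set of bad points is closed
  let C : Set (E × I) := {p | (1 - (p.2 : ℝ)) • F₀ p.1 + (p.2 : ℝ) • G p.1 = 0}
  have hC : IsClosed C := by
    apply isClosed_eq
    · fun_prop
    · exact continuous_const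
  let B : Set E := Prod.fst '' C
  have hB : IsClosed B := isClosedMap_fst_of_compactSpace _ hC
  have hAB : Disjoint A B := by
    rw [Set.disjoint_left]
    rintro x hx ⟨⟨y, s⟩, hs, rfl⟩
    exact hseg y hx s s.2 hs
  obtain ⟨χ, hχ0, hχ1, hχ⟩ := exists_continuous_zero_one_of_isClosed hA hB hAB
  refine ⟨fun x => (1 - χ x) • F₀ x + χ x • G x, ?_, ?_, ?_⟩
  · have := χ.continuous
    fun_prop
  · intro x hx
    by_cases hxB : x ∈ B
    · have : χ x = 1 := hχ1 hxB
      simp only [this, sub_self, zero_smul, one_smul, zero_add] at hx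
      exact hG0 x hx
    · exact hxB ⟨(x, ⟨χ x, hχ x⟩), hx, rfl⟩
  · intro x hx
    have : χ x = 0 := hχ0 hx
    simp [this]

/-- The approximation property used to show that a compact set does not separate. -/
def Approx (A : Set E) : Prop :=
  ∀ f : E → E, ContinuousOn f A → (∀ x ∈ A, ‖f x‖ = 1) →
    ∃ g : E → E, Continuous g ∧ (∀ x ∈ A, ‖g x - f x‖ < 1/2) ∧
      ∃ c : E, c ≠ 0 ∧ ∀ x ∈ A, ∀ t : ℝ, 0 ≤ t → g x ≠ t • c

/-- maps from `A` to `E ∖ 0` extend -/
theorem Approx.ext {A : Set E} (hA : IsClosed A) (h : Approx A) (f : E → E)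
    (hf : ContinuousOn f A) (hf1 : ∀ x ∈ A, ‖f x‖ = 1) :
    ∃ H : E → E, Continuous H ∧ (∀ x, H x ≠ 0) ∧ ∀ x ∈ A, H x = f x := by
  obtain ⟨g, hg, hgf, c, hc, hgc⟩ := h f hf hf1
  -- first extend `g`
  obtain ⟨G, hG, hG0, hGA⟩ := ext_nonzero A hA g (fun _ => -c) hg continuous_const
    (fun _ => neg_ne_zero.2 hc) (by
      intro x hx s hs h0
      rcases eq_or_lt_of_le hs.2 with h1 | h1
      · rw [h1] at h0
        simp at h0
        exact hc h0
      · have h2 : 0 < 1 - s := by linarith
        apply hgc x hx (s / (1 - s)) (div_nonneg hs.1 h2.le)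
        have h3 : (1 - s) • g x = s • c := by
          rw [smul_neg, ← sub_eq_add_neg, sub_eq_zero] at h0
          exact h0
        rw [div_eq_inv_mul, mul_smul, ← h3, smul_smul, inv_mul_cancel₀ h2.ne', one_smul])
  -- extend `f` continuously
  obtain ⟨F₀, hF₀⟩ := ContinuousMap.exists_restrict_eq (Y := E) hA ⟨A.domRestrict f, hf.domRestrict⟩
  have hF : ∀ x ∈ A, F₀ x = f x := by
    intro x hx
    exact congrArg (fun k => k ⟨x, hx⟩) hF₀
  obtain ⟨H, hH, hH0, hHA⟩ := ext_nonzero A hA F₀ G F₀.continuous hG hG0 (by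
    intro x hx s hs h0
    rw [hF x hx, hGA x hx] at h0
    have h1 : f x = - (s • (g x - f x)) := by
      have : (1 - s) • f x + s • g x = f x + s • (g x - f x) := by
        rw [sub_smul, one_smul, smul_sub]; abel
      rw [this] at h0
      exact eq_neg_of_add_eq_zero_left h0
    have h2 := hf1 x hx
    rw [h1, norm_neg, norm_smul, Real.norm_eq_abs, abs_of_nonneg hs.1] at h2
    have h3 := hgf x hx
    have h4 := norm_nonneg (g x - f x)
    nlinarith [hs.2])
  exact ⟨H, hH, hH0, fun x hx => by rw [hHA x hx, hF x hx]⟩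

/-- A compact set with the approximation property does not bound. -/
theorem nonsep_core {A W : Set E} (hA : IsCompact A) (happ : Approx A) (hW : IsOpen W)
    (hWb : Bornology.IsBounded W) (hWA : frontier W ⊆ A) (hd : Disjoint W A)
    (hne : W.Nonempty) : False := by
  classical
  obtain ⟨p, hp⟩ := hne
  have hpA : p ∉ A := Set.disjoint_left.1 hd hp
  have hsub : ∀ x ∈ A, x - p ≠ 0 := by
    intro x hx h0
    exact hpA ((sub_eq_zero.1 h0) ▸ hx)
  obtain ⟨H, hH, hH0, hHA⟩ := happ.ext hA.isClosed (fun x => ‖x - p‖⁻¹ • (x - p)) (by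
    apply ContinuousOn.smul
    · apply ContinuousOn.inv₀
      · fun_prop
      · intro x hx
        exact norm_ne_zero_iff.2 (hsub x hx)
    · fun_prop) (by
    intro x hx
    rw [norm_smul, norm_inv, norm_norm]
    exact inv_mul_cancel₀ (norm_ne_zero_iff.2 (hsub x hx)))
  obtain ⟨r, hr, hrW⟩ := Metric.isOpen_iff.1 hW p hp
  let ρ : E → ℝ := fun x => max ‖x - p‖ r
  have hρ0 : ∀ x, 0 < ρ x := fun x => lt_max_of_lt_right hr
  have hρc : Continuous ρ := by fun_prop
  have hρ : ∀ x, x ∉ W → ρ x = ‖x - p‖ := by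
    intro x hx
    apply max_eq_left
    by_contra h
    push Not at h
    apply hx
    apply hrW
    rw [mem_ball, dist_eq_norm]; exact h
  let Φ : E → E := W.piecewise (fun x => ρ x • H x) (fun x => x - p)
  have hΦ : Continuous Φ := by
    apply Continuous.piecewise
    · intro x hx
      have hxA := hWA hx
      have hxW : x ∉ W := fun h => Set.disjoint_left.1 hd h hxA
      rw [hHA x hxA, hρ x hxW, smul_smul, mul_inv_cancel₀ (norm_ne_zero_iff.2 (hsub x hxA)),
        one_smul]
    · exact hρc.smul hH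
    · fun_prop
  obtain ⟨R, hR⟩ := hWb.subset_ball p
  have hR0 : 0 < R := by
    have := hR hp
    simpa using this
  obtain ⟨x, hx⟩ := exists_zero_cont (fun x => Φ (x + p)) (hΦ.comp (by fun_prop)) R hR0 (by
    intro x hx
    have hxW : x + p ∉ W := by
      intro h
      have := hR h
      rw [mem_ball, dist_eq_norm, add_sub_cancel_right] at this
      linarith
    have h1 : Φ (x + p) = (x + p) - p := Set.piecewise_eq_of_notMem _ _ _ hxW
    show Φ (x + p) = x
    rw [h1, add_sub_cancel_right])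
  have hx' : W.piecewise (fun x => ρ x • H x) (fun x => x - p) (x + p) = 0 := hx
  by_cases hxW : x + p ∈ W
  · rw [Set.piecewise_eq_of_mem _ _ _ hxW] at hx'
    rcases smul_eq_zero.1 hx' with h | h
    · exact (hρ0 _).ne' h
    · exact hH0 _ h
  · rw [Set.piecewise_eq_of_notMem _ _ _ hxW, add_sub_cancel_right] at hx'
    rw [hx', zero_add] at hxW
    exact hxW hp

end Pool.Agent.CSLBT.Topo
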