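import Pool.Agent.CSLBT.TopRidge

/-!
# Connected simplicial manifolds are strongly connected
-/

set_option linter.unusedSectionVars false
set_option linter.unusedVariables false

open Metric Set Filter Topology Module
open scoped Topology ContDiff unitInterval

namespace Pool.Agent.CSLBT

variable {V : Type*} [Fintype V] [DecidableEq V] {n : ℕ} {K : AbstractSimplicialComplex V}

/-- the codimension two skeleton is thin -/
theorem thin_skel (hn : 1 ≤ n) :
    Topo.Thin n {α : V → ℝ | α ∈ realization K ∧ (sp α).card + 1 ≤ n} := by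
  classical
  let D : Finset V × V → (V → ℝ) × Submodule ℝ (V → ℝ) := fun p =>
    (Pi.single p.2 1, Submodule.span ℝ
      (((p.1.erase p.2).image (fun x => (Pi.single x 1 - Pi.single p.2 1 : V → ℝ)) :
        Finset (V → ℝ)) : Set (V → ℝ)))
  refine ⟨D '' {p | p.2 ∈ p.1 ∧ p.1.card + 1 ≤ n}, (Set.toFinite _).image _, ?_, ?_⟩
  · rintro _ ⟨⟨F, x0⟩, ⟨hx, hF⟩, rfl⟩
    have h1 : finrank ℝ (D (F, x0)).2 ≤ (F.erase x0).card :=
      (finrank_span_finset_le_card _).trans Finset.card_image_le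
    have h2 := Finset.card_erase_add_one hx
    simp only at hF hx h2
    omega
  · rintro α ⟨hα, hc⟩
    obtain ⟨x0, hx0⟩ := face_nonempty (sp_mem hα)
    refine ⟨D (sp α, x0), ⟨(sp α, x0), ⟨hx0, hc⟩, rfl⟩, ?_⟩
    have h1 : α - (Pi.single x0 1 : V → ℝ) =
        ∑ x ∈ (sp α).erase x0, α x • (Pi.single x 1 - Pi.single x0 1 : V → ℝ) := by
      have h2 : α = ∑ x ∈ sp α, α x • (Pi.single x 1 : V → ℝ) := by
        ext v
        rw [Finset.sum_apply]
        simp only [Pi.smul_apply, Pi.single_apply, smul_eq_mul, mul_ite, mul_one, mul_zero]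
        rw [Finset.sum_ite_eq]
        split_ifs with h
        · rfl
        · by_contra h'
          exact h (mem_sp.2 h')
      have h3 : ∑ x ∈ sp α, α x = 1 := by
        rw [← hα.2.1]
        apply Finset.sum_subset (Finset.subset_univ _)
        intro v _ hv
        by_contra h'
        exact hv (mem_sp.2 h')
      have h4 : ∑ x ∈ sp α, α x • (Pi.single x0 1 : V → ℝ) = Pi.single x0 1 := by
        rw [← Finset.sum_smul, h3, one_smul]
      have h5 : α - (Pi.single x0 1 : V → ℝ) =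
          ∑ x ∈ sp α, α x • (Pi.single x 1 - Pi.single x0 1 : V → ℝ) := by
        simp only [smul_sub, Finset.sum_sub_distrib]
        rw [h4, ← h2]
      rw [h5, ← Finset.add_sum_erase _ _ hx0, sub_self, smul_zero, zero_add]
    show α - (Pi.single x0 1 : V → ℝ) ∈ Submodule.span ℝ _
    rw [h1]
    apply Submodule.sum_mem
    intro x hx
    apply Submodule.smul_mem
    apply Submodule.subset_span
    rw [Finset.mem_coe]
    exact Finset.mem_image_of_mem _ hx

/-- the part of the realization above a family of facets, away from codimension two -/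
def above (K : AbstractSimplicialComplex V) (n : ℕ) (𝒟 : Finset (Finset V)) :
    Set (realization K) :=
  {α | n ≤ (sp α.1).card ∧ ∃ G ∈ 𝒟, sp α.1 ⊆ G}

lemma isOpen_above (hp : IsPure K (n + 1)) {𝒟 : Finset (Finset V)}
    (hadj : ∀ R : Finset V, R.card = n → ∀ G ∈ 𝒟, ∀ G' ∈ facets K (n + 1), R ⊆ G → R ⊆ G' →
      G' ∈ 𝒟) : IsOpen (above K n 𝒟) := by
  rw [isOpen_iff_mem_nhds]
  rintro α ⟨hα, G, hG, hαG⟩
  have hnb : (Subtype.val ⁻¹' {β : V → ℝ | ∀ v ∈ sp α.1, β v ≠ 0} : Set (realization K)) ∈ 𝓝 α := by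
    apply continuous_subtype_val.continuousAt
    apply IsOpen.mem_nhds
    · have : {β : V → ℝ | ∀ v ∈ sp α.1, β v ≠ 0} = ⋂ v ∈ sp α.1, {β : V → ℝ | β v ≠ 0} := by
        ext β; simp
      rw [this]
      apply isOpen_biInter_finset
      intro v _
      exact isOpen_ne_fun (continuous_apply v) continuous_const
    · intro v hv
      exact mem_sp.1 hv
  refine Filter.mem_of_superset hnb ?_
  intro β hβ
  have hsub : sp α.1 ⊆ sp β.1 := fun v hv => mem_sp.2 (hβ v hv)
  refine ⟨hα.trans (Finset.card_le_card hsub), ?_⟩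
  obtain ⟨G', hG', hβG'⟩ := (pure_mem hp (face_nonempty (sp_mem β.2))).1 (sp_mem β.2)
  obtain ⟨R, hR, hRc⟩ := Finset.exists_subset_card_eq hα
  exact ⟨G', hadj R hRc G hG G' hG' (hR.trans hαG) (hR.trans (hsub.trans hβG')), hβG'⟩

/-- every point over a facet of the family is a limit of points of `above` -/
lemma mem_closure_above {𝒟 : Finset (Finset V)} (h𝒟 : 𝒟 ⊆ facets K (n + 1))
    (α : realization K) {G : Finset V} (hG : G ∈ 𝒟) (hαG : sp α.1 ⊆ G) :
    α ∈ closure (above K n 𝒟) := by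
  obtain ⟨hGK, hGc⟩ := mem_facets.1 (h𝒟 hG)
  have hcard : (0:ℝ) < G.card := by
    exact_mod_cast Finset.card_pos.2 (face_nonempty hGK)
  rw [closure_subtype]
  let β : ℝ → V → ℝ := fun t v => (1 - t) * α.1 v + t * if v ∈ G then (G.card : ℝ)⁻¹ else 0
  have hβc : Continuous β := by
    apply continuous_pi
    intro v
    simp only [β]
    fun_prop
  have hβ0 : β 0 = α.1 := by
    ext v; simp [β]
  have htend : Tendsto β (𝓝[>] 0) (𝓝 α.1) := by
    rw [← hβ0]
    exact (hβc.continuousAt (x := 0)).tendsto.mono_left nhdsWithin_le_nhds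
  refine mem_closure_of_tendsto htend ?_
  have h1 : ∀ᶠ t in 𝓝[>] (0:ℝ), t ∈ Ioo (0:ℝ) 1 :=
    Ioo_mem_nhdsGT one_pos
  filter_upwards [h1] with t ht
  have hzero : ∀ v, v ∉ G → β t v = 0 := by
    intro v hv
    have : α.1 v = 0 := by
      by_contra h
      exact hv (hαG (mem_sp.2 h))
    simp [β, this, hv]
  have hpos : ∀ v, v ∈ G → 0 < β t v := by
    intro v hv
    have h2 := α.2.1 v
    have h3 : 0 < t * (G.card : ℝ)⁻¹ := mul_pos ht.1 (inv_pos.2 hcard)
    have h4 : 0 ≤ (1 - t) * α.1 v := mul_nonneg (by linarith [ht.2]) h2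
    simp only [β, if_pos hv]
    linarith
  have hmem : β t ∈ realization K := by
    refine ⟨fun v => ?_, ?_, G, hGK, hzero⟩
    · by_cases hv : v ∈ G
      · exact (hpos v hv).le
      · exact (hzero v hv).ge
    · simp only [β, Finset.sum_add_distrib, ← Finset.mul_sum]
      rw [α.2.2.1, Finset.sum_ite_mem, Finset.univ_inter, Finset.sum_const, nsmul_eq_mul,
        mul_inv_cancel₀ hcard.ne']
      ring
  have hsp : sp (β t) = G := by
    ext v
    rw [mem_sp]
    constructor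
    · intro h
      by_contra hv
      exact h (hzero v hv)
    · intro hv
      exact (hpos v hv).ne'
  refine ⟨⟨β t, hmem⟩, ⟨?_, G, hG, ?_⟩, rfl⟩
  · show n ≤ (sp (β t)).card
    rw [hsp, hGc]; omega
  · show sp (β t) ⊆ G
    rw [hsp]

/-- In a connected simplicial manifold a nonempty family of facets closed under adjacency contains
all facets. -/
theorem strong_of_charted (hconn : ConnectedSpace (realization K)) (hch : Charted K n)
    (hn : 1 ≤ n) {𝒞 : Finset (Finset V)} (h𝒞 : 𝒞 ⊆ facets K (n + 1)) (hne : 𝒞.Nonempty)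
    (hadj : ∀ R : Finset V, R.card = n → ∀ G ∈ 𝒞, ∀ G' ∈ facets K (n + 1), R ⊆ G → R ⊆ G' →
      G' ∈ 𝒞) : facets K (n + 1) ⊆ 𝒞 := by
  classical
  have hp := pure_of_charted hch
  by_contra hcon
  obtain ⟨G2, hG2, hG2'⟩ := Finset.not_subset.1 hcon
  obtain ⟨G1, hG1⟩ := hne
  set 𝒟 := facets K (n + 1) \ 𝒞 with h𝒟def
  have h𝒟 : 𝒟 ⊆ facets K (n + 1) := Finset.sdiff_subset
  have hadj' : ∀ R : Finset V, R.card = n → ∀ G ∈ 𝒟, ∀ G' ∈ facets K (n + 1), R ⊆ G → R ⊆ G' →
      G' ∈ 𝒟 := by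
    intro R hR G hG G' hG' h1 h2
    rw [h𝒟def, Finset.mem_sdiff] at hG ⊢
    refine ⟨hG', fun h => hG.2 ?_⟩
    exact hadj R hR G' h G hG.1 h2 h1
  have ho1 := isOpen_above hp hadj
  have ho2 := isOpen_above hp hadj'
  have hdis : Disjoint (above K n 𝒞) (above K n 𝒟) := by
    rw [Set.disjoint_left]
    rintro α ⟨hα, G, hG, hαG⟩ ⟨-, G', hG', hαG'⟩
    obtain ⟨R, hR, hRc⟩ := Finset.exists_subset_card_eq hα
    have h1 := hadj R hRc G hG G' (h𝒟 hG') (hR.trans hαG) (hR.trans hαG')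
    exact (Finset.mem_sdiff.1 hG').2 h1
  -- a common limit point
  have hcov : (univ : Set (realization K)) ⊆ closure (above K n 𝒞) ∪ closure (above K n 𝒟) := by
    intro α _
    obtain ⟨G, hG, hαG⟩ := (pure_mem hp (face_nonempty (sp_mem α.2))).1 (sp_mem α.2)
    by_cases hGC : G ∈ 𝒞
    · exact Or.inl (mem_closure_above h𝒞 α hGC hαG)
    · exact Or.inr (mem_closure_above h𝒟 α (Finset.mem_sdiff.2 ⟨hG, hGC⟩) hαG)
  have hex : ∀ 𝒟' : Finset (Finset V), 𝒟' ⊆ facets K (n + 1) → ∀ G ∈ 𝒟',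
      ((univ : Set (realization K)) ∩ closure (above K n 𝒟')).Nonempty := by
    intro 𝒟' h𝒟' G hG
    obtain ⟨hGK, hGc⟩ := mem_facets.1 (h𝒟' hG)
    obtain ⟨x0, hx0⟩ := face_nonempty hGK
    have hsp : sp (Pi.single x0 1 : V → ℝ) ⊆ G := by
      intro v hv
      rw [mem_sp, Pi.single_apply] at hv
      by_cases h : v = x0
      · rw [h]; exact hx0
      · simp [h] at hv
    have hmem : (Pi.single x0 1 : V → ℝ) ∈ realization K := by
      refine ⟨fun v => ?_, by simp, G, hGK, fun v hv => ?_⟩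
      · rw [Pi.single_apply]; split_ifs <;> norm_num
      · have hvx : v ≠ x0 := fun h => hv (h ▸ hx0)
        rw [Pi.single_apply, if_neg hvx]
    exact ⟨⟨_, hmem⟩, mem_univ _, mem_closure_above h𝒟' ⟨_, hmem⟩ hG hsp⟩
  obtain ⟨x, -, hx1, hx2⟩ := isPreconnected_closed_iff.1 (isPreconnected_univ)
    (closure (above K n 𝒞)) (closure (above K n 𝒟)) isClosed_closure isClosed_closure hcov
    (hex 𝒞 h𝒞 G1 hG1) (hex 𝒟 h𝒟 G2 (Finset.mem_sdiff.2 ⟨hG2, hG2'⟩))
  -- a chart around it
  obtain ⟨e, he⟩ := hch x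
  obtain ⟨r, hr, hre⟩ := Metric.isOpen_iff.1 e.open_target (e x) (e.map_source he)
  let Φ : OpenPartialHomeomorph (EuclideanSpace ℝ (Fin n)) (realization K) :=
    (OpenPartialHomeomorph.univBall (e x) r).trans e.symm
  have hΦs : Φ.source = univ := by
    rw [OpenPartialHomeomorph.trans_source, OpenPartialHomeomorph.univBall_source, univ_inter]
    apply Set.eq_univ_of_forall
    intro y
    apply hre
    rw [← OpenPartialHomeomorph.univBall_target (e x) hr]
    exact (OpenPartialHomeomorph.univBall (e x) r).map_source (by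
      rw [OpenPartialHomeomorph.univBall_source]; exact mem_univ _)
  have hΦc : Continuous Φ := by
    rw [← continuousOn_univ, ← hΦs]; exact Φ.continuousOn
  have hΦi : Function.Injective Φ := by
    rw [← injOn_univ, ← hΦs]; exact Φ.injOn
  have hxt : x ∈ Φ.target := by
    rw [OpenPartialHomeomorph.trans_target]
    refine ⟨?_, ?_⟩
    · simpa using he
    · show e x ∈ (OpenPartialHomeomorph.univBall (e x) r).target
      rw [OpenPartialHomeomorph.univBall_target _ hr]
      exact mem_ball_self hr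
  have hpull : ∀ 𝒟' : Finset (Finset V), x ∈ closure (above K n 𝒟') →
      (Φ ⁻¹' (above K n 𝒟')).Nonempty := by
    intro 𝒟' hx
    obtain ⟨y, hy1, hy2⟩ := mem_closure_iff_nhds.1 hx _ (Φ.open_target.mem_nhds hxt)
    refine ⟨Φ.symm y, ?_⟩
    rw [Set.mem_preimage, Φ.right_inv hy1]; exact hy2
  refine Topo.nonsep (E := EuclideanSpace ℝ (Fin n))
    (T := {α : V → ℝ | α ∈ realization K ∧ (sp α).card + 1 ≤ n})
    (by rw [finrank_euclideanSpace, Fintype.card_fin]; exact thin_skel hn)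
    (ho1.preimage hΦc) (ho2.preimage hΦc)
    (hdis.preimage _) (hpull 𝒞 hx1) (hpull 𝒟 hx2)
    (fun y => (Φ y : V → ℝ)) (continuous_subtype_val.comp hΦc).continuousOn
    (fun u _ v _ huv => hΦi (Subtype.ext huv)) ?_
  intro y hy
  refine ⟨(Φ y).2, ?_⟩
  by_contra hlt
  have hle : n ≤ (sp (Φ y).1).card := by
    have : ¬ ((sp (Φ y).1).card + 1 ≤ n) := hlt
    omega
  apply hy
  obtain ⟨G, hG, hαG⟩ := (pure_mem hp (face_nonempty (sp_mem (Φ y).2))).1 (sp_mem (Φ y).2)
  by_cases hGC : G ∈ 𝒞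
  · exact Or.inl ⟨hle, G, hGC, hαG⟩
  · exact Or.inr ⟨hle, G, Finset.mem_sdiff.2 ⟨hG, hGC⟩, hαG⟩

end Pool.Agent.CSLBT
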