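import Pool.Agent.CSLBT.TopSep

/-!
# Thin sets have the approximation property, and do not separate locally
-/

set_option linter.unusedSectionVars false
set_option linter.unusedVariables false

open Metric Set Filter Topology Module
open scoped Topology ContDiff unitInterval

namespace Pool.Agent.CSLBT.Topo

variable {E : Type*} [NormedAddCommGroup E] [InnerProductSpace ℝ E] [FiniteDimensional ℝ E]
variable {V : Type*} [Fintype V]

/-- `T` is contained in finitely many affine subspaces of dimension less than `n - 1`. -/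
def Thin (n : ℕ) (T : Set (V → ℝ)) : Prop :=
  ∃ S : Set ((V → ℝ) × Submodule ℝ (V → ℝ)), S.Finite ∧
    (∀ p ∈ S, finrank ℝ p.2 + 1 < n) ∧ ∀ α ∈ T, ∃ p ∈ S, α - p.1 ∈ p.2

/-- the cone over the image of a thin set under a smooth map has dense complement -/
theorem Thin.cone {T : Set (V → ℝ)} (hT : Thin (finrank ℝ E) T) (hE : 0 < finrank ℝ E)
    (P : (V → ℝ) → E) (hP : ContDiff ℝ 1 P) : Dense {c : E | ∃ α ∈ T, ∃ t : ℝ, c = t • P α}ᶜ := by
  obtain ⟨S, hSf, hSd, hST⟩ := hT
  let Q : (p : (V → ℝ) × Submodule ℝ (V → ℝ)) → ℝ × p.2 → E :=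
    fun p tm => tm.1 • P (p.1 + (tm.2 : V → ℝ))
  have hQ : ∀ p, ContDiff ℝ 1 (Q p) := by
    intro p
    apply ContDiff.smul contDiff_fst
    apply hP.comp
    apply contDiff_const.add
    exact (p.2.subtypeL.contDiff).comp contDiff_snd
  have hdim : dimH (⋃ p ∈ S, range (Q p)) < finrank ℝ E := by
    rw [dimH_bUnion hSf.countable]
    have h1 : (⨆ p ∈ S, dimH (range (Q p))) ≤ ((finrank ℝ E - 1 : ℕ) : ENNReal) := by
      apply iSup₂_le
      intro p hp
      refine (hQ p).dimH_range_le.trans ?_
      rw [Module.finrank_prod, Module.finrank_self]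
      have := hSd p hp
      exact_mod_cast (by omega : 1 + finrank ℝ p.2 ≤ finrank ℝ E - 1)
    refine h1.trans_lt ?_
    exact_mod_cast (by omega : finrank ℝ E - 1 < finrank ℝ E)
  refine (dense_compl_of_dimH_lt_finrank hdim).mono ?_
  rw [Set.compl_subset_compl]
  rintro c ⟨α, hα, t, rfl⟩
  obtain ⟨p, hp, hαp⟩ := hST α hα
  simp only [Set.mem_iUnion]
  refine ⟨p, hp, (t, ⟨α - p.1, hαp⟩), ?_⟩
  show t • P (p.1 + (α - p.1)) = t • P α
  rw [add_sub_cancel]

theorem approx_thin {T : Set (V → ℝ)} (hT : Thin (finrank ℝ E) T) {A : Set E}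
    (hA : IsCompact A) {z : E} (hz : z ∈ A) (j : E → (V → ℝ))
    (hjc : ContinuousOn j (A \ {z})) (hji : InjOn j (A \ {z})) (hjT : MapsTo j (A \ {z}) T) :
    Approx A := by
  classical
  intro f hf hf1
  obtain ⟨δ, hδ, hδf⟩ := Metric.continuousOn_iff.1 hf z hz (1/8) (by norm_num)
  obtain ⟨r, hr, hrδ⟩ : ∃ r : ℝ, 0 < r ∧ 2 * r = δ := ⟨δ / 2, by positivity, by ring⟩
  have hE : 0 < finrank ℝ E := by
    rw [Module.finrank_pos_iff]
    refine ⟨f z, 0, ?_⟩
    intro h
    have := hf1 z hz
    rw [h, norm_zero] at this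
    norm_num at this
  let B := A \ ball z r
  have hB : IsCompact B := hA.diff isOpen_ball
  have hBA : B ⊆ A \ {z} := by
    rintro x ⟨hx, hxr⟩
    refine ⟨hx, ?_⟩
    rintro rfl
    exact hxr (mem_ball_self hr)
  have hcomp : CompactSpace B := isCompact_iff_compactSpace.1 hB
  have hjBc : Continuous (B.domRestrict j) := (hjc.mono hBA).domRestrict
  have hjB : IsClosedEmbedding (B.domRestrict j) :=
    hjBc.isClosedEmbedding (injOn_iff_injective.1 (hji.mono hBA))
  have hfB : Continuous (B.domRestrict f) := (hf.mono (hBA.trans diff_subset)).domRestrict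
  obtain ⟨F, hF⟩ := ContinuousMap.exists_extension' (Y := E) hjB ⟨B.domRestrict f, hfB⟩
  have hF' : ∀ x ∈ B, F (j x) = f x := fun x hx => congrFun hF ⟨x, hx⟩
  obtain ⟨P, hP, hPF, -⟩ := F.continuous.exists_contDiff_approx (ε := fun _ => 1/8) 1
    continuous_const (fun _ => by norm_num)
  obtain ⟨J, hJ⟩ := ContinuousMap.exists_restrict_eq (Y := V → ℝ) hB.isClosed
    ⟨B.domRestrict j, hjBc⟩
  have hJ' : ∀ x ∈ B, J x = j x := fun x hx => congrArg (fun k => k ⟨x, hx⟩) hJ
  let χ : E → ℝ := fun x => max 0 (min 1 ((dist x z - r) / r))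
  have hχc : Continuous χ := by fun_prop
  have hχ0 : ∀ x, 0 ≤ χ x := fun x => le_max_left _ _
  have hχ1 : ∀ x, χ x ≤ 1 := fun x => max_le zero_le_one (min_le_left _ _)
  have hχin : ∀ x, dist x z < r → χ x = 0 := by
    intro x hx
    apply max_eq_left
    refine (min_le_right _ _).trans ?_
    apply div_nonpos_of_nonpos_of_nonneg _ hr.le
    linarith
  have hχout : ∀ x, 2 * r ≤ dist x z → χ x = 1 := by
    intro x hx
    have h1 : 1 ≤ (dist x z - r) / r := by
      rw [le_div_iff₀ hr]; linarith
    show max 0 (min 1 ((dist x z - r) / r)) = 1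
    rw [min_eq_left h1, max_eq_right zero_le_one]
  let g : E → E := fun x => χ x • P (J x) + (1 - χ x) • f z
  have hPJ : Continuous (fun x => P (J x)) := (hP.continuous).comp J.continuous
  have hg : Continuous g := by fun_prop
  have hPf : ∀ x ∈ B, ‖P (J x) - f x‖ < 1/8 := by
    intro x hx
    rw [hJ' x hx, ← hF' x hx, ← dist_eq_norm]
    exact hPF _
  have hgf : ∀ x ∈ A, ‖g x - f x‖ < 1/8 := by
    intro x hx
    rcases lt_or_ge (dist x z) r with h1 | h1
    · have : g x = f z := by
        show χ x • P (J x) + (1 - χ x) • f z = f z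
        rw [hχin x h1, zero_smul, zero_add, sub_zero, one_smul]
      rw [this, ← dist_eq_norm, dist_comm]
      exact hδf x hx (by linarith)
    · have hxB : x ∈ B := ⟨hx, by rw [mem_ball]; exact not_lt.2 h1⟩
      have h3 := hPf x hxB
      rcases lt_or_ge (dist x z) (2 * r) with h2 | h2
      · have h4 : ‖f z - f x‖ < 1/8 := by
          rw [← dist_eq_norm, dist_comm]
          exact hδf x hx (by linarith)
        have h5 : g x - f x = χ x • (P (J x) - f x) + (1 - χ x) • (f z - f x) := by
          show χ x • P (J x) + (1 - χ x) • f z - f x = _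
          module
        rw [h5]
        refine (norm_add_le _ _).trans_lt ?_
        rw [norm_smul, norm_smul, Real.norm_eq_abs, Real.norm_eq_abs, abs_of_nonneg (hχ0 x),
          abs_of_nonneg (by linarith [hχ1 x] : (0:ℝ) ≤ 1 - χ x)]
        have h6 := hχ0 x
        have h7 := hχ1 x
        have h8 : χ x * ‖P (J x) - f x‖ ≤ χ x * max ‖P (J x) - f x‖ ‖f z - f x‖ :=
          mul_le_mul_of_nonneg_left (le_max_left _ _) h6
        have h9 : (1 - χ x) * ‖f z - f x‖ ≤ (1 - χ x) * max ‖P (J x) - f x‖ ‖f z - f x‖ :=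
          mul_le_mul_of_nonneg_left (le_max_right _ _) (by linarith)
        have h10 : max ‖P (J x) - f x‖ ‖f z - f x‖ < 1/8 := max_lt h3 h4
        linarith
      · have : g x = P (J x) := by
          show χ x • P (J x) + (1 - χ x) • f z = P (J x)
          rw [hχout x h2, one_smul, sub_self, zero_smul, add_zero]
        rw [this]; exact h3
  refine ⟨g, hg, fun x hx => (hgf x hx).trans (by norm_num), ?_⟩
  have hopen : IsOpen {c : E | inner ℝ c (f z) < 0} := by
    apply isOpen_lt
    · fun_prop
    · exact continuous_const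
  obtain ⟨c, hc1, hc2⟩ := (hT.cone hE P hP).inter_open_nonempty _ hopen ⟨-f z, by
    show inner ℝ (-f z) (f z) < 0
    rw [inner_neg_left, real_inner_self_eq_norm_sq, hf1 z hz]; norm_num⟩
  have hc1' : inner ℝ c (f z) < 0 := hc1
  refine ⟨c, ?_, ?_⟩
  · rintro rfl
    rw [inner_zero_left] at hc1'
    exact lt_irrefl _ hc1'
  · intro x hx t ht hgt
    rcases lt_or_ge (dist x z) (2 * r) with h2 | h2
    · have h4 : ‖f x - f z‖ < 1/8 := by
        rw [← dist_eq_norm]
        exact hδf x hx (by linarith)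
      have h5 : ‖g x - f z‖ < 1/4 := by
        have : g x - f z = (g x - f x) + (f x - f z) := by abel
        rw [this]
        refine (norm_add_le _ _).trans_lt ?_
        have := hgf x hx
        linarith
      have h6 : inner ℝ (g x) (f z) = 1 + inner ℝ (g x - f z) (f z) := by
        rw [inner_sub_left, real_inner_self_eq_norm_sq, hf1 z hz]; ring
      have h7 : |inner ℝ (g x - f z) (f z)| ≤ ‖g x - f z‖ * ‖f z‖ := abs_real_inner_le_norm _ _
      rw [hf1 z hz, mul_one] at h7
      have h8 := (abs_le.1 h7).1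
      have h9 : inner ℝ (g x) (f z) = t * inner ℝ c (f z) := by
        rw [hgt, real_inner_smul_left]
      have h10 : t * inner ℝ c (f z) ≤ 0 := mul_nonpos_of_nonneg_of_nonpos ht hc1'.le
      linarith
    · have hxB : x ∈ B := ⟨hx, by rw [mem_ball]; exact not_lt.2 (by linarith)⟩
      have hgx : g x = P (J x) := by
        show χ x • P (J x) + (1 - χ x) • f z = P (J x)
        rw [hχout x h2, one_smul, sub_self, zero_smul, add_zero]
      have ht0 : t ≠ 0 := by
        rintro rfl
        rw [zero_smul] at hgt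
        have := hgf x hx
        rw [hgt, zero_sub, norm_neg, hf1 x hx] at this
        norm_num at this
      apply hc2
      refine ⟨j x, hjT (hBA hxB), t⁻¹, ?_⟩
      rw [← hJ' x hxB, ← hgx, hgt, smul_smul, inv_mul_cancel₀ ht0, one_smul]

end Pool.Agent.CSLBT.Topo
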