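import Mathlib
import Pool.Agent.Helper206.BoxS.Brouwer
import Pool.Agent.Helper206.BoxS.IoD

/-!
# Consequences of Brouwer's theorem and of invariance of domain
-/

set_option linter.unusedSectionVars false
set_option linter.unusedVariables false

open Metric Set Filter Topology Module
open scoped Topology ContDiff

namespace Pool.Agent.CSLBT.Topo

variable {E : Type*} [NormedAddCommGroup E] [InnerProductSpace ℝ E] [FiniteDimensional ℝ E]
variable {F : Type*} [NormedAddCommGroup F] [InnerProductSpace ℝ F] [FiniteDimensional ℝ F]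

/-- A continuous self-map of `E` equal to the identity outside a ball has a zero. -/
theorem exists_zero_cont (F : E → E) (hF : Continuous F) (R : ℝ) (hR : 0 < R)
    (hid : ∀ x, R ≤ ‖x‖ → F x = x) : ∃ x, F x = 0 := by
  by_contra hno
  push Not at hno
  obtain ⟨m, hm0, hm⟩ : ∃ m : ℝ, 0 < m ∧ ∀ x ∈ closedBall (0:E) R, m ≤ ‖F x‖ := by
    obtain ⟨x0, hx0, hmin⟩ := (isCompact_closedBall (0:E) R).exists_isMinOn
      ⟨0, by simp [hR.le]⟩ hF.norm.continuousOn
    exact ⟨‖F x0‖, norm_pos_iff.2 (hno x0), fun x hx => hmin hx⟩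
  let G : E → E := fun x => F x - x
  have hGc : Continuous G := hF.sub continuous_id
  obtain ⟨g, hgs, hgd, hgsupp⟩ := hGc.exists_contDiff_approx (ε := fun _ => m) 1
    continuous_const (fun _ => hm0)
  have hg0 : ∀ x, R ≤ ‖x‖ → g x = 0 := by
    intro x hx
    by_contra hne
    have : x ∈ Function.support G := hgsupp hne
    apply this
    show F x - x = 0
    rw [hid x hx, sub_self]
  obtain ⟨x, hx⟩ := Helper206.BoxS.Brouwer.exists_zero_of_C1 (fun x => x + g x)
    (contDiff_id.add (by simpa using hgs)) R hR (by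
      intro x hx
      simp [hg0 x hx.ge])
  have hx' : x + g x = 0 := hx
  by_cases hx2 : ‖x‖ < R
  · have h1 := hm x (by simpa using hx2.le)
    have h3 := hgd x
    rw [dist_eq_norm] at h3
    have h4 : g x - G x = -F x := by
      show g x - (F x - x) = - F x
      have : g x = - x := eq_neg_of_add_eq_zero_right hx'
      rw [this]; abel
    rw [h4, norm_neg] at h3
    linarith
  · push Not at hx2
    rw [hg0 x hx2, add_zero] at hx'
    rw [hx', norm_zero] at hx2
    linarith

/-- Invariance of domain between spaces of equal dimension. -/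
theorem iod (h : finrank ℝ E = finrank ℝ F) (f : E → F) (x0 : E) (r : ℝ) (hr : 0 < r)
    (hc : ContinuousOn f (closedBall x0 r)) (hi : InjOn f (closedBall x0 r)) :
    f '' closedBall x0 r ∈ 𝓝 (f x0) := by
  let L : F ≃L[ℝ] E := ContinuousLinearEquiv.ofFinrankEq h.symm
  have h1 := Helper206.BoxS.IoD.image_mem_nhds (fun x => L (f x)) x0 r hr
    (L.continuous.comp_continuousOn hc) (fun x hx y hy hxy => hi hx hy (L.injective hxy))
  have h2 : L ⁻¹' ((fun x => L (f x)) '' closedBall x0 r) ∈ 𝓝 (f x0) :=
    L.continuous.continuousAt h1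
  refine Filter.mem_of_superset h2 ?_
  rintro y ⟨x, hx, hxy⟩
  exact ⟨x, hx, L.injective hxy⟩

/-- There is no continuous injection from a nonempty open set into a space of smaller
dimension. -/
theorem no_inj (h : finrank ℝ F < finrank ℝ E) (U : Set E) (hU : IsOpen U) (hne : U.Nonempty)
    (f : E → F) (hc : ContinuousOn f U) (hi : InjOn f U) : False := by
  obtain ⟨x, hx⟩ := hne
  obtain ⟨r, hr, hrU⟩ := Metric.nhds_basis_closedBall.mem_iff.1 (hU.mem_nhds hx)
  -- a linear injection
  have hinj : ∃ L : F →ₗ[ℝ] E, Function.Injective L := by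
    let b := finBasis ℝ F
    let c := finBasis ℝ E
    let i : Fin (finrank ℝ F) → Fin (finrank ℝ E) := Fin.castLE h.le
    refine ⟨b.constr ℝ (fun k => c (i k)), ?_⟩
    exact b.injective_constr_of_linearIndependent
      (c.linearIndependent.comp _ (Fin.castLE_injective h.le))
  obtain ⟨L, hL⟩ := hinj
  have hLc : Continuous L := L.continuous_of_finiteDimensional
  have h1 := Helper206.BoxS.IoD.image_mem_nhds (fun x => L (f x)) x r hr
    (hLc.comp_continuousOn (hc.mono hrU)) (fun x hx y hy hxy => hi (hrU hx) (hrU hy) (hL hxy))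
  have h2 : ((LinearMap.range L : Submodule ℝ E) : Set E) ∈ 𝓝 (L (f x)) := by
    refine Filter.mem_of_superset h1 ?_
    rintro _ ⟨y, -, rfl⟩
    exact ⟨f y, rfl⟩
  have h3 : LinearMap.range L = ⊤ :=
    Submodule.eq_top_of_nonempty_interior' _ ⟨_, mem_interior_iff_mem_nhds.2 h2⟩
  have h4 := LinearMap.finrank_range_le L
  rw [h3, finrank_top] at h4
  omega

end Pool.Agent.CSLBT.Topo
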